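import Mathlib

/-!
# A function which takes every value finitely often near a puncture
-/

open Complex Metric Set Topology Filter

namespace Pool.Agent.H92.GGL

lemma isPreconnected_punctured (R : ℝ) : IsPreconnected {z : ℂ | 0 < ‖z‖ ∧ ‖z‖ < R} := by
  rcases le_or_gt R 0 with hR | hR
  · have : {z : ℂ | 0 < ‖z‖ ∧ ‖z‖ < R} = ∅ := by
      ext z
      simp only [mem_ofPred_eq, mem_empty_iff_false, iff_false, not_and, not_lt]
      intro h
      linarith
    rw [this]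
    exact isPreconnected_empty
  · have h1 : {z : ℂ | 0 < ‖z‖ ∧ ‖z‖ < R} = exp '' {τ : ℂ | τ.re < Real.log R} := by
      ext z
      constructor
      · rintro ⟨h1, h2⟩
        refine ⟨log z, ?_, exp_log (norm_pos_iff.mp h1)⟩
        rw [mem_ofPred_eq, log_re]
        exact Real.log_lt_log h1 h2
      · rintro ⟨τ, hτ, rfl⟩
        rw [mem_ofPred_eq, norm_exp]
        refine ⟨Real.exp_pos _, ?_⟩
        rw [← Real.exp_log hR]
        exact Real.exp_lt_exp.mpr hτ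
    rw [h1]
    exact ((convex_halfSpace_re_lt _).isPreconnected).image _ continuous_exp.continuousOn

lemma isOpen_punctured (R : ℝ) : IsOpen {z : ℂ | 0 < ‖z‖ ∧ ‖z‖ < R} :=
  (isOpen_lt continuous_const continuous_norm).inter (isOpen_lt continuous_norm continuous_const)

lemma punctured_mem {R : ℝ} (hR : 0 < R) : {z : ℂ | 0 < ‖z‖ ∧ ‖z‖ < R} ∈ 𝓝[≠] (0 : ℂ) := by
  have h1 : Metric.ball (0 : ℂ) R ∈ 𝓝 (0 : ℂ) := Metric.ball_mem_nhds _ hR
  filter_upwards [mem_nhdsWithin_of_mem_nhds h1, self_mem_nhdsWithin] with z h2 h3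
  exact ⟨norm_pos_iff.mpr h3, by simpa using h2⟩

/-- A bounded holomorphic function on a punctured disc is meromorphic at the puncture. -/
lemma meromorphicAt_of_bounded {u : ℂ → ℂ} {ε M : ℝ} (hε : 0 < ε)
    (hu : ∀ z, 0 < ‖z‖ → ‖z‖ < ε → AnalyticAt ℂ u z) (hM : ∀ z, 0 < ‖z‖ → ‖z‖ < ε → ‖u z‖ ≤ M) :
    ∃ w : ℂ → ℂ, AnalyticAt ℂ w 0 ∧ ∀ z, z ≠ 0 → w z = u z := by
  have h1 : Metric.ball (0 : ℂ) ε ∈ 𝓝 (0 : ℂ) := Metric.ball_mem_nhds _ hε
  have hmem : ∀ z ∈ Metric.ball (0 : ℂ) ε \ {0}, 0 < ‖z‖ ∧ ‖z‖ < ε := by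
    intro z hz
    refine ⟨norm_pos_iff.mpr hz.2, by simpa using hz.1⟩
  have h2 := differentiableOn_update_limUnder_of_bddAbove h1 (f := u)
    (fun z hz => (hu z (hmem z hz).1 (hmem z hz).2).differentiableAt.differentiableWithinAt) (by
      refine ⟨M, ?_⟩
      rintro _ ⟨z, hz, rfl⟩
      exact hM z (hmem z hz).1 (hmem z hz).2)
  refine ⟨_, (h2.analyticAt h1), fun z hz => ?_⟩
  rw [Function.update_of_ne hz]

/-- **A theorem of Casorati–Weierstrass type.** -/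
theorem meromorphicAt_of_omits {u : ℂ → ℂ} {ε : ℝ} (hε : 0 < ε)
    (hu : ∀ z, 0 < ‖z‖ → ‖z‖ < ε → AnalyticAt ℂ u z)
    (hom : ∀ c, ∃ δ : ℝ, 0 < δ ∧ ∀ z, 0 < ‖z‖ → ‖z‖ < δ → u z ≠ c) : MeromorphicAt u 0 := by
  set A : ℕ → Set ℂ := fun n => {z : ℂ | 0 < ‖z‖ ∧ ‖z‖ < ε / (n + 1)} with hA
  have hεn : ∀ n : ℕ, 0 < ε / (n + 1) := fun n => by positivity
  have hεle : ∀ n : ℕ, ε / (n + 1) ≤ ε := fun n => by
    apply div_le_self hε.le
    have : (0 : ℝ) ≤ n := Nat.cast_nonneg n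
    linarith
  have hAsub : ∀ n, ∀ z ∈ A n, 0 < ‖z‖ ∧ ‖z‖ < ε := fun n z hz =>
    ⟨hz.1, hz.2.trans_le (hεle n)⟩
  by_cases hdense : ∀ n, Dense (u '' A n)
  · exfalso
    have hopen : ∀ n, IsOpen (u '' A n) := by
      intro n
      have han : AnalyticOnNhd ℂ u (A n) := fun z hz => hu z (hAsub n z hz).1 (hAsub n z hz).2
      rcases han.is_constant_or_isOpen (isPreconnected_punctured _) with ⟨w, hw⟩ | hop
      · exfalso
        obtain ⟨δ, hδ, hδu⟩ := hom w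
        obtain ⟨z, hz1, hz2⟩ := Filter.nonempty_of_mem
          (Filter.inter_mem (punctured_mem (hεn n)) (punctured_mem hδ))
        exact hδu z hz2.1 hz2.2 (hw z hz1)
      · exact hop _ subset_rfl (isOpen_punctured _)
    have hD : Dense (⋂ n, u '' A n) := dense_iInter_of_isOpen hopen hdense
    obtain ⟨c, hc⟩ := hD.nonempty
    rw [mem_iInter] at hc
    obtain ⟨δ, hδ, hδu⟩ := hom c
    obtain ⟨n, hn⟩ := exists_nat_gt (ε / δ)
    obtain ⟨z, hz, hzc⟩ := hc n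
    refine hδu z hz.1 (hz.2.trans ?_) hzc
    rw [div_lt_iff₀ (by positivity)]
    rw [div_lt_iff₀ hδ] at hn
    nlinarith
  · push Not at hdense
    obtain ⟨n, hn⟩ := hdense
    obtain ⟨c, hc⟩ : ∃ c, c ∉ closure (u '' A n) := by
      by_contra h
      push Not at h
      exact hn h
    rw [Metric.mem_closure_iff] at hc
    push Not at hc
    obtain ⟨η, hη, hηu⟩ := hc
    have hlow : ∀ z, 0 < ‖z‖ → ‖z‖ < ε / (n + 1) → η ≤ ‖u z - c‖ := by
      intro z h1 h2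
      have := hηu _ ⟨z, ⟨h1, h2⟩, rfl⟩
      rwa [dist_comm, dist_eq_norm] at this
    have hne : ∀ z, 0 < ‖z‖ → ‖z‖ < ε / (n + 1) → u z - c ≠ 0 := by
      intro z h1 h2 h0
      have := hlow z h1 h2
      rw [h0, norm_zero] at this
      linarith
    obtain ⟨w, hw, hwu⟩ := meromorphicAt_of_bounded (u := fun z => (u z - c)⁻¹) (M := η⁻¹) (hεn n)
      (fun z h1 h2 => ((hu z h1 (h2.trans_le (hεle n))).sub analyticAt_const).inv (hne z h1 h2))
      (fun z h1 h2 => by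
        rw [norm_inv]
        exact inv_anti₀ hη (hlow z h1 h2))
    have h1 : MeromorphicAt (fun z => (w z)⁻¹ + c) 0 :=
      (hw.meromorphicAt.inv).add (MeromorphicAt.const c 0)
    refine h1.congr ?_
    filter_upwards [self_mem_nhdsWithin] with z hz
    rw [hwu z hz]
    simp

end Pool.Agent.H92.GGL
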