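import Pool.Agent.H92.GGL.AnnJensen
import Pool.Agent.H92.GGL.CasWei

/-!
# A meromorphic function on a punctured disc with characteristic `O (log (1 / r))`
-/

open Complex MeasureTheory Metric Set Topology Filter

namespace Pool.Agent.H92.GGL

/-- A set of points of a punctured disc with small counting function is finite. -/
lemma finite_of_count {P : Set ℂ} {R₁ C D : ℝ} (hR₁ : 0 < R₁) (hP : ∀ s ∈ P, 0 < ‖s‖)
    (h : ∀ r, 0 < r → r < R₁ → ∀ S : Finset ℂ, (∀ s ∈ S, s ∈ P) →
      ∑ s ∈ S, Real.posLog (‖s‖ / r) ≤ C - D * Real.log r) : P.Finite := by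
  by_contra hinf
  obtain ⟨n₀, hn₀⟩ := exists_nat_gt D
  obtain ⟨S, hSP, hScard⟩ := (Set.not_finite.mp hinf).exists_subset_card_eq (n₀ + 1)
  have hSne : S.Nonempty := by
    rw [← Finset.card_pos, hScard]
    omega
  obtain ⟨s₀, hs₀, hmin⟩ := S.exists_min_image (fun s => ‖s‖) hSne
  set δ := ‖s₀‖ with hδ
  have hδ0 : 0 < δ := hP s₀ (hSP hs₀)
  set n : ℝ := ((n₀ + 1 : ℕ) : ℝ) with hn
  have hnD : 1 < n - D := by
    rw [hn]
    push_cast
    linarith
  have hnpos : 0 ≤ n := Nat.cast_nonneg _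
  set t : ℝ := max (1 + max (-Real.log δ) (-Real.log R₁)) (|C - n * Real.log δ| + 1) with ht
  have ht1 : -Real.log δ < t := by
    have h1 := le_max_left (1 + max (-Real.log δ) (-Real.log R₁)) (|C - n * Real.log δ| + 1)
    have h2 := le_max_left (-Real.log δ) (-Real.log R₁)
    linarith
  have ht2 : -Real.log R₁ < t := by
    have h1 := le_max_left (1 + max (-Real.log δ) (-Real.log R₁)) (|C - n * Real.log δ| + 1)
    have h2 := le_max_right (-Real.log δ) (-Real.log R₁)
    linarith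
  have ht3 : |C - n * Real.log δ| + 1 ≤ t := le_max_right _ _
  have hr1 : Real.exp (-t) < R₁ := by
    rw [← Real.exp_log hR₁]
    exact Real.exp_lt_exp.mpr (by linarith)
  have hr2 : Real.exp (-t) < δ := by
    rw [← Real.exp_log hδ0]
    exact Real.exp_lt_exp.mpr (by linarith)
  have h1 := h _ (Real.exp_pos (-t)) hr1 S (fun s hs => hSP hs)
  rw [Real.log_exp] at h1
  have h2 : n * (Real.log δ + t) ≤ ∑ s ∈ S, Real.posLog (‖s‖ / Real.exp (-t)) := by
    have h3 : ∑ _s ∈ S, (Real.log δ + t) = n * (Real.log δ + t) := by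
      rw [Finset.sum_const, hScard, nsmul_eq_mul]
    rw [← h3]
    refine Finset.sum_le_sum fun s hs => ?_
    have h4 : δ ≤ ‖s‖ := hmin s hs
    have h5 : Real.log δ + t = Real.log (δ / Real.exp (-t)) := by
      rw [Real.log_div hδ0.ne' (Real.exp_pos _).ne', Real.log_exp]
      ring
    rw [h5]
    refine le_trans ?_ (le_max_right _ _)
    refine Real.log_le_log (by positivity) ?_
    gcongr
  have h6 : (n - D) * t ≤ C - n * Real.log δ := by linarith
  have h7 : t ≤ (n - D) * t := by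
    have : 0 ≤ t := by
      have := abs_nonneg (C - n * Real.log δ)
      linarith
    nlinarith
  have h8 := le_abs_self (C - n * Real.log δ)
  linarith

lemma exists_radius {P : Set ℂ} (hP : P.Finite) (h0 : ∀ s ∈ P, 0 < ‖s‖) :
    ∃ ε : ℝ, 0 < ε ∧ ∀ s ∈ P, ε ≤ ‖s‖ := by
  rcases hP.toFinset.eq_empty_or_nonempty with h | h
  · refine ⟨1, one_pos, fun s hs => ?_⟩
    have : s ∈ hP.toFinset := hP.mem_toFinset.mpr hs
    rw [h] at this
    exact absurd this (Finset.notMem_empty s)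
  · obtain ⟨s₀, hs₀, hmin⟩ := hP.toFinset.exists_min_image (fun s => ‖s‖) h
    exact ⟨‖s₀‖, h0 s₀ (hP.mem_toFinset.mp hs₀), fun s hs => hmin s (hP.mem_toFinset.mpr hs)⟩

/-- The order of the difference with a constant. -/
lemma neg_ordZ_sub_const_le {u : ℂ → ℂ} {s c : ℂ} (hu : MeromorphicAt u s)
    (ho : meromorphicOrderAt u s ≠ ⊤) (hc : meromorphicOrderAt (fun z => u z - c) s ≠ ⊤) :
    max (-(ordZ (fun z => u z - c) s : ℝ)) 0 ≤ max (-(ordZ u s : ℝ)) 0 := by
  have h1 : min (meromorphicOrderAt u s) (meromorphicOrderAt (fun _ : ℂ => -c) s) ≤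
      meromorphicOrderAt (fun z => u z - c) s := by
    have h2 := meromorphicOrderAt_add hu (MeromorphicAt.const (-c) s)
    have h3 : (u + fun _ : ℂ => -c) = fun z => u z - c := by
      funext z
      simp [sub_eq_add_neg]
    rwa [h3] at h2
  have h4 : (0 : WithTop ℤ) ≤ meromorphicOrderAt (fun _ : ℂ => -c) s :=
    (analyticAt_const).meromorphicOrderAt_nonneg
  have h5 : min (ordZ u s) 0 ≤ ordZ (fun z => u z - c) s := by
    have h6 : min (meromorphicOrderAt u s) 0 ≤ meromorphicOrderAt (fun z => u z - c) s :=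
      (min_le_min_left _ h4).trans h1
    rw [← ordZ_cast ho, ← ordZ_cast hc] at h6
    exact_mod_cast h6
  have h7 : (min (ordZ u s : ℝ) 0) ≤ ordZ (fun z => u z - c) s := by exact_mod_cast h5
  refine max_le ?_ (le_max_right _ _)
  rcases le_total (ordZ u s : ℝ) 0 with h8 | h8
  · rw [min_eq_left h8] at h7
    exact le_trans (by linarith) (le_max_left _ _)
  · rw [min_eq_right h8] at h7
    exact le_trans (by linarith) (le_max_right _ _)

/-- **Small characteristic implies polynomial growth at the puncture.** -/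
theorem growth_of_char {u : ℂ → ℂ} {R₀ R₁ : ℝ} (hR₁0 : 0 < R₁) (hR₁ : R₁ < R₀)
    (hu : ∀ z, 0 < ‖z‖ → ‖z‖ < R₀ → MeromorphicAt u z) {C D : ℝ}
    (hT : ∀ r, 0 < r → r < R₁ → ∀ S : Finset ℂ, (∀ s ∈ S, 0 < ‖s‖ ∧ ‖s‖ < R₁) →
      Real.circleAverage (fun z => Real.posLog ‖u z‖) 0 r +
        ∑ s ∈ S, max (-(ordZ u s : ℝ)) 0 * Real.posLog (‖s‖ / r) ≤ C - D * Real.log r) :
    ∃ (ε M : ℝ) (m : ℕ), 0 < ε ∧ 0 ≤ M ∧ ∀ z, 0 < ‖z‖ → ‖z‖ < ε →
      0 ≤ meromorphicOrderAt u z ∧ (AnalyticAt ℂ u z → ‖u z‖ * ‖z‖ ^ m ≤ M) := by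
  classical
  set Ω : Set ℂ := {z : ℂ | 0 < ‖z‖ ∧ ‖z‖ < R₀} with hΩ
  have hΩo : IsOpen Ω := isOpen_punctured R₀
  have hm : MeromorphicOn u Ω := fun z hz => hu z hz.1 hz.2
  -- the constant case
  by_cases hconst : ∃ c, ∃ z ∈ Ω, meromorphicOrderAt (fun z => u z - c) z = ⊤
  · obtain ⟨c, z₀, hz₀, hc⟩ := hconst
    have hmc : MeromorphicOn (fun z => u z - c) Ω := fun z hz =>
      (hm z hz).sub (MeromorphicAt.const c z)
    have hall : ∀ z ∈ Ω, meromorphicOrderAt (fun z => u z - c) z = ⊤ := by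
      intro z hz
      by_contra h
      exact (hmc.meromorphicOrderAt_ne_top_of_isPreconnected (isPreconnected_punctured R₀) hz
        hz₀ h) hc
    refine ⟨R₁, ‖c‖, 0, hR₁0, norm_nonneg c, fun z h1 h2 => ?_⟩
    have h3 := hall z ⟨h1, h2.trans hR₁⟩
    rw [meromorphicOrderAt_eq_top_iff] at h3
    have h4 : u =ᶠ[𝓝[≠] z] fun _ => c := by
      filter_upwards [h3] with w hw
      exact sub_eq_zero.mp hw
    constructor
    · rw [meromorphicOrderAt_congr h4]
      exact analyticAt_const.meromorphicOrderAt_nonneg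
    · intro han
      have h5 : u z = c := by
        have h6 : Tendsto u (𝓝[≠] z) (𝓝 (u z)) := han.continuousAt.tendsto.mono_left
          nhdsWithin_le_nhds
        have h7 : Tendsto u (𝓝[≠] z) (𝓝 c) := (tendsto_congr' h4).mpr tendsto_const_nhds
        exact tendsto_nhds_unique h6 h7
      rw [h5, pow_zero, mul_one]
  push Not at hconst
  have hord : ∀ z ∈ Ω, meromorphicOrderAt u z ≠ ⊤ := by
    intro z hz
    have := hconst 0 z hz
    simpa using this
  have hsub : ∀ s : ℂ, 0 < ‖s‖ → ‖s‖ < R₁ → s ∈ Ω := fun s h1 h2 => ⟨h1, h2.trans hR₁⟩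
  -- integrability
  have hsph : ∀ r, 0 < r → r < R₁ → MeromorphicOn u (sphere 0 |r|) := by
    intro r h1 h2 z hz
    rw [mem_sphere_zero_iff_norm, abs_of_pos h1] at hz
    exact hm z (hsub z (by rw [hz]; exact h1) (by rw [hz]; exact h2))
  have hposnn : ∀ r, 0 < r → r < R₁ → 0 ≤ Real.circleAverage (fun z => Real.posLog ‖u z‖) 0 r := by
    intro r h1 h2
    exact Real.circleAverage_nonneg_of_nonneg fun z _ => Real.posLog_nonneg
  -- finitely many poles
  have hpoles : {s : ℂ | (0 < ‖s‖ ∧ ‖s‖ < R₁) ∧ ordZ u s < 0}.Finite := by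
    refine finite_of_count (C := C) (D := D) hR₁0 (fun s hs => hs.1.1) ?_
    intro r h1 h2 S hS
    have h3 := hT r h1 h2 S (fun s hs => (hS s hs).1)
    have h4 := hposnn r h1 h2
    refine le_trans ?_ (le_trans (by linarith) h3) (b := ∑ s ∈ S, max (-(ordZ u s : ℝ)) 0 *
      Real.posLog (‖s‖ / r))
    refine Finset.sum_le_sum fun s hs => ?_
    have h5 : ordZ u s ≤ -1 := by
      have := (hS s hs).2
      omega
    have h6 : (ordZ u s : ℝ) ≤ -1 := by exact_mod_cast h5
    have h7 : (1 : ℝ) ≤ max (-(ordZ u s : ℝ)) 0 := le_max_of_le_left (by linarith)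
    have h8 : 0 ≤ Real.posLog (‖s‖ / r) := Real.posLog_nonneg
    nlinarith
  -- finitely many zeros of `u - c`
  have hzeros : ∀ c : ℂ, {s : ℂ | (0 < ‖s‖ ∧ ‖s‖ < R₁) ∧ 0 < ordZ (fun z => u z - c) s}.Finite := by
    intro c
    have hmc : ∀ z, 0 < ‖z‖ → ‖z‖ < R₀ → MeromorphicAt (fun z => u z - c) z := fun z h1 h2 =>
      (hu z h1 h2).sub (MeromorphicAt.const c z)
    obtain ⟨A, B, hJ⟩ := jensen_punctured hR₁ hmc (fun z h1 h2 => hconst c z ⟨h1, h2⟩)
    refine finite_of_count (C := C + Real.posLog ‖c‖ + Real.log 2 - A) (D := D + B) hR₁0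
      (fun s hs => hs.1.1) ?_
    intro r h1 h2 S hS
    have hfin := finite_ordZ (a := r) (b := R₁) h1 hR₁ hmc
    set S' : Finset ℂ := S ∪ hfin.toFinset.filter (fun s => ‖s‖ < R₁) with hS'
    have hS'1 : ∀ s ∈ S', 0 < ‖s‖ ∧ ‖s‖ < R₁ := by
      intro s hs
      rw [hS', Finset.mem_union, Finset.mem_filter, hfin.mem_toFinset] at hs
      rcases hs with hs | hs
      · exact (hS s hs).1
      · exact ⟨h1.trans_le hs.1.1, hs.2⟩
    have hS'2 : ∀ s, r < ‖s‖ → ‖s‖ < R₁ → ordZ (fun z => u z - c) s ≠ 0 → s ∈ S' := by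
      intro s h3 h4 h5
      rw [hS', Finset.mem_union, Finset.mem_filter, hfin.mem_toFinset]
      exact Or.inr ⟨⟨h3.le, h4.le, h5⟩, h4⟩
    have h3 := hJ r h1 h2 S' (fun s hs => (hS'1 s hs).2) hS'2
    have h4 := hT r h1 h2 S' hS'1
    -- comparison of the means
    have hsphc : MeromorphicOn (fun z => u z - c) (sphere 0 |r|) := fun z hz =>
      (hsph r h1 h2 z hz).sub (MeromorphicAt.const c z)
    have h5 : Real.circleAverage (fun z => Real.log ‖u z - c‖) 0 r ≤
        Real.circleAverage (fun z => Real.posLog ‖u z‖) 0 r + (Real.posLog ‖c‖ + Real.log 2) := by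
      have h6 : Real.circleAverage (fun z => Real.posLog ‖u z‖ + (Real.posLog ‖c‖ + Real.log 2)) 0 r =
          Real.circleAverage (fun z => Real.posLog ‖u z‖) 0 r +
            (Real.posLog ‖c‖ + Real.log 2) := by
        rw [Real.circleAverage_fun_add (MeromorphicOn.circleIntegrable_posLog_norm (hsph r h1 h2))
          (circleIntegrable_const _ _ _), Real.circleAverage_const]
      rw [← h6]
      refine Real.circleAverage_mono (MeromorphicOn.circleIntegrable_log_norm hsphc) ?_ ?_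
      · exact (MeromorphicOn.circleIntegrable_posLog_norm (hsph r h1 h2)).fun_add
          (circleIntegrable_const _ _ _)
      · intro z _
        have h7 : Real.log ‖u z - c‖ ≤ Real.posLog ‖u z - c‖ := le_max_right _ _
        have h8 := Real.posLog_norm_add_le (u z) (-c)
        rw [norm_neg, ← sub_eq_add_neg] at h8
        linarith
    -- comparison of the sums
    have h6 : ∑ s ∈ S, Real.posLog (‖s‖ / r) ≤
        ∑ s ∈ S', (ordZ (fun z => u z - c) s : ℝ) * Real.posLog (‖s‖ / r) +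
        ∑ s ∈ S', max (-(ordZ u s : ℝ)) 0 * Real.posLog (‖s‖ / r) := by
      rw [← Finset.sum_add_distrib]
      have h7 : ∑ s ∈ S, Real.posLog (‖s‖ / r) ≤
          ∑ s ∈ S', max (ordZ (fun z => u z - c) s : ℝ) 0 * Real.posLog (‖s‖ / r) := by
        refine le_trans (b := ∑ s ∈ S, max (ordZ (fun z => u z - c) s : ℝ) 0 *
          Real.posLog (‖s‖ / r)) ?_ ?_
        · refine Finset.sum_le_sum fun s hs => ?_
          have h8 : 1 ≤ ordZ (fun z => u z - c) s := by
            have := (hS s hs).2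
            omega
          have h9 : (1 : ℝ) ≤ ordZ (fun z => u z - c) s := by exact_mod_cast h8
          have h10 : (1 : ℝ) ≤ max (ordZ (fun z => u z - c) s : ℝ) 0 := le_max_of_le_left h9
          have h11 : 0 ≤ Real.posLog (‖s‖ / r) := Real.posLog_nonneg
          nlinarith
        · refine Finset.sum_le_sum_of_subset_of_nonneg Finset.subset_union_left ?_
          intro s _ _
          exact mul_nonneg (le_max_right _ _) Real.posLog_nonneg
      refine h7.trans (Finset.sum_le_sum fun s hs => ?_)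
      have hs' := hS'1 s hs
      have h8 := neg_ordZ_sub_const_le (hu s hs'.1 (hs'.2.trans hR₁)) (hord s (hsub s hs'.1 hs'.2))
        (hconst c s (hsub s hs'.1 hs'.2))
      rw [← add_mul]
      refine mul_le_mul_of_nonneg_right ?_ Real.posLog_nonneg
      have h9 : max (ordZ (fun z => u z - c) s : ℝ) 0 = ordZ (fun z => u z - c) s +
          max (-(ordZ (fun z => u z - c) s : ℝ)) 0 := by
        rcases le_total (ordZ (fun z => u z - c) s : ℝ) 0 with h | h
        · rw [max_eq_right h, max_eq_left (by linarith)]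
          ring
        · rw [max_eq_left h, max_eq_right (by linarith)]
          ring
      rw [h9]
      linarith
    linarith
  -- the normal form
  set v : ℂ → ℂ := toMeromorphicNFOn u Ω with hv
  have hvNF : MeromorphicNFOn v Ω := meromorphicNFOn_toMeromorphicNFOn u Ω
  have huv : ∀ z ∈ Ω, u =ᶠ[𝓝[≠] z] v := fun z hz =>
    (hm.toMeromorphicNFOn_eq_self_on_nhdsNE hz).symm
  obtain ⟨ε₁, hε₁, hε₁P⟩ := exists_radius hpoles (fun s hs => hs.1.1)
  have hnonneg : ∀ z, 0 < ‖z‖ → ‖z‖ < min ε₁ R₁ → 0 ≤ meromorphicOrderAt u z := by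
    intro z h1 h2
    have h3 : ‖z‖ < ε₁ := h2.trans_le (min_le_left _ _)
    have h4 : ‖z‖ < R₁ := h2.trans_le (min_le_right _ _)
    by_contra h
    push Not at h
    have h5 : ordZ u z < 0 := by
      rw [← ordZ_cast (hord z (hsub z h1 h4))] at h
      exact_mod_cast h
    exact absurd (hε₁P z ⟨⟨h1, h4⟩, h5⟩) (not_le.mpr h3)
  have hvan : ∀ z, 0 < ‖z‖ → ‖z‖ < min ε₁ R₁ → AnalyticAt ℂ v z := by
    intro z h1 h2
    have hz : z ∈ Ω := hsub z h1 (h2.trans_le (min_le_right _ _))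
    rw [← (hvNF hz).meromorphicOrderAt_nonneg_iff_analyticAt, ← meromorphicOrderAt_congr (huv z hz)]
    exact hnonneg z h1 h2
  have hmin : 0 < min ε₁ R₁ := lt_min hε₁ hR₁0
  have hmero : MeromorphicAt v 0 := by
    refine meromorphicAt_of_omits hmin hvan fun c => ?_
    obtain ⟨δ, hδ, hδP⟩ := exists_radius (hzeros c) (fun s hs => hs.1.1)
    refine ⟨min δ (min ε₁ R₁), lt_min hδ hmin, fun z h1 h2 hzc => ?_⟩
    have h3 : ‖z‖ < δ := h2.trans_le (min_le_left _ _)
    have h4 : ‖z‖ < min ε₁ R₁ := h2.trans_le (min_le_right _ _)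
    have h5 : ‖z‖ < R₁ := h4.trans_le (min_le_right _ _)
    have hz : z ∈ Ω := hsub z h1 h5
    have h6 : AnalyticAt ℂ (fun w => v w - c) z := (hvan z h1 h4).sub analyticAt_const
    have h7 : (fun w => u w - c) =ᶠ[𝓝[≠] z] fun w => v w - c := by
      filter_upwards [huv z hz] with w hw
      rw [hw]
    have h8 : 0 < ordZ (fun w => u w - c) z := by
      have h9 : 0 < meromorphicOrderAt (fun w => u w - c) z := by
        rw [meromorphicOrderAt_congr h7, ← tendsto_zero_iff_meromorphicOrderAt_pos h6.meromorphicAt]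
        have h10 := h6.continuousAt.tendsto
        simp only [hzc, sub_self] at h10
        exact h10.mono_left nhdsWithin_le_nhds
      rw [← ordZ_cast (hconst c z hz)] at h9
      exact_mod_cast h9
    exact absurd (hδP z ⟨⟨h1, h5⟩, h8⟩) (not_le.mpr h3)
  -- the growth
  obtain ⟨m, hmm⟩ := hmero
  have hcont := hmm.continuousAt.norm
  have hbd : ∀ᶠ z in 𝓝 (0 : ℂ), ‖(z - 0) ^ m • v z‖ < ‖((0 : ℂ) - 0) ^ m • v 0‖ + 1 :=
    hcont.eventually_lt continuousAt_const (by simp)
  obtain ⟨ε₂, hε₂, hε₂'⟩ := Metric.eventually_nhds_iff.mp hbd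
  refine ⟨min ε₂ (min ε₁ R₁), ‖((0 : ℂ) - 0) ^ m • v 0‖ + 1, m, lt_min hε₂ hmin, by positivity,
    fun z h1 h2 => ?_⟩
  have h3 : ‖z‖ < ε₂ := h2.trans_le (min_le_left _ _)
  have h4 : ‖z‖ < min ε₁ R₁ := h2.trans_le (min_le_right _ _)
  have hz : z ∈ Ω := hsub z h1 (h4.trans_le (min_le_right _ _))
  refine ⟨hnonneg z h1 h4, fun han => ?_⟩
  have h5 : u z = v z := by
    have h6 : Tendsto u (𝓝[≠] z) (𝓝 (u z)) := han.continuousAt.tendsto.mono_left
      nhdsWithin_le_nhds
    have h7 : Tendsto u (𝓝[≠] z) (𝓝 (v z)) := (tendsto_congr' (huv z hz)).mpr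
      ((hvan z h1 h4).continuousAt.tendsto.mono_left nhdsWithin_le_nhds)
    exact tendsto_nhds_unique h6 h7
  have h8 := hε₂' (y := z) (by simpa using h3)
  rw [h5, mul_comm, ← norm_pow, ← norm_mul]
  simpa using h8.le

end Pool.Agent.H92.GGL
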