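import Pool.Agent.H66.Lang.Reduction
import Pool.Agent.H17.GlobalLift
import Mathlib.Topology.MetricSpace.HausdorffDimension

/-!
# Lines which avoid a subset of codimension two
-/

open Topology Filter

namespace Pool.Agent.H92.GGL

open Pool.Agent.H17 Pool.Agent.H66.Lang

/-- A set has complex codimension at least two: it is empty or of Hausdorff dimension at most
`2 g - 4`. -/
def CodimTwo {g : ℕ} (Z : Set (Fin g → ℂ)) : Prop := Z = ∅ ∨ dimH Z + 4 ≤ 2 * (g : ENNReal)

/-- The lines through a point outside `Z` which do not meet `Z` are dense. -/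
theorem dense_lines {g : ℕ} {Z : Set (Fin g → ℂ)} (hZ : CodimTwo Z) {p : Fin g → ℂ} (hp : p ∉ Z) :
    Dense {q : Fin g → ℂ | ∀ s : ℂ, line p q s ∉ Z} := by
  classical
  rcases hZ with rfl | hZ
  · have : {q : Fin g → ℂ | ∀ s : ℂ, line p q s ∉ (∅ : Set (Fin g → ℂ))} = Set.univ := by
      ext q
      simp
    rw [this]
    exact dense_univ
  -- the dimension is at least two
  have hg : 2 ≤ g := by
    by_contra hcon
    push Not at hcon
    have h1 : (4 : ENNReal) ≤ 2 * (g : ENNReal) := le_trans (by simp) hZ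
    have h2 : (4 : ENNReal) ≤ ((2 * g : ℕ) : ENNReal) := by
      push_cast
      exact h1
    have h3 : 4 ≤ 2 * g := by exact_mod_cast h2
    omega
  set i : Fin g := ⟨0, by omega⟩ with hi
  set u : (Fin g → ℂ) → ({j : Fin g // j ≠ i} → ℂ) := fun z j => (z j - p j) / (z i - p i) with hu
  set Z' : Set (Fin g → ℂ) := Z ∩ {z | z i ≠ p i} with hZ'
  set B : Set ({j : Fin g // j ≠ i} → ℂ) := u '' Z' with hB
  have hlip : ∀ z ∈ Z', ∃ C : NNReal, ∃ s ∈ 𝓝[Z'] z, LipschitzOnWith C u s := by
    intro z hz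
    have hzi : z i - p i ≠ 0 := sub_ne_zero.mpr hz.2
    have h1 : ContDiffAt ℂ 1 u z := by
      rw [contDiffAt_pi]
      intro j
      refine ContDiffAt.div ?_ ?_ hzi
      · exact (contDiff_apply ℂ ℂ (j : Fin g)).contDiffAt.sub contDiffAt_const
      · exact (contDiff_apply ℂ ℂ i).contDiffAt.sub contDiffAt_const
    obtain ⟨C, s, hs, hC⟩ := (h1.restrict_scalars ℝ).exists_lipschitzOnWith
    exact ⟨C, s, mem_nhdsWithin_of_mem_nhds hs, hC⟩
  have hdim : dimH B < Module.finrank ℝ ({j : Fin g // j ≠ i} → ℂ) := by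
    have h1 : dimH B ≤ dimH Z :=
      (dimH_image_le_of_locally_lipschitzOn hlip).trans (dimH_mono Set.inter_subset_left)
    have h2 : Module.finrank ℝ ({j : Fin g // j ≠ i} → ℂ) = 2 * (g - 1) := by
      rw [Module.finrank_pi_fintype]
      simp only [Complex.finrank_real_complex, Finset.sum_const, Finset.card_univ,
        Fintype.card_subtype_compl, Fintype.card_fin, Fintype.card_unique, smul_eq_mul]
      ring
    rw [h2]
    obtain ⟨g', rfl⟩ : ∃ g', g = g' + 2 := ⟨g - 2, by omega⟩
    have h3 : dimH Z + 4 ≤ ((2 * g' : ℕ) : ENNReal) + 4 := by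
      refine hZ.trans (le_of_eq ?_)
      push_cast
      ring
    have h4 : dimH Z ≤ ((2 * g' : ℕ) : ENNReal) := by
      rwa [ENNReal.add_le_add_iff_right (by simp)] at h3
    refine (h1.trans h4).trans_lt ?_
    exact_mod_cast (by omega : 2 * g' < 2 * (g' + 2 - 1))
  have hBd : Dense Bᶜ := dense_compl_of_dimH_lt_finrank hdim
  rw [dense_iff_inter_open]
  intro V hV hVne
  -- a point with a different coordinate
  have hd1 : Dense {q : Fin g → ℂ | q i ≠ p i} :=
    (dense_compl_singleton (p i)).preimage (isOpenMap_eval i)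
  obtain ⟨q₁, hq₁V, hq₁⟩ := hd1.inter_open_nonempty V hV hVne
  have hq₁' : q₁ i - p i ≠ 0 := sub_ne_zero.mpr hq₁
  set ψ : ({j : Fin g // j ≠ i} → ℂ) → (Fin g → ℂ) := fun w j =>
    if h : j = i then q₁ i else p j + (q₁ i - p i) * w ⟨j, h⟩ with hψ
  have hψc : Continuous ψ := by
    refine continuous_pi fun j => ?_
    simp only [hψ]
    by_cases h : j = i
    · simp only [h, dite_true]
      exact continuous_const
    · simp only [h, dite_false]
      fun_prop
  have hψu : ψ (u q₁) = q₁ := by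
    funext j
    simp only [hψ, hu]
    by_cases h : j = i
    · rw [dif_pos h, h]
    · rw [dif_neg h]
      field_simp
      ring
  obtain ⟨w, hwV, hwB⟩ := hBd.inter_open_nonempty (ψ ⁻¹' V) (hV.preimage hψc)
    ⟨u q₁, by rw [Set.mem_preimage, hψu]; exact hq₁V⟩
  refine ⟨ψ w, hwV, ?_⟩
  intro s hs
  have hψi : ψ w i = q₁ i := by
    simp only [hψ, dite_true]
  rcases eq_or_ne s 0 with h0 | h0
  · rw [h0, line_zero] at hs
    exact hp hs
  · apply hwB
    have hli : line p (ψ w) s i - p i = s * (q₁ i - p i) := by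
      simp only [line, Pi.add_apply, Pi.smul_apply, Pi.sub_apply, smul_eq_mul, hψi]
      ring
    refine ⟨line p (ψ w) s, ⟨hs, ?_⟩, ?_⟩
    · intro h
      change line p (ψ w) s i = p i at h
      rw [h, sub_self] at hli
      exact mul_ne_zero h0 hq₁' hli.symm
    · funext j
      have hlj : line p (ψ w) s j - p j = s * ((q₁ i - p i) * w j) := by
        simp only [line, Pi.add_apply, Pi.smul_apply, Pi.sub_apply, smul_eq_mul, hψ, dif_neg j.2]
        ring
      change (line p (ψ w) s j - p j) / (line p (ψ w) s i - p i) = w j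
      rw [hlj, hli]
      field_simp

/-- A holomorphic map which is constant on a dense set of points is constant. -/
theorem const_of_dense {g N : ℕ} {Z : Set (Fin g → ℂ)} {f : (Fin g → ℂ) → PN N}
    (hf : HolomorphicIntoPN f Zᶜ) {D : Set (Fin g → ℂ)} (hD : Dense D) {x : PN N}
    (hx : ∀ q ∈ D, f q = x) {q : Fin g → ℂ} (hq : q ∉ Z) : f q = x := by
  obtain ⟨φ, hφ, hev⟩ := hf q hq
  obtain ⟨h0, h1⟩ := hev.self_of_nhds
  induction x using Projectivization.ind with
  | _ v hv =>
  rw [h1]
  have hne : (𝓝[D] q).NeBot := mem_closure_iff_nhdsWithin_neBot.mp (hD q)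
  have hφc : ∀ j, Tendsto (fun y => φ y j) (𝓝[D] q) (𝓝 (φ q j)) := fun j =>
    ((tendsto_pi_nhds.mp hφ.continuousAt.tendsto) j).mono_left nhdsWithin_le_nhds
  have hcross : ∀ i j, φ q i * v j = φ q j * v i := by
    intro i j
    have h2 : Tendsto (fun y => φ y i * v j) (𝓝[D] q) (𝓝 (φ q i * v j)) :=
      (hφc i).mul_const _
    have h3 : Tendsto (fun y => φ y j * v i) (𝓝[D] q) (𝓝 (φ q j * v i)) :=
      (hφc j).mul_const _
    refine tendsto_nhds_unique (h2.congr' ?_) h3
    filter_upwards [hev.filter_mono nhdsWithin_le_nhds, self_mem_nhdsWithin] with y hy1 hy2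
    obtain ⟨h4, h5⟩ := hy1
    rw [hx y hy2] at h5
    obtain ⟨c, hc, h6⟩ := mk_eq_mk_cross h5.symm
    rw [h6, h6]
    ring
  obtain ⟨i, hi⟩ : ∃ i, v i ≠ 0 := by
    by_contra hcon
    push Not at hcon
    exact hv (funext hcon)
  rw [Projectivization.mk_eq_mk_iff]
  have hφi : φ q i ≠ 0 := by
    intro h
    apply h0
    funext j
    have h2 := hcross i j
    rw [h, zero_mul] at h2
    exact (mul_eq_zero.mp h2.symm).resolve_right hi
  refine ⟨Units.mk0 (φ q i / v i) (div_ne_zero hφi hi), ?_⟩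
  funext j
  change φ q i / v i * v j = φ q j
  rw [div_mul_eq_mul_div, hcross i j]
  field_simp

end Pool.Agent.H92.GGL
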