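import Pool.Agent.H92.GGL.Master

/-!
# Local and pointwise estimates of the resultant, local version
-/

open Polynomial Topology Filter

namespace Pool.Agent.H92.GGL

open Pool.Agent.H17

variable {ι : Type} [Fintype ι]

/-- The local estimate of the resultant. -/
lemma resultant_local' [DecidableEq ι] (t : ι → ℂ) (ht : Function.Injective t) {ρ : ℕ}
    (hcard : 2 * ρ ≤ Fintype.card ι) {P Q : ℂ → ℂ[X]} (hP : ∀ z, (P z).natDegree ≤ ρ)
    (hQ : ∀ z, (Q z).natDegree ≤ ρ) {f : ι → ℂ → ℂ} {s : ℂ} (hf : ∀ i, AnalyticAt ℂ (f i) s)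
    (hPf : ∀ᶠ z in 𝓝 s, ∀ i, (P z).eval (t i) = f i z)
    (hQf : ∀ᶠ z in 𝓝 s, ∀ i, (Q z).eval (t i) = deriv (f i) z)
    {u : ι → ℂ → ℂ} {o : ι → ℕ} (hu : ∀ i, AnalyticAt ℂ (u i) s)
    (hfu : ∀ i, ∀ᶠ z in 𝓝 s, f i z = (z - s) ^ o i * u i z)
    (ho : (Finset.univ.filter fun i => o i ≠ 0).card ≤ 2 * ρ) :
    ∃ B : ℝ, 0 ≤ B ∧ ∀ᶠ z in 𝓝[≠] s, ‖resultant (P z) (Q z) ρ ρ‖ ≤
      B * ‖z - s‖ ^ (∑ i, (o i - 1)) := by
  classical
  -- bounds for the values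
  obtain ⟨A, hA1, hA⟩ : ∃ A : ℝ, 1 ≤ A ∧ ∀ᶠ z in 𝓝 s, ∀ i, ‖f i z‖ ≤ A * ‖z - s‖ ^ (o i - 1) ∧
      ‖deriv (f i) z‖ ≤ A * ‖z - s‖ ^ (o i - 1) := by
    have h1 : ∀ i, ∃ A : ℝ, 1 ≤ A ∧ ∀ᶠ z in 𝓝 s, ‖f i z‖ ≤ A * ‖z - s‖ ^ (o i - 1) ∧
      ‖deriv (f i) z‖ ≤ A * ‖z - s‖ ^ (o i - 1) := by
      intro i
      obtain ⟨B₁, hB₁, hB₁'⟩ := exists_bound_near (hu i).continuousAt
      obtain ⟨B₂, hB₂, hB₂'⟩ := exists_bound_near (hu i).deriv.continuousAt
      obtain ⟨B₃, hB₃, hB₃'⟩ := exists_bound_near (hf i).deriv.continuousAt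
      refine ⟨B₃ + (o i) * B₁ + B₂ + B₁, by nlinarith [Nat.cast_nonneg (α := ℝ) (o i)], ?_⟩
      have hball : ∀ᶠ z in 𝓝 s, ‖z - s‖ ≤ 1 := by
        have : ∀ᶠ z in 𝓝 s, z ∈ Metric.closedBall s 1 := Metric.closedBall_mem_nhds s one_pos
        filter_upwards [this] with z hz
        rwa [mem_closedBall_iff_norm] at hz
      have hev : f i =ᶠ[𝓝 s] fun z => (z - s) ^ o i * u i z := hfu i
      filter_upwards [hev, hev.deriv, hB₁', hB₂', hB₃', hball, (hu i).eventually_analyticAt]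
        with z h1 h2 h3 h4 h5 h6 h7
      have hnn := norm_nonneg (z - s)
      have hoi : (0 : ℝ) ≤ o i := Nat.cast_nonneg _
      have hpw : 0 ≤ ‖z - s‖ ^ (o i - 1) := by positivity
      constructor
      · rw [h1, norm_mul, norm_pow]
        have h8 : ‖z - s‖ ^ o i ≤ ‖z - s‖ ^ (o i - 1) :=
          pow_le_pow_of_le_one hnn h6 (by omega)
        calc ‖z - s‖ ^ o i * ‖u i z‖ ≤ ‖z - s‖ ^ (o i - 1) * B₁ := by gcongr
          _ = B₁ * ‖z - s‖ ^ (o i - 1) := by ring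
          _ ≤ _ := by
            gcongr
            nlinarith
      · rcases Nat.eq_zero_or_pos (o i) with h0 | hpos
        · rw [h0]
          simp only [zero_le, Nat.sub_eq_zero_of_le, pow_zero, mul_one, Nat.cast_zero, zero_mul,
            add_zero]
          linarith
        · obtain ⟨m, hm⟩ : ∃ m, o i = m + 1 := ⟨o i - 1, by omega⟩
          rw [h2]
          have h9 : HasDerivAt (fun z => (z - s) ^ o i) (((m + 1 : ℕ) : ℂ) * (z - s) ^ m) z := by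
            rw [hm]
            have := ((hasDerivAt_id z).sub_const s).fun_pow (m + 1)
            simpa using this
          have h10 := (h9.fun_mul h7.differentiableAt.hasDerivAt).deriv
          rw [h10, hm]
          simp only [Nat.add_sub_cancel]
          have h11 : ‖((m + 1 : ℕ) : ℂ) * (z - s) ^ m * u i z‖ ≤
              ((m + 1 : ℕ) : ℝ) * B₁ * ‖z - s‖ ^ m := by
            rw [norm_mul, norm_mul, norm_pow, Complex.norm_natCast]
            calc ((m + 1 : ℕ) : ℝ) * ‖z - s‖ ^ m * ‖u i z‖ ≤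
                ((m + 1 : ℕ) : ℝ) * ‖z - s‖ ^ m * B₁ := by gcongr
              _ = _ := by ring
          have h12 : ‖(z - s) ^ (m + 1) * deriv (u i) z‖ ≤ B₂ * ‖z - s‖ ^ m := by
            rw [norm_mul, norm_pow]
            calc ‖z - s‖ ^ (m + 1) * ‖deriv (u i) z‖ ≤ ‖z - s‖ ^ m * B₂ := by
                  gcongr ?_ * ?_
                  exact pow_le_pow_of_le_one hnn h6 (by omega)
              _ = _ := by ring
          refine (norm_add_le _ _).trans ((add_le_add h11 h12).trans ?_)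
          have hpm : 0 ≤ ‖z - s‖ ^ m := by positivity
          nlinarith
    choose A hA1 hA using h1
    refine ⟨1 + ∑ i, A i, ?_, ?_⟩
    · have : 0 ≤ ∑ i, A i := Finset.sum_nonneg fun i _ => by linarith [hA1 i]
      linarith
    · filter_upwards [eventually_all.mpr hA] with z hz i
      have h2 : A i ≤ 1 + ∑ i, A i := by
        have := Finset.single_le_sum (f := A) (fun i _ => by linarith [hA1 i]) (Finset.mem_univ i)
        linarith
      have hpw : 0 ≤ ‖z - s‖ ^ (o i - 1) := by positivity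
      exact ⟨(hz i).1.trans (by gcongr), (hz i).2.trans (by gcongr)⟩
  obtain ⟨T, hT1, hT⟩ : ∃ T : ℝ, 1 ≤ T ∧ ∀ (i : ι) (j : Fin ρ), ‖t i ^ (j : ℕ)‖ ≤ T := by
    obtain ⟨B, hB⟩ := (Set.finite_range (fun q : ι × Fin ρ => ‖t q.1 ^ (q.2 : ℕ)‖)).bddAbove
    exact ⟨max 1 B, le_max_left _ _, fun i j => le_trans (hB ⟨(i, j), rfl⟩) (le_max_right _ _)⟩
  -- the choice of the nodes
  obtain ⟨I, hIsub, hIcard⟩ : ∃ I : Finset ι,
      (Finset.univ.filter fun i => o i ≠ 0) ⊆ I ∧ I.card = ρ + ρ := by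
    obtain ⟨I, h2, h3⟩ := Finset.exists_superset_card_eq (n := ρ + ρ) (ho.trans (by omega))
      (by omega)
    exact ⟨I, h2, h3⟩
  set e : Fin (ρ + ρ) → ι := fun k => ((I.equivFinOfCardEq hIcard).symm k : ι) with he
  have heinj : Function.Injective e := by
    intro k l hkl
    exact (I.equivFinOfCardEq hIcard).symm.injective (Subtype.ext hkl)
  have hVdM : (Matrix.vandermonde (fun k => t (e k))).det ≠ 0 :=
    Matrix.det_vandermonde_ne_zero_iff.mpr (ht.comp heinj)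
  set D : ℝ := ‖(Matrix.vandermonde (fun k => t (e k))).det‖ with hD
  have hDpos : 0 < D := norm_pos_iff.mpr hVdM
  refine ⟨D⁻¹ * (((ρ + ρ).factorial : ℝ) * (T * A) ^ (ρ + ρ)), by positivity, ?_⟩
  filter_upwards [hA.filter_mono nhdsWithin_le_nhds, hPf.filter_mono nhdsWithin_le_nhds,
    hQf.filter_mono nhdsWithin_le_nhds] with z hz1 hz2 hz3
  have hdet : (Matrix.vandermonde (fun k => t (e k))).det * resultant (P z) (Q z) ρ ρ =
      (Matrix.of fun i j => Fin.addCases (motive := fun _ => ℂ)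
        (fun j₁ : Fin ρ => t (e i) ^ (j₁ : ℕ) * (Q z).eval (t (e i)))
        (fun j₁ : Fin ρ => t (e i) ^ (j₁ : ℕ) * (P z).eval (t (e i))) j :
          Matrix (Fin (ρ + ρ)) (Fin (ρ + ρ)) ℂ).det := by
    rw [← vandermonde_mul_sylvester (P z) (Q z) (hP z) (hQ z), Matrix.det_mul]
    rfl
  have hEbound := norm_det_le_of_le (Matrix.of fun i j => Fin.addCases (motive := fun _ => ℂ)
        (fun j₁ : Fin ρ => t (e i) ^ (j₁ : ℕ) * (Q z).eval (t (e i)))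
        (fun j₁ : Fin ρ => t (e i) ^ (j₁ : ℕ) * (P z).eval (t (e i))) j :
          Matrix (Fin (ρ + ρ)) (Fin (ρ + ρ)) ℂ)
        (fun i => T * A * ‖z - s‖ ^ (o (e i) - 1)) (fun _ => 1) (by
      intro i j
      induction j using Fin.addCases with
      | left j =>
        simp only [Matrix.of_apply, Fin.addCases_left]
        rw [norm_mul, hz3]
        have h1 := hT (e i) j
        have h2 := (hz1 (e i)).2
        calc ‖t (e i) ^ (j : ℕ)‖ * ‖deriv (f (e i)) z‖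
            ≤ T * (A * ‖z - s‖ ^ (o (e i) - 1)) := by gcongr
          _ = _ := by ring
      | right j =>
        simp only [Matrix.of_apply, Fin.addCases_right]
        rw [norm_mul, hz2]
        have h1 := hT (e i) j
        have h2 := (hz1 (e i)).1
        calc ‖t (e i) ^ (j : ℕ)‖ * ‖f (e i) z‖
            ≤ T * (A * ‖z - s‖ ^ (o (e i) - 1)) := by gcongr
          _ = _ := by ring)
  rw [← hdet, norm_mul, Finset.prod_const_one, mul_one, Finset.prod_mul_distrib,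
    Finset.prod_const, Finset.card_univ, Fintype.card_fin] at hEbound
  have hprodI : ∏ k, ‖z - s‖ ^ (o (e k) - 1) = ‖z - s‖ ^ (∑ i, (o i - 1)) := by
    rw [Finset.prod_pow_eq_pow_sum]
    congr 1
    have h1 : ∑ k, (o (e k) - 1) = ∑ i ∈ I, (o i - 1) := by
      rw [← Finset.sum_coe_sort I]
      exact Equiv.sum_comp (I.equivFinOfCardEq hIcard).symm (fun i : I => o i - 1)
    rw [h1]
    refine Finset.sum_subset (Finset.subset_univ _) fun i _ hi => ?_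
    have : o i = 0 := by
      by_contra h
      exact hi (hIsub (Finset.mem_filter.mpr ⟨Finset.mem_univ i, h⟩))
    omega
  rw [hprodI] at hEbound
  have h5 : ‖resultant (P z) (Q z) ρ ρ‖ ≤ D⁻¹ * (((ρ + ρ).factorial : ℝ) * ((T * A) ^ (ρ + ρ) *
      ‖z - s‖ ^ (∑ i, (o i - 1)))) := by
    rw [inv_mul_eq_div, le_div_iff₀ hDpos, mul_comm]
    exact hEbound
  refine h5.trans (le_of_eq ?_)
  ring

/-- The choice of the exponents. -/
lemma exists_params {n Θ ρ : ℝ} (hρ : 0 ≤ ρ) (h : Θ + 2 * ρ < n) :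
    ∃ κ α : ℝ, 0 < κ ∧ κ < 2 ∧ 0 < α ∧ 4 * ρ + κ * α = (2 - κ) * (n - Θ) := by
  obtain ⟨A, hA⟩ : ∃ A : ℝ, A = n - Θ := ⟨_, rfl⟩
  have hA2 : 2 * ρ < A := by rw [hA]; linarith
  have hApos : 0 < A := by linarith
  have hκ0 : 0 < (A - 2 * ρ) / A := by apply div_pos <;> linarith
  have hκ1 : (A - 2 * ρ) / A ≤ 1 := by rw [div_le_one hApos]; linarith
  refine ⟨(A - 2 * ρ) / A, A, hκ0, by linarith, hApos, ?_⟩
  rw [← hA, div_mul_cancel₀ _ hApos.ne', sub_mul, div_mul_cancel₀ _ hApos.ne']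
  ring

/-- The pointwise estimate. -/
lemma weight_bound [DecidableEq ι] [Nonempty ι] (t : ι → ℂ) (ht : Function.Injective t) {ρ : ℕ}
    {κ α : ℝ} {θ : ι → ℝ} (hκ0 : 0 < κ) (hκ2 : κ < 2) (hθ0 : ∀ i, 0 ≤ θ i)
    (hhom : 4 * ρ + κ * α = (2 - κ) * (Fintype.card ι - ∑ i, θ i))
    (hcard : 2 * ρ ≤ Fintype.card ι) :
    ∃ C : ℝ, 0 ≤ C ∧ ∀ (P Q : ℂ[X]) (u : ι → ℂ → ℂ) (g : ℂ → ℂ) (z : ℂ), P.natDegree ≤ ρ →
      Q.natDegree ≤ ρ → (∀ i, P.eval (t i) = u i z) → (∀ i, Q.eval (t i) = deriv (u i) z) →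
      g z = resultant P Q ρ ρ → (∀ i, u i z ≠ 0) →
      wt κ α (fun i => (2 - κ) * (1 - θ i)) u g z ≤ C * powVar κ u z ^ ρ := by
  classical
  obtain ⟨C₀, hC0, hC⟩ := resultant_bound_rpow t ht (ρ := ρ) hκ0 hκ2 hcard
  refine ⟨C₀, hC0, ?_⟩
  intro P Q r g z hP hQ hPr hQr hg hz
  have h1 := hC P Q hP hQ (fun i => by rw [hPr]; exact hz i)
  rw [← hg] at h1
  simp only [hPr, hQr] at h1
  have hzpos : ∀ i, 0 < ‖r i z‖ := fun i => norm_pos_iff.mpr (hz i)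
  have hUpos : 0 < powSum κ r z := powSum_pos hz
  have hU : ∑ i, ‖r i z‖ ^ κ = powSum κ r z := rfl
  have hV : wVar (fun i => ‖r i z‖ ^ κ) (fun i => deriv (r i) z / r i z) = powVar κ r z := rfl
  rw [hU, hV] at h1
  have hVnn : 0 ≤ powVar κ r z := powVar_nonneg hz
  set U := powSum κ r z with hUdef
  -- the exponent
  have hexp : ((2 - κ) * Fintype.card ι - 4 * ρ) / κ = α + (2 - κ) * (∑ i, θ i) / κ := by
    rw [div_eq_iff hκ0.ne', add_mul, div_mul_cancel₀ _ hκ0.ne', mul_comm α κ]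
    linear_combination -hhom
  rw [hexp, Real.rpow_add hUpos] at h1
  -- comparing `‖r i‖ ^ θ` and `U`
  have h2 : ∏ i, ‖r i z‖ ^ ((2 - κ) * θ i) ≤ U ^ ((2 - κ) * (∑ i, θ i) / κ) := by
    have h3 : U ^ ((2 - κ) * (∑ i, θ i) / κ) = ∏ i, U ^ ((2 - κ) * θ i / κ) := by
      rw [← Real.rpow_sum_of_pos hUpos]
      congr 1
      rw [Finset.mul_sum, Finset.sum_div]
    rw [h3]
    refine Finset.prod_le_prod (fun i _ => (Real.rpow_pos_of_pos (hzpos i) _).le) fun i _ => ?_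
    have h4 : ‖r i z‖ ^ κ ≤ U := by
      rw [hUdef]
      unfold powSum
      exact Finset.single_le_sum (f := fun i => ‖r i z‖ ^ κ)
        (fun i _ => (Real.rpow_pos_of_pos (hzpos i) _).le) (Finset.mem_univ i)
    have h5 : ‖r i z‖ ^ ((2 - κ) * θ i) = (‖r i z‖ ^ κ) ^ ((2 - κ) * θ i / κ) := by
      rw [← Real.rpow_mul (hzpos i).le]
      congr 1
      field_simp
    rw [h5]
    refine Real.rpow_le_rpow (Real.rpow_pos_of_pos (hzpos i) _).le h4 ?_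
    have := hθ0 i
    have h6 : 0 < 2 - κ := by linarith
    positivity
  have h6 : ∏ i, ‖r i z‖ ^ (-((2 - κ) * (1 - θ i))) =
      (∏ i, ‖r i z‖ ^ (2 - κ))⁻¹ * ∏ i, ‖r i z‖ ^ ((2 - κ) * θ i) := by
    rw [← Finset.prod_inv_distrib, ← Finset.prod_mul_distrib]
    refine Finset.prod_congr rfl fun i _ => ?_
    rw [← Real.rpow_neg (hzpos i).le, ← Real.rpow_add (hzpos i)]
    congr 1
    ring
  have hP2 : 0 < ∏ i, ‖r i z‖ ^ (2 - κ) := Finset.prod_pos fun i _ =>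
    Real.rpow_pos_of_pos (hzpos i) _
  have hPθ : 0 ≤ ∏ i, ‖r i z‖ ^ ((2 - κ) * θ i) := Finset.prod_nonneg fun i _ =>
    (Real.rpow_pos_of_pos (hzpos i) _).le
  have hUα : 0 < U ^ α := Real.rpow_pos_of_pos hUpos _
  unfold wt
  rw [h6]
  calc ‖g z‖ ^ 2 * U ^ α * ((∏ i, ‖r i z‖ ^ (2 - κ))⁻¹ * ∏ i, ‖r i z‖ ^ ((2 - κ) * θ i))
      ≤ ‖g z‖ ^ 2 * U ^ α * ((∏ i, ‖r i z‖ ^ (2 - κ))⁻¹ * U ^ ((2 - κ) * (∑ i, θ i) / κ)) := by
        gcongr
    _ = (∏ i, ‖r i z‖ ^ (2 - κ))⁻¹ *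
        (‖g z‖ ^ 2 * (U ^ α * U ^ ((2 - κ) * (∑ i, θ i) / κ))) := by ring
    _ ≤ (∏ i, ‖r i z‖ ^ (2 - κ))⁻¹ *
        (C₀ * (∏ i, ‖r i z‖ ^ (2 - κ)) * powVar κ r z ^ ρ) := by gcongr
    _ = _ := by field_simp

end Pool.Agent.H92.GGL
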