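import Pool.Agent.H92.GGL.Vanish

/-!
# An estimate of Ahlfors–Schwarz type on a disc
-/

open Topology Filter Complex

namespace Pool.Agent.H92.GGL

open Pool.Agent.H17

variable {ι : Type} [Fintype ι]

lemma wt_continuousAt' [Nonempty ι] {r : ι → ℂ → ℂ} {g : ℂ → ℂ} {z : ℂ}
    (hr : ∀ i, ContinuousAt (r i) z) (hg : ContinuousAt g z) (κ α : ℝ) (β : ι → ℝ)
    (hz : ∀ i, r i z ≠ 0) : ContinuousAt (wt κ α β r g) z := by
  unfold wt powSum
  have h1 : ∀ i, ContinuousAt (fun z => ‖r i z‖) z := fun i => (hr i).norm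
  have h2 : ContinuousAt (fun z => ‖g z‖) z := hg.norm
  have h3 : ∀ i, ‖r i z‖ ≠ 0 := fun i => norm_ne_zero_iff.mpr (hz i)
  have h4 : ContinuousAt (fun z => ∑ i, ‖r i z‖ ^ κ) z :=
    tendsto_finsetSum _ fun i _ => (h1 i).rpow_const (Or.inl (h3 i))
  have h5 : ContinuousAt (fun z => ∏ i, ‖r i z‖ ^ (-(β i))) z :=
    tendsto_finsetProd _ fun i _ => (h1 i).rpow_const (Or.inl (h3 i))
  refine ((h2.pow 2).mul (h4.rpow_const (Or.inl ?_))).mul h5
  exact (powSum_pos (κ := κ) hz).ne'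

/-- The estimate at the centre of a disc. -/
theorem schwarz_disc_zero [Nonempty ι] {r : ι → ℂ → ℂ} {g : ℂ → ℂ} {κ α : ℝ} {β : ι → ℝ} {ρ : ℕ}
    (hκ : 0 < κ) (hα : 0 < α) (hρ : 0 < ρ) {R : ℝ} (hR : 0 < R) {S : Finset ℂ} (h0 : 0 ∉ S)
    (hr : ∀ z, ‖z‖ ≤ R → z ∉ S → ∀ i, AnalyticAt ℂ (r i) z ∧ r i z ≠ 0)
    (hg : ∀ z, ‖z‖ ≤ R → z ∉ S → AnalyticAt ℂ g z) {C : ℝ} (hC : 0 ≤ C)
    (hbound : ∀ z, ‖z‖ ≤ R → z ∉ S → wt κ α β r g z ≤ C * powVar κ r z ^ ρ)
    (hloc : ∀ s, ‖s‖ ≤ R → s ∈ S → ∃ B, ∀ᶠ z in 𝓝[≠] s, wt κ α β r g z ≤ B) :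
    wt κ α β r g 0 * R ^ (2 * ρ) ≤ C * (8 * ρ / (α * κ ^ 2)) ^ ρ := by
  classical
  have hR0 : ‖(0 : ℂ)‖ ≤ R := by simpa using hR.le
  by_cases hg0 : g 0 = 0
  · have h1 : wt κ α β r g 0 = 0 := by
      unfold wt
      rw [hg0]
      simp
    rw [h1, zero_mul]
    positivity
  have hr0 : ∀ i, r i 0 ≠ 0 := fun i => (hr 0 hR0 h0 i).2
  set w₀ := wt κ α β r g 0 with hw₀
  have hw₀pos : 0 < w₀ := by
    rw [hw₀]
    unfold wt
    have h1 : 0 < ∏ i, ‖r i 0‖ ^ (-(β i)) := Finset.prod_pos fun i _ =>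
      Real.rpow_pos_of_pos (norm_pos_iff.mpr (hr0 i)) _
    have h2 : 0 < powSum κ r 0 ^ α := Real.rpow_pos_of_pos (powSum_pos hr0) _
    have h3 : 0 < ‖g 0‖ := norm_pos_iff.mpr hg0
    positivity
  set D : ℝ := C * (1 / (α * κ ^ 2)) ^ ρ with hD
  have hDnn : 0 ≤ D := by positivity
  have hPpos : ∀ z, z ∉ S → 0 < ∏ s ∈ S, ‖z - s‖ := by
    intro z hz
    refine Finset.prod_pos fun s hs => norm_pos_iff.mpr (sub_ne_zero.mpr ?_)
    rintro rfl
    exact hz hs
  have key : w₀ * (R ^ 2) ^ (2 * ρ) ≤ D * (8 * ρ * R ^ 2) ^ ρ := by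
    refine le_of_forall_pow_mul_le (hPpos 0 h0) (Q := ∏ s ∈ S, (R + ‖s‖)) (by positivity) ?_
    intro k hk
    set Φ : ℂ → ℝ := fun z => wt κ α β r g z ^ k * (R ^ 2 - ‖z‖ ^ 2) ^ (2 * ρ * k) *
      ∏ s ∈ S, ‖z - s‖ with hΦ
    have hΦcont : ContinuousOn Φ (Metric.closedBall (0 : ℂ) R) := by
      intro z hz
      rw [mem_closedBall_zero_iff] at hz
      apply ContinuousAt.continuousWithinAt
      have hc1 : Continuous fun z : ℂ => (R ^ 2 - ‖z‖ ^ 2) ^ (2 * ρ * k) := by fun_prop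
      by_cases hzS : z ∈ S
      · rw [continuousAt_iff_punctured_nhds]
        have hΦz : Φ z = 0 := by
          simp only [hΦ]
          rw [Finset.prod_eq_zero hzS (by simp), mul_zero]
        rw [hΦz]
        obtain ⟨B, hB⟩ := hloc z hz hzS
        have hrest : Tendsto (fun w : ℂ => (R ^ 2 - ‖w‖ ^ 2) ^ (2 * ρ * k) *
            ∏ s ∈ S.erase z, ‖w - s‖) (𝓝[≠] z) (𝓝 ((R ^ 2 - ‖z‖ ^ 2) ^ (2 * ρ * k) *
            ∏ s ∈ S.erase z, ‖z - s‖)) := by
          have : Continuous fun w : ℂ => (R ^ 2 - ‖w‖ ^ 2) ^ (2 * ρ * k) *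
            ∏ s ∈ S.erase z, ‖w - s‖ := by
            refine hc1.mul (continuous_finsetProd _ fun s _ => ?_)
            fun_prop
          exact (this.tendsto z).mono_left nhdsWithin_le_nhds
        have hmain : Tendsto (fun w => wt κ α β r g w ^ k * ‖w - z‖) (𝓝[≠] z) (𝓝 0) := by
          have h1 : Tendsto (fun w : ℂ => (max B 0) ^ k * ‖w - z‖) (𝓝[≠] z)
              (𝓝 0) := by
            have : Continuous fun w : ℂ => (max B 0) ^ k * ‖w - z‖ := by fun_prop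
            have h2 := (this.tendsto z).mono_left (nhdsWithin_le_nhds (s := {z}ᶜ))
            simpa using h2
          refine squeeze_zero' ?_ ?_ h1
          · filter_upwards with w
            have := wt_nonneg κ α β r g w
            positivity
          · filter_upwards [hB] with w hw1
            have h3 : wt κ α β r g w ≤ max B 0 := hw1.trans (le_max_left _ _)
            have := wt_nonneg κ α β r g w
            gcongr
        have h4 := hmain.mul hrest
        rw [zero_mul] at h4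
        refine h4.congr ?_
        intro w
        simp only [hΦ]
        rw [← Finset.mul_prod_erase S _ hzS]
        ring
      · have h1 := wt_continuousAt' (fun i => (hr z hz hzS i).1.continuousAt)
          (hg z hz hzS).continuousAt κ α β (fun i => (hr z hz hzS i).2)
        have hc2 : Continuous fun w : ℂ => ∏ s ∈ S, ‖w - s‖ := by
          refine continuous_finsetProd _ fun s _ => ?_
          fun_prop
        exact ((h1.pow k).mul hc1.continuousAt).mul hc2.continuousAt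
    have h0mem : (0 : ℂ) ∈ Metric.closedBall (0 : ℂ) R := by
      rw [mem_closedBall_zero_iff]
      exact hR0
    obtain ⟨zm, hzm, hmax⟩ := (isCompact_closedBall (0 : ℂ) R).exists_isMaxOn
      ⟨0, h0mem⟩ hΦcont
    have hΦ₀pos : 0 < Φ 0 := by
      simp only [hΦ]
      have := hPpos 0 h0
      rw [norm_zero]
      have h2 : 0 < R ^ 2 - (0 : ℝ) ^ 2 := by
        have : 0 < R ^ 2 := by positivity
        linarith
      positivity
    have hΦm : Φ 0 ≤ Φ zm := hmax h0mem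
    have hΦmpos : 0 < Φ zm := hΦ₀pos.trans_le hΦm
    have hkρ : 2 * ρ * k ≠ 0 := by positivity
    have hzmS : zm ∉ S := by
      intro h
      have : Φ zm = 0 := by
        simp only [hΦ]
        rw [Finset.prod_eq_zero h (by simp), mul_zero]
      linarith
    have hzmR : ‖zm‖ < R := by
      rcases lt_or_eq_of_le (mem_closedBall_zero_iff.mp hzm) with h | h
      · exact h
      · exfalso
        have : Φ zm = 0 := by
          simp only [hΦ]
          rw [h, sub_self, zero_pow hkρ]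
          ring
        linarith
    have hzmr : ∀ i, r i zm ≠ 0 := fun i => (hr zm hzmR.le hzmS i).2
    have hzmg : g zm ≠ 0 := by
      intro h
      have : Φ zm = 0 := by
        simp only [hΦ, wt, h]
        simp [hk.ne']
      linarith
    have hlocmax : IsLocalMax Φ zm := by
      refine hmax.isLocalMax ?_
      exact Filter.mem_of_superset (Metric.isOpen_ball.mem_nhds (by
        rw [mem_ball_zero_iff]; exact hzmR)) Metric.ball_subset_closedBall
    have hV := powVar_le_at_max (ρ := ρ) hα hκ hk (fun i => (hr zm hzmR.le hzmS i).1)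
      (hg zm hzmR.le hzmS) hzmR hzmS hzmr hzmg hlocmax
    have hVnn := powVar_nonneg (κ := κ) hzmr
    have hmm : 0 < R ^ 2 - ‖zm‖ ^ 2 := by
      have := norm_nonneg zm
      nlinarith
    have hw1 : wt κ α β r g zm * (R ^ 2 - ‖zm‖ ^ 2) ^ (2 * ρ) ≤ D * (8 * ρ * R ^ 2) ^ ρ := by
      calc wt κ α β r g zm * (R ^ 2 - ‖zm‖ ^ 2) ^ (2 * ρ)
          ≤ (C * (8 * ρ * R ^ 2 / (R ^ 2 - ‖zm‖ ^ 2) ^ 2 / (α * κ ^ 2)) ^ ρ) *
              (R ^ 2 - ‖zm‖ ^ 2) ^ (2 * ρ) := by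
            gcongr
            refine (hbound zm hzmR.le hzmS).trans ?_
            gcongr
        _ = D * (8 * ρ * R ^ 2) ^ ρ := by
            rw [hD, div_pow, div_pow, div_pow, ← pow_mul, one_pow]
            field_simp
    have hprodle : ∏ s ∈ S, ‖zm - s‖ ≤ ∏ s ∈ S, (R + ‖s‖) := by
      refine Finset.prod_le_prod (fun s _ => norm_nonneg _) fun s hs => ?_
      refine (norm_sub_le _ _).trans ?_
      linarith
    have e0 : Φ 0 = (w₀ * (R ^ 2) ^ (2 * ρ)) ^ k * ∏ s ∈ S, ‖0 - s‖ := by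
      simp only [hΦ]
      rw [mul_pow, ← pow_mul, norm_zero]
      have h9 : R ^ 2 - (0 : ℝ) ^ 2 = R ^ 2 := by ring
      rw [h9]
    have em : Φ zm = (wt κ α β r g zm * (R ^ 2 - ‖zm‖ ^ 2) ^ (2 * ρ)) ^ k *
        ∏ s ∈ S, ‖zm - s‖ := by
      simp only [hΦ]
      rw [mul_pow, ← pow_mul]
    rw [← e0]
    refine hΦm.trans ?_
    rw [em]
    have hnn := wt_nonneg κ α β r g zm
    have := (hPpos zm hzmS).le
    gcongr
  have hRR : 0 < (R ^ 2) ^ ρ := by positivity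
  have e1 : w₀ * (R ^ 2) ^ (2 * ρ) = (w₀ * R ^ (2 * ρ)) * (R ^ 2) ^ ρ := by
    rw [← pow_mul, ← pow_mul, mul_assoc, ← pow_add]
    congr 2
    ring
  have e2 : D * (8 * ρ * R ^ 2) ^ ρ = (C * (8 * ρ / (α * κ ^ 2)) ^ ρ) * (R ^ 2) ^ ρ := by
    rw [hD, mul_pow, div_pow, div_pow, one_pow]
    ring
  rw [e1, e2] at key
  exact le_of_mul_le_mul_right key hRR

/-- The estimate at the centre of a disc. -/
theorem schwarz_disc [Nonempty ι] {r : ι → ℂ → ℂ} {g : ℂ → ℂ} {κ α : ℝ} {β : ι → ℝ} {ρ : ℕ}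
    (hκ : 0 < κ) (hα : 0 < α) (hρ : 0 < ρ) {c : ℂ} {R : ℝ} (hR : 0 < R) {S : Finset ℂ}
    (h0 : c ∉ S) (hr : ∀ z, ‖z - c‖ ≤ R → z ∉ S → ∀ i, AnalyticAt ℂ (r i) z ∧ r i z ≠ 0)
    (hg : ∀ z, ‖z - c‖ ≤ R → z ∉ S → AnalyticAt ℂ g z) {C : ℝ} (hC : 0 ≤ C)
    (hbound : ∀ z, ‖z - c‖ ≤ R → z ∉ S → wt κ α β r g z ≤ C * powVar κ r z ^ ρ)
    (hloc : ∀ s, ‖s - c‖ ≤ R → s ∈ S → ∃ B, ∀ᶠ z in 𝓝[≠] s, wt κ α β r g z ≤ B) :
    wt κ α β r g c * R ^ (2 * ρ) ≤ C * (8 * ρ / (α * κ ^ 2)) ^ ρ := by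
  classical
  have hnorm : ∀ z : ℂ, ‖z‖ ≤ R → ‖(c + z) - c‖ ≤ R := fun z hz => by simpa using hz
  have hmem : ∀ z : ℂ, z ∉ S.image (fun s => s - c) → c + z ∉ S := by
    intro z hz h
    exact hz (Finset.mem_image.mpr ⟨c + z, h, by ring⟩)
  have han : ∀ (f : ℂ → ℂ) (z : ℂ), AnalyticAt ℂ f (c + z) → AnalyticAt ℂ (fun w => f (c + w)) z :=
    fun f z h => h.fun_comp (analyticAt_const.add analyticAt_id)
  have hwt : ∀ z, wt κ α β (fun i z => r i (c + z)) (fun z => g (c + z)) z =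
      wt κ α β r g (c + z) := fun z => rfl
  have hpv : ∀ z, powVar κ (fun i z => r i (c + z)) z = powVar κ r (c + z) := by
    intro z
    unfold powVar
    congr 1
    funext i
    rw [deriv_comp_const_add]
  have h1 := schwarz_disc_zero (r := fun i z => r i (c + z)) (g := fun z => g (c + z)) (β := β)
    hκ hα hρ hR (S := S.image fun s => s - c) (by
      intro h
      obtain ⟨s, hs, hs'⟩ := Finset.mem_image.mp h
      rw [sub_eq_zero] at hs'
      rw [hs'] at hs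
      exact h0 hs) (fun z hz hzS i => ⟨han _ z (hr _ (hnorm z hz) (hmem z hzS) i).1,
        (hr _ (hnorm z hz) (hmem z hzS) i).2⟩) (fun z hz hzS => han _ z (hg _ (hnorm z hz)
        (hmem z hzS))) hC (fun z hz hzS => by
          rw [hwt, hpv]
          exact hbound _ (hnorm z hz) (hmem z hzS)) (fun s hs hsS => by
          obtain ⟨s', hs', hs''⟩ := Finset.mem_image.mp hsS
          have hs3 : s' = c + s := by rw [← hs'']; ring
          obtain ⟨B, hB⟩ := hloc s' (by rw [hs3]; exact hnorm s hs) hs'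
          refine ⟨B, ?_⟩
          rw [hs3] at hB
          have h2 : Tendsto (fun z => c + z) (𝓝[≠] s) (𝓝[≠] (c + s)) := by
            refine tendsto_nhdsWithin_iff.mpr ⟨?_, ?_⟩
            · exact ((continuous_const.add continuous_id).tendsto s).mono_left nhdsWithin_le_nhds
            · filter_upwards [self_mem_nhdsWithin] with z hz h3
              exact hz (add_left_cancel h3)
          exact h2.eventually hB)
  rw [hwt, add_zero] at h1
  exact h1

end Pool.Agent.H92.GGL
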