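import Pool.Agent.H92.GGL.NevMero
import Pool.Agent.H92.GGL.SchwarzDisc

/-!
# The main inequality on a punctured disc
-/

open Complex MeasureTheory Metric Set Topology Filter

namespace Pool.Agent.H92.GGL

open Pool.Agent.H17

variable {ι : Type} [Fintype ι]

/-- Local boundedness of the weight. -/
lemma wt_bounded_of_orders [Nonempty ι] {κ α : ℝ} {β : ι → ℝ} {u : ι → ℂ → ℂ} {g : ℂ → ℂ} {s : ℂ}
    (hκ : 0 < κ) (hα : 0 ≤ α) (hu : ∀ i, MeromorphicAt (u i) s)
    (huo : ∀ i, meromorphicOrderAt (u i) s ≠ ⊤) (hg : MeromorphicAt g s)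
    (hgo : meromorphicOrderAt g s ≠ ⊤)
    (hloc : ∀ j, 0 ≤ 2 * (ordZ g s : ℝ) - ∑ i, β i * ordZ (u i) s + κ * α * ordZ (u j) s) :
    ∃ B, ∀ᶠ z in 𝓝[≠] s, wt κ α β u g z ≤ B := by
  choose h hh hh0 hue using fun i => (meromorphicOrderAt_ne_top_iff (hu i)).mp (huo i)
  obtain ⟨h', hh', -, hge⟩ := (meromorphicOrderAt_ne_top_iff hg).mp hgo
  obtain ⟨j, -, hj⟩ := (Finset.univ : Finset ι).exists_min_image (fun i => ordZ (u i) s)
    Finset.univ_nonempty
  -- bounds for the units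
  have hb : ∀ (f : ℂ → ℝ), ContinuousAt f s → ∃ B : ℝ, 0 ≤ B ∧ ∀ᶠ z in 𝓝[≠] s, f z ≤ B := by
    intro f hf
    refine ⟨|f s| + 1, by positivity, ?_⟩
    have h1 : ∀ᶠ z in 𝓝 s, f z < |f s| + 1 := hf.eventually_lt continuousAt_const (by
      have := le_abs_self (f s)
      linarith)
    filter_upwards [mem_nhdsWithin_of_mem_nhds h1] with z hz using (le_of_lt hz)
  obtain ⟨Bg, hBg0, hBg⟩ := hb (fun z => ‖h' z‖) hh'.continuousAt.norm
  choose Bu hBu0 hBu using fun i => hb (fun z => ‖h i z‖ ^ κ)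
    ((hh i).continuousAt.norm.rpow_const (Or.inl (norm_ne_zero_iff.mpr (hh0 i))))
  choose Bβ hBβ0 hBβ using fun i => hb (fun z => ‖h i z‖ ^ (-(β i)))
    ((hh i).continuousAt.norm.rpow_const (Or.inl (norm_ne_zero_iff.mpr (hh0 i))))
  refine ⟨Bg ^ 2 * (∑ i, Bu i) ^ α * ∏ i, Bβ i, ?_⟩
  have hball : ∀ᶠ z in 𝓝[≠] s, ‖z - s‖ ≤ 1 := by
    have : ∀ᶠ z in 𝓝 s, z ∈ Metric.closedBall s 1 := Metric.closedBall_mem_nhds s one_pos
    filter_upwards [mem_nhdsWithin_of_mem_nhds this] with z hz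
    rwa [mem_closedBall_iff_norm] at hz
  filter_upwards [hBg, eventually_all.mpr hBu, eventually_all.mpr hBβ, eventually_all.mpr hue, hge,
    hball, self_mem_nhdsWithin] with z h1 h2 h3 h4 h5 h6 h7
  have hzs : 0 < ‖z - s‖ := norm_pos_iff.mpr (sub_ne_zero.mpr h7)
  set x : ℝ := ‖z - s‖ with hx
  have hnorm : ∀ i, ‖u i z‖ = x ^ (ordZ (u i) s : ℝ) * ‖h i z‖ := by
    intro i
    rw [h4 i, smul_eq_mul, norm_mul, norm_zpow, Real.rpow_intCast]
    rfl
  have hnormg : ‖g z‖ = x ^ (ordZ g s : ℝ) * ‖h' z‖ := by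
    rw [h5, smul_eq_mul, norm_mul, norm_zpow, Real.rpow_intCast]
    rfl
  have hBusum : 0 ≤ ∑ i, Bu i := Finset.sum_nonneg fun i _ => hBu0 i
  -- the power sum
  have hU : powSum κ u z ≤ x ^ (κ * ordZ (u j) s : ℝ) * ∑ i, Bu i := by
    unfold powSum
    rw [Finset.mul_sum]
    refine Finset.sum_le_sum fun i _ => ?_
    rw [hnorm, Real.mul_rpow (by positivity) (by positivity), ← Real.rpow_mul hzs.le]
    have h8 : x ^ ((ordZ (u i) s : ℝ) * κ) ≤ x ^ (κ * ordZ (u j) s : ℝ) := by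
      apply Real.rpow_le_rpow_of_exponent_ge hzs h6
      have h9 : (ordZ (u j) s : ℝ) ≤ ordZ (u i) s := by exact_mod_cast hj i (Finset.mem_univ i)
      nlinarith
    have := h2 i
    gcongr
  have hUα : powSum κ u z ^ α ≤ x ^ (κ * ordZ (u j) s * α : ℝ) * (∑ i, Bu i) ^ α := by
    calc powSum κ u z ^ α ≤ (x ^ (κ * ordZ (u j) s : ℝ) * ∑ i, Bu i) ^ α :=
          Real.rpow_le_rpow (powSum_nonneg _ _ _) hU hα
      _ = _ := by
        rw [Real.mul_rpow (by positivity) hBusum, ← Real.rpow_mul hzs.le]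
  have hprod : ∏ i, ‖u i z‖ ^ (-(β i)) ≤ x ^ (-∑ i, β i * ordZ (u i) s) * ∏ i, Bβ i := by
    have h8 : x ^ (-∑ i, β i * ordZ (u i) s) = ∏ i, x ^ (-(β i * ordZ (u i) s)) := by
      rw [← Finset.sum_neg_distrib, Real.rpow_sum_of_pos hzs]
    rw [h8, ← Finset.prod_mul_distrib]
    refine Finset.prod_le_prod (fun i _ => by positivity) fun i _ => ?_
    rw [hnorm, Real.mul_rpow (by positivity) (by positivity), ← Real.rpow_mul hzs.le]
    have h9 : (ordZ (u i) s : ℝ) * -(β i) = -(β i * ordZ (u i) s) := by ring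
    rw [h9]
    have := h3 i
    gcongr
  have hg2 : ‖g z‖ ^ 2 ≤ x ^ (2 * ordZ g s : ℝ) * Bg ^ 2 := by
    rw [hnormg, mul_pow, ← Real.rpow_natCast (x ^ (ordZ g s : ℝ)), ← Real.rpow_mul hzs.le]
    have h8 : (ordZ g s : ℝ) * ((2 : ℕ) : ℝ) = 2 * ordZ g s := by push_cast; ring
    rw [h8]
    gcongr
  have hprodnn : 0 ≤ ∏ i, ‖u i z‖ ^ (-(β i)) := Finset.prod_nonneg fun i _ => by positivity
  have hBβnn : 0 ≤ ∏ i, Bβ i := Finset.prod_nonneg fun i _ => hBβ0 i
  have hUnn := powSum_nonneg κ u z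
  unfold wt
  calc ‖g z‖ ^ 2 * powSum κ u z ^ α * ∏ i, ‖u i z‖ ^ (-(β i))
      ≤ (x ^ (2 * ordZ g s : ℝ) * Bg ^ 2) * (x ^ (κ * ordZ (u j) s * α : ℝ) * (∑ i, Bu i) ^ α) *
        (x ^ (-∑ i, β i * ordZ (u i) s) * ∏ i, Bβ i) := by gcongr
    _ = x ^ (2 * ordZ g s + κ * ordZ (u j) s * α + -∑ i, β i * ordZ (u i) s) *
        (Bg ^ 2 * (∑ i, Bu i) ^ α * ∏ i, Bβ i) := by
        rw [Real.rpow_add hzs, Real.rpow_add hzs]
        ring
    _ ≤ 1 * (Bg ^ 2 * (∑ i, Bu i) ^ α * ∏ i, Bβ i) := by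
        have h8 : x ^ (2 * ordZ g s + κ * ordZ (u j) s * α + -∑ i, β i * ordZ (u i) s : ℝ) ≤ 1 := by
          apply Real.rpow_le_one hzs.le h6
          have := hloc j
          linarith
        have h9 : 0 ≤ (∑ i, Bu i) ^ α := Real.rpow_nonneg hBusum _
        gcongr
    _ = _ := one_mul _

/-- A set without accumulation points in a compact set has finitely many points there. -/
lemma finite_of_isolated {K P : Set ℂ} (hK : IsCompact K) (h : ∀ z ∈ K, ∀ᶠ w in 𝓝[≠] z, w ∉ P) :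
    (K ∩ P).Finite := by
  classical
  have h1 : ∀ z ∈ K, {w | w ≠ z → w ∉ P} ∈ 𝓝 z := by
    intro z hz
    exact eventually_nhdsWithin_iff.mp (h z hz)
  obtain ⟨t, -, ht⟩ := hK.elim_nhds_subcover (fun z => {w | w ≠ z → w ∉ P}) h1
  refine t.finite_toSet.subset ?_
  rintro w ⟨hwK, hwP⟩
  obtain ⟨z, hz, hwz⟩ := Set.mem_iUnion₂.mp (ht hwK)
  by_contra hwt
  refine hwz ?_ hwP
  rintro rfl
  exact hwt hz

/-- **Main inequality.**  The functions `u j` have at most polynomial growth at the puncture. -/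
theorem growth_of_weights [Nonempty ι] {κ α : ℝ} {β : ι → ℝ} {ρ : ℕ} (hκ : 0 < κ) (hα : 0 < α)
    (hρ : 0 < ρ) {u : ι → ℂ → ℂ} {g : ℂ → ℂ} {R₀ : ℝ} (hR₀ : 0 < R₀)
    (hu : ∀ i z, 0 < ‖z‖ → ‖z‖ < R₀ → MeromorphicAt (u i) z)
    (huo : ∀ i z, 0 < ‖z‖ → ‖z‖ < R₀ → meromorphicOrderAt (u i) z ≠ ⊤)
    (hg : ∀ z, 0 < ‖z‖ → ‖z‖ < R₀ → MeromorphicAt g z)
    (hgo : ∀ z, 0 < ‖z‖ → ‖z‖ < R₀ → meromorphicOrderAt g z ≠ ⊤)
    {i₀ : ι} (hone : ∀ z, u i₀ z ≠ 0 → u i₀ z = 1) {C : ℝ} (hC : 0 ≤ C)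
    (hbound : ∀ z, 0 < ‖z‖ → ‖z‖ < R₀ → (∀ i, AnalyticAt ℂ (u i) z ∧ u i z ≠ 0) →
      AnalyticAt ℂ g z ∧ wt κ α β u g z ≤ C * powVar κ u z ^ ρ)
    (hloc : ∀ s, 0 < ‖s‖ → ‖s‖ < R₀ → ∀ j,
      0 ≤ 2 * (ordZ g s : ℝ) - ∑ i, β i * ordZ (u i) s + κ * α * ordZ (u j) s) (j : ι) :
    ∃ (ε M : ℝ) (m : ℕ), 0 < ε ∧ 0 ≤ M ∧ ∀ z, 0 < ‖z‖ → ‖z‖ < ε →
      0 ≤ meromorphicOrderAt (u j) z ∧ (AnalyticAt ℂ (u j) z → ‖u j z‖ * ‖z‖ ^ m ≤ M) := by
  classical
  set R₁ : ℝ := R₀ / 2 with hR₁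
  have hR₁0 : 0 < R₁ := by positivity
  have hR₁R₀ : R₁ < R₀ := by linarith
  -- the bad set
  set Bad : Set ℂ := {z | ¬ ∀ i, AnalyticAt ℂ (u i) z ∧ u i z ≠ 0} with hBad
  have hgood : ∀ z, z ∉ Bad ↔ ∀ i, AnalyticAt ℂ (u i) z ∧ u i z ≠ 0 := by
    intro z
    rw [hBad, mem_ofPred_eq, not_not]
  have hiso : ∀ z, 0 < ‖z‖ → ‖z‖ < R₀ → ∀ᶠ w in 𝓝[≠] z, w ∉ Bad := by
    intro z h1 h2
    have h3 : ∀ i, ∀ᶠ w in 𝓝[≠] z, AnalyticAt ℂ (u i) w ∧ u i w ≠ 0 := fun i =>
      (hu i z h1 h2).eventually_analyticAt.and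
        ((meromorphicOrderAt_ne_top_iff_eventually_ne_zero (hu i z h1 h2)).mp (huo i z h1 h2))
    filter_upwards [eventually_all.mpr h3] with w hw
    exact (hgood w).mpr hw
  have hord0 : ∀ z, 0 < ‖z‖ → ‖z‖ < R₀ → ordZ (u i₀) z = 0 := by
    intro z h1 h2
    have h3 : u i₀ =ᶠ[𝓝[≠] z] fun _ => (1 : ℂ) := by
      filter_upwards [(meromorphicOrderAt_ne_top_iff_eventually_ne_zero (hu i₀ z h1 h2)).mp
        (huo i₀ z h1 h2)] with w hw
      exact hone w hw
    unfold ordZ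
    rw [meromorphicOrderAt_congr h3, meromorphicOrderAt_const]
    simp
  -- the pointwise estimate
  set C₁ : ℝ := max (C * (8 * ρ / (α * κ ^ 2)) ^ ρ) 1 with hC₁
  have hC₁pos : 0 < C₁ := lt_of_lt_of_le one_pos (le_max_right _ _)
  have hpoint : ∀ z, 0 < ‖z‖ → ‖z‖ < R₁ → z ∉ Bad →
      wt κ α β u g z * (‖z‖ / 2) ^ (2 * ρ) ≤ C₁ := by
    intro z h1 h2 hz
    have hball : ∀ w, ‖w - z‖ ≤ ‖z‖ / 2 → 0 < ‖w‖ ∧ ‖w‖ < R₀ := by
      intro w hw
      have h3 : ‖z‖ ≤ ‖w‖ + ‖w - z‖ := by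
        have := norm_sub_le w (w - z)
        simpa using this
      have h4 : ‖w‖ ≤ ‖w - z‖ + ‖z‖ := by
        have := norm_add_le (w - z) z
        simpa using this
      constructor <;> linarith
    have hKc : IsCompact (Metric.closedBall z (‖z‖ / 2)) := isCompact_closedBall _ _
    have hfin : (Metric.closedBall z (‖z‖ / 2) ∩ Bad).Finite := by
      refine finite_of_isolated hKc fun w hw => ?_
      rw [mem_closedBall_iff_norm] at hw
      exact hiso w (hball w hw).1 (hball w hw).2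
    have hnotS : ∀ w, ‖w - z‖ ≤ ‖z‖ / 2 → w ∉ hfin.toFinset → w ∉ Bad := by
      intro w hw hwS hwB
      exact hwS (hfin.mem_toFinset.mpr ⟨by rwa [mem_closedBall_iff_norm], hwB⟩)
    refine (schwarz_disc (r := u) (g := g) (β := β) hκ hα hρ (c := z) (R := ‖z‖ / 2)
      (by positivity) (S := hfin.toFinset) ?_ ?_ ?_ hC ?_ ?_).trans (le_max_left _ _)
    · intro h
      exact hz (hfin.mem_toFinset.mp h).2
    · intro w hw hwS i
      exact (hgood w).mp (hnotS w hw hwS) i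
    · intro w hw hwS
      exact (hbound w (hball w hw).1 (hball w hw).2 ((hgood w).mp (hnotS w hw hwS))).1
    · intro w hw hwS
      exact (hbound w (hball w hw).1 (hball w hw).2 ((hgood w).mp (hnotS w hw hwS))).2
    · intro s hs _
      obtain ⟨h3, h4⟩ := hball s hs
      exact wt_bounded_of_orders hκ hα.le (fun i => hu i s h3 h4) (fun i => huo i s h3 h4)
        (hg s h3 h4) (hgo s h3 h4) (hloc s h3 h4)
  -- the logarithmic form
  set F₂ : ℂ → ℝ := fun z => (Real.log C₁ + 2 * ρ * Real.log 2 - 2 * ρ * Real.log ‖z‖) +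
    (-2 * Real.log ‖g z‖ + ∑ i, β i * Real.log ‖u i z‖) with hF₂
  have hlogF : ∀ z, 0 < ‖z‖ → ‖z‖ < R₁ → z ∉ Bad → g z ≠ 0 →
      α * κ * Real.posLog ‖u j z‖ ≤ F₂ z := by
    intro z h1 h2 hz hgz
    have hne : ∀ i, u i z ≠ 0 := fun i => ((hgood z).mp hz i).2
    have hpos : ∀ i, 0 < ‖u i z‖ := fun i => norm_pos_iff.mpr (hne i)
    have hU : 0 < powSum κ u z := powSum_pos hne
    have hP : 0 < ∏ i, ‖u i z‖ ^ (-(β i)) := Finset.prod_pos fun i _ =>
      Real.rpow_pos_of_pos (hpos i) _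
    have hg0 : 0 < ‖g z‖ := norm_pos_iff.mpr hgz
    have hle : ∀ i, ‖u i z‖ ^ κ ≤ powSum κ u z := fun i =>
      Finset.single_le_sum (f := fun i => ‖u i z‖ ^ κ) (fun i _ => by positivity)
        (Finset.mem_univ i)
    have h3 : κ * Real.posLog ‖u j z‖ ≤ Real.log (powSum κ u z) := by
      have h4 : 0 ≤ Real.log (powSum κ u z) := by
        apply Real.log_nonneg
        have := hle i₀
        rw [hone z (hne i₀)] at this
        simpa using this
      have h5 : κ * Real.log ‖u j z‖ ≤ Real.log (powSum κ u z) := by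
        rw [← Real.log_rpow (hpos j)]
        exact Real.log_le_log (Real.rpow_pos_of_pos (hpos j) _) (hle j)
      rcases le_total 0 (Real.log ‖u j z‖) with h6 | h6
      · rw [Real.posLog_apply, max_eq_right h6]
        exact h5
      · rw [Real.posLog_apply, max_eq_left h6, mul_zero]
        exact h4
    have h7 := hpoint z h1 h2 hz
    have hw : 0 < wt κ α β u g z := by
      unfold wt
      have := Real.rpow_pos_of_pos hU α
      positivity
    have h8 : Real.log (wt κ α β u g z) + 2 * ρ * (Real.log ‖z‖ - Real.log 2) ≤ Real.log C₁ := by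
      have h9 := Real.log_le_log (by positivity) h7
      rw [Real.log_mul hw.ne' (by positivity), Real.log_pow, Real.log_div h1.ne' two_ne_zero] at h9
      push_cast at h9
      exact h9
    have h10 : Real.log (wt κ α β u g z) = 2 * Real.log ‖g z‖ + α * Real.log (powSum κ u z) -
        ∑ i, β i * Real.log ‖u i z‖ := by
      unfold wt
      rw [Real.log_mul (by positivity) hP.ne', Real.log_mul (by positivity)
        (Real.rpow_pos_of_pos hU α).ne', Real.log_pow, Real.log_rpow hU,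
        Real.log_prod (fun i _ => (Real.rpow_pos_of_pos (hpos i) _).ne')]
      have h11 : ∑ i, Real.log (‖u i z‖ ^ (-(β i))) = -∑ i, β i * Real.log ‖u i z‖ := by
        rw [← Finset.sum_neg_distrib]
        refine Finset.sum_congr rfl fun i _ => ?_
        rw [Real.log_rpow (hpos i)]
        ring
      rw [h11]
      push_cast
      ring
    have h12 : α * (κ * Real.posLog ‖u j z‖) ≤ α * Real.log (powSum κ u z) :=
      mul_le_mul_of_nonneg_left h3 hα.le
    simp only [hF₂]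
    rw [h10] at h8
    nlinarith
  -- Jensen's formula
  obtain ⟨Ag, Bg, hJg⟩ := jensen_punctured hR₁R₀ hg hgo
  choose Au Bu hJu using fun i => jensen_punctured hR₁R₀ (hu i) (huo i)
  set c₀ : ℝ := Real.log C₁ + 2 * ρ * Real.log 2 - 2 * Ag + ∑ i, β i * Au i with hc₀
  set d₀ : ℝ := 2 * ρ + 2 * Bg - ∑ i, β i * Bu i with hd₀
  have hακ : 0 < α * κ := mul_pos hα hκ
  refine growth_of_char hR₁0 hR₁R₀ (hu j) (C := c₀ / (α * κ)) (D := d₀ / (α * κ)) ?_
  intro r hr1 hr2 S hS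
  have hsph : ∀ z ∈ sphere (0 : ℂ) |r|, 0 < ‖z‖ ∧ ‖z‖ < R₀ ∧ ‖z‖ < R₁ ∧ ‖z‖ = r := by
    intro z hz
    rw [mem_sphere_zero_iff_norm, abs_of_pos hr1] at hz
    rw [hz]
    exact ⟨hr1, hr2.trans hR₁R₀, hr2, rfl⟩
  have hmu : ∀ i, MeromorphicOn (u i) (sphere 0 |r|) := fun i z hz =>
    hu i z (hsph z hz).1 (hsph z hz).2.1
  have hmg : MeromorphicOn g (sphere 0 |r|) := fun z hz => hg z (hsph z hz).1 (hsph z hz).2.1
  -- integrability
  have hIu : ∀ i, CircleIntegrable (fun z => Real.log ‖u i z‖) 0 r := fun i =>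
    MeromorphicOn.circleIntegrable_log_norm (hmu i)
  have hIg : CircleIntegrable (fun z => Real.log ‖g z‖) 0 r :=
    MeromorphicOn.circleIntegrable_log_norm hmg
  have hIz : CircleIntegrable (fun z => Real.log ‖z‖) 0 r := by
    have := circleIntegrable_log_norm_sub_const (a := (0 : ℂ)) (c := 0) r
    simpa using this
  have hIp : CircleIntegrable (fun z => Real.posLog ‖u j z‖) 0 r :=
    MeromorphicOn.circleIntegrable_posLog_norm (hmu j)
  have hI1 : CircleIntegrable (fun z : ℂ => Real.log C₁ + 2 * ρ * Real.log 2 -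
      2 * ρ * Real.log ‖z‖) 0 r := by
    refine CircleIntegrable.fun_sub (circleIntegrable_const _ _ _) ?_
    exact hIz.const_fun_smul (a := (2 * ρ : ℝ))
  have hI2 : CircleIntegrable (fun z => -2 * Real.log ‖g z‖) 0 r := hIg.const_fun_smul (a := (-2 : ℝ))
  have hI3' : ∀ i ∈ (Finset.univ : Finset ι),
      CircleIntegrable (fun z => β i * Real.log ‖u i z‖) 0 r := fun i _ =>
    (hIu i).const_fun_smul (a := β i)
  have hI3 : CircleIntegrable (fun z => ∑ i, β i * Real.log ‖u i z‖) 0 r :=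
    CircleIntegrable.fun_sum _ hI3'
  have hIF₂ : CircleIntegrable F₂ 0 r := hI1.fun_add (hI2.fun_add hI3)
  -- the mean of the right-hand side
  have hmean : Real.circleAverage F₂ 0 r = (Real.log C₁ + 2 * ρ * Real.log 2 -
      2 * ρ * Real.log r) + (-2 * Real.circleAverage (fun z => Real.log ‖g z‖) 0 r +
        ∑ i, β i * Real.circleAverage (fun z => Real.log ‖u i z‖) 0 r) := by
    simp only [hF₂]
    rw [Real.circleAverage_fun_add hI1 (hI2.fun_add hI3), Real.circleAverage_fun_add hI2 hI3,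
      Real.circleAverage_fun_sum hI3']
    congr 1
    · apply Real.circleAverage_const_on_circle
      intro z hz
      rw [(hsph z hz).2.2.2]
    · congr 1
      · exact Real.circleAverage_fun_smul (a := (-2 : ℝ)) (f := fun z => Real.log ‖g z‖)
      · refine Finset.sum_congr rfl fun i _ => ?_
        exact Real.circleAverage_fun_smul (a := β i) (f := fun z => Real.log ‖u i z‖)
  -- comparison of the means
  have hcomp : α * κ * Real.circleAverage (fun z => Real.posLog ‖u j z‖) 0 r ≤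
      Real.circleAverage F₂ 0 r := by
    have h1 : α * κ * Real.circleAverage (fun z => Real.posLog ‖u j z‖) 0 r =
        Real.circleAverage (fun z => α * κ * Real.posLog ‖u j z‖) 0 r :=
      (Real.circleAverage_fun_smul (a := (α * κ : ℝ)) (f := fun z => Real.posLog ‖u j z‖)).symm
    have hIp' : CircleIntegrable (fun z => α * κ * Real.posLog ‖u j z‖) 0 r :=
      hIp.const_fun_smul (a := (α * κ : ℝ))
    set f₁ : ℂ → ℝ := fun z => if z ∈ Bad ∨ g z = 0 then F₂ z else α * κ * Real.posLog ‖u j z‖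
      with hf₁
    have hev : (fun z => α * κ * Real.posLog ‖u j z‖) =ᶠ[codiscreteWithin (sphere 0 |r|)] f₁ := by
      rw [Filter.EventuallyEq, eventually_iff, mem_codiscreteWithin]
      intro z hz
      rw [disjoint_principal_right]
      obtain ⟨h2, h3, -⟩ := hsph z hz
      filter_upwards [hiso z h2 h3, (meromorphicOrderAt_ne_top_iff_eventually_ne_zero
        (hg z h2 h3)).mp (hgo z h2 h3)] with w hw1 hw2
      rintro ⟨-, hw3⟩
      apply hw3
      rw [mem_ofPred_eq]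
      simp only [hf₁]
      rw [if_neg]
      rintro (h | h)
      · exact hw1 h
      · exact hw2 h
    rw [h1, Real.circleAverage_congr_codiscreteWithin hev hr1.ne']
    refine Real.circleAverage_mono (hIp'.congr_codiscreteWithin hev) hIF₂ ?_
    intro z hz
    obtain ⟨h2, h3, h4, -⟩ := hsph z hz
    simp only [hf₁]
    split_ifs with h5
    · exact le_rfl
    · rw [not_or] at h5
      exact hlogF z h2 h4 h5.1 h5.2
  -- the set of all relevant points
  have hfing := finite_ordZ (a := r) (b := R₁) hr1 hR₁R₀ hg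
  have hfinu := fun i => finite_ordZ (a := r) (b := R₁) hr1 hR₁R₀ (hu i)
  set S' : Finset ℂ := S ∪ (hfing.toFinset ∪ Finset.univ.biUnion fun i =>
    (hfinu i).toFinset).filter (fun s => ‖s‖ < R₁) with hS'
  have hS'1 : ∀ s ∈ S', 0 < ‖s‖ ∧ ‖s‖ < R₁ := by
    intro s hs
    rw [hS', Finset.mem_union, Finset.mem_filter, Finset.mem_union, Finset.mem_biUnion,
      hfing.mem_toFinset] at hs
    rcases hs with hs | ⟨hs | ⟨i, -, hs⟩, hs2⟩
    · exact hS s hs
    · exact ⟨hr1.trans_le hs.1, hs2⟩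
    · rw [(hfinu i).mem_toFinset] at hs
      exact ⟨hr1.trans_le hs.1, hs2⟩
  have hS'g : ∀ s, r < ‖s‖ → ‖s‖ < R₁ → ordZ g s ≠ 0 → s ∈ S' := by
    intro s h3 h4 h5
    rw [hS', Finset.mem_union, Finset.mem_filter, Finset.mem_union, hfing.mem_toFinset]
    exact Or.inr ⟨Or.inl ⟨h3.le, h4.le, h5⟩, h4⟩
  have hS'u : ∀ i s, r < ‖s‖ → ‖s‖ < R₁ → ordZ (u i) s ≠ 0 → s ∈ S' := by
    intro i s h3 h4 h5
    rw [hS', Finset.mem_union, Finset.mem_filter, Finset.mem_union, Finset.mem_biUnion]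
    exact Or.inr ⟨Or.inr ⟨i, Finset.mem_univ i, (hfinu i).mem_toFinset.mpr ⟨h3.le, h4.le, h5⟩⟩, h4⟩
  have hJg' := hJg r hr1 hr2 S' (fun s hs => (hS'1 s hs).2) hS'g
  have hJu' := fun i => hJu i r hr1 hr2 S' (fun s hs => (hS'1 s hs).2) (hS'u i)
  -- the sum over the points
  have hsum : ∑ s ∈ S', (-(2 * (ordZ g s : ℝ)) + ∑ i, β i * ordZ (u i) s) *
      Real.posLog (‖s‖ / r) ≤ -(α * κ * ∑ s ∈ S', max (-(ordZ (u j) s : ℝ)) 0 *
        Real.posLog (‖s‖ / r)) := by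
    rw [Finset.mul_sum, ← Finset.sum_neg_distrib]
    refine Finset.sum_le_sum fun s hs => ?_
    obtain ⟨h3, h4⟩ := hS'1 s hs
    have h5 := hloc s h3 (h4.trans hR₁R₀) j
    have h6 := hloc s h3 (h4.trans hR₁R₀) i₀
    rw [hord0 s h3 (h4.trans hR₁R₀)] at h6
    have h7 : (0 : ℝ) ≤ Real.posLog (‖s‖ / r) := Real.posLog_nonneg
    have h8 : -(2 * (ordZ g s : ℝ)) + ∑ i, β i * ordZ (u i) s ≤
        -(α * κ * max (-(ordZ (u j) s : ℝ)) 0) := by
      rcases le_total (-(ordZ (u j) s : ℝ)) 0 with h | h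
      · rw [max_eq_right h]
        push_cast at h6
        linarith
      · rw [max_eq_left h]
        linarith
    calc (-(2 * (ordZ g s : ℝ)) + ∑ i, β i * ordZ (u i) s) * Real.posLog (‖s‖ / r)
        ≤ -(α * κ * max (-(ordZ (u j) s : ℝ)) 0) * Real.posLog (‖s‖ / r) :=
          mul_le_mul_of_nonneg_right h8 h7
      _ = _ := by ring
  have hmono : ∑ s ∈ S, max (-(ordZ (u j) s : ℝ)) 0 * Real.posLog (‖s‖ / r) ≤
      ∑ s ∈ S', max (-(ordZ (u j) s : ℝ)) 0 * Real.posLog (‖s‖ / r) := by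
    refine Finset.sum_le_sum_of_subset_of_nonneg Finset.subset_union_left ?_
    intro s _ _
    exact mul_nonneg (le_max_right _ _) Real.posLog_nonneg
  have htotal : Real.circleAverage F₂ 0 r = c₀ - d₀ * Real.log r +
      ∑ s ∈ S', (-(2 * (ordZ g s : ℝ)) + ∑ i, β i * ordZ (u i) s) * Real.posLog (‖s‖ / r) := by
    rw [hmean, hJg']
    simp_rw [hJu']
    have e1 : ∑ s ∈ S', (-(2 * (ordZ g s : ℝ)) + ∑ i, β i * ordZ (u i) s) *
        Real.posLog (‖s‖ / r) = -2 * (∑ s ∈ S', (ordZ g s : ℝ) * Real.posLog (‖s‖ / r)) +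
        ∑ i, β i * ∑ s ∈ S', (ordZ (u i) s : ℝ) * Real.posLog (‖s‖ / r) := by
      simp only [add_mul, Finset.sum_add_distrib, Finset.mul_sum, Finset.sum_mul]
      congr 1
      · exact Finset.sum_congr rfl fun s _ => by ring
      · rw [Finset.sum_comm]
        exact Finset.sum_congr rfl fun i _ => Finset.sum_congr rfl fun s _ => by ring
    rw [e1, hc₀, hd₀]
    simp only [mul_add, Finset.sum_add_distrib, sub_mul, add_mul]
    have e2 : ∑ i, β i * (Bu i * Real.log r) = (∑ i, β i * Bu i) * Real.log r := by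
      rw [Finset.sum_mul]
      exact Finset.sum_congr rfl fun i _ => by ring
    rw [e2]
    ring
  have hfinal : α * κ * (Real.circleAverage (fun z => Real.posLog ‖u j z‖) 0 r +
      ∑ s ∈ S, max (-(ordZ (u j) s : ℝ)) 0 * Real.posLog (‖s‖ / r)) ≤ c₀ - d₀ * Real.log r := by
    rw [mul_add]
    have := mul_le_mul_of_nonneg_left hmono hακ.le
    linarith
  have h9 : c₀ / (α * κ) - d₀ / (α * κ) * Real.log r = (c₀ - d₀ * Real.log r) / (α * κ) := by
    field_simp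
  rw [h9, le_div_iff₀ hακ, mul_comm]
  exact hfinal

end Pool.Agent.H92.GGL
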