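import Pool.Agent.H92.GGL.Mult

/-!
# Polynomials over the entire functions with divisibility conditions on the values
-/

open Polynomial Topology Filter

namespace Pool.Agent.H92.GGL

open Pool.Agent.H17 Pool.Agent.H17.EntFun Differential

/-- The order of vanishing as a natural number (zero if the function vanishes identically). -/
noncomputable def ordN (f : EntFun) (s : ℂ) : ℕ := analyticOrderNatAt (f : ℂ → ℂ) s

lemma ordN_cast {f : EntFun} (hf : f ≠ 0) (s : ℂ) : (ordN f s : ℕ∞) = analyticOrderAt (f : ℂ → ℂ) s :=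
  Nat.cast_analyticOrderNatAt (order_ne_top hf s)

lemma ordN_zero (s : ℂ) : ordN 0 s = 0 := by
  unfold ordN analyticOrderNatAt
  have : analyticOrderAt ((0 : EntFun) : ℂ → ℂ) s = ⊤ := by
    rw [analyticOrderAt_eq_top]
    exact Eventually.of_forall fun z => rfl
  rw [this]
  rfl

lemma eval_eq_zero_of_ordN_ne_zero {f : EntFun} {s : ℂ} (h : ordN f s ≠ 0) :
    (f : ℂ → ℂ) s = 0 := by
  by_contra h1
  apply h
  unfold ordN analyticOrderNatAt
  rw [(order_eq_zero_iff f s).mpr h1]
  rfl

lemma ordN_pow {f : EntFun} (hf : f ≠ 0) (n : ℕ) (s : ℂ) : ordN (f ^ n) s = n * ordN f s := by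
  have h1 := ordN_cast (pow_ne_zero n hf) s
  rw [order_pow, ← ordN_cast hf s] at h1
  exact_mod_cast h1

lemma ordN_prod {ι : Type*} (S : Finset ι) (f : ι → EntFun) (hf : ∀ i ∈ S, f i ≠ 0) (s : ℂ) :
    ordN (∏ i ∈ S, f i) s = ∑ i ∈ S, ordN (f i) s := by
  have h1 := ordN_cast (Finset.prod_ne_zero_iff.mpr hf) s
  rw [order_prod] at h1
  have h2 : ∑ i ∈ S, analyticOrderAt ((f i : EntFun) : ℂ → ℂ) s =
      ((∑ i ∈ S, ordN (f i) s : ℕ) : ℕ∞) := by
    push_cast
    exact Finset.sum_congr rfl fun i hi => (ordN_cast (hf i hi) s).symm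
  rw [h2] at h1
  exact_mod_cast h1

/-- **Rigidity with general local conditions.**  A squarefree polynomial `F` over the entire
functions without content which satisfies the orbifold condition at the nodes has constant
zeros. -/
theorem eq_C_mul_map_of_weights (K : Type) [Field K] [Algebra EntFun K] [IsFractionRing EntFun K]
    {κ : Type} [Fintype κ] (t : κ → ℂ) (ht : Function.Injective t) {r : ℕ} (θ : κ → ℝ)
    (hθ0 : ∀ i, 0 ≤ θ i) (hcard : ∑ i, θ i + 2 * r < Fintype.card κ) (F : EntFun[X])
    (hcont : ∀ s, F.map (ev s) ≠ 0) (hn : F.natDegree ≤ r)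
    (hsq : ∀ p : K[X], Irreducible p → ¬ p ^ 2 ∣ toK K F)
    (hloc : ∀ s, ((Finset.univ.filter fun i => ordN (evC (t i) F) s ≠ 0).card : ℝ) ≤
      ∑ i, θ i * ordN (evC (t i) F) s) :
    ∃ (u : EntFun) (P : ℂ[X]), F = C u * P.map (algebraMap ℂ EntFun) := by
  classical
  have hF : F ≠ 0 := by
    rintro rfl
    exact hcont 0 (Polynomial.map_zero _)
  rcases moving_part K t ht F hF with h1 | ⟨R, e, b, he, hρ, hb, hdeg, hres, hval, ⟨p, hp, hpe⟩,
    hlocR⟩
  · exact h1
  exfalso
  apply hres
  have he1 : e = 1 := by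
    by_contra he1
    exact hsq p hp ((pow_dvd_pow p (by omega : 2 ≤ e)).trans hpe)
  set B : Finset κ := Finset.univ.filter (fun i => evC (t i) F = 0) with hB
  have hBb : B.card ≤ b := hb B fun i hi => (Finset.mem_filter.mp hi).2
  have hBn : B.card ≤ Fintype.card κ := Finset.card_le_univ B
  have hcard' : Fintype.card {i // evC (t i) F ≠ 0} = Fintype.card κ - B.card := by
    rw [Fintype.card_subtype_compl, Fintype.card_subtype]
  -- the numerical condition
  have hsplit : ∑ i, θ i = ∑ i : {i // evC (t i) F ≠ 0}, θ i.1 + ∑ i ∈ B, θ i := by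
    rw [hB, ← Finset.sum_subtype (Finset.univ.filter fun i => evC (t i) F ≠ 0) (by simp) θ, add_comm]
    exact (Finset.sum_filter_add_sum_filter_not Finset.univ (fun i => evC (t i) F = 0) θ).symm
  have hBsum : 0 ≤ ∑ i ∈ B, θ i := Finset.sum_nonneg fun i _ => hθ0 i
  have hnum : ∑ i : {i // evC (t i) F ≠ 0}, θ i.1 + 2 * (R.natDegree : ℝ) <
      Fintype.card {i // evC (t i) F ≠ 0} := by
    rw [hcard', Nat.cast_sub hBn]
    have h1 : (R.natDegree : ℝ) + B.card ≤ r := by exact_mod_cast (by omega : R.natDegree + B.card ≤ r)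
    have h2 : (0 : ℝ) ≤ B.card := Nat.cast_nonneg _
    linarith
  have hne : Nonempty {i // evC (t i) F ≠ 0} := by
    apply Fintype.card_pos_iff.mp
    have h1 : (0 : ℝ) ≤ ∑ i : {i // evC (t i) F ≠ 0}, θ i.1 := Finset.sum_nonneg fun i _ => hθ0 _
    have h2 : (0 : ℝ) ≤ R.natDegree := Nat.cast_nonneg _
    have h3 : (0 : ℝ) < Fintype.card {i // evC (t i) F ≠ 0} := by linarith
    exact_mod_cast h3
  refine resultant_eq_zero_of_weights (fun i : {i // evC (t i) F ≠ 0} => t i.1)
    (fun i j h => Subtype.ext (ht h)) hρ (fun i => θ i.1) (fun i => hθ0 _) hnum R le_rfl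
    (fun i => hval _ i.2) ?_
  -- the local condition
  intro s
  obtain ⟨c, cF, G, G', hRG, hG0, hFG, hG'0, hord⟩ := hlocR s
  have hG' : G' = F := by
    have h1 : C (coord s ^ 0) * F = C (coord s ^ cF) * G' := by
      rw [← hFG]; simp
    exact (coord_pow_mul_unique (hcont s) hG'0 h1).2.symm
  rw [hG'] at hord
  have hordN : ∀ i : {i // evC (t i) F ≠ 0},
      analyticOrderAt ((evC (t i.1) G : EntFun) : ℂ → ℂ) s = ordN (evC (t i.1) F) s := by
    intro i
    obtain ⟨o, o', h1, h2, h3, h4⟩ := hord (t i.1) i.2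
    rw [he1, one_mul] at h4
    rw [h1, ordN_cast i.2, h2, le_antisymm h3 h4]
  refine ⟨c, G, fun i => ordN (evC (t i.1) F) s, hRG, hG0, hordN, ?_⟩
  have hzero : ∀ i, ¬ evC (t i) F ≠ 0 → ordN (evC (t i) F) s = 0 := by
    intro i hi
    rw [not_not] at hi
    rw [hi, ordN_zero]
  have h1 : ∑ i : {i // evC (t i) F ≠ 0}, θ i.1 * (ordN (evC (t i.1) F) s : ℝ) =
      ∑ i, θ i * (ordN (evC (t i) F) s : ℝ) := by
    rw [← Finset.sum_subtype (Finset.univ.filter fun i => evC (t i) F ≠ 0) (by simp)
      fun i => θ i * (ordN (evC (t i) F) s : ℝ)]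
    refine Finset.sum_subset (Finset.filter_subset _ _) fun i _ hi => ?_
    have h2 : ¬ evC (t i) F ≠ 0 := fun h => hi (Finset.mem_filter.mpr ⟨Finset.mem_univ _, h⟩)
    rw [hzero i h2, Nat.cast_zero, mul_zero]
  rw [h1]
  refine le_trans (le_of_eq ?_) (hloc s)
  congr 1
  refine Finset.card_bij (fun i _ => i.1) ?_ ?_ ?_
  · intro i hi
    exact Finset.mem_filter.mpr ⟨Finset.mem_univ _, (Finset.mem_filter.mp hi).2⟩
  · intro i _ j _ hij
    exact Subtype.ext hij
  · intro i hi
    have h2 := (Finset.mem_filter.mp hi).2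
    have h3 : evC (t i) F ≠ 0 := by
      by_contra h
      exact h2 (hzero i (not_not.mpr h))
    exact ⟨⟨i, h3⟩, Finset.mem_filter.mpr ⟨Finset.mem_univ _, h2⟩, rfl⟩

/-- The indicator of the nonzero natural numbers. -/
def indN (n : ℕ) : ℝ := if n = 0 then 0 else 1

lemma indN_zero : indN 0 = 0 := rfl

lemma indN_of_ne {n : ℕ} (h : n ≠ 0) : indN n = 1 := by
  unfold indN
  rw [if_neg h]

lemma card_filter_ne_zero {α : Type*} (S : Finset α) (o : α → ℕ) :
    ((S.filter fun i => o i ≠ 0).card : ℝ) = ∑ i ∈ S, indN (o i) := by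
  classical
  rw [Finset.card_eq_sum_ones, Nat.cast_sum, Finset.sum_filter]
  refine Finset.sum_congr rfl fun i _ => ?_
  by_cases h : o i = 0
  · rw [h, indN_zero]
    simp
  · rw [indN_of_ne h]
    simp [h]

/-- The weight of a node `τ i` in a block with `a` elements and exponent `k`. -/
noncomputable def blockWeight (r a k : ℕ) : ℝ := min 1 ((min r a : ℕ) / k)

lemma blockWeight_nonneg (r a k : ℕ) : 0 ≤ blockWeight r a k := by
  unfold blockWeight
  positivity

/-- The local condition in a block. -/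
lemma block_local {T : Type} {r k : ℕ} (hk : 0 < k) {τ : T → ℂ} (hτ : Function.Injective τ)
    {F : EntFun[X]} {s : ℂ} (hcont : F.map (ev s) ≠ 0) (hn : F.natDegree ≤ r) (J : Finset T)
    {y : EntFun} (hy0 : y ≠ 0) (hy : ∏ i ∈ J, evC (τ i) F = y ^ k) :
    ((J.filter fun i => ordN (evC (τ i) F) s ≠ 0).card : ℝ) ≤
      ∑ i ∈ J, blockWeight r J.card k * ordN (evC (τ i) F) s := by
  classical
  set S := J.filter fun i => ordN (evC (τ i) F) s ≠ 0 with hS
  have hne : ∀ i ∈ J, evC (τ i) F ≠ 0 := by
    rw [← Finset.prod_ne_zero_iff, hy]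
    exact pow_ne_zero _ hy0
  have hsum : ∑ i ∈ J, ordN (evC (τ i) F) s = k * ordN y s := by
    rw [← ordN_prod J _ hne, hy, ordN_pow hy0]
  have h1 : S.card ≤ ∑ i ∈ J, ordN (evC (τ i) F) s := by
    rw [hS, Finset.card_eq_sum_ones, Finset.sum_filter]
    refine Finset.sum_le_sum fun i _ => ?_
    split_ifs with h
    · omega
    · omega
  have h2 : S.card ≤ r := by
    by_contra hcon
    push Not at hcon
    apply hcont
    refine eq_zero_of_natDegree_lt_card_of_eval_eq_zero' _ (S.image τ) ?_ ?_
    · intro a ha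
      obtain ⟨i, hi, rfl⟩ := Finset.mem_image.mp ha
      rw [← evC_apply]
      exact eval_eq_zero_of_ordN_ne_zero (Finset.mem_filter.mp hi).2
    · rw [Finset.card_image_of_injective _ hτ]
      exact (natDegree_map_le.trans hn).trans_lt hcon
  have h3 : S.card ≤ J.card := Finset.card_le_card (Finset.filter_subset _ _)
  rw [← Finset.mul_sum, ← Nat.cast_sum, hsum]
  rcases Nat.eq_zero_or_pos (ordN y s) with h0 | hpos
  · rw [hsum, h0, mul_zero] at h1
    have : S.card = 0 := by omega
    rw [this, h0]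
    simp
  · have hkR : (0 : ℝ) < k := by exact_mod_cast hk
    have hyR : (1 : ℝ) ≤ ordN y s := by exact_mod_cast hpos
    unfold blockWeight
    rcases le_total 1 (((min r J.card : ℕ) : ℝ) / k) with h | h
    · rw [min_eq_left h, one_mul]
      rw [hsum] at h1
      exact_mod_cast h1
    · rw [min_eq_right h]
      have h4 : (S.card : ℝ) ≤ ((min r J.card : ℕ) : ℝ) := by exact_mod_cast le_min h2 h3
      have h5 : ((min r J.card : ℕ) : ℝ) / k * ((k * ordN y s : ℕ) : ℝ) =
          (min r J.card : ℕ) * ordN y s := by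
        push_cast
        field_simp
      rw [h5]
      have h6 : (0 : ℝ) ≤ (min r J.card : ℕ) := Nat.cast_nonneg _
      nlinarith

/-- **Rigidity for multiple covers.** -/
theorem eq_C_mul_map_of_cover (K : Type) [Field K] [Algebra EntFun K] [IsFractionRing EntFun K]
    {ν ι T : Type} [Fintype ν] [Fintype ι] [Fintype T] [DecidableEq ι] {r d : ℕ} (hd : 0 < d)
    {t : ν → ℂ} {τ : T → ℂ} (ht : Function.Injective (Sum.elim t τ))
    (β : T → Option ι) {k : ι → ℕ} (hk : ∀ l, 0 < k l)
    (hnum : 2 * (r : ℝ) < Fintype.card ν * (1 - 1 / (d : ℝ)) +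
      (Finset.univ.filter fun i => β i = none).card +
      ∑ l, (Finset.univ.filter fun i => β i = some l).card *
        (1 - blockWeight r (Finset.univ.filter fun i => β i = some l).card (k l)))
    (F : EntFun[X]) (hcont : ∀ s, F.map (ev s) ≠ 0) (hn : F.natDegree ≤ r)
    (hsq : ∀ p : K[X], Irreducible p → ¬ p ^ 2 ∣ toK K F)
    (x : ν → EntFun) (hx : ∀ j, evC (t j) F = x j ^ d)
    (hO : ∀ i, β i = none → ∀ s, ((evC (τ i) F : EntFun) : ℂ → ℂ) s ≠ 0)
    (y : ι → EntFun) (hy0 : ∀ l, y l ≠ 0)
    (hy : ∀ l, ∏ i ∈ Finset.univ.filter (fun i => β i = some l), evC (τ i) F = y l ^ k l) :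
    ∃ (u : EntFun) (P : ℂ[X]), F = C u * P.map (algebraMap ℂ EntFun) := by
  classical
  set J : ι → Finset T := fun l => Finset.univ.filter fun i => β i = some l with hJ
  set O : Finset T := Finset.univ.filter fun i => β i = none with hOdef
  have hτ : Function.Injective τ := fun i j h => by
    have := @ht (Sum.inr i) (Sum.inr j) (by simpa using h)
    simpa using this
  set θT : T → ℝ := fun i => (β i).elim 0 fun l => blockWeight r (J l).card (k l) with hθT
  have hdR : (0 : ℝ) < d := by exact_mod_cast hd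
  -- sums over `T`
  have hTsum : ∀ g : T → ℝ, ∑ i, g i = ∑ i ∈ O, g i + ∑ l, ∑ i ∈ J l, g i := by
    intro g
    rw [← Finset.sum_fiberwise Finset.univ β g, Fintype.sum_option]
  have hJθ : ∀ l, ∀ i ∈ J l, θT i = blockWeight r (J l).card (k l) := by
    intro l i hi
    have h1 : β i = some l := (Finset.mem_filter.mp hi).2
    simp only [hθT, h1, Option.elim_some]
  have hOθ : ∀ i ∈ O, θT i = 0 := by
    intro i hi
    have h1 : β i = none := (Finset.mem_filter.mp hi).2
    simp only [hθT, h1, Option.elim_none]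
  refine eq_C_mul_map_of_weights K (Sum.elim t τ) ht (r := r)
    (Sum.elim (fun _ => 1 / (d : ℝ)) θT) ?_ ?_ F hcont hn hsq ?_
  · rintro (i | i)
    · simp only [Sum.elim_inl]
      positivity
    · simp only [Sum.elim_inr, hθT]
      rcases β i with _ | l
      · exact le_rfl
      · exact blockWeight_nonneg _ _ _
  · -- numerics
    rw [Fintype.sum_sum_type, Fintype.card_sum]
    simp only [Sum.elim_inl, Sum.elim_inr]
    have h1 : ∑ i, θT i = ∑ l, ((J l).card : ℝ) * blockWeight r (J l).card (k l) := by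
      rw [hTsum, Finset.sum_eq_zero hOθ, zero_add]
      refine Finset.sum_congr rfl fun l _ => ?_
      rw [Finset.sum_congr rfl (hJθ l), Finset.sum_const, nsmul_eq_mul]
    have h2 : (Fintype.card T : ℝ) = O.card + ∑ l, ((J l).card : ℝ) := by
      have h3 := hTsum fun _ => 1
      simpa using h3
    have h4 : ∑ l, ((J l).card : ℝ) * (1 - blockWeight r (J l).card (k l)) =
        ∑ l, ((J l).card : ℝ) - ∑ l, ((J l).card : ℝ) * blockWeight r (J l).card (k l) := by
      rw [← Finset.sum_sub_distrib]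
      exact Finset.sum_congr rfl fun l _ => by ring
    have h5 : 2 * (r : ℝ) < Fintype.card ν * (1 - 1 / (d : ℝ)) + O.card +
      ∑ l, ((J l).card : ℝ) * (1 - blockWeight r (J l).card (k l)) := hnum
    rw [h4] at h5
    rw [h1, Finset.sum_const, Finset.card_univ, nsmul_eq_mul]
    push_cast
    rw [h2]
    linarith
  · -- local conditions
    intro s
    rw [card_filter_ne_zero, Fintype.sum_sum_type, Fintype.sum_sum_type]
    simp only [Sum.elim_inl, Sum.elim_inr]
    refine add_le_add ?_ ?_
    · refine Finset.sum_le_sum fun j _ => ?_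
      by_cases h : ordN (evC (t j) F) s = 0
      · rw [h, indN_zero]
        simp
      · rw [indN_of_ne h]
        by_cases hxj : x j = 0
        · exfalso
          apply h
          rw [hx, hxj, zero_pow hd.ne', ordN_zero]
        · rw [hx, ordN_pow hxj] at h ⊢
          have h1 : 1 ≤ ordN (x j) s := by
            by_contra hcon
            apply h
            have : ordN (x j) s = 0 := by omega
            rw [this, mul_zero]
          have h2 : (1 : ℝ) ≤ ordN (x j) s := by exact_mod_cast h1
          have h3 : 1 / (d : ℝ) * ((d * ordN (x j) s : ℕ) : ℝ) = ordN (x j) s := by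
            push_cast
            field_simp
          rw [h3]
          exact h2
    · rw [hTsum, hTsum]
      refine add_le_add ?_ ?_
      · refine Finset.sum_le_sum fun i hi => ?_
        have h1 : β i = none := (Finset.mem_filter.mp hi).2
        have h2 : ordN (evC (τ i) F) s = 0 := by
          by_contra h
          exact hO i h1 s (eval_eq_zero_of_ordN_ne_zero h)
        rw [h2, indN_zero]
        simp
      · refine Finset.sum_le_sum fun l _ => ?_
        have h1 := block_local (r := r) (hk l) hτ (hcont s) hn (J l) (hy0 l) (hy l)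
        have h2 : ∑ i ∈ J l, θT i * (ordN (evC (τ i) F) s : ℝ) =
            ∑ i ∈ J l, blockWeight r (J l).card (k l) * (ordN (evC (τ i) F) s : ℝ) :=
          Finset.sum_congr rfl fun i hi => by rw [hJθ l i hi]
        rw [h2, ← card_filter_ne_zero (J l) fun i => ordN (evC (τ i) F) s]
        exact h1

end Pool.Agent.H92.GGL
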