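import Mathlib

/-!
# Branches of the roots of a polynomial with holomorphic coefficients
-/

open Topology Filter Polynomial

namespace Pool.Agent.H92.GGL

/-- A simple root extends to a holomorphic root. -/
lemma exists_root_branch {n : ℕ} {c : ℕ → ℂ → ℂ} {z₁ ζ : ℂ} (hc : ∀ k, AnalyticAt ℂ (c k) z₁)
    (h0 : ∑ k ∈ Finset.range n, c k z₁ * ζ ^ k = 0)
    (h1 : ∑ k ∈ Finset.range n, c k z₁ * (k * ζ ^ (k - 1)) ≠ 0) :
    ∃ ψ : ℂ → ℂ, AnalyticAt ℂ ψ z₁ ∧ ψ z₁ = ζ ∧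
      ∀ᶠ z in 𝓝 z₁, ∑ k ∈ Finset.range n, c k z * ψ z ^ k = 0 := by
  set f : ℂ × ℂ → ℂ := fun q => ∑ k ∈ Finset.range n, c k q.1 * q.2 ^ k with hf
  have hfan : AnalyticAt ℂ f (z₁, ζ) := by
    refine Finset.analyticAt_fun_sum _ fun k _ => ?_
    refine AnalyticAt.mul ?_ (analyticAt_snd.pow k)
    exact AnalyticAt.fun_comp (f := fun q : ℂ × ℂ => q.1) (hc k) analyticAt_fst
  have hcd : ContDiffAt ℂ ⊤ f (z₁, ζ) := hfan.contDiffAt
  set L : ℂ →L[ℂ] ℂ := (fderiv ℂ f (z₁, ζ)).comp (ContinuousLinearMap.inr ℂ ℂ ℂ) with hL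
  set d : ℂ := ∑ k ∈ Finset.range n, c k z₁ * (k * ζ ^ (k - 1)) with hd
  have hLd : L 1 = d := by
    have h2 : HasFDerivAt (fun T : ℂ => f (z₁, T)) L ζ := by
      have h3 : HasFDerivAt (fun T : ℂ => ((z₁, T) : ℂ × ℂ)) (ContinuousLinearMap.inr ℂ ℂ ℂ) ζ := by
        have := (hasFDerivAt_const z₁ ζ).prodMk (hasFDerivAt_id (𝕜 := ℂ) ζ)
        refine this.congr_fderiv ?_
        ext <;> simp
      exact hfan.differentiableAt.hasFDerivAt.comp ζ h3
    have h4 : HasDerivAt (fun T : ℂ => f (z₁, T)) d ζ := by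
      simp only [hf, hd]
      refine HasDerivAt.fun_sum fun k _ => ?_
      exact ((hasDerivAt_pow k ζ).const_mul (c k z₁))
    exact h2.hasDerivAt.unique h4
  have hinv : L.IsInvertible := by
    refine ⟨ContinuousLinearEquiv.unitsEquivAut ℂ (Units.mk0 d h1), ?_⟩
    ext
    simp [hLd]
  set ψ := hcd.implicitFunction (by simp) hinv with hψ
  refine ⟨ψ, ?_, ?_, ?_⟩
  · have := hcd.contDiffAt_implicitFunction (by simp) hinv
    exact this.analyticAt
  · exact hcd.implicitFunction_apply_self (by simp) hinv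
  · have h2 := hcd.eventually_apply_implicitFunction (by simp) hinv
    filter_upwards [h2] with z hz
    have h3 : f (z, ψ z) = f (z₁, ζ) := hz
    simp only [hf] at h3
    rw [h3, h0]

/-- If the resultant of `P` and `∂P` vanishes, `P` has a constant root. -/
theorem exists_const_root {ρ : ℕ} {P Q : ℂ → ℂ[X]} {z₁ : ℂ}
    (hP : ∀ k, AnalyticAt ℂ (fun z => (P z).coeff k) z₁) (hPρ : ∀ z, (P z).natDegree ≤ ρ)
    (hPρ1 : (P z₁).natDegree = ρ) (hsq : Squarefree (P z₁)) (hQρ : ∀ z, (Q z).natDegree ≤ ρ)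
    (hQ : ∀ᶠ z in 𝓝 z₁, ∀ k, (Q z).coeff k = deriv (fun z => (P z).coeff k) z)
    (hres : ∀ᶠ z in 𝓝 z₁, resultant (P z) (Q z) ρ ρ = 0) :
    ∃ a : ℂ, ∀ᶠ z in 𝓝 z₁, (P z).eval a = 0 := by
  classical
  have hP1 : P z₁ ≠ 0 := hsq.ne_zero
  have heval : ∀ z T, (P z).eval T = ∑ k ∈ Finset.range (ρ + 1), (P z).coeff k * T ^ k :=
    fun z T => eval_eq_sum_range' (by have := hPρ z; omega) T
  have hevalQ : ∀ z T, (Q z).eval T = ∑ k ∈ Finset.range (ρ + 1), (Q z).coeff k * T ^ k :=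
    fun z T => eval_eq_sum_range' (by have := hQρ z; omega) T
  have hevald : ∀ z T, (derivative (P z)).eval T =
      ∑ k ∈ Finset.range (ρ + 1), (P z).coeff k * (k * T ^ (k - 1)) := by
    intro z T
    conv_lhs => rw [(P z).as_sum_range_C_mul_X_pow' (n := ρ + 1) (by have := hPρ z; omega)]
    rw [derivative_sum, eval_finsetSum]
    refine Finset.sum_congr rfl fun k _ => ?_
    rw [derivative_C_mul_X_pow]
    simp only [eval_mul, eval_C, eval_pow, eval_X]
    ring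
  set Z : Finset ℂ := (P z₁).roots.toFinset with hZ
  have hnodup : (P z₁).roots.Nodup := nodup_roots (PerfectField.separable_iff_squarefree.mpr hsq)
  have hZcard : Z.card = ρ := by
    rw [hZ, Multiset.toFinset_card_of_nodup hnodup, ← hPρ1]
    exact (IsAlgClosed.splits (P z₁)).natDegree_eq_card_roots.symm
  have hZroot : ∀ ζ ∈ Z, (P z₁).eval ζ = 0 := fun ζ hζ => by
    rw [hZ, Multiset.mem_toFinset, mem_roots hP1] at hζ
    exact hζ
  have hsimple : ∀ ζ ∈ Z, (derivative (P z₁)).eval ζ ≠ 0 := by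
    intro ζ hζ
    have h1 := (PerfectField.separable_iff_squarefree.mpr hsq).eval₂_derivative_ne_zero
      (RingHom.id ℂ) (x := ζ) (by simpa [eval₂_id] using hZroot ζ hζ)
    simpa [eval₂_id] using h1
  -- the branches
  have hbr : ∀ ζ, ∃ ψ : ℂ → ℂ, AnalyticAt ℂ ψ z₁ ∧ ψ z₁ = ζ ∧ (ζ ∈ Z → ∀ᶠ z in 𝓝 z₁,
      (P z).eval (ψ z) = 0) := by
    intro ζ
    by_cases hζ : ζ ∈ Z
    · obtain ⟨ψ, h1, h2, h3⟩ := exists_root_branch (n := ρ + 1) (c := fun k z => (P z).coeff k)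
        (ζ := ζ) hP (by rw [← heval]; exact hZroot ζ hζ) (by rw [← hevald]; exact hsimple ζ hζ)
      refine ⟨ψ, h1, h2, fun _ => ?_⟩
      filter_upwards [h3] with z hz
      rw [heval]
      exact hz
    · exact ⟨fun _ => ζ, analyticAt_const, rfl, fun h => absurd h hζ⟩
  choose ψ hψ hψ1 hψ0 using hbr
  -- the leading coefficient does not vanish
  have hlead : ∀ᶠ z in 𝓝 z₁, (P z).coeff ρ ≠ 0 := by
    refine (hP ρ).continuousAt.eventually_ne ?_
    rw [← hPρ1]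
    exact leadingCoeff_ne_zero.mpr hP1
  -- the branches are different
  have hdist : ∀ᶠ z in 𝓝 z₁, ∀ ζ ∈ Z, ∀ ζ' ∈ Z, ζ ≠ ζ' → ψ ζ z ≠ ψ ζ' z := by
    have h1 : ∀ ζ ∈ Z, ∀ ζ' ∈ Z, ζ ≠ ζ' → ∀ᶠ z in 𝓝 z₁, ψ ζ z ≠ ψ ζ' z := by
      intro ζ _ ζ' _ hne
      have h2 : ContinuousAt (fun z => ψ ζ z - ψ ζ' z) z₁ :=
        (hψ ζ).continuousAt.sub (hψ ζ').continuousAt
      have h3 : ψ ζ z₁ - ψ ζ' z₁ ≠ 0 := by
        rw [hψ1, hψ1]
        exact sub_ne_zero.mpr hne
      filter_upwards [h2.eventually_ne h3] with z hz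
      exact sub_ne_zero.mp hz
    have h4 : ∀ᶠ z in 𝓝 z₁, ∀ ζ ∈ Z, ∀ ζ' ∈ Z, ζ ≠ ζ' → ψ ζ z ≠ ψ ζ' z := by
      rw [Filter.eventually_all_finset]
      intro ζ hζ
      rw [Filter.eventually_all_finset]
      intro ζ' hζ'
      by_cases h5 : ζ = ζ'
      · exact Eventually.of_forall fun z h => absurd h5 h
      · filter_upwards [h1 ζ hζ ζ' hζ' h5] with z hz _ using hz
    exact h4
  have hroots : ∀ᶠ z in 𝓝 z₁, ∀ ζ ∈ Z, (P z).eval (ψ ζ z) = 0 := by
    rw [Filter.eventually_all_finset]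
    exact fun ζ hζ => hψ0 ζ hζ
  -- the derivative of the branches
  have hderiv : ∀ᶠ z in 𝓝 z₁, ∀ ζ ∈ Z, (Q z).eval (ψ ζ z) +
      (derivative (P z)).eval (ψ ζ z) * deriv (ψ ζ) z = 0 := by
    rw [Filter.eventually_all_finset]
    intro ζ hζ
    have hPan : ∀ᶠ z in 𝓝 z₁, ∀ k ∈ Finset.range (ρ + 1),
        AnalyticAt ℂ (fun z => (P z).coeff k) z := by
      rw [Filter.eventually_all_finset]
      exact fun k _ => (hP k).eventually_analyticAt
    filter_upwards [(hψ0 ζ hζ).eventually_nhds, hPan, (hψ ζ).eventually_analyticAt, hQ]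
      with z h1 h2 h3 h4
    have h5 : HasDerivAt (fun w => ∑ k ∈ Finset.range (ρ + 1), (P w).coeff k * ψ ζ w ^ k)
        (∑ k ∈ Finset.range (ρ + 1), (deriv (fun w => (P w).coeff k) z * ψ ζ z ^ k +
          (P z).coeff k * (k * ψ ζ z ^ (k - 1) * deriv (ψ ζ) z))) z := by
      refine HasDerivAt.fun_sum fun k hk => ?_
      exact (h2 k hk).differentiableAt.hasDerivAt.fun_mul
        (h3.differentiableAt.hasDerivAt.fun_pow k)
    have h6 : HasDerivAt (fun w => ∑ k ∈ Finset.range (ρ + 1), (P w).coeff k * ψ ζ w ^ k) 0 z := by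
      refine (hasDerivAt_const z (0 : ℂ)).congr_of_eventuallyEq ?_
      filter_upwards [h1] with w hw
      rw [← heval]
      exact hw
    have h7 := h5.unique h6
    rw [hevalQ, hevald, Finset.sum_mul, ← Finset.sum_add_distrib, ← h7]
    refine Finset.sum_congr rfl fun k _ => ?_
    rw [h4 k]
    ring
  -- at every point the derivative of some branch vanishes
  have hsome : ∀ᶠ z in 𝓝 z₁, ∃ ζ ∈ Z, deriv (ψ ζ) z = 0 := by
    have hsimple' : ∀ᶠ z in 𝓝 z₁, ∀ ζ ∈ Z, (derivative (P z)).eval (ψ ζ z) ≠ 0 := by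
      rw [Filter.eventually_all_finset]
      intro ζ hζ
      have h1 : ContinuousAt (fun z => (derivative (P z)).eval (ψ ζ z)) z₁ := by
        simp only [hevald]
        refine tendsto_finsetSum _ fun k _ => ?_
        exact (hP k).continuousAt.mul (continuousAt_const.mul ((hψ ζ).continuousAt.pow _))
      refine h1.eventually_ne ?_
      rw [hψ1]
      exact hsimple ζ hζ
    filter_upwards [hres, hlead, hdist, hroots, hderiv, hsimple'] with z h1 h2 h3 h4 h5 h6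
    have hPz : P z ≠ 0 := by
      intro h
      rw [h, coeff_zero] at h2
      exact h2 rfl
    have hdeg : (P z).natDegree = ρ := le_antisymm (hPρ z) (le_natDegree_of_ne_zero h2)
    have h7 := resultant_eq_prod_eval (P z) (Q z) ρ (hQρ z) (IsAlgClosed.splits _)
    rw [hdeg, h1] at h7
    have h8 : ((P z).roots.map (Q z).eval).prod = 0 := by
      rcases mul_eq_zero.mp h7.symm with h | h
      · exact absurd h (pow_ne_zero _ (leadingCoeff_ne_zero.mpr hPz))
      · exact h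
    rw [Multiset.prod_eq_zero_iff, Multiset.mem_map] at h8
    obtain ⟨x, hx, hxQ⟩ := h8
    -- `x` is one of the branches
    have hinj : Set.InjOn (fun ζ => ψ ζ z) Z := by
      intro ζ hζ ζ' hζ' heq
      by_contra hne
      exact h3 ζ hζ ζ' hζ' hne heq
    have hsub : Z.image (fun ζ => ψ ζ z) ⊆ (P z).roots.toFinset := by
      intro y hy
      obtain ⟨ζ, hζ, rfl⟩ := Finset.mem_image.mp hy
      rw [Multiset.mem_toFinset, mem_roots hPz]
      exact h4 ζ hζ
    have hcard : (P z).roots.toFinset.card ≤ (Z.image (fun ζ => ψ ζ z)).card := by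
      rw [Finset.card_image_of_injOn hinj, hZcard, ← hdeg]
      exact (Multiset.toFinset_card_le _).trans (card_roots' _)
    have heq := Finset.eq_of_subset_of_card_le hsub hcard
    have hx' : x ∈ Z.image (fun ζ => ψ ζ z) := by
      rw [heq, Multiset.mem_toFinset]
      exact hx
    obtain ⟨ζ, hζ, rfl⟩ := Finset.mem_image.mp hx'
    refine ⟨ζ, hζ, ?_⟩
    have h9 := h5 ζ hζ
    rw [hxQ, zero_add] at h9
    exact (mul_eq_zero.mp h9).resolve_left (h6 ζ hζ)
  -- one of the branches is constant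
  obtain ⟨ζ, hζ, hconst⟩ : ∃ ζ ∈ Z, ∀ᶠ z in 𝓝 z₁, deriv (ψ ζ) z = 0 := by
    by_contra hcon
    push Not at hcon
    have h1 : ∀ ζ ∈ Z, ∀ᶠ z in 𝓝[≠] z₁, deriv (ψ ζ) z ≠ 0 := by
      intro ζ hζ
      rcases (hψ ζ).deriv.eventually_eq_zero_or_eventually_ne_zero with h | h
      · exact absurd (h.mono fun z hz => not_not.mpr hz) (hcon ζ hζ)
      · exact h
    have h2 : ∀ᶠ z in 𝓝[≠] z₁, ∀ ζ ∈ Z, deriv (ψ ζ) z ≠ 0 := by
      rw [Filter.eventually_all_finset]
      exact h1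
    obtain ⟨z, hz1, ζ, hζ, hz2⟩ := (h2.and (hsome.filter_mono nhdsWithin_le_nhds)).exists
    exact hz1 ζ hζ hz2
  refine ⟨ζ, ?_⟩
  -- the branch is constant near `z₁`
  have hev : ∀ᶠ z in 𝓝 z₁, ψ ζ z = ζ := by
    obtain ⟨ε, hε, hεd⟩ := Metric.eventually_nhds_iff_ball.mp
      (hconst.and (hψ ζ).eventually_analyticAt)
    have h1 : ∀ z ∈ Metric.ball z₁ ε, ψ ζ z = ψ ζ z₁ := by
      intro z hz
      exact (Metric.isOpen_ball).is_const_of_deriv_eq_zero (convex_ball z₁ ε).isPreconnected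
        (fun w hw => (hεd w hw).2.differentiableAt.differentiableWithinAt)
        (fun w hw => (hεd w hw).1) hz (Metric.mem_ball_self hε)
    filter_upwards [Metric.ball_mem_nhds z₁ hε] with z hz
    rw [h1 z hz, hψ1]
  filter_upwards [hev, hψ0 ζ hζ] with z h1 h2
  rwa [h1] at h2

end Pool.Agent.H92.GGL
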