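import Pool.Agent.H92.GGL.LocalRes
import Pool.Agent.H92.GGL.RootBranch
import Pool.Agent.H92.GGL.NevIneq

/-!
# Preparations for the extension theorem
-/

open Polynomial Topology Filter

namespace Pool.Agent.H92.GGL

open Pool.Agent.H17

/-! ### Resultants of polynomials with meromorphic coefficients -/

lemma det_meromorphicAt {n : ℕ} {M : ℂ → Matrix (Fin n) (Fin n) ℂ} {s : ℂ}
    (h : ∀ i j, MeromorphicAt (fun z => M z i j) s) : MeromorphicAt (fun z => (M z).det) s := by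
  simp only [Matrix.det_apply']
  refine MeromorphicAt.fun_sum fun σ _ => ?_
  refine (MeromorphicAt.const _ s).mul ?_
  exact MeromorphicAt.fun_prod fun i _ => h _ _

lemma det_analyticAt {n : ℕ} {M : ℂ → Matrix (Fin n) (Fin n) ℂ} {s : ℂ}
    (h : ∀ i j, AnalyticAt ℂ (fun z => M z i j) s) : AnalyticAt ℂ (fun z => (M z).det) s := by
  simp only [Matrix.det_apply']
  refine Finset.analyticAt_fun_sum _ fun σ _ => ?_
  refine analyticAt_const.mul ?_
  exact Finset.analyticAt_fun_prod _ fun i _ => h _ _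

lemma resultant_meromorphicAt {P Q : ℂ → ℂ[X]} {s : ℂ}
    (hP : ∀ k, MeromorphicAt (fun z => (P z).coeff k) s)
    (hQ : ∀ k, MeromorphicAt (fun z => (Q z).coeff k) s) (m n : ℕ) :
    MeromorphicAt (fun z => resultant (P z) (Q z) m n) s := by
  unfold resultant
  refine det_meromorphicAt fun i j => ?_
  induction j using Fin.addCases with
  | left j =>
    simp only [sylvester, Matrix.of_apply, Fin.addCases_left]
    split_ifs
    · exact hQ _
    · exact MeromorphicAt.const _ s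
  | right j =>
    simp only [sylvester, Matrix.of_apply, Fin.addCases_right]
    split_ifs
    · exact hP _
    · exact MeromorphicAt.const _ s

lemma resultant_analyticAt {P Q : ℂ → ℂ[X]} {s : ℂ}
    (hP : ∀ k, AnalyticAt ℂ (fun z => (P z).coeff k) s)
    (hQ : ∀ k, AnalyticAt ℂ (fun z => (Q z).coeff k) s) (m n : ℕ) :
    AnalyticAt ℂ (fun z => resultant (P z) (Q z) m n) s := by
  unfold resultant
  refine det_analyticAt fun i j => ?_
  induction j using Fin.addCases with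
  | left j =>
    simp only [sylvester, Matrix.of_apply, Fin.addCases_left]
    split_ifs
    · exact hQ _
    · exact analyticAt_const
  | right j =>
    simp only [sylvester, Matrix.of_apply, Fin.addCases_right]
    split_ifs
    · exact hP _
    · exact analyticAt_const

/-! ### Interpolation -/

section Interp

variable {G : Type} [DecidableEq G] {I : Finset G} {t : G → ℂ}

lemma interp_coeff (v : G → ℂ) (n : ℕ) : (Lagrange.interpolate I t v).coeff n =
    ∑ k ∈ I, v k * (Lagrange.basis I t k).coeff n := by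
  rw [Lagrange.interpolate_apply, finsetSum_coeff]
  exact Finset.sum_congr rfl fun k _ => by rw [coeff_C_mul]

lemma interp_eval (v : G → ℂ) (x : ℂ) : (Lagrange.interpolate I t v).eval x =
    ∑ k ∈ I, v k * (Lagrange.basis I t k).eval x := by
  rw [Lagrange.interpolate_apply, eval_finsetSum]
  exact Finset.sum_congr rfl fun k _ => by rw [eval_mul, eval_C]

lemma interp_natDegree {ρ : ℕ} (ht : Function.Injective t) (hI : I.card = ρ + 1) (v : G → ℂ) :
    (Lagrange.interpolate I t v).natDegree ≤ ρ := by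
  have h1 := Lagrange.degree_interpolate_lt (r := v) (ht.injOn (s := (I : Set G)))
  rw [hI] at h1
  by_cases h0 : Lagrange.interpolate I t v = 0
  · rw [h0]
    simp
  · rw [← natDegree_lt_iff_degree_lt h0] at h1
    omega

lemma interp_eq {ρ : ℕ} (ht : Function.Injective t) (hI : I.card = ρ + 1) {v : G → ℂ} {p : ℂ[X]}
    (hp : p.natDegree ≤ ρ) (hv : ∀ i ∈ I, p.eval (t i) = v i) :
    Lagrange.interpolate I t v = p := by
  refine (Lagrange.eq_interpolate_of_eval_eq v (ht.injOn (s := (I : Set G))) ?_ hv).symm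
  refine (degree_le_of_natDegree_le hp).trans_lt ?_
  rw [hI]
  exact_mod_cast Nat.lt_succ_self ρ

end Interp

/-! ### Removing fixed roots -/

lemma exists_eq_nodal_mul {A : Finset ℂ} {r : ℕ} {Ψ : ℂ[X]} (hA : ∀ a ∈ A, Ψ.eval a = 0)
    (hr : Ψ.natDegree ≤ r) :
    ∃ Ψ' : ℂ[X], Ψ = Lagrange.nodal A id * Ψ' ∧ Ψ'.natDegree ≤ r - A.card := by
  classical
  have hdvd : Lagrange.nodal A id ∣ Ψ := by
    rw [Lagrange.nodal_eq]
    refine Finset.prod_dvd_of_coprime ?_ ?_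
    · intro a _ b _ hab
      exact pairwise_coprime_X_sub_C (s := (id : ℂ → ℂ)) Function.injective_id hab
    · intro a ha
      exact dvd_iff_isRoot.mpr (hA a ha)
  obtain ⟨Ψ', hΨ'⟩ := hdvd
  refine ⟨Ψ', hΨ', ?_⟩
  by_cases h0 : Ψ' = 0
  · rw [h0]
    simp
  · have h1 : Ψ.natDegree = A.card + Ψ'.natDegree := by
      rw [hΨ', natDegree_mul (Lagrange.nodal_ne_zero) h0, Lagrange.natDegree_nodal]
    omega

lemma nodal_eval_ne_zero {A : Finset ℂ} {x : ℂ} (hx : x ∉ A) :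
    (Lagrange.nodal A (id : ℂ → ℂ)).eval x ≠ 0 := by
  rw [Lagrange.eval_nodal, Finset.prod_ne_zero_iff]
  intro a ha h
  rw [sub_eq_zero] at h
  apply hx
  rw [h]
  exact ha

/-! ### The identity principle -/

/-- Near every point, `F` is up to a factor a polynomial with holomorphic coefficients. -/
def HasLifts (r : ℕ) (R₀ : ℝ) (F : ℂ → ℂ[X]) : Prop :=
  ∀ s, 0 < ‖s‖ → ‖s‖ < R₀ → ∃ Φ : ℂ → ℂ[X], (∀ k, AnalyticAt ℂ (fun z => (Φ z).coeff k) s) ∧
    (∀ z, (Φ z).natDegree ≤ r) ∧ Φ s ≠ 0 ∧ ∀ᶠ z in 𝓝 s, ∃ c : ℂ, c ≠ 0 ∧ F z = C c * Φ z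

lemma eval_analyticAt {r : ℕ} {Φ : ℂ → ℂ[X]} {s : ℂ}
    (hΦ : ∀ k, AnalyticAt ℂ (fun z => (Φ z).coeff k) s) (hr : ∀ z, (Φ z).natDegree ≤ r) (a : ℂ) :
    AnalyticAt ℂ (fun z => (Φ z).eval a) s := by
  have h1 : (fun z => (Φ z).eval a) = fun z => ∑ k ∈ Finset.range (r + 1), (Φ z).coeff k * a ^ k := by
    funext z
    exact eval_eq_sum_range' (by have := hr z; omega) a
  rw [h1]
  exact Finset.analyticAt_fun_sum _ fun k _ => (hΦ k).mul analyticAt_const

/-- **Identity principle.** -/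
lemma eval_zero_or {r : ℕ} {R₀ : ℝ} {F : ℂ → ℂ[X]} (hF : HasLifts r R₀ F) (a : ℂ) :
    (∀ z, 0 < ‖z‖ → ‖z‖ < R₀ → (F z).eval a = 0) ∨
    ∀ z, 0 < ‖z‖ → ‖z‖ < R₀ → ∀ᶠ w in 𝓝[≠] z, (F w).eval a ≠ 0 := by
  set U : Set ℂ := {z | ∀ᶠ w in 𝓝 z, (F w).eval a = 0} with hU
  set V : Set ℂ := {z | ∀ᶠ w in 𝓝[≠] z, (F w).eval a ≠ 0} with hV
  have hUo : IsOpen U := by
    rw [isOpen_iff_mem_nhds]
    intro z hz
    exact eventually_eventually_nhds.mpr hz
  have hVo : IsOpen V := by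
    rw [isOpen_iff_mem_nhds]
    intro z hz
    have h1 := eventually_nhdsWithin_iff.mp hz
    filter_upwards [eventually_eventually_nhds.mpr h1] with w hw
    rw [hV, Set.mem_ofPred_eq]
    by_cases hwz : w = z
    · rw [hwz]
      exact hz
    · have h2 : ∀ᶠ w' in 𝓝 w, w' ∈ ({z}ᶜ : Set ℂ) := isOpen_compl_singleton.mem_nhds hwz
      refine Filter.Eventually.filter_mono nhdsWithin_le_nhds ?_
      filter_upwards [hw, h2] with w' h3 h4
      exact h3 h4
  set Ω : Set ℂ := {z : ℂ | 0 < ‖z‖ ∧ ‖z‖ < R₀} with hΩ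
  have hcover : Ω ⊆ U ∪ V := by
    rintro z ⟨h1, h2⟩
    obtain ⟨Φ, hΦ, hr, -, hFΦ⟩ := hF z h1 h2
    rcases (eval_analyticAt hΦ hr a).eventually_eq_zero_or_eventually_ne_zero with h | h
    · left
      rw [hU, Set.mem_ofPred_eq]
      filter_upwards [h, hFΦ] with w h3 h4
      obtain ⟨c, -, h5⟩ := h4
      rw [h5, eval_mul, h3, mul_zero]
    · right
      rw [hV, Set.mem_ofPred_eq]
      filter_upwards [h, mem_nhdsWithin_of_mem_nhds hFΦ] with w h3 h4
      obtain ⟨c, hc, h5⟩ := h4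
      rw [h5, eval_mul, eval_C]
      exact mul_ne_zero hc h3
  have hdisj : ∀ z, ¬ (z ∈ U ∧ z ∈ V) := by
    rintro z ⟨h1, h2⟩
    have h3 : ∀ᶠ w in 𝓝[≠] z, (F w).eval a = 0 := h1.filter_mono nhdsWithin_le_nhds
    obtain ⟨w, h4, h5⟩ := (h3.and h2).exists
    exact h5 h4
  by_cases hUne : (Ω ∩ U).Nonempty
  · by_cases hVne : (Ω ∩ V).Nonempty
    · obtain ⟨z, -, hz⟩ := (isPreconnected_punctured R₀) U V hUo hVo hcover hUne hVne
      exact absurd hz (hdisj z)
    · left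
      intro z h1 h2
      rcases hcover (show z ∈ Ω from ⟨h1, h2⟩) with h | h
      · exact h.self_of_nhds
      · exact absurd ⟨z, ⟨h1, h2⟩, h⟩ hVne
  · right
    intro z h1 h2
    rcases hcover (show z ∈ Ω from ⟨h1, h2⟩) with h | h
    · exact absurd ⟨z, ⟨h1, h2⟩, h⟩ hUne
    · exact h

/-! ### Orders -/

/-- A bound for the size is a bound for the order. -/
lemma le_ordZ_of_bound {g h : ℂ → ℂ} {s : ℂ} {m n : ℕ} {B : ℝ} (hg : MeromorphicAt g s)
    (hgo : meromorphicOrderAt g s ≠ ⊤) (hh : AnalyticAt ℂ h s) (hhs : h s ≠ 0)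
    (hb : ∀ᶠ z in 𝓝[≠] s, ‖g z‖ * ‖(z - s) ^ n * h z‖ ≤ B * ‖z - s‖ ^ m) :
    (m : ℤ) - n ≤ ordZ g s := by
  obtain ⟨h', hh', hh's, hge⟩ := (meromorphicOrderAt_ne_top_iff hg).mp hgo
  by_contra hcon
  push Not at hcon
  set k : ℤ := ordZ g s with hk
  -- the quotient tends to zero and to a nonzero number
  have h1 : Tendsto (fun z => ‖h' z‖ * ‖h z‖) (𝓝[≠] s) (𝓝 (‖h' s‖ * ‖h s‖)) :=
    ((hh'.continuousAt.norm.mul hh.continuousAt.norm).tendsto).mono_left nhdsWithin_le_nhds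
  have h2 : Tendsto (fun z => B * ‖z - s‖) (𝓝[≠] s) (𝓝 0) := by
    have : Continuous fun z : ℂ => B * ‖z - s‖ := by fun_prop
    have h3 := (this.tendsto s).mono_left (nhdsWithin_le_nhds (s := {s}ᶜ))
    simpa using h3
  have h3 : ∀ᶠ z in 𝓝[≠] s, ‖h' z‖ * ‖h z‖ ≤ B * ‖z - s‖ := by
    have hball : ∀ᶠ z in 𝓝[≠] s, ‖z - s‖ ≤ 1 := by
      have : ∀ᶠ z in 𝓝 s, z ∈ Metric.closedBall s 1 := Metric.closedBall_mem_nhds s one_pos
      filter_upwards [mem_nhdsWithin_of_mem_nhds this] with z hz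
      rwa [mem_closedBall_iff_norm] at hz
    filter_upwards [hb, hge, self_mem_nhdsWithin, hball] with z h4 h5 h6 h7
    have hzs : 0 < ‖z - s‖ := norm_pos_iff.mpr (sub_ne_zero.mpr h6)
    set x : ℝ := ‖z - s‖ with hx
    have hB : 0 ≤ B := by
      by_contra hB
      push Not at hB
      have h8 : B * x ^ m < 0 := mul_neg_of_neg_of_pos hB (by positivity)
      have h9 : 0 ≤ ‖g z‖ * ‖(z - s) ^ n * h z‖ := by positivity
      linarith
    have h8 : ‖g z‖ = x ^ k * ‖h' z‖ := by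
      rw [h5, smul_eq_mul, norm_mul, norm_zpow]
      rfl
    rw [h8, norm_mul, norm_pow, ← hx] at h4
    have h9 : x ^ (k + n) * (‖h' z‖ * ‖h z‖) ≤ B * x ^ (m : ℤ) := by
      rw [zpow_add₀ hzs.ne', zpow_natCast, zpow_natCast]
      calc x ^ k * x ^ n * (‖h' z‖ * ‖h z‖) = x ^ k * ‖h' z‖ * (x ^ n * ‖h z‖) := by ring
        _ ≤ _ := h4
    have h10 : x ^ (m : ℤ) ≤ x ^ (k + n + 1) := by
      apply zpow_le_zpow_right_of_le_one₀ hzs h7
      omega
    have h11 : x ^ (k + n) * (‖h' z‖ * ‖h z‖) ≤ x ^ (k + n) * (B * x) := by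
      calc x ^ (k + n) * (‖h' z‖ * ‖h z‖) ≤ B * x ^ (m : ℤ) := h9
        _ ≤ B * x ^ (k + n + 1) := by gcongr
        _ = x ^ (k + n) * (B * x) := by
          rw [zpow_add₀ hzs.ne', zpow_one]
          ring
    exact le_of_mul_le_mul_left h11 (zpow_pos hzs _)
  have h4 := le_of_tendsto_of_tendsto h1 h2 h3
  have h5 : 0 < ‖h' s‖ * ‖h s‖ := mul_pos (norm_pos_iff.mpr hh's) (norm_pos_iff.mpr hhs)
  linarith

/-- The order of a quotient. -/
lemma ordZ_div {f h : ℂ → ℂ} {s : ℂ} (hf : AnalyticAt ℂ f s) (hh : AnalyticAt ℂ h s)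
    (hf0 : ∀ᶠ z in 𝓝[≠] s, f z ≠ 0) (hh0 : ∀ᶠ z in 𝓝[≠] s, h z ≠ 0) {u : ℂ → ℂ}
    (hu : u =ᶠ[𝓝[≠] s] fun z => f z / h z) :
    ordZ u s = (analyticOrderNatAt f s : ℤ) - analyticOrderNatAt h s := by
  have h1 : meromorphicOrderAt f s ≠ ⊤ :=
    (meromorphicOrderAt_ne_top_iff_eventually_ne_zero hf.meromorphicAt).mpr hf0
  have h2 : meromorphicOrderAt h s ≠ ⊤ :=
    (meromorphicOrderAt_ne_top_iff_eventually_ne_zero hh.meromorphicAt).mpr hh0
  have h3 : ∀ {f : ℂ → ℂ}, AnalyticAt ℂ f s → meromorphicOrderAt f s ≠ ⊤ →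
      ordZ f s = (analyticOrderNatAt f s : ℤ) := by
    intro f hf hfo
    unfold ordZ
    rw [hf.meromorphicOrderAt_eq] at hfo ⊢
    have h4 : analyticOrderAt f s ≠ ⊤ := by
      intro h
      rw [h] at hfo
      simp at hfo
    rw [← Nat.cast_analyticOrderNatAt h4]
    rfl
  rw [← h3 hf h1, ← h3 hh h2]
  unfold ordZ
  rw [meromorphicOrderAt_congr hu, fun_meromorphicOrderAt_div hf.meromorphicAt hh.meromorphicAt]
  rw [← ordZ_cast h1, ← ordZ_cast h2]
  unfold ordZ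
  norm_cast

end Pool.Agent.H92.GGL
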