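import Pool.Agent.H92.GGL.Mult

/-!
# Blocks of nodes

The product of the values of `F` at the `d l` nodes of the `l`-th block is a `d l`-th power.
-/

open Polynomial Topology Filter

namespace Pool.Agent.H92.GGL

open Pool.Agent.H17 Pool.Agent.H17.EntFun Differential

/-- **Rigidity for blocks of nodes.** -/
theorem block_rigid (K : Type) [Field K] [Algebra EntFun K] [IsFractionRing EntFun K]
    {L : Type} [Fintype L] (d : L → ℕ) (hd : ∀ l, 0 < d l) (τ : (Σ l, Fin (d l)) → ℂ)
    (hτ : Function.Injective τ) {r : ℕ} (F : EntFun[X]) (hFdeg : F.natDegree ≤ r) (hF : F ≠ 0)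
    (y : L → EntFun) (hy0 : ∀ l, y l ≠ 0) (hy : ∀ l, ∏ j, evC (τ ⟨l, j⟩) F = y l ^ d l)
    (hnum : ∀ e ρ : ℕ, 0 < e → 0 < ρ → ρ + e ≤ r + 1 →
      2 * ρ + ∑ l, min (d l) (e * ρ) < ∑ l, d l) :
    ∃ (u : EntFun) (P : ℂ[X]), F = C u * P.map (algebraMap ℂ EntFun) := by
  classical
  rcases moving_part K τ hτ F hF with h1 | ⟨R, e, b, he, hρ, -, hdeg, hres, hval, -, hloc⟩
  · exact h1
  exfalso
  apply hres
  set ρ : ℕ := R.natDegree with hρdef
  have hnum' := hnum e ρ he hρ (by omega)
  -- all nodes are good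
  have hgood : ∀ i, evC (τ i) F ≠ 0 := by
    rintro ⟨l, j⟩ h
    apply hy0 l
    have h1 := hy l
    rw [Finset.prod_eq_zero (Finset.mem_univ j) h] at h1
    exact pow_eq_zero_iff (hd l).ne' |>.mp h1.symm
  have hdpos : ∀ l, (0 : ℝ) < d l := fun l => by exact_mod_cast hd l
  have hne : Nonempty (Σ l, Fin (d l)) := by
    by_contra hcon
    rw [not_nonempty_iff] at hcon
    have h1 : Fintype.card (Σ l, Fin (d l)) = 0 := Fintype.card_eq_zero
    rw [Fintype.card_sigma] at h1
    simp only [Fintype.card_fin] at h1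
    omega
  set θ : L → ℝ := fun l => min 1 ((e * ρ : ℝ) / d l) with hθ
  have hθ0 : ∀ l, 0 ≤ θ l := fun l => le_min zero_le_one (by positivity)
  refine resultant_eq_zero_of_weights τ hτ hρ (fun i => θ i.1) (fun i => hθ0 i.1) ?_ R le_rfl
    (fun i => hval _ (hgood i)) ?_
  · -- the numerical condition
    rw [Fintype.card_sigma]
    simp only [Fintype.card_fin]
    have h1 : ∑ i : (Σ l, Fin (d l)), θ i.1 = ((∑ l, min (d l) (e * ρ) : ℕ) : ℝ) := by
      rw [Fintype.sum_sigma]
      push_cast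
      refine Finset.sum_congr rfl fun l _ => ?_
      rw [Finset.sum_const, Finset.card_univ, Fintype.card_fin, nsmul_eq_mul, hθ]
      beta_reduce
      rw [mul_min_of_nonneg _ _ (hdpos l).le, mul_one, mul_div_cancel₀ _ (hdpos l).ne']
    rw [h1]
    have h2 : ((2 * ρ + ∑ l, min (d l) (e * ρ) : ℕ) : ℝ) < ((∑ l, d l : ℕ) : ℝ) := by
      exact_mod_cast hnum'
    push_cast at h2 ⊢
    linarith
  · -- the local condition
    intro s
    obtain ⟨c, cF, G, G', hRG, hG0, hFG, hG'0, hord⟩ := hloc s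
    choose o o' ho ho' hoo' ho'o using fun i : (Σ l, Fin (d l)) => hord (τ i) (hgood i)
    refine ⟨c, G, o, hRG, hG0, ho, ?_⟩
    have hGdeg : G.natDegree ≤ ρ := by
      have h1 : R.natDegree = G.natDegree := by
        rw [hRG, natDegree_C_mul (pow_ne_zero _ (coord_ne_zero s))]
      omega
    -- the number of vanishing nodes
    have hzero : (Finset.univ.filter fun i => o i ≠ 0).card ≤ ρ := by
      by_contra h
      push Not at h
      apply hG0
      refine eq_zero_of_natDegree_lt_card_of_eval_eq_zero' _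
        ((Finset.univ.filter fun i => o i ≠ 0).image τ) ?_ ?_
      · intro x hx
        obtain ⟨i, hi, rfl⟩ := Finset.mem_image.mp hx
        rw [← evC_apply]
        by_contra h1
        have h2 := ho i
        rw [(order_eq_zero_iff _ _).mpr h1] at h2
        have h3 : o i = 0 := by exact_mod_cast h2.symm
        exact (Finset.mem_filter.mp hi).2 h3
      · rw [Finset.card_image_of_injective _ hτ]
        have := (natDegree_map_le (f := ev s) (p := G)).trans hGdeg
        omega
    -- the order condition in a block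
    have hblock : ∀ l, d l ∣ ∑ j, o' ⟨l, j⟩ := by
      intro l
      have h1 : ∏ j, evC (τ ⟨l, j⟩) F = coord s ^ (d l * cF) * ∏ j, evC (τ ⟨l, j⟩) G' := by
        have h2 : ∀ j, evC (τ ⟨l, j⟩) F = coord s ^ cF * evC (τ ⟨l, j⟩) G' := by
          intro j
          rw [hFG, evC_mul, evC_C]
        rw [Finset.prod_congr rfl fun j _ => h2 j, Finset.prod_mul_distrib, Finset.prod_const,
          Finset.card_univ, Fintype.card_fin, ← pow_mul, mul_comm cF]
      rw [hy l] at h1
      have h2 := congrArg (fun f : EntFun => analyticOrderAt (f : ℂ → ℂ) s) h1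
      simp only [order_mul, order_pow, order_coord, mul_one, order_prod] at h2
      have h3 : ∑ j, analyticOrderAt ((evC (τ ⟨l, j⟩) G' : EntFun) : ℂ → ℂ) s =
          ((∑ j, o' ⟨l, j⟩ : ℕ) : ℕ∞) := by
        push_cast
        exact Finset.sum_congr rfl fun j _ => ho' ⟨l, j⟩
      rw [h3] at h2
      obtain ⟨N, hN⟩ := ENat.ne_top_iff_exists.mp (order_ne_top (hy0 l) s)
      rw [← hN] at h2
      have h5 : d l * N = d l * cF + ∑ j, o' ⟨l, j⟩ := by exact_mod_cast h2
      exact (Nat.dvd_add_right (Dvd.intro _ rfl)).mp ⟨N, h5.symm⟩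
    -- the estimate in a block
    have hest : ∀ l, ∑ j, (if o ⟨l, j⟩ ≠ 0 then (1 : ℝ) else 0) ≤ ∑ j, θ l * o ⟨l, j⟩ := by
      intro l
      have hz : ∑ j, (if o ⟨l, j⟩ ≠ 0 then (1 : ℝ) else 0) =
          ((Finset.univ.filter fun j => o ⟨l, j⟩ ≠ 0).card : ℝ) := by
        rw [Finset.sum_ite, Finset.sum_const_zero, add_zero, Finset.sum_const, nsmul_eq_mul,
          mul_one]
      rw [hz, ← Finset.mul_sum]
      set Z := Finset.univ.filter fun j => o ⟨l, j⟩ ≠ 0 with hZ
      have h1 : (Z.card : ℝ) ≤ ∑ j, (o ⟨l, j⟩ : ℝ) := by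
        have : Z.card ≤ ∑ j, o ⟨l, j⟩ := by
          rw [Finset.card_eq_sum_ones, hZ, Finset.sum_filter]
          refine Finset.sum_le_sum fun j _ => ?_
          split_ifs with h
          · omega
          · omega
        exact_mod_cast this
      have h2 : Z.card ≤ ρ := by
        refine le_trans ?_ hzero
        refine Finset.card_le_card_of_injOn (fun j => (⟨l, j⟩ : Σ l, Fin (d l))) ?_ ?_
        · intro j hj
          have := (Finset.mem_filter.mp hj).2
          exact Finset.mem_coe.mpr (Finset.mem_filter.mpr ⟨Finset.mem_univ _, this⟩)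
        · intro j _ j' _ hjj
          exact eq_of_heq (Sigma.mk.inj hjj).2
      have hsum0 : 0 ≤ ∑ j, (o ⟨l, j⟩ : ℝ) := Finset.sum_nonneg fun j _ => Nat.cast_nonneg _
      rw [hθ]
      beta_reduce
      rw [min_mul_of_nonneg _ _ hsum0, one_mul, le_min_iff]
      refine ⟨h1, ?_⟩
      rcases Z.eq_empty_or_nonempty with hZe | ⟨j₀, hj₀⟩
      · rw [hZe, Finset.card_empty, Nat.cast_zero]
        positivity
      · have hj₀' := (Finset.mem_filter.mp hj₀).2
        have h3 : 0 < ∑ j, o' ⟨l, j⟩ := by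
          have h4 : o' ⟨l, j₀⟩ ≤ ∑ j, o' ⟨l, j⟩ :=
            Finset.single_le_sum (f := fun j => o' ⟨l, j⟩) (fun _ _ => Nat.zero_le _)
              (Finset.mem_univ j₀)
          have h5 := hoo' ⟨l, j₀⟩
          omega
        have h4 : d l ≤ ∑ j, o' ⟨l, j⟩ := Nat.le_of_dvd h3 (hblock l)
        have h5 : ∑ j, o' ⟨l, j⟩ ≤ e * ∑ j, o ⟨l, j⟩ := by
          rw [Finset.mul_sum]
          exact Finset.sum_le_sum fun j _ => ho'o ⟨l, j⟩
        have h6 : (d l : ℝ) ≤ e * ∑ j, (o ⟨l, j⟩ : ℝ) := by exact_mod_cast h4.trans h5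
        have h7 : (e * ρ : ℝ) / d l * ∑ j, (o ⟨l, j⟩ : ℝ) =
            ρ * ((e * ∑ j, (o ⟨l, j⟩ : ℝ)) / d l) := by ring
        rw [h7]
        have h8 : 1 ≤ (e * ∑ j, (o ⟨l, j⟩ : ℝ)) / d l := by
          rw [one_le_div (hdpos l)]
          exact h6
        have h9 : (Z.card : ℝ) ≤ ρ := by exact_mod_cast h2
        calc (Z.card : ℝ) ≤ ρ := h9
          _ = ρ * 1 := (mul_one _).symm
          _ ≤ _ := by gcongr
    rw [Finset.card_eq_sum_ones, Nat.cast_sum, Finset.sum_filter]
    push_cast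
    rw [Fintype.sum_sigma, Fintype.sum_sigma]
    exact Finset.sum_le_sum fun l _ => hest l

end Pool.Agent.H92.GGL
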