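import Pool.Agent.H92.GGL.AlgIndep

/-!
# Generic linear forms

The entries of the matrices are algebraically independent.  We show that a plane (spanned by `R`
and `S`) cannot be in special position with respect to too many of these matrices.
-/

namespace Pool.Agent.H92.GGL

variable {Q : Type} [Fintype Q]

/-- The index type of the entries of matrices of size `(r q + 1) × (n + 1)`. -/
abbrev Entry (r : Q → ℕ) (n : ℕ) : Type := Σ q, Fin (r q + 1) × Fin (n + 1)

/-- The value at `R` of the `i`-th linear form of the `q`-th block. -/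
noncomputable def lform {r : Q → ℕ} {n : ℕ} (z : Entry r n → ℂ) (q : Q) (i : Fin (r q + 1))
    (R : Fin (n + 1) → ℂ) : ℂ := ∑ k, z ⟨q, i, k⟩ * R k

omit [Fintype Q] in
lemma lform_comb {r : Q → ℕ} {n : ℕ} (z : Entry r n → ℂ) (q : Q) (i : Fin (r q + 1))
    (R S : Fin (n + 1) → ℂ) (μ ν : ℂ) :
    lform z q i (fun k => μ * R k + ν * S k) = μ * lform z q i R + ν * lform z q i S := by
  unfold lform
  rw [Finset.mul_sum, Finset.mul_sum, ← Finset.sum_add_distrib]
  exact Finset.sum_congr rfl fun k _ => by ring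

/-- The block `q` is in special position with respect to the plane spanned by `R` and `S`. -/
def Special {r : Q → ℕ} {n : ℕ} (z : Entry r n → ℂ) (q : Q) (R S : Fin (n + 1) → ℂ) : Prop :=
  (∃ μ ν : ℂ, (μ ≠ 0 ∨ ν ≠ 0) ∧ ∀ i, μ * lform z q i R + ν * lform z q i S = 0) ∨
  r q ≤ 2 ∧ ∃ τ : ℕ, ∑ i : Fin (r q + 1), (τ : ℂ) ^ (i : ℕ) * lform z q i R = 0 ∧
    ∑ i : Fin (r q + 1), (τ : ℂ) ^ (i : ℕ) * lform z q i S = 0

/-- **General position**, for a normalized basis of the plane. -/
lemma not_special_of_normalized [DecidableEq Q] {r : Q → ℕ} {n : ℕ} {z : Entry r n → ℂ}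
    (hz : AlgebraicIndependent ℚ z) (hsum : 2 * n ≤ ∑ q, r q + 1)
    {R S : Fin (n + 1) → ℂ} {p₁ p₂ : Fin (n + 1)} (hp : p₁ ≠ p₂) (hR1 : R p₁ = 1) (hR2 : R p₂ = 0)
    (hS1 : S p₁ = 0) (hS2 : S p₂ = 1) (h : ∀ q, Special z q R S) : False := by
  classical
  -- a uniform description of the two alternatives
  have alt : ∀ q, ∃ (t : Bool) (π : Fin (n + 1)) (ν : ℂ) (T : Fin (n + 1) → ℂ) (τ : ℕ),
      (t = true → T π = 1 ∧ (∀ i, lform z q i T = 0) ∧
        ((∀ k, T k = R k + ν * S k) ∨ (∀ k, T k = S k))) ∧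
      (t = false → r q ≤ 2 ∧ ∑ i : Fin (r q + 1), (τ : ℂ) ^ (i : ℕ) * lform z q i R = 0 ∧
        ∑ i : Fin (r q + 1), (τ : ℂ) ^ (i : ℕ) * lform z q i S = 0) := by
    intro q
    rcases h q with ⟨μ, ν, hμν, hi⟩ | ⟨hrq, τ, h1, h2⟩
    · by_cases hμ : μ = 0
      · have hν : ν ≠ 0 := by
          rcases hμν with h | h
          · exact absurd hμ h
          · exact h
        refine ⟨true, p₂, 0, S, 0, fun _ => ⟨hS2, fun i => ?_, Or.inr fun _ => rfl⟩,
          fun h => absurd h (by simp)⟩
        have h3 := hi i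
        rw [hμ, zero_mul, zero_add] at h3
        exact (mul_eq_zero.mp h3).resolve_left hν
      · refine ⟨true, p₁, ν / μ, fun k => R k + ν / μ * S k, 0, fun _ => ⟨?_, fun i => ?_,
          Or.inl fun _ => rfl⟩, fun h => absurd h (by simp)⟩
        · beta_reduce
          rw [hR1, hS1]; ring
        · have h3 := lform_comb z q i R S 1 (ν / μ)
          have h4 : lform z q i (fun k => R k + ν / μ * S k) =
              lform z q i (fun k => 1 * R k + ν / μ * S k) := by
            congr 1
            funext k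
            ring
          rw [h4, h3]
          have h5 := hi i
          field_simp
          linear_combination h5
    · exact ⟨false, p₁, 0, R, τ, fun h => absurd h (by simp), fun _ => ⟨hrq, h1, h2⟩⟩
  choose t π ν T τ hI hII using alt
  -- the solved entries
  set Solved : Finset (Entry r n) := Finset.univ.filter fun e =>
    (t e.1 = true ∧ e.2.2 = π e.1) ∨ (t e.1 = false ∧ e.2.1 = 0 ∧ (e.2.2 = p₁ ∨ e.2.2 = p₂))
    with hSolved
  set 𝒢 : Finset ℂ := ((Finset.univ.filter fun k => k ≠ p₁ ∧ k ≠ p₂).image R ∪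
    (Finset.univ.filter fun k => k ≠ p₁ ∧ k ≠ p₂).image S) ∪
    ((Finset.univ.filter fun q => t q = true).image ν ∪ (Solvedᶜ).image z) with h𝒢
  set 𝔸 := Algebra.adjoin ℚ (𝒢 : Set ℂ) with h𝔸
  have hgen : ∀ x ∈ 𝒢, x ∈ 𝔸 := fun x hx => Algebra.subset_adjoin hx
  have hRA : ∀ k, R k ∈ 𝔸 := by
    intro k
    by_cases h1 : k = p₁
    · rw [h1, hR1]; exact one_mem _
    by_cases h2 : k = p₂
    · rw [h2, hR2]; exact zero_mem _
    apply hgen
    rw [h𝒢, Finset.mem_union, Finset.mem_union]
    exact Or.inl (Or.inl (Finset.mem_image_of_mem _ (Finset.mem_filter.mpr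
      ⟨Finset.mem_univ _, h1, h2⟩)))
  have hSA : ∀ k, S k ∈ 𝔸 := by
    intro k
    by_cases h1 : k = p₁
    · rw [h1, hS1]; exact zero_mem _
    by_cases h2 : k = p₂
    · rw [h2, hS2]; exact one_mem _
    apply hgen
    rw [h𝒢, Finset.mem_union, Finset.mem_union]
    exact Or.inl (Or.inr (Finset.mem_image_of_mem _ (Finset.mem_filter.mpr
      ⟨Finset.mem_univ _, h1, h2⟩)))
  have hνA : ∀ q, t q = true → ν q ∈ 𝔸 := by
    intro q hq
    apply hgen
    rw [h𝒢, Finset.mem_union, Finset.mem_union (s := (Finset.univ.filter fun q => t q = true).image ν)]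
    exact Or.inr (Or.inl (Finset.mem_image_of_mem _ (Finset.mem_filter.mpr
      ⟨Finset.mem_univ _, hq⟩)))
  have hTA : ∀ q, t q = true → ∀ k, T q k ∈ 𝔸 := by
    intro q hq k
    obtain ⟨-, -, h1 | h1⟩ := hI q hq
    · rw [h1 k]
      exact add_mem (hRA k) (mul_mem (hνA q hq) (hSA k))
    · rw [h1 k]
      exact hSA k
  have hzA : ∀ e, e ∉ Solved → z e ∈ 𝔸 := by
    intro e he
    apply hgen
    rw [h𝒢, Finset.mem_union, Finset.mem_union (t := (Solvedᶜ).image z)]
    exact Or.inr (Or.inr (Finset.mem_image_of_mem _ (Finset.mem_compl.mpr he)))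
  have hall : ∀ e, z e ∈ 𝔸 := by
    rintro ⟨q, i, k⟩
    by_cases hs : (⟨q, i, k⟩ : Entry r n) ∈ Solved
    swap
    · exact hzA _ hs
    rcases (Finset.mem_filter.mp hs).2 with ⟨htq, hk⟩ | ⟨htq, hi, hk⟩
    · -- the first alternative
      simp only at htq hk
      obtain ⟨hT1, hT0, -⟩ := hI q htq
      have h1 := hT0 i
      unfold lform at h1
      rw [← Finset.add_sum_erase Finset.univ _ (Finset.mem_univ (π q)), hT1, mul_one] at h1
      rw [hk, eq_neg_of_add_eq_zero_left h1]
      refine neg_mem (sum_mem fun k' hk' => mul_mem (hzA _ ?_) (hTA q htq k'))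
      intro h2
      rcases (Finset.mem_filter.mp h2).2 with ⟨-, h3⟩ | ⟨h3, -, -⟩
      · exact (Finset.mem_erase.mp hk').1 h3
      · simp only at h3
        rw [htq] at h3
        exact absurd h3 (by simp)
    · -- the second alternative
      simp only at htq hi hk
      obtain ⟨-, hR0, hS0⟩ := hII q htq
      -- the entries of the other rows, and of the other columns, are not solved
      have hns : ∀ (i' : Fin (r q + 1)) (k' : Fin (n + 1)), (i' ≠ 0 ∨ (k' ≠ p₁ ∧ k' ≠ p₂)) →
          z ⟨q, i', k'⟩ ∈ 𝔸 := by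
        intro i' k' h1
        apply hzA
        intro h2
        rcases (Finset.mem_filter.mp h2).2 with ⟨h3, -⟩ | ⟨-, h3, h4⟩
        · simp only at h3
          rw [htq] at h3
          exact absurd h3 (by simp)
        · simp only at h3 h4
          rcases h1 with h1 | ⟨h1, h1'⟩
          · exact h1 h3
          · rcases h4 with h4 | h4
            · exact h1 h4
            · exact h1' h4
      have hτA : ∀ i' : Fin (r q + 1), ((τ q : ℕ) : ℂ) ^ (i' : ℕ) ∈ 𝔸 := fun i' =>
        pow_mem (natCast_mem _ _) _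
      -- solving for an entry of the first row
      have key : ∀ (V : Fin (n + 1) → ℂ) (p p' : Fin (n + 1)), (∀ k, V k ∈ 𝔸) → V p = 1 →
          V p' = 0 → (∀ k', k' ≠ p → k' ≠ p' → k' ≠ p₁ ∧ k' ≠ p₂) →
          ∑ i : Fin (r q + 1), ((τ q : ℕ) : ℂ) ^ (i : ℕ) * lform z q i V = 0 →
          z ⟨q, 0, p⟩ ∈ 𝔸 := by
        intro V p p' hV hVp hVp' hpp hsumV
        rw [Fin.sum_univ_succ] at hsumV
        unfold lform at hsumV
        rw [Fin.val_zero, pow_zero, one_mul, ← Finset.add_sum_erase Finset.univ _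
          (Finset.mem_univ p), hVp, mul_one, add_assoc] at hsumV
        rw [eq_neg_of_add_eq_zero_left hsumV]
        refine neg_mem (add_mem (sum_mem fun k' hk' => ?_) (sum_mem fun i' _ => mul_mem (hτA _)
          (sum_mem fun k' _ => mul_mem (hns _ _ (Or.inl (Fin.succ_ne_zero i'))) (hV k'))))
        by_cases hk'p : k' = p'
        · rw [hk'p, hVp', mul_zero]
          exact zero_mem _
        · exact mul_mem (hns _ _ (Or.inr (hpp k' (Finset.mem_erase.mp hk').1 hk'p))) (hV k')
      rw [hi]
      rcases hk with hk | hk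
      · rw [hk]
        exact key R p₁ p₂ hRA hR1 hR2 (fun k' h1 h2 => ⟨h1, h2⟩) hR0
      · rw [hk]
        exact key S p₂ p₁ hSA hS2 hS1 (fun k' h1 h2 => ⟨h2, h1⟩) hS0
  have hcard := card_le_of_forall_mem_adjoin hz 𝒢 hall
  -- the number of generators
  have hfil : (Finset.univ.filter fun k : Fin (n + 1) => k ≠ p₁ ∧ k ≠ p₂).card = n - 1 := by
    have h1 : (Finset.univ.filter fun k : Fin (n + 1) => k ≠ p₁ ∧ k ≠ p₂) =
        (Finset.univ.erase p₁).erase p₂ := by
      ext k
      simp only [Finset.mem_filter, Finset.mem_univ, true_and, Finset.mem_erase, and_true]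
      exact and_comm
    rw [h1, Finset.card_erase_of_mem (Finset.mem_erase.mpr ⟨hp.symm, Finset.mem_univ _⟩),
      Finset.card_erase_of_mem (Finset.mem_univ _), Finset.card_univ, Fintype.card_fin]
    omega
  have h𝒢card : 𝒢.card ≤ (n - 1) + (n - 1) + ((Finset.univ.filter fun q => t q = true).card +
      (Fintype.card (Entry r n) - Solved.card)) := by
    rw [h𝒢]
    refine (Finset.card_union_le _ _).trans (Nat.add_le_add ?_ ?_)
    · refine (Finset.card_union_le _ _).trans (Nat.add_le_add ?_ ?_)
      · exact Finset.card_image_le.trans hfil.le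
      · exact Finset.card_image_le.trans hfil.le
    · refine (Finset.card_union_le _ _).trans (Nat.add_le_add ?_ ?_)
      · exact Finset.card_image_le
      · refine Finset.card_image_le.trans (le_of_eq ?_)
        rw [Finset.card_compl]
  -- the number of solved entries
  have hsol : ∑ q, (if t q = true then r q + 1 else 2) ≤ Solved.card := by
    rw [Finset.card_eq_sum_card_fiberwise (f := fun e : Entry r n => e.1) (t := Finset.univ)
      (fun _ _ => Finset.mem_coe.mpr (Finset.mem_univ _))]
    refine Finset.sum_le_sum fun q _ => ?_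
    by_cases htq : t q = true
    · rw [if_pos htq]
      have h1 : (Finset.univ : Finset (Fin (r q + 1))).card ≤
          (Solved.filter fun e => e.1 = q).card := by
        refine Finset.card_le_card_of_injOn (fun i => (⟨q, i, π q⟩ : Entry r n)) ?_ ?_
        · intro i _
          rw [Finset.mem_coe]
          exact Finset.mem_filter.mpr ⟨Finset.mem_filter.mpr ⟨Finset.mem_univ _,
            Or.inl ⟨htq, rfl⟩⟩, rfl⟩
        · intro i _ j _ hij
          exact (Prod.mk.inj (eq_of_heq (Sigma.mk.inj hij).2)).1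
      rwa [Finset.card_univ, Fintype.card_fin] at h1
    · rw [if_neg htq]
      have htq' : t q = false := by simpa using htq
      have h1 : (Finset.univ : Finset (Fin 2)).card ≤ (Solved.filter fun e => e.1 = q).card := by
        refine Finset.card_le_card_of_injOn
          (fun i => (⟨q, 0, if i = 0 then p₁ else p₂⟩ : Entry r n)) ?_ ?_
        · intro i _
          rw [Finset.mem_coe]
          refine Finset.mem_filter.mpr ⟨Finset.mem_filter.mpr ⟨Finset.mem_univ _,
            Or.inr ⟨htq', rfl, ?_⟩⟩, rfl⟩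
          by_cases hi : i = 0
          · left; simp [hi]
          · right; simp [hi]
        · intro i _ j _ hij
          have h2 := (Prod.mk.inj (eq_of_heq (Sigma.mk.inj hij).2)).2
          by_cases hi : i = 0 <;> by_cases hj : j = 0
          · rw [hi, hj]
          · rw [if_pos hi, if_neg hj] at h2
            exact absurd h2 hp
          · rw [if_neg hi, if_pos hj] at h2
            exact absurd h2.symm hp
          · omega
      rwa [Finset.card_univ, Fintype.card_fin] at h1
  have hsum2 : ∑ q, (if t q = true then r q + 1 else 2) =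
      ∑ q, (if t q = true then r q else 2) + (Finset.univ.filter fun q => t q = true).card := by
    rw [Finset.card_eq_sum_ones, Finset.sum_filter, ← Finset.sum_add_distrib]
    refine Finset.sum_congr rfl fun q _ => ?_
    split_ifs <;> rfl
  have hsum3 : ∑ q, r q ≤ ∑ q, (if t q = true then r q else 2) := by
    refine Finset.sum_le_sum fun q _ => ?_
    split_ifs with htq
    · exact le_rfl
    · exact (hII q (by simpa using htq)).1
  have hn : 1 ≤ n := by
    by_contra hcon
    apply hp
    have h1 := p₁.2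
    have h2 := p₂.2
    apply Fin.ext
    omega
  have hle : Solved.card ≤ Fintype.card (Entry r n) := Finset.card_le_univ _
  omega

/-- **General position.** -/
theorem not_linearIndependent_of_special [DecidableEq Q] {r : Q → ℕ} {n : ℕ} {z : Entry r n → ℂ}
    (hz : AlgebraicIndependent ℚ z) (hsum : 2 * n ≤ ∑ q, r q + 1)
    (R S : Fin (n + 1) → ℂ) (h : ∀ q, Special z q R S) (p₁ p₂ : Fin (n + 1)) :
    R p₁ * S p₂ = R p₂ * S p₁ := by
  by_contra hne
  have hΔ : R p₁ * S p₂ - R p₂ * S p₁ ≠ 0 := sub_ne_zero.mpr hne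
  set Δ := R p₁ * S p₂ - R p₂ * S p₁ with hΔdef
  have hp : p₁ ≠ p₂ := by
    rintro rfl
    exact hne rfl
  refine not_special_of_normalized hz hsum (R := fun k => (S p₂ / Δ) * R k + (-(R p₂) / Δ) * S k)
    (S := fun k => (-(S p₁) / Δ) * R k + (R p₁ / Δ) * S k) hp ?_ ?_ ?_ ?_ ?_
  · field_simp
    rw [hΔdef]; ring
  · field_simp
    ring
  · field_simp
    ring
  · field_simp
    rw [hΔdef]; ring
  · intro q
    rcases h q with ⟨μ, ν, hμν, hi⟩ | ⟨hrq, τ, h1, h2⟩
    · left
      refine ⟨R p₁ * μ + S p₁ * ν, R p₂ * μ + S p₂ * ν, ?_, fun i => ?_⟩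
      · by_contra hcon
        push Not at hcon
        obtain ⟨h3, h4⟩ := hcon
        have h5 : Δ * μ = 0 := by
          rw [hΔdef]
          linear_combination S p₂ * h3 - S p₁ * h4
        have h6 : Δ * ν = 0 := by
          rw [hΔdef]
          linear_combination R p₁ * h4 - R p₂ * h3
        rcases hμν with h7 | h7
        · exact h7 ((mul_eq_zero.mp h5).resolve_left hΔ)
        · exact h7 ((mul_eq_zero.mp h6).resolve_left hΔ)
      · rw [lform_comb, lform_comb]
        have h3 := hi i
        have h4 : (R p₁ * μ + S p₁ * ν) * (S p₂ / Δ * lform z q i R + -R p₂ / Δ * lform z q i S) +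
            (R p₂ * μ + S p₂ * ν) * (-S p₁ / Δ * lform z q i R + R p₁ / Δ * lform z q i S) =
            (Δ / Δ) * (μ * lform z q i R + ν * lform z q i S) := by
          rw [hΔdef]
          ring
        rw [h4, h3, mul_zero]
    · right
      refine ⟨hrq, τ, ?_, ?_⟩
      · have h3 : ∀ i : Fin (r q + 1), (τ : ℂ) ^ (i : ℕ) * lform z q i
            (fun k => (S p₂ / Δ) * R k + (-(R p₂) / Δ) * S k) =
            (S p₂ / Δ) * ((τ : ℂ) ^ (i : ℕ) * lform z q i R) +
            (-(R p₂) / Δ) * ((τ : ℂ) ^ (i : ℕ) * lform z q i S) := by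
          intro i
          rw [lform_comb]
          ring
        rw [Finset.sum_congr rfl fun i _ => h3 i, Finset.sum_add_distrib, ← Finset.mul_sum,
          ← Finset.mul_sum, h1, h2, mul_zero, mul_zero, add_zero]
      · have h3 : ∀ i : Fin (r q + 1), (τ : ℂ) ^ (i : ℕ) * lform z q i
            (fun k => (-(S p₁) / Δ) * R k + (R p₁ / Δ) * S k) =
            (-(S p₁) / Δ) * ((τ : ℂ) ^ (i : ℕ) * lform z q i R) +
            (R p₁ / Δ) * ((τ : ℂ) ^ (i : ℕ) * lform z q i S) := by
          intro i
          rw [lform_comb]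
          ring
        rw [Finset.sum_congr rfl fun i _ => h3 i, Finset.sum_add_distrib, ← Finset.mul_sum,
          ← Finset.mul_sum, h1, h2, mul_zero, mul_zero, add_zero]

end Pool.Agent.H92.GGL
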