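import Pool.Agent.H17.CurveTools
import Pool.Agent.H92.GGL.BlockRigid
import Pool.Agent.H92.GGL.GenPos

/-!
# Hyperbolic hypersurfaces as blocks
-/

open Polynomial Topology Filter

namespace Pool.Agent.H92.GGL

open Pool.Agent.H17 Pool.Agent.H17.EntFun

lemma eval_apply_eq {N : ℕ} (h : Fin (N + 1) → EntFun) (g : MvPolynomial (Fin (N + 1)) ℂ) (w : ℂ) :
    ((MvPolynomial.aeval h g : EntFun) : ℂ → ℂ) w =
      MvPolynomial.eval (fun j => (h j : ℂ → ℂ) w) g := by
  have h4 : ev w (MvPolynomial.aeval h g) = MvPolynomial.eval (fun j => (h j : ℂ → ℂ) w) g := by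
    rw [MvPolynomial.aeval_def, MvPolynomial.hom_eval₂]
    have : (ev w).comp (algebraMap ℂ EntFun) = RingHom.id ℂ := by
      ext c
      simp
    rw [this, MvPolynomial.eval₂_id]
    rfl
  exact h4

/-- Removing the common zeros of a vector of entire functions near one point. -/
lemma exists_reduced {N : ℕ} {h : Fin (N + 1) → EntFun} (hne : ∃ j, h j ≠ 0) (s : ℂ) :
    ∃ (c : ℕ) (g : Fin (N + 1) → EntFun), (∀ j, h j = coord s ^ c * g j) ∧
      ∃ j, (g j : ℂ → ℂ) s ≠ 0 := by
  obtain ⟨j₀, hj₀⟩ := hne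
  have hF : polyOf h ≠ 0 := by
    intro h0
    apply hj₀
    rw [← polyOf_coeff h j₀, h0, coeff_zero]
  obtain ⟨c, G, hG, hG0⟩ := exists_coord_pow_mul s hF
  have hcoef : ∀ k, (polyOf h).coeff k = coord s ^ c * G.coeff k := by
    intro k
    rw [hG, coeff_C_mul]
  refine ⟨c, fun j => G.coeff j, fun j => ?_, ?_⟩
  · rw [← hcoef, polyOf_coeff]
  · by_contra hcon
    push Not at hcon
    apply hG0
    ext k
    rw [coeff_map, coeff_zero]
    by_cases hk : k < N + 1
    · exact hcon ⟨k, hk⟩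
    · have h1 := hcoef k
      rw [coeff_eq_zero_of_natDegree_lt ((natDegree_polyOf h).trans_lt (by omega))] at h1
      rcases mul_eq_zero.mp h1.symm with h2 | h2
      · exact absurd h2 (pow_ne_zero _ (coord_ne_zero s))
      · rw [h2]
        rfl

/-- A vector of entire functions satisfying the equations gives an entire curve. -/
lemma exists_curve {N : ℕ} {κ : Type} {d : κ → ℕ} {g : κ → MvPolynomial (Fin (N + 1)) ℂ}
    (hg : ∀ l, (g l).IsHomogeneous (d l)) {h : Fin (N + 1) → EntFun} (hne : ∃ j, h j ≠ 0)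
    (hgh : ∀ l, MvPolynomial.aeval h (g l) = 0) :
    ∃ f : ℂ → PN N, HolomorphicInto f Set.univ ∧ (∀ z, f z ∈ zeroLocus g) ∧
      ∀ z, ∃ a : ℂ, ∀ j, (h j : ℂ → ℂ) z = a * (f z).rep j := by
  classical
  choose c G hG hG0 using fun s => exists_reduced hne s
  have hvec : ∀ s, (fun j => (G s j : ℂ → ℂ) s) ≠ 0 := by
    intro s h0
    obtain ⟨j, hj⟩ := hG0 s
    exact hj (congrFun h0 j)
  have hval : ∀ s j w, (h j : ℂ → ℂ) w = (w - s) ^ c s * (G s j : ℂ → ℂ) w := by
    intro s j w
    rw [hG s j]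
    rfl
  refine ⟨fun s => Projectivization.mk ℂ _ (hvec s), ?_, ?_, ?_⟩
  · intro s _
    refine ⟨fun w j => (G s j : ℂ → ℂ) w, ?_, ?_⟩
    · rw [analyticAt_pi_iff]
      exact fun j => (G s j).analyticAt s
    · obtain ⟨j, hj⟩ := hG0 s
      have hcont : ContinuousAt (fun w => (G s j : ℂ → ℂ) w) s := ((G s j).analyticAt s).continuousAt
      filter_upwards [hcont.eventually_ne hj] with w hw
      refine ⟨fun h0 => hw (congrFun h0 j), ?_⟩
      by_cases hws : w = s
      · subst hws
        rfl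
      · have hpow : (w - s) ^ c s ≠ 0 := pow_ne_zero _ (sub_ne_zero.mpr hws)
        have hcw : c w = 0 := by
          by_contra hcw
          have h1 := hval w j w
          rw [sub_self, zero_pow hcw, zero_mul, hval s j w] at h1
          rcases mul_eq_zero.mp h1 with h2 | h2
          · exact hpow h2
          · exact hw h2
        rw [Projectivization.mk_eq_mk_iff]
        refine ⟨Units.mk0 _ hpow, ?_⟩
        funext k
        change (w - s) ^ c s * (G s k : ℂ → ℂ) w = (G w k : ℂ → ℂ) w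
        rw [← hval s k w, hval w k w, hcw, pow_zero, one_mul]
  · intro s l
    rw [vanishesAt_mk_iff (hg l)]
    -- the equation for the reduced vector
    have h1 : (coord s ^ (c s * d l)) * MvPolynomial.aeval (G s) (g l) = 0 := by
      ext w
      have h2 : ((coord s ^ (c s * d l) * MvPolynomial.aeval (G s) (g l) : EntFun) : ℂ → ℂ) w =
          (w - s) ^ (c s * d l) * MvPolynomial.eval (fun j => (G s j : ℂ → ℂ) w) (g l) := by
        rw [← eval_apply_eq]
        rfl
      rw [h2]
      have h3 := eval_smul_of_isHomogeneous (hg l) ((w - s) ^ c s) (fun j => (G s j : ℂ → ℂ) w)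
      have h4 : (fun k => (w - s) ^ c s * (G s k : ℂ → ℂ) w) = fun k => (h k : ℂ → ℂ) w := by
        funext k
        rw [hval s k w]
      rw [h4, ← eval_apply_eq, hgh l, ← pow_mul] at h3
      rw [← h3]
    rcases mul_eq_zero.mp h1 with h2 | h2
    · exact absurd h2 (pow_ne_zero _ (coord_ne_zero s))
    · rw [← eval_apply_eq, h2]
      rfl
  · intro s
    obtain ⟨a, ha, h1⟩ := exists_smul_rep _ (hvec s)
    refine ⟨0 ^ c s * a⁻¹, fun j => ?_⟩
    beta_reduce
    rw [h1, hval s j s, sub_self, Pi.smul_apply, smul_eq_mul, mul_assoc, inv_mul_cancel_left₀ ha]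

/-- If the zero locus is Brody hyperbolic, vectors of entire functions satisfying the equations have
proportional values. -/
lemma cross_of_hyperbolic {N : ℕ} {κ : Type} {d : κ → ℕ} {g : κ → MvPolynomial (Fin (N + 1)) ℂ}
    (hg : ∀ l, (g l).IsHomogeneous (d l))
    (hbr : ∀ f : ℂ → PN N, HolomorphicInto f Set.univ → (∀ z, f z ∈ zeroLocus g) →
      ∀ z w, f z = f w)
    {h : Fin (N + 1) → EntFun} (hgh : ∀ l, MvPolynomial.aeval h (g l) = 0) (w₁ w₂ : ℂ)
    (j k : Fin (N + 1)) : (h j : ℂ → ℂ) w₁ * (h k : ℂ → ℂ) w₂ =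
      (h k : ℂ → ℂ) w₁ * (h j : ℂ → ℂ) w₂ := by
  by_cases hne : ∃ j, h j ≠ 0
  · obtain ⟨f, hf, hfX, hfh⟩ := exists_curve hg hne hgh
    obtain ⟨a, ha⟩ := hfh w₁
    obtain ⟨b, hb⟩ := hfh w₂
    rw [hbr f hf hfX w₁ w₂] at ha
    rw [ha j, ha k, hb j, hb k]
    ring
  · push Not at hne
    rw [hne j, hne k]

/-- Projective space of positive dimension is not Brody hyperbolic. -/
lemma exists_eval_ne_zero {N : ℕ} {g : MvPolynomial (Fin (N + 2)) ℂ} {d : ℕ}
    (hg : g.IsHomogeneous d)
    (hbr : ∀ f : ℂ → PN (N + 1), HolomorphicInto f Set.univ →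
      (∀ z, f z ∈ zeroLocus fun _ : Unit => g) → ∀ z w, f z = f w) :
    ∃ p : Fin (N + 2) → ℂ, MvPolynomial.eval p g ≠ 0 := by
  by_contra hcon
  push Not at hcon
  have h1 : ∀ z : ℂ, (fun j : Fin (N + 2) => if j = 0 then (1 : ℂ) else z) ≠ 0 := by
    intro z h0
    have := congrFun h0 0
    simp at this
  have h2 := hbr (fun z => Projectivization.mk ℂ _ (h1 z)) (fun s _ =>
    ⟨fun z j => if j = 0 then (1 : ℂ) else z, by
      rw [analyticAt_pi_iff]
      intro j
      change AnalyticAt ℂ (fun z : ℂ => if j = 0 then (1 : ℂ) else z) s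
      by_cases hj : j = 0
      · have h5 : (fun z : ℂ => if j = 0 then (1 : ℂ) else z) = fun _ => 1 := by
          funext z
          rw [if_pos hj]
        rw [h5]
        exact analyticAt_const
      · have h5 : (fun z : ℂ => if j = 0 then (1 : ℂ) else z) = fun z => z := by
          funext z
          rw [if_neg hj]
        rw [h5]
        exact analyticAt_id, Eventually.of_forall fun z => ⟨h1 z, rfl⟩⟩)
    (fun z _ => (vanishesAt_mk_iff hg _ _).mpr (hcon _)) 0 1
  rw [Projectivization.mk_eq_mk_iff] at h2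
  obtain ⟨a, ha⟩ := h2
  have h3 := congrFun ha 0
  have h4 := congrFun ha 1
  simp only [Units.smul_def, Pi.smul_apply, smul_eq_mul, if_true, mul_one] at h3
  simp only [Units.smul_def, Pi.smul_apply, smul_eq_mul, one_ne_zero, if_false, mul_one] at h4
  rw [h3] at h4
  exact one_ne_zero h4

end Pool.Agent.H92.GGL
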