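import Mathlib

/-!
# Algebraically independent complex numbers
-/

open Cardinal

namespace Pool.Agent.H92.GGL

/-- A finite algebraically independent family in the algebra generated by a finite set. -/
lemma card_le_of_forall_mem_adjoin {E : Type} [Fintype E] {z : E → ℂ}
    (hz : AlgebraicIndependent ℚ z) (𝒢 : Finset ℂ)
    (h : ∀ e, z e ∈ Algebra.adjoin ℚ (𝒢 : Set ℂ)) : Fintype.card E ≤ 𝒢.card := by
  classical
  set M := AlgebraicIndependent.matroid ℚ ℂ with hM
  have hI : M.Indep (Set.range z) := by
    rw [hM, AlgebraicIndependent.matroid_indep_iff]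
    exact hz.coe_range
  have hsub : Set.range z ⊆ M.closure (𝒢 : Set ℂ) := by
    rintro _ ⟨e, rfl⟩
    rw [hM, AlgebraicIndependent.matroid_closure_eq]
    exact isAlgebraic_algebraMap (⟨z e, h e⟩ : Algebra.adjoin ℚ (𝒢 : Set ℂ))
  have h1 := hI.encard_le_eRk_of_subset hsub
  rw [Matroid.eRk_closure_eq] at h1
  have h2 := h1.trans (M.eRk_le_encard (𝒢 : Set ℂ))
  have h3 : (Set.range z).encard = Fintype.card E := by
    rw [← Set.image_univ, hz.injective.encard_image, Set.encard_univ, ENat.card_eq_coe_fintype_card]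
  rw [h3, Set.encard_coe_eq_coe_finsetCard] at h2
  exact_mod_cast h2

/-- Finite algebraically independent families of complex numbers exist. -/
lemma exists_algebraicIndependent (E : Type) [Finite E] :
    ∃ z : E → ℂ, AlgebraicIndependent ℚ z := by
  obtain ⟨ι, x, hx⟩ := exists_isTranscendenceBasis' ℚ ℂ
  have hinf : Infinite ι := by
    by_contra hcon
    rw [not_infinite_iff_finite] at hcon
    have h1 := IsAlgClosed.cardinal_eq_cardinal_transcendence_basis_of_aleph0_lt x hx
      (by rw [Cardinal.mkRat]) (by rw [Cardinal.mk_complex]; exact Cardinal.aleph0_lt_continuum)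
    rw [Cardinal.mk_complex] at h1
    have h2 : #ι < ℵ₀ := Cardinal.lt_aleph0_iff_finite.mpr hcon
    simp only [Cardinal.lift_id] at h1
    rw [← h1] at h2
    exact absurd h2 (not_lt.mpr Cardinal.aleph0_le_continuum)
  obtain ⟨n, ⟨e⟩⟩ := Finite.exists_equiv_fin E
  have f : Fin n ↪ ι := ⟨fun i => Infinite.natEmbedding ι i, fun i j h =>
    Fin.ext ((Infinite.natEmbedding ι).injective h)⟩
  exact ⟨x ∘ (f ∘ e), hx.1.comp _ (f.injective.comp e.injective)⟩

end Pool.Agent.H92.GGL
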