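import Pool.Agent.H92.GGL.AnnMean

/-!
# Jensen's formula on a punctured disc
-/

open Complex MeasureTheory Metric Set Topology Filter

namespace Pool.Agent.H92.GGL

/-- The order of a meromorphic function as an integer. -/
noncomputable def ordZ (u : ℂ → ℂ) (s : ℂ) : ℤ := (meromorphicOrderAt u s).untop₀

lemma ordZ_cast {u : ℂ → ℂ} {s : ℂ} (h : meromorphicOrderAt u s ≠ ⊤) :
    (ordZ u s : WithTop ℤ) = meromorphicOrderAt u s := by
  unfold ordZ
  exact WithTop.coe_untop₀_of_ne_top h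

/-- There are finitely many zeros and poles in an annulus. -/
lemma finite_ordZ {u : ℂ → ℂ} {R₀ a b : ℝ} (ha : 0 < a) (hb : b < R₀)
    (hu : ∀ z, 0 < ‖z‖ → ‖z‖ < R₀ → MeromorphicAt u z) :
    {s : ℂ | a ≤ ‖s‖ ∧ ‖s‖ ≤ b ∧ ordZ u s ≠ 0}.Finite := by
  set K : Set ℂ := {s : ℂ | a ≤ ‖s‖ ∧ ‖s‖ ≤ b} with hK
  have hKc : IsCompact K := by
    refine (isCompact_closedBall (0 : ℂ) b).of_isClosed_subset ?_ ?_
    · exact (isClosed_le continuous_const continuous_norm).inter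
        (isClosed_le continuous_norm continuous_const)
    · intro s hs
      rw [mem_closedBall_zero_iff]
      exact hs.2
  have hm : MeromorphicOn u K := fun z hz => hu z (ha.trans_le hz.1) (hz.2.trans_lt hb)
  refine ((MeromorphicOn.divisor u K).finiteSupport hKc).subset ?_
  rintro s ⟨h1, h2, h3⟩
  rw [Function.mem_support, MeromorphicOn.divisor_apply hm ⟨h1, h2⟩]
  exact h3

/-- The formula on an annulus. -/
lemma circleAverage_annulus {u : ℂ → ℂ} {R₀ r₁ R₁ : ℝ} (hr₁ : 0 < r₁) (hR₁ : R₁ < R₀)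
    (hu : ∀ z, 0 < ‖z‖ → ‖z‖ < R₀ → MeromorphicAt u z)
    (ho : ∀ z, 0 < ‖z‖ → ‖z‖ < R₀ → meromorphicOrderAt u z ≠ ⊤)
    (S : Finset ℂ) (hS : ∀ s, s ∈ S ↔ (r₁ < ‖s‖ ∧ ‖s‖ < R₁) ∧ ordZ u s ≠ 0) :
    ∃ a b : ℝ, ∀ r, r₁ < r → r < R₁ →
      Real.circleAverage (fun z => Real.log ‖u z‖) 0 r =
        a + b * Real.log r + ∑ s ∈ S, ordZ u s * Real.posLog (‖s‖ / r) := by
  set U : Set ℂ := {s : ℂ | r₁ < ‖s‖ ∧ ‖s‖ < R₁} with hU
  have hm : MeromorphicOn u U := fun z hz => hu z (hr₁.trans hz.1) (hz.2.trans hR₁)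
  have hdiv : ∀ s, MeromorphicOn.divisor u U s = if s ∈ U then ordZ u s else 0 := by
    intro s
    split_ifs with h
    · rw [MeromorphicOn.divisor_apply hm h]
      rfl
    · exact Function.locallyFinsuppWithin.apply_eq_zero_of_notMem _ h
  have hsupp : (MeromorphicOn.divisor u U).support ⊆ (S : Set ℂ) := by
    intro s hs
    rw [Function.mem_support, hdiv] at hs
    split_ifs at hs with h
    · exact (hS s).mpr ⟨h, hs⟩
    · exact absurd rfl hs
  have hfin : (MeromorphicOn.divisor u U).support.Finite := S.finite_toSet.subset hsupp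
  obtain ⟨v, hv, hv0, hfv⟩ := hm.extract_zeros_poles
    (fun z => ho z (hr₁.trans z.2.1) (z.2.2.trans hR₁)) hfin
  have hlog := MeromorphicOn.extract_zeros_poles_log hv0 hfv
  obtain ⟨a, b, hab⟩ := circleAverage_log_norm_affine (v := v) hr₁
    (fun z h1 h2 => hv z ⟨h1, h2⟩) (fun z h1 h2 => hv0 ⟨z, h1, h2⟩)
  refine ⟨a, b + ∑ s ∈ S, (ordZ u s : ℝ), ?_⟩
  intro r h1 h2
  have hr0 : 0 < r := hr₁.trans h1
  have hsum : ∑ᶠ s, (fun z : ℂ => (MeromorphicOn.divisor u U s : ℝ) * Real.log ‖z - s‖) =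
      fun z => ∑ s ∈ S, (ordZ u s : ℝ) * Real.log ‖z - s‖ := by
    have h3 : ∑ᶠ s, (fun z : ℂ => (MeromorphicOn.divisor u U s : ℝ) * Real.log ‖z - s‖) =
        ∑ s ∈ S, (fun z : ℂ => (MeromorphicOn.divisor u U s : ℝ) * Real.log ‖z - s‖) := by
      apply finsum_eq_sum_of_support_subset
      intro s hs
      apply hsupp
      rw [Function.mem_support] at hs ⊢
      intro h
      apply hs
      funext z
      rw [h]
      simp
    rw [h3]
    funext z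
    rw [Finset.sum_apply]
    refine Finset.sum_congr rfl fun s hs => ?_
    have h4 : s ∈ U := ((hS s).mp hs).1
    rw [hdiv, if_pos h4]
  have hcongr : Real.circleAverage (fun z => Real.log ‖u z‖) 0 r =
      Real.circleAverage ((fun z => ∑ s ∈ S, (ordZ u s : ℝ) * Real.log ‖z - s‖) +
        fun z => Real.log ‖v z‖) 0 r := by
    apply Real.circleAverage_congr_codiscreteWithin
    · rw [← hsum]
      refine Filter.EventuallyEq.filter_mono (l := codiscreteWithin U) hlog (codiscreteWithin_mono ?_)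
      intro z hz
      rw [mem_sphere_zero_iff_norm, abs_of_pos hr0] at hz
      rw [hU, mem_ofPred_eq, hz]
      exact ⟨h1, h2⟩
    · exact hr0.ne'
  have hint1 : ∀ s : ℂ, CircleIntegrable (fun z => Real.log ‖z - s‖) 0 r := fun s =>
    circleIntegrable_log_norm_sub_const r
  have hint : CircleIntegrable (fun z => ∑ s ∈ S, (ordZ u s : ℝ) * Real.log ‖z - s‖) 0 r := by
    refine CircleIntegrable.fun_sum S fun s _ => ?_
    exact (hint1 s).const_fun_smul (a := (ordZ u s : ℝ))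
  have hintv : CircleIntegrable (fun z => Real.log ‖v z‖) 0 r := by
    apply MeromorphicOn.circleIntegrable_log_norm
    intro z hz
    rw [mem_sphere_zero_iff_norm, abs_of_pos hr0] at hz
    refine (hv z ?_).meromorphicAt
    rw [hU, mem_ofPred_eq, hz]
    exact ⟨h1, h2⟩
  rw [hcongr, Real.circleAverage_add hint hintv, hab r h1 h2, Real.circleAverage_fun_sum]
  · have h4 : ∀ s ∈ S, Real.circleAverage (fun z => (ordZ u s : ℝ) * Real.log ‖z - s‖) 0 r =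
        ordZ u s * (Real.log r + Real.posLog (‖s‖ / r)) := by
      intro s _
      have h5 := Real.circleAverage_fun_smul (a := (ordZ u s : ℝ))
        (f := fun z => Real.log ‖z - s‖) (c := 0) (R := r)
      simp only [smul_eq_mul] at h5
      rw [h5, circleAverage_log_norm_sub_const_eq_log_radius_add_posLog hr0.ne', zero_sub, norm_neg,
        inv_mul_eq_div]
    rw [Finset.sum_congr rfl h4]
    simp only [mul_add, Finset.sum_add_distrib, ← Finset.sum_mul, add_mul]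
    ring
  · intro s _
    exact (hint1 s).const_fun_smul (a := (ordZ u s : ℝ))

/-- **Jensen's formula on a punctured disc.** -/
theorem jensen_punctured {u : ℂ → ℂ} {R₀ R₁ : ℝ} (hR₁ : R₁ < R₀)
    (hu : ∀ z, 0 < ‖z‖ → ‖z‖ < R₀ → MeromorphicAt u z)
    (ho : ∀ z, 0 < ‖z‖ → ‖z‖ < R₀ → meromorphicOrderAt u z ≠ ⊤) :
    ∃ A B : ℝ, ∀ r, 0 < r → r < R₁ → ∀ S : Finset ℂ, (∀ s ∈ S, ‖s‖ < R₁) →
      (∀ s, r < ‖s‖ → ‖s‖ < R₁ → ordZ u s ≠ 0 → s ∈ S) →
      Real.circleAverage (fun z => Real.log ‖u z‖) 0 r =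
        A + B * Real.log r + ∑ s ∈ S, ordZ u s * Real.posLog (‖s‖ / r) := by
  classical
  rcases le_or_gt R₁ 0 with hle | hR1pos
  · exact ⟨0, 0, fun r h1 h2 => absurd (h1.trans h2) (not_lt.mpr hle)⟩
  -- the finite sets of zeros
  have hfin : ∀ r : ℝ, 0 < r → {s : ℂ | (r < ‖s‖ ∧ ‖s‖ < R₁) ∧ ordZ u s ≠ 0}.Finite := by
    intro r hr
    refine (finite_ordZ hr hR₁ hu).subset ?_
    rintro s ⟨⟨h1, h2⟩, h3⟩
    exact ⟨h1.le, h2.le, h3⟩
  -- independence of the set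
  have hindep : ∀ r, 0 < r → ∀ S : Finset ℂ, (∀ s ∈ S, ‖s‖ < R₁) →
      (∀ s, r < ‖s‖ → ‖s‖ < R₁ → ordZ u s ≠ 0 → s ∈ S) → ∀ S' : Finset ℂ,
      (∀ s ∈ S', ‖s‖ < R₁) → (∀ s, r < ‖s‖ → ‖s‖ < R₁ → ordZ u s ≠ 0 → s ∈ S') →
      ∑ s ∈ S, ordZ u s * Real.posLog (‖s‖ / r) = ∑ s ∈ S', ordZ u s * Real.posLog (‖s‖ / r) := by
    intro r hr S hS1 hS2 S' hS'1 hS'2
    have hz : ∀ s, (ordZ u s : ℝ) * Real.posLog (‖s‖ / r) ≠ 0 → r < ‖s‖ ∧ ordZ u s ≠ 0 := by
      intro s hs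
      refine ⟨?_, fun h => hs (by rw [h]; simp)⟩
      by_contra h
      apply hs
      have h1 : |‖s‖ / r| ≤ 1 := by
        rw [abs_of_nonneg (by positivity), div_le_one hr]
        exact not_lt.mp h
      rw [Real.posLog_eq_zero_iff _ |>.mpr h1, mul_zero]
    have h1 : ∀ T : Finset ℂ, (∀ s ∈ T, ‖s‖ < R₁) →
        (∀ s, r < ‖s‖ → ‖s‖ < R₁ → ordZ u s ≠ 0 → s ∈ T) →
        ∑ s ∈ T, (ordZ u s : ℝ) * Real.posLog (‖s‖ / r) =
          ∑ s ∈ (hfin r hr).toFinset, (ordZ u s : ℝ) * Real.posLog (‖s‖ / r) := by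
      intro T hT1 hT2
      symm
      apply Finset.sum_subset_zero_on_sdiff
      · intro s hs
        obtain ⟨⟨h1, h2⟩, h3⟩ := (hfin r hr).mem_toFinset.mp hs
        exact hT2 s h1 h2 h3
      · intro s hs
        rw [Finset.mem_sdiff] at hs
        by_contra h
        apply hs.2
        obtain ⟨h2, h3⟩ := hz s h
        exact (hfin r hr).mem_toFinset.mpr ⟨⟨h2, hT1 s hs.1⟩, h3⟩
      · intro s _
        rfl
    rw [h1 S hS1 hS2, h1 S' hS'1 hS'2]
  -- the formula on annuli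
  have hann : ∀ r₁ : ℝ, 0 < r₁ → ∃ a b : ℝ, ∀ r, r₁ < r → r < R₁ → ∀ S : Finset ℂ,
      (∀ s ∈ S, ‖s‖ < R₁) → (∀ s, r < ‖s‖ → ‖s‖ < R₁ → ordZ u s ≠ 0 → s ∈ S) →
      Real.circleAverage (fun z => Real.log ‖u z‖) 0 r =
        a + b * Real.log r + ∑ s ∈ S, ordZ u s * Real.posLog (‖s‖ / r) := by
    intro r₁ hr₁
    obtain ⟨a, b, hab⟩ := circleAverage_annulus hr₁ hR₁ hu ho (hfin r₁ hr₁).toFinset
      (fun s => (hfin r₁ hr₁).mem_toFinset)
    refine ⟨a, b, fun r h1 h2 S hS1 hS2 => ?_⟩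
    rw [hab r h1 h2]
    congr 1
    refine hindep r (hr₁.trans h1) _ ?_ ?_ S hS1 hS2
    · intro s hs
      exact ((hfin r₁ hr₁).mem_toFinset.mp hs).1.2
    · intro s h3 h4 h5
      exact (hfin r₁ hr₁).mem_toFinset.mpr ⟨⟨h1.trans h3, h4⟩, h5⟩
  -- reference points
  obtain ⟨A, B, hAB⟩ := hann (R₁ / 4) (by positivity)
  refine ⟨A, B, fun r h1 h2 S hS1 hS2 => ?_⟩
  obtain ⟨a, b, hab⟩ := hann (min (r / 2) (R₁ / 8)) (by positivity)
  have hmin1 : min (r / 2) (R₁ / 8) < r := (min_le_left _ _).trans_lt (by linarith)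
  have hmin2 : min (r / 2) (R₁ / 8) < R₁ / 3 := (min_le_right _ _).trans_lt (by linarith)
  have hmin3 : min (r / 2) (R₁ / 8) < R₁ / 2 := (min_le_right _ _).trans_lt (by linarith)
  have hT : ∀ (ρ : ℝ) (hρ : 0 < ρ), (∀ s ∈ (hfin ρ hρ).toFinset, ‖s‖ < R₁) ∧
      (∀ s, ρ < ‖s‖ → ‖s‖ < R₁ → ordZ u s ≠ 0 → s ∈ (hfin ρ hρ).toFinset) := by
    intro ρ hρ
    refine ⟨fun s hs => ((hfin ρ hρ).mem_toFinset.mp hs).1.2, fun s h3 h4 h5 => ?_⟩
    exact (hfin ρ hρ).mem_toFinset.mpr ⟨⟨h3, h4⟩, h5⟩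
  have h3pos : 0 < R₁ / 3 := by positivity
  have h2pos : 0 < R₁ / 2 := by positivity
  have e1 := hAB (R₁ / 3) (by linarith) (by linarith) _ (hT _ h3pos).1 (hT _ h3pos).2
  have e2 := hAB (R₁ / 2) (by linarith) (by linarith) _ (hT _ h2pos).1 (hT _ h2pos).2
  have e3 := hab (R₁ / 3) hmin2 (by linarith) _ (hT _ h3pos).1 (hT _ h3pos).2
  have e4 := hab (R₁ / 2) hmin3 (by linarith) _ (hT _ h2pos).1 (hT _ h2pos).2
  have e5 : A + B * Real.log (R₁ / 3) = a + b * Real.log (R₁ / 3) := by linarith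
  have e6 : A + B * Real.log (R₁ / 2) = a + b * Real.log (R₁ / 2) := by linarith
  have e7 : Real.log (R₁ / 3) < Real.log (R₁ / 2) := Real.log_lt_log h3pos (by linarith)
  have e8 : (B - b) * (Real.log (R₁ / 2) - Real.log (R₁ / 3)) = 0 := by linear_combination e6 - e5
  have e9 : B = b := by
    rcases mul_eq_zero.mp e8 with h | h
    · linarith
    · linarith
  have e10 : A = a := by
    rw [e9] at e5
    linarith
  rw [hab r hmin1 h2 S hS1 hS2, e9, e10]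

end Pool.Agent.H92.GGL
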