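import Mathlib

/-!
# Circle means of `log ‖v‖` for a holomorphic function without zeros on an annulus
-/

open Complex MeasureTheory Metric Set Topology Filter

namespace Pool.Agent.H92.GGL

/-- A continuous logarithm of a holomorphic function is holomorphic. -/
lemma analyticAt_of_exp_eq {h G : ℂ → ℂ} {τ : ℂ} (hh : ContinuousAt h τ) (hG : AnalyticAt ℂ G τ)
    (he : ∀ᶠ w in 𝓝 τ, exp (h w) = G w) : AnalyticAt ℂ h τ := by
  have hG0 : G τ ≠ 0 := by
    rw [← he.self_of_nhds]
    exact exp_ne_zero _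
  have h1 : AnalyticAt ℂ (fun w => h τ + log (G w / G τ)) τ := by
    refine analyticAt_const.add (AnalyticAt.clog ?_ ?_)
    · exact hG.div analyticAt_const hG0
    · rw [div_self hG0]
      exact one_mem_slitPlane
  refine h1.congr ?_
  have h2 : ∀ᶠ w in 𝓝 τ, ‖h w - h τ‖ < Real.pi := by
    have h3 : ContinuousAt (fun w => ‖h w - h τ‖) τ := (hh.sub continuousAt_const).norm
    refine h3.eventually_lt continuousAt_const ?_
    simpa using Real.pi_pos
  filter_upwards [he, h2] with w hw hw2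
  have h4 : G w / G τ = exp (h w - h τ) := by
    rw [exp_sub, hw, he.self_of_nhds]
  have h5 := (abs_im_le_norm (h w - h τ)).trans_lt hw2
  rw [abs_lt] at h5
  rw [h4, log_exp h5.1 h5.2.le]
  ring

/-- **The mean is an affine function of `log r`.** -/
theorem circleAverage_log_norm_affine {v : ℂ → ℂ} {r₁ R₁ : ℝ} (hr₁ : 0 < r₁)
    (hv : ∀ z, r₁ < ‖z‖ → ‖z‖ < R₁ → AnalyticAt ℂ v z)
    (hv0 : ∀ z, r₁ < ‖z‖ → ‖z‖ < R₁ → v z ≠ 0) :
    ∃ a b : ℝ, ∀ r, r₁ < r → r < R₁ →
      Real.circleAverage (fun z => Real.log ‖v z‖) 0 r = a + b * Real.log r := by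
  rcases le_or_gt R₁ r₁ with hle | hlt
  · exact ⟨0, 0, fun r h1 h2 => absurd (h1.trans h2) (not_lt.mpr hle)⟩
  have hR₁ : 0 < R₁ := hr₁.trans hlt
  set V : Set ℂ := {τ | Real.log r₁ < τ.re ∧ τ.re < Real.log R₁} with hV
  have hVo : IsOpen V := by
    refine (isOpen_lt continuous_const continuous_re).inter (isOpen_lt continuous_re continuous_const)
  have hVconv : Convex ℝ V := by
    have h1 : V = {τ : ℂ | Real.log r₁ < τ.re} ∩ {τ : ℂ | τ.re < Real.log R₁} := rfl
    rw [h1]
    exact (convex_halfSpace_re_gt _).inter (convex_halfSpace_re_lt _)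
  have hlog : Real.log r₁ < Real.log R₁ := Real.log_lt_log hr₁ hlt
  have hVne : V.Nonempty := by
    refine ⟨(((Real.log r₁ + Real.log R₁) / 2 : ℝ) : ℂ), ?_, ?_⟩ <;> simp only [ofReal_re] <;> linarith
  have hnorm : ∀ τ ∈ V, r₁ < ‖exp τ‖ ∧ ‖exp τ‖ < R₁ := by
    intro τ hτ
    rw [norm_exp]
    constructor
    · rw [← Real.exp_log hr₁]
      exact Real.exp_lt_exp.mpr hτ.1
    · rw [← Real.exp_log hR₁]
      exact Real.exp_lt_exp.mpr hτ.2
  have hGan : ∀ τ ∈ V, AnalyticAt ℂ (fun τ => v (exp τ)) τ := by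
    intro τ hτ
    obtain ⟨h1, h2⟩ := hnorm τ hτ
    exact (hv _ h1 h2).fun_comp analyticAt_cexp
  have hsc : IsSimplyConnected V := by
    have : ContractibleSpace V := hVconv.contractibleSpace hVne
    exact SimplyConnectedSpace.ofContractible V
  obtain ⟨h, hc, he⟩ := exists_continuousOn_eqOn_exp_comp hsc hVo (g := fun τ => v (exp τ))
    (fun τ hτ => (hGan τ hτ).continuousAt.continuousWithinAt) (by
      rintro ⟨τ, hτ, h0⟩
      obtain ⟨h1, h2⟩ := hnorm τ hτ
      exact hv0 _ h1 h2 h0)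
  have hhan : ∀ τ ∈ V, AnalyticAt ℂ h τ := by
    intro τ hτ
    refine analyticAt_of_exp_eq (hc.continuousAt (hVo.mem_nhds hτ)) (hGan τ hτ) ?_
    filter_upwards [hVo.mem_nhds hτ] with w hw
    exact he hw
  have hshift : ∀ τ ∈ V, τ + 2 * Real.pi * I ∈ V := by
    intro τ hτ
    have h1 : (τ + 2 * Real.pi * I).re = τ.re := by simp
    rw [hV, mem_ofPred_eq, h1]
    exact hτ
  -- the difference is constant
  obtain ⟨δ, hδ⟩ : ∃ δ : ℂ, ∀ τ ∈ V, h (τ + 2 * Real.pi * I) - h τ = δ := by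
    have hd : ∀ τ ∈ V, HasDerivAt (fun τ => h (τ + 2 * Real.pi * I) - h τ)
        (deriv h (τ + 2 * Real.pi * I) - deriv h τ) τ := by
      intro τ hτ
      refine HasDerivAt.sub ?_ (hhan τ hτ).differentiableAt.hasDerivAt
      exact HasDerivAt.comp_add_const τ _ (hhan _ (hshift τ hτ)).differentiableAt.hasDerivAt
    have hexp1 : ∀ τ ∈ V, exp (h (τ + 2 * Real.pi * I) - h τ) = 1 := by
      intro τ hτ
      have h1 := he hτ
      have h2 := he (hshift τ hτ)
      simp only [Function.comp_apply] at h1 h2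
      rw [exp_sub, h1, h2, exp_periodic, div_self]
      rw [← h1]
      exact exp_ne_zero _
    refine hVo.exists_is_const_of_deriv_eq_zero hVconv.isPreconnected
      (f := fun τ => h (τ + 2 * Real.pi * I) - h τ)
      (fun τ hτ => (hd τ hτ).differentiableAt.differentiableWithinAt) ?_
    intro τ hτ
    have h1 := (hd τ hτ).cexp
    have h2 : HasDerivAt (fun τ => exp (h (τ + 2 * Real.pi * I) - h τ)) 0 τ := by
      refine (hasDerivAt_const τ (1 : ℂ)).congr_of_eventuallyEq ?_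
      filter_upwards [hVo.mem_nhds hτ] with w hw
      exact hexp1 w hw
    have h3 := h1.unique h2
    rw [hexp1 τ hτ, one_mul] at h3
    rw [(hd τ hτ).deriv, h3]
    rfl
  -- the mean as an integral of `h`
  have hmemV : ∀ (σ θ : ℝ), Real.log r₁ < σ → σ < Real.log R₁ → (σ : ℂ) + θ * I ∈ V := by
    intro σ θ h1 h2
    rw [hV, mem_ofPred_eq]
    simpa using ⟨h1, h2⟩
  have hmean : ∀ σ : ℝ, Real.log r₁ < σ → σ < Real.log R₁ →
      Real.circleAverage (fun z => Real.log ‖v z‖) 0 (Real.exp σ) =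
        (2 * Real.pi)⁻¹ * (∫ θ in (0 : ℝ)..(2 * Real.pi), h (σ + θ * I)).re := by
    intro σ h1 h2
    have hcont : Continuous fun θ : ℝ => h (σ + θ * I) := by
      rw [continuous_iff_continuousAt]
      intro θ
      exact ContinuousAt.comp (f := fun θ : ℝ => (σ : ℂ) + θ * I) (g := h)
        (hhan _ (hmemV σ θ h1 h2)).continuousAt (by fun_prop)
    rw [Real.circleAverage_def, smul_eq_mul]
    congr 1
    have h3 : ∫ θ in (0 : ℝ)..(2 * Real.pi), Real.log ‖v (circleMap 0 (Real.exp σ) θ)‖ =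
        ∫ θ in (0 : ℝ)..(2 * Real.pi), (h (σ + θ * I)).re := by
      refine intervalIntegral.integral_congr fun θ _ => ?_
      have h4 : circleMap 0 (Real.exp σ) θ = exp (σ + θ * I) := by
        rw [circleMap_zero, exp_add, ofReal_exp]
      have h5 := he (hmemV σ θ h1 h2)
      simp only [Function.comp_apply] at h5
      rw [h4, ← h5, norm_exp, Real.log_exp]
    rw [h3]
    have h6 := (reCLM).intervalIntegral_comp_comm (hcont.intervalIntegrable 0 (2 * Real.pi))
      (μ := volume)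
    simpa using h6
  -- Cauchy's theorem
  have hcauchy : ∀ σ₁ σ₂ : ℝ, Real.log r₁ < σ₁ → σ₁ < Real.log R₁ → Real.log r₁ < σ₂ →
      σ₂ < Real.log R₁ → (∫ θ in (0 : ℝ)..(2 * Real.pi), h (σ₂ + θ * I)) -
        (∫ θ in (0 : ℝ)..(2 * Real.pi), h (σ₁ + θ * I)) = (σ₂ - σ₁) * δ * (-I) := by
    intro σ₁ σ₂ h1 h2 h3 h4
    have hrect := integral_boundary_rect_eq_zero_of_differentiableOn h (σ₁ : ℂ)
      (σ₂ + (2 * Real.pi : ℝ) * I) (by
        intro τ hτ
        apply DifferentiableAt.differentiableWithinAt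
        refine (hhan τ ?_).differentiableAt
        have h5 : τ.re ∈ uIcc σ₁ σ₂ := by
          have := hτ.1
          simpa using this
        rw [hV, mem_ofPred_eq]
        rcases le_total σ₁ σ₂ with h6 | h6
        · rw [uIcc_of_le h6] at h5
          exact ⟨h1.trans_le h5.1, h5.2.trans_lt h4⟩
        · rw [uIcc_of_ge h6] at h5
          exact ⟨h3.trans_le h5.1, h5.2.trans_lt h2⟩)
    have e1 : ((σ₂ : ℂ) + (2 * Real.pi : ℝ) * I).re = σ₂ := by simp
    have e2 : ((σ₂ : ℂ) + (2 * Real.pi : ℝ) * I).im = 2 * Real.pi := by simp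
    rw [e1, e2] at hrect
    simp only [ofReal_re, ofReal_im, ofReal_zero, zero_mul, add_zero, smul_eq_mul] at hrect
    have e3 : ∫ x in σ₁..σ₂, h (x + (2 * Real.pi : ℝ) * I) =
        (∫ x in σ₁..σ₂, h x) + (σ₂ - σ₁) * δ := by
      have h5 : ∫ x in σ₁..σ₂, h (x + (2 * Real.pi : ℝ) * I) = ∫ x in σ₁..σ₂, (h x + δ) := by
        refine intervalIntegral.integral_congr fun x hx => ?_
        have hxV : (x : ℂ) ∈ V := by
          rw [hV, mem_ofPred_eq, ofReal_re]
          rcases le_total σ₁ σ₂ with h6 | h6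
          · rw [uIcc_of_le h6] at hx
            exact ⟨h1.trans_le hx.1, hx.2.trans_lt h4⟩
          · rw [uIcc_of_ge h6] at hx
            exact ⟨h3.trans_le hx.1, hx.2.trans_lt h2⟩
        have h7 := hδ x hxV
        rw [← h7]
        push_cast
        ring
      rw [h5, intervalIntegral.integral_add, intervalIntegral.integral_const]
      · rw [real_smul]
        push_cast
        ring
      · apply ContinuousOn.intervalIntegrable
        intro x hx
        have hxV : (x : ℂ) ∈ V := by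
          rw [hV, mem_ofPred_eq, ofReal_re]
          rcases le_total σ₁ σ₂ with h6 | h6
          · rw [uIcc_of_le h6] at hx
            exact ⟨h1.trans_le hx.1, hx.2.trans_lt h4⟩
          · rw [uIcc_of_ge h6] at hx
            exact ⟨h3.trans_le hx.1, hx.2.trans_lt h2⟩
        exact (ContinuousAt.comp (f := fun x : ℝ => (x : ℂ)) (g := h) (hhan _ hxV).continuousAt
          (by fun_prop)).continuousWithinAt
      · exact intervalIntegrable_const
    rw [e3] at hrect
    have h8 : I * ((∫ θ in (0 : ℝ)..(2 * Real.pi), h (σ₂ + θ * I)) -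
        (∫ θ in (0 : ℝ)..(2 * Real.pi), h (σ₁ + θ * I))) = (σ₂ - σ₁) * δ := by
      linear_combination hrect
    have h9 : I * I = -1 := I_mul_I
    linear_combination (-I) * h8 + ((∫ θ in (0 : ℝ)..(2 * Real.pi), h (σ₂ + θ * I)) -
        (∫ θ in (0 : ℝ)..(2 * Real.pi), h (σ₁ + θ * I))) * h9
  -- conclusion
  set σ₀ : ℝ := (Real.log r₁ + Real.log R₁) / 2 with hσ₀
  have hσ₀1 : Real.log r₁ < σ₀ := by linarith
  have hσ₀2 : σ₀ < Real.log R₁ := by linarith
  refine ⟨(2 * Real.pi)⁻¹ * (∫ θ in (0 : ℝ)..(2 * Real.pi), h (σ₀ + θ * I)).re -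
    σ₀ * ((2 * Real.pi)⁻¹ * (δ * (-I)).re), (2 * Real.pi)⁻¹ * (δ * (-I)).re, ?_⟩
  intro r hr1 hr2
  have hr0 : 0 < r := hr₁.trans hr1
  have h1 : Real.log r₁ < Real.log r := Real.log_lt_log hr₁ hr1
  have h2 : Real.log r < Real.log R₁ := Real.log_lt_log hr0 hr2
  have h3 := hmean (Real.log r) h1 h2
  rw [Real.exp_log hr0] at h3
  rw [h3]
  have h4 := congrArg Complex.re (hcauchy σ₀ (Real.log r) hσ₀1 hσ₀2 h1 h2)
  have h5 : (((Real.log r : ℂ) - σ₀) * δ * (-I)).re = (Real.log r - σ₀) * (δ * (-I)).re := by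
    rw [mul_assoc, ← ofReal_sub, re_ofReal_mul]
  rw [h5, sub_re] at h4
  linear_combination (2 * Real.pi)⁻¹ * h4

end Pool.Agent.H92.GGL
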