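import Pool.Agent.H92.GGL.Gadget

/-!
# Intersections of forms attached to blocks
-/

open Polynomial

namespace Pool.Agent.H92.GGL

open Pool.Agent.H17 Pool.Agent.H17.EntFun

lemma polyOf_eval' {A : Type*} [CommRing A] {n : ℕ} (a : Fin (n + 1) → A) (x : A) :
    (polyOf a).eval x = ∑ k : Fin (n + 1), a k * x ^ (k : ℕ) := by
  unfold polyOf
  rw [eval_finsetSum]
  exact Finset.sum_congr rfl fun k _ => by rw [eval_monomial]

/-- The base coordinates. -/
def xIdx {n c : ℕ} (i : Fin (n + 1)) : Fin (n + c + 1) := ⟨i, by omega⟩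

/-- The other coordinates. -/
def wIdx {n c : ℕ} (l : Fin c) : Fin (n + c + 1) := ⟨n + 1 + l, by omega⟩

lemma idx_cases' {n c : ℕ} (j : Fin (n + c + 1)) :
    (∃ i : Fin (n + 1), j = xIdx i) ∨ ∃ l : Fin c, j = wIdx l := by
  by_cases h : (j : ℕ) < n + 1
  · exact Or.inl ⟨⟨j, h⟩, rfl⟩
  · right
    refine ⟨⟨j - (n + 1), by omega⟩, Fin.ext ?_⟩
    show (j : ℕ) = n + 1 + (j - (n + 1))
    omega

variable {Q : Type} [Fintype Q]

/-- The linear form `∑ τ ^ i * (i-th form of the block q)`. -/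
noncomputable def nodeForm {r : Q → ℕ} {n : ℕ} (c : ℕ) (z : Entry r n → ℂ) (q : Q) (τ : ℕ) :
    MvPolynomial (Fin (n + c + 1)) ℂ :=
  ∑ i : Fin (r q + 1), ∑ k, MvPolynomial.C ((τ : ℂ) ^ (i : ℕ) * z ⟨q, i, k⟩) *
    MvPolynomial.X (xIdx k)

omit [Fintype Q] in
lemma nodeForm_isHomogeneous {r : Q → ℕ} {n : ℕ} (c : ℕ) (z : Entry r n → ℂ) (q : Q) (τ : ℕ) :
    (nodeForm c z q τ).IsHomogeneous 1 := by
  unfold nodeForm
  refine MvPolynomial.IsHomogeneous.sum _ _ _ fun i _ =>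
    MvPolynomial.IsHomogeneous.sum _ _ _ fun k _ => ?_
  have h1 := MvPolynomial.isHomogeneous_C_mul_X_pow ((τ : ℂ) ^ (i : ℕ) * z ⟨q, i, k⟩)
    (xIdx (n := n) (c := c) k) 1
  rwa [pow_one] at h1

/-- The polynomial over the entire functions attached to a block. -/
noncomputable def blockPoly {r : Q → ℕ} {n : ℕ} (z : Entry r n → ℂ) (q : Q)
    (x : Fin (n + 1) → EntFun) : EntFun[X] :=
  polyOf fun i : Fin (r q + 1) => ∑ k, algebraMap ℂ EntFun (z ⟨q, i, k⟩) * x k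

omit [Fintype Q] in
lemma evC_blockPoly {r : Q → ℕ} {n c : ℕ} (z : Entry r n → ℂ) (q : Q)
    (x : Fin (n + c + 1) → EntFun) (τ : ℕ) :
    evC (τ : ℂ) (blockPoly z q fun k => x (xIdx k)) = MvPolynomial.aeval x (nodeForm c z q τ) := by
  unfold evC blockPoly nodeForm
  rw [polyOf_eval', map_sum]
  refine Finset.sum_congr rfl fun i _ => ?_
  rw [map_sum, Finset.sum_mul]
  refine Finset.sum_congr rfl fun k _ => ?_
  rw [map_mul, MvPolynomial.aeval_C, MvPolynomial.aeval_X, map_mul, map_pow]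
  ring

omit [Fintype Q] in
lemma blockPoly_coeff_apply {r : Q → ℕ} {n : ℕ} (z : Entry r n → ℂ) (q : Q)
    (x : Fin (n + 1) → EntFun) (i : Fin (r q + 1)) (w : ℂ) :
    (((blockPoly z q x).coeff i : EntFun) : ℂ → ℂ) w =
      lform z q i (fun k => (x k : ℂ → ℂ) w) := by
  unfold blockPoly lform
  rw [polyOf_coeff]
  have h1 : ev w (∑ k, algebraMap ℂ EntFun (z ⟨q, i, k⟩) * x k) =
      ∑ k, z ⟨q, i, k⟩ * (x k : ℂ → ℂ) w := by
    rw [map_sum]
    refine Finset.sum_congr rfl fun k _ => ?_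
    rw [map_mul, ev_algebraMap, ev_apply]
  exact h1

omit [Fintype Q] in
/-- The relation between the coordinates of an entire curve which comes from one block. -/
lemma special_of_block {r : Q → ℕ} {n : ℕ} {z : Entry r n → ℂ} {q : Q}
    (hrq : r q ≤ 2)
    {L : Type} [Fintype L] (d : L → ℕ) (hd : ∀ l, 0 < d l) (ν : (Σ l, Fin (d l)) → ℕ)
    (hν : Function.Injective ν) (x : Fin (n + 1) → EntFun) (y : L → EntFun)
    (hy : ∀ l, y l ^ d l = ∏ j, evC (ν ⟨l, j⟩ : ℂ) (blockPoly z q x))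
    (hnum : ∀ e ρ : ℕ, 0 < e → 0 < ρ → ρ + e ≤ r q + 1 →
      2 * ρ + ∑ l, min (d l) (e * ρ) < ∑ l, d l) (w₁ w₂ : ℂ) :
    Special z q (fun k => (x k : ℂ → ℂ) w₁) (fun k => (x k : ℂ → ℂ) w₂) := by
  classical
  by_cases hF : blockPoly z q x = 0
  · -- all forms of the block vanish
    left
    refine ⟨1, 0, Or.inl one_ne_zero, fun i => ?_⟩
    rw [one_mul, zero_mul, add_zero, ← blockPoly_coeff_apply, hF]
    rfl
  by_cases hy0 : ∃ l, y l = 0
  · -- some form vanishes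
    right
    obtain ⟨l, hl⟩ := hy0
    have h1 := hy l
    rw [hl, zero_pow (hd l).ne'] at h1
    obtain ⟨j, -, hj⟩ := Finset.prod_eq_zero_iff.mp h1.symm
    refine ⟨hrq, ν ⟨l, j⟩, ?_, ?_⟩
    all_goals
      simp only [← blockPoly_coeff_apply]
      have h2 : ∀ w, ((evC (ν ⟨l, j⟩ : ℂ) (blockPoly z q x) : EntFun) : ℂ → ℂ) w =
          ∑ i : Fin (r q + 1), (ν ⟨l, j⟩ : ℂ) ^ (i : ℕ) *
            (((blockPoly z q x).coeff i : EntFun) : ℂ → ℂ) w := by
        intro w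
        rw [evC_apply]
        conv_lhs => rw [blockPoly, polyOf_map, polyOf_eval']
        refine Finset.sum_congr rfl fun i _ => ?_
        rw [blockPoly, polyOf_coeff, mul_comm]
        rfl
      rw [← h2, hj]
      rfl
  · push Not at hy0
    obtain ⟨u, P, huP⟩ := block_rigid (FractionRing EntFun) d hd (fun i => (ν i : ℂ))
      (fun i j h => hν (Nat.cast_injective h)) (blockPoly z q x) (natDegree_polyOf _) hF y hy0
      (fun l => (hy l).symm) hnum
    left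
    have hval : ∀ i w, lform z q i (fun k => (x k : ℂ → ℂ) w) = (u : ℂ → ℂ) w * P.coeff i := by
      intro i w
      rw [← blockPoly_coeff_apply, huP, coeff_C_mul, coeff_map]
      rfl
    by_cases hu : (u : ℂ → ℂ) w₁ = 0 ∧ (u : ℂ → ℂ) w₂ = 0
    · refine ⟨1, 0, Or.inl one_ne_zero, fun i => ?_⟩
      rw [hval, hval, hu.1]
      ring
    · refine ⟨(u : ℂ → ℂ) w₂, -(u : ℂ → ℂ) w₁, ?_, fun i => ?_⟩
      · by_contra hcon
        push Not at hcon
        exact hu ⟨neg_eq_zero.mp hcon.2, hcon.1⟩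
      · rw [hval, hval]
        ring

/-- The form attached to a hypersurface. -/
noncomputable def gadgetForm {r : Q → ℕ} {n c : ℕ} (z : Entry r n → ℂ) (q : Q) (l : Fin c)
    (g : MvPolynomial (Fin (r q + 2)) ℂ) (p : Fin (r q + 2) → ℂ) (j₀ : Fin (r q + 2)) :
    MvPolynomial (Fin (n + c + 1)) ℂ :=
  MvPolynomial.aeval (Fin.insertNth (α := fun _ => MvPolynomial (Fin (n + c + 1)) ℂ) j₀
    (MvPolynomial.C (p j₀) * MvPolynomial.X (wIdx l))
    (fun i : Fin (r q + 1) => (∑ k, MvPolynomial.C (z ⟨q, i, k⟩) * MvPolynomial.X (xIdx k)) +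
      MvPolynomial.C (p (j₀.succAbove i)) * MvPolynomial.X (wIdx l))) g

omit [Fintype Q] in
lemma gadgetForm_isHomogeneous {r : Q → ℕ} {n c : ℕ} (z : Entry r n → ℂ) (q : Q) (l : Fin c)
    {g : MvPolynomial (Fin (r q + 2)) ℂ} (p : Fin (r q + 2) → ℂ) (j₀ : Fin (r q + 2)) {d : ℕ}
    (hg : g.IsHomogeneous d) : (gadgetForm z q l g p j₀).IsHomogeneous d := by
  unfold gadgetForm
  have hlin : ∀ (a : ℂ) (j : Fin (n + c + 1)),
      (MvPolynomial.C a * MvPolynomial.X j : MvPolynomial (Fin (n + c + 1)) ℂ).IsHomogeneous 1 := by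
    intro a j
    have h1 := MvPolynomial.isHomogeneous_C_mul_X_pow a j 1
    rwa [pow_one] at h1
  have h1 := hg.aeval (Fin.insertNth (α := fun _ => MvPolynomial (Fin (n + c + 1)) ℂ) j₀
    (MvPolynomial.C (p j₀) * MvPolynomial.X (wIdx l))
    (fun i : Fin (r q + 1) => (∑ k, MvPolynomial.C (z ⟨q, i, k⟩) * MvPolynomial.X (xIdx k)) +
      MvPolynomial.C (p (j₀.succAbove i)) * MvPolynomial.X (wIdx l))) (n := 1) ?_
  · rwa [one_mul] at h1
  · intro j
    refine Fin.succAboveCases j₀ ?_ (fun i => ?_) j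
    · rw [Fin.insertNth_apply_same]
      exact hlin _ _
    · rw [Fin.insertNth_apply_succAbove]
      exact (MvPolynomial.IsHomogeneous.sum _ _ _ fun k _ => hlin _ _).add (hlin _ _)

/-- The vector of entire functions attached to a hypersurface. -/
noncomputable def gadgetVec {r : Q → ℕ} {n : ℕ} (z : Entry r n → ℂ) (q : Q)
    (p : Fin (r q + 2) → ℂ) (j₀ : Fin (r q + 2)) (x : Fin (n + 1) → EntFun) (y : EntFun) :
    Fin (r q + 2) → EntFun :=
  Fin.insertNth (α := fun _ => EntFun) j₀ (algebraMap ℂ EntFun (p j₀) * y)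
    (fun i : Fin (r q + 1) => (blockPoly z q x).coeff i +
      algebraMap ℂ EntFun (p (j₀.succAbove i)) * y)

omit [Fintype Q] in
lemma aeval_gadgetForm {r : Q → ℕ} {n c : ℕ} (z : Entry r n → ℂ) (q : Q) (l : Fin c)
    (g : MvPolynomial (Fin (r q + 2)) ℂ) (p : Fin (r q + 2) → ℂ) (j₀ : Fin (r q + 2))
    (x : Fin (n + c + 1) → EntFun) : MvPolynomial.aeval x (gadgetForm z q l g p j₀) =
      MvPolynomial.aeval (gadgetVec z q p j₀ (fun k => x (xIdx k)) (x (wIdx l))) g := by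
  unfold gadgetForm
  rw [MvPolynomial.comp_aeval_apply]
  congr 2
  funext j
  unfold gadgetVec
  refine Fin.succAboveCases j₀ ?_ (fun i => ?_) j
  · rw [Fin.insertNth_apply_same, Fin.insertNth_apply_same, map_mul, MvPolynomial.aeval_C,
      MvPolynomial.aeval_X]
  · rw [Fin.insertNth_apply_succAbove, Fin.insertNth_apply_succAbove, map_add, map_mul,
      MvPolynomial.aeval_C, MvPolynomial.aeval_X, map_sum]
    congr 1
    unfold blockPoly
    rw [polyOf_coeff]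
    refine Finset.sum_congr rfl fun k _ => ?_
    rw [map_mul, MvPolynomial.aeval_C, MvPolynomial.aeval_X]

omit [Fintype Q] in
/-- The relations which come from a hyperbolic hypersurface. -/
lemma gadget_cross {r : Q → ℕ} {n : ℕ} {z : Entry r n → ℂ} {q : Q}
    {g : MvPolynomial (Fin (r q + 2)) ℂ} {d : ℕ} (hg : g.IsHomogeneous d)
    (hbr : ∀ f : ℂ → PN (r q + 1), HolomorphicInto f Set.univ →
      (∀ z, f z ∈ zeroLocus fun _ : Unit => g) → ∀ z w, f z = f w)
    {p : Fin (r q + 2) → ℂ} {j₀ : Fin (r q + 2)} (hj₀ : p j₀ ≠ 0) (x : Fin (n + 1) → EntFun)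
    (y : EntFun) (h : MvPolynomial.aeval (gadgetVec z q p j₀ x y) g = 0) (w₁ w₂ : ℂ) :
    (∀ i : Fin (r q + 1), (y : ℂ → ℂ) w₁ * (((blockPoly z q x).coeff i : EntFun) : ℂ → ℂ) w₂ =
      (((blockPoly z q x).coeff i : EntFun) : ℂ → ℂ) w₁ * (y : ℂ → ℂ) w₂) ∧
    (∀ i k : Fin (r q + 1), (((blockPoly z q x).coeff i : EntFun) : ℂ → ℂ) w₁ *
      (((blockPoly z q x).coeff k : EntFun) : ℂ → ℂ) w₂ =
      (((blockPoly z q x).coeff k : EntFun) : ℂ → ℂ) w₁ *
        (((blockPoly z q x).coeff i : EntFun) : ℂ → ℂ) w₂) := by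
  have hc := fun j k => cross_of_hyperbolic (κ := Unit) (d := fun _ => d) (fun _ => hg) hbr
    (fun _ => h) w₁ w₂ j k
  have v0 : ∀ w, (gadgetVec z q p j₀ x y j₀ : ℂ → ℂ) w = p j₀ * (y : ℂ → ℂ) w := by
    intro w
    unfold gadgetVec
    rw [Fin.insertNth_apply_same]
    rfl
  have v1 : ∀ (i : Fin (r q + 1)) w, (gadgetVec z q p j₀ x y (j₀.succAbove i) : ℂ → ℂ) w =
      (((blockPoly z q x).coeff i : EntFun) : ℂ → ℂ) w +
        p (j₀.succAbove i) * (y : ℂ → ℂ) w := by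
    intro i w
    unfold gadgetVec
    rw [Fin.insertNth_apply_succAbove]
    rfl
  have h1 : ∀ i : Fin (r q + 1),
      (y : ℂ → ℂ) w₁ * (((blockPoly z q x).coeff i : EntFun) : ℂ → ℂ) w₂ =
      (((blockPoly z q x).coeff i : EntFun) : ℂ → ℂ) w₁ * (y : ℂ → ℂ) w₂ := by
    intro i
    have h2 := hc j₀ (j₀.succAbove i)
    rw [v0, v0, v1, v1] at h2
    refine mul_left_cancel₀ hj₀ ?_
    linear_combination h2
  refine ⟨h1, fun i k => ?_⟩
  have h2 := hc (j₀.succAbove i) (j₀.succAbove k)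
  rw [v1, v1, v1, v1] at h2
  linear_combination h2 + p (j₀.succAbove k) * h1 i - p (j₀.succAbove i) * h1 k

omit [Fintype Q] in
lemma special_of_gadget {r : Q → ℕ} {n : ℕ} {z : Entry r n → ℂ} {q : Q}
    {g : MvPolynomial (Fin (r q + 2)) ℂ} {d : ℕ} (hg : g.IsHomogeneous d)
    (hbr : ∀ f : ℂ → PN (r q + 1), HolomorphicInto f Set.univ →
      (∀ z, f z ∈ zeroLocus fun _ : Unit => g) → ∀ z w, f z = f w)
    {p : Fin (r q + 2) → ℂ} {j₀ : Fin (r q + 2)} (hj₀ : p j₀ ≠ 0) (x : Fin (n + 1) → EntFun)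
    (y : EntFun) (h : MvPolynomial.aeval (gadgetVec z q p j₀ x y) g = 0) (w₁ w₂ : ℂ) :
    Special z q (fun k => (x k : ℂ → ℂ) w₁) (fun k => (x k : ℂ → ℂ) w₂) := by
  left
  obtain ⟨-, hc⟩ := gadget_cross hg hbr hj₀ x y h w₁ w₂
  simp only [← blockPoly_coeff_apply]
  by_cases h0 : ∀ i : Fin (r q + 1), (((blockPoly z q x).coeff i : EntFun) : ℂ → ℂ) w₁ = 0
  · refine ⟨1, 0, Or.inl one_ne_zero, fun i => ?_⟩
    rw [h0 i]
    ring
  · push Not at h0
    obtain ⟨k, hk⟩ := h0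
    refine ⟨(((blockPoly z q x).coeff k : EntFun) : ℂ → ℂ) w₂,
      -(((blockPoly z q x).coeff k : EntFun) : ℂ → ℂ) w₁, Or.inr (neg_ne_zero.mpr hk),
      fun i => ?_⟩
    linear_combination hc i k

omit [Fintype Q] in
lemma gadget_prop {r : Q → ℕ} {n : ℕ} {z : Entry r n → ℂ} {q : Q}
    {g : MvPolynomial (Fin (r q + 2)) ℂ} {d : ℕ} (hg : g.IsHomogeneous d)
    (hbr : ∀ f : ℂ → PN (r q + 1), HolomorphicInto f Set.univ →
      (∀ z, f z ∈ zeroLocus fun _ : Unit => g) → ∀ z w, f z = f w)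
    {p : Fin (r q + 2) → ℂ} (hp : MvPolynomial.eval p g ≠ 0) {j₀ : Fin (r q + 2)}
    (hj₀ : p j₀ ≠ 0) (x : Fin (n + 1) → EntFun)
    (y : EntFun) (h : MvPolynomial.aeval (gadgetVec z q p j₀ x y) g = 0) (hd : 0 < d)
    (v : EntFun) (hx : ∀ k, ∃ a : ℂ, x k = algebraMap ℂ EntFun a * v) :
    ∃ c : ℂ, y = algebraMap ℂ EntFun c * v := by
  classical
  have hA : ∀ i : Fin (r q + 1), ∃ α : ℂ, (blockPoly z q x).coeff i =
      algebraMap ℂ EntFun α * v := by
    intro i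
    choose a ha using hx
    refine ⟨∑ k, z ⟨q, i, k⟩ * a k, ?_⟩
    unfold blockPoly
    rw [polyOf_coeff, map_sum, Finset.sum_mul]
    refine Finset.sum_congr rfl fun k _ => ?_
    rw [map_mul]
    conv_lhs => rw [ha k]
    ring
  choose α hα using hA
  by_cases h0 : ∀ i : Fin (r q + 1), (blockPoly z q x).coeff i = 0
  · -- all linear forms vanish
    refine ⟨0, ?_⟩
    rw [map_zero, zero_mul]
    ext w
    have h1 : (fun j => (gadgetVec z q p j₀ x y j : ℂ → ℂ) w) = fun j => (y : ℂ → ℂ) w * p j := by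
      funext j
      unfold gadgetVec
      refine Fin.succAboveCases j₀ ?_ (fun i => ?_) j
      · rw [Fin.insertNth_apply_same, mul_comm ((y : ℂ → ℂ) w)]
        rfl
      · rw [Fin.insertNth_apply_succAbove, h0 i, zero_add, mul_comm ((y : ℂ → ℂ) w)]
        rfl
    have h2 := eval_smul_of_isHomogeneous hg ((y : ℂ → ℂ) w) p
    rw [← h1, ← eval_apply_eq, h] at h2
    rcases mul_eq_zero.mp h2.symm with h3 | h3
    · exact pow_eq_zero_iff hd.ne' |>.mp h3
    · exact absurd h3 hp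
  · push Not at h0
    obtain ⟨i, hi⟩ := h0
    rw [hα i] at hi
    have hv : v ≠ 0 := right_ne_zero_of_mul hi
    have hαi : α i ≠ 0 := by
      intro h1
      rw [h1, map_zero] at hi
      exact left_ne_zero_of_mul hi rfl
    obtain ⟨w₀, hw₀⟩ := (ne_zero_iff v).mp hv
    refine ⟨(y : ℂ → ℂ) w₀ / (v : ℂ → ℂ) w₀, ?_⟩
    ext w
    have h1 := (gadget_cross hg hbr hj₀ x y h w w₀).1 i
    rw [hα i] at h1
    have h2 : ∀ w, ((algebraMap ℂ EntFun (α i) * v : EntFun) : ℂ → ℂ) w =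
      α i * (v : ℂ → ℂ) w := fun w => rfl
    rw [h2, h2] at h1
    have h3 : ((algebraMap ℂ EntFun ((y : ℂ → ℂ) w₀ / (v : ℂ → ℂ) w₀) * v : EntFun) : ℂ → ℂ) w =
      (y : ℂ → ℂ) w₀ / (v : ℂ → ℂ) w₀ * (v : ℂ → ℂ) w := rfl
    rw [h3, div_mul_eq_mul_div, eq_div_iff hw₀]
    refine mul_left_cancel₀ hαi ?_
    linear_combination h1

/-- **Brody hyperbolic intersections attached to blocks.** -/
theorem exists_brody_blocks [DecidableEq Q] (n c : ℕ) (d : Fin c → ℕ) (hd : ∀ l, 1 ≤ d l)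
    (r : Q → ℕ) (hr : ∀ q, r q ≤ 2) (B : Q → Finset (Fin c))
    (hB : ∀ q q', q ≠ q' → Disjoint (B q) (B q')) (K : Finset (Fin c)) (ρ : Fin c → ℕ)
    (hBK : ∀ q, Disjoint (B q) K)
    (hsum : 2 * n ≤ ∑ q, r q + ∑ l ∈ K, ρ l + 1)
    (hnum : ∀ q, ∀ e ρ : ℕ, 0 < e → 0 < ρ → ρ + e ≤ r q + 1 →
      2 * ρ + ∑ l ∈ B q, min (d l) (e * ρ) < ∑ l ∈ B q, d l)
    (hK : ∀ l ∈ K, ∃ g : MvPolynomial (Fin (ρ l + 2)) ℂ, g.IsHomogeneous (d l) ∧
      ∀ f : ℂ → PN (ρ l + 1), HolomorphicInto f Set.univ →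
        (∀ z, f z ∈ zeroLocus fun _ : Unit => g) → ∀ z w, f z = f w) :
    ∃ G : Fin c → MvPolynomial (Fin (n + c + 1)) ℂ, (∀ l, (G l).IsHomogeneous (d l)) ∧
      ∀ f : ℂ → PN (n + c), HolomorphicInto f Set.univ → (∀ z, f z ∈ zeroLocus G) →
        ∀ z w, f z = f w := by
  classical
  set r' : Q ⊕ {l // l ∈ K} → ℕ := Sum.elim r fun l => ρ l.1 with hr'
  obtain ⟨z, hz⟩ := exists_algebraicIndependent (Entry r' n)
  obtain ⟨ν, hν⟩ := Countable.exists_injective_nat (Σ l, Fin (d l))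
  choose g hg hbr using hK
  have hpex : ∀ l (hl : l ∈ K), ∃ p : Fin (ρ l + 2) → ℂ, MvPolynomial.eval p (g l hl) ≠ 0 :=
    fun l hl => exists_eval_ne_zero (hg l hl) (hbr l hl)
  choose p hp using hpex
  have hjex : ∀ l (hl : l ∈ K), ∃ j₀, p l hl j₀ ≠ 0 := by
    intro l hl
    by_contra hcon
    push Not at hcon
    apply hp l hl
    have h1 := eval_smul_of_isHomogeneous (hg l hl) 0 (p l hl)
    have h2 : (fun k => 0 * p l hl k) = p l hl := by
      funext k
      rw [hcon k, mul_zero]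
    rw [h2, zero_pow (by have := hd l; omega), zero_mul] at h1
    exact h1
  choose j₀ hj₀ using hjex
  set G : Fin c → MvPolynomial (Fin (n + c + 1)) ℂ := fun l =>
    if h : ∃ q, l ∈ B q then MvPolynomial.X (wIdx l) ^ d l -
      ∏ j : Fin (d l), nodeForm c z (Sum.inl h.choose) (ν ⟨l, j⟩)
    else if hl : l ∈ K then gadgetForm z (Sum.inr ⟨l, hl⟩) l (g l hl) (p l hl) (j₀ l hl)
    else MvPolynomial.X (wIdx l) ^ d l with hG
  have hGhom : ∀ l, (G l).IsHomogeneous (d l) := by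
    intro l
    simp only [hG]
    split_ifs with h hl
    · refine (MvPolynomial.isHomogeneous_X_pow _ _).sub ?_
      have h1 := MvPolynomial.IsHomogeneous.prod Finset.univ
        (fun j : Fin (d l) => nodeForm c z (Sum.inl h.choose) (ν ⟨l, j⟩)) (fun _ => 1)
        (fun j _ => nodeForm_isHomogeneous c z (Sum.inl h.choose) _)
      rwa [Finset.sum_const, Finset.card_univ, Fintype.card_fin, smul_eq_mul, mul_one] at h1
    · exact gadgetForm_isHomogeneous z (Sum.inr ⟨l, hl⟩) l (p l hl) (j₀ l hl) (hg l hl)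
    · exact MvPolynomial.isHomogeneous_X_pow _ _
  refine ⟨G, hGhom, ?_⟩
  intro f hf hfX w₁ w₂
  obtain ⟨x, hx⟩ := exists_global_lift hf
  have hrel := aeval_eq_zero_of_mem hGhom hx hfX
  -- the equations
  have g1 : ∀ q, ∀ l ∈ B q, x (wIdx l) ^ d l =
      ∏ j : Fin (d l), evC (ν ⟨l, j⟩ : ℂ) (blockPoly z (Sum.inl q) fun k => x (xIdx k)) := by
    intro q l hl
    have h1 := hrel l
    have hex : ∃ q, l ∈ B q := ⟨q, hl⟩
    have hch : hex.choose = q := by
      by_contra hne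
      exact Finset.disjoint_left.mp (hB _ _ hne) hex.choose_spec hl
    simp only [hG, dif_pos hex] at h1
    rw [hch, map_sub, map_pow, MvPolynomial.aeval_X, map_prod, sub_eq_zero] at h1
    rw [h1]
    exact Finset.prod_congr rfl fun j _ => (evC_blockPoly z (Sum.inl q) x _).symm
  have g2 : ∀ l (hl : l ∈ K), MvPolynomial.aeval (gadgetVec z (Sum.inr ⟨l, hl⟩) (p l hl) (j₀ l hl)
      (fun k => x (xIdx k)) (x (wIdx l))) (g l hl) = 0 := by
    intro l hl
    have h1 := hrel l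
    have hex : ¬ ∃ q, l ∈ B q := fun ⟨q, hq⟩ => Finset.disjoint_left.mp (hBK q) hq hl
    simp only [hG, dif_neg hex, dif_pos hl] at h1
    exact (aeval_gadgetForm (r := r') z (Sum.inr ⟨l, hl⟩) l (g l hl) (p l hl) (j₀ l hl) x).symm.trans
      h1
  have g3 : ∀ l, (¬ ∃ q, l ∈ B q) → l ∉ K → x (wIdx l) = 0 := by
    intro l hl hl'
    have h1 := hrel l
    simp only [hG, dif_neg hl, dif_neg hl'] at h1
    rw [map_pow, MvPolynomial.aeval_X] at h1
    exact pow_eq_zero_iff (by have := hd l; omega) |>.mp h1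
  -- all blocks are in special position
  have hspec : ∀ w w', ∀ q, Special z q (fun k => (x (xIdx k) : ℂ → ℂ) w)
      (fun k => (x (xIdx k) : ℂ → ℂ) w') := by
    intro w w' q
    rcases q with q | ⟨l, hl⟩
    · refine special_of_block (q := Sum.inl q) (hr q) (L := {l // l ∈ B q}) (fun l => d l)
        (fun l => hd l) (fun i => ν ⟨i.1.1, i.2⟩) ?_ (fun k => x (xIdx k))
        (fun l => x (wIdx l.1)) (fun l => g1 q l.1 l.2) ?_ w w'
      · rintro ⟨⟨l, hl⟩, j⟩ ⟨⟨l', hl'⟩, j'⟩ h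
        have h1 := hν h
        simp only [Sigma.mk.injEq] at h1
        obtain ⟨rfl, h2⟩ := h1
        simp only [heq_eq_eq] at h2
        rw [h2]
      · intro e ρ he hρ heρ
        have h1 := hnum q e ρ he hρ heρ
        rw [← Finset.sum_coe_sort (B q), ← Finset.sum_coe_sort (B q)] at h1
        exact h1
    · exact special_of_gadget (r := r') (z := z) (q := (Sum.inr ⟨l, hl⟩ : Q ⊕ {l // l ∈ K})) (hg l hl) (hbr l hl) (hj₀ l hl)
        (fun k => x (xIdx k)) (x (wIdx l)) (g2 l hl) w w'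
  have hsum' : 2 * n ≤ ∑ q, r' q + 1 := by
    rw [Fintype.sum_sum_type]
    simp only [hr', Sum.elim_inl, Sum.elim_inr]
    rw [Finset.sum_coe_sort K]
    exact hsum
  have hcross : ∀ w w' k k', (x (xIdx k) : ℂ → ℂ) w * (x (xIdx k') : ℂ → ℂ) w' =
      (x (xIdx k') : ℂ → ℂ) w * (x (xIdx k) : ℂ → ℂ) w' := fun w w' k k' =>
    not_linearIndependent_of_special hz hsum' _ _ (hspec w w') k k'
  -- the other coordinates, if the base coordinates are proportional
  have hrest : ∀ v : EntFun, (∀ k, ∃ a : ℂ, x (xIdx k) = algebraMap ℂ EntFun a * v) →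
      ∀ l, ∃ b : ℂ, x (wIdx l) = algebraMap ℂ EntFun b * v := by
    intro v hv l
    by_cases hl : ∃ q, l ∈ B q
    · obtain ⟨q, hl⟩ := hl
      have h4 := g1 q l hl
      choose a ha using hv
      have h5 : ∀ j : Fin (d l), ∃ γ : ℂ,
          evC (ν ⟨l, j⟩ : ℂ) (blockPoly z (Sum.inl q) fun k => x (xIdx k)) =
            algebraMap ℂ EntFun γ * v := by
        intro j
        refine ⟨∑ i : Fin (r' (Sum.inl q) + 1), (∑ k, z ⟨Sum.inl q, i, k⟩ * a k) *
          (ν ⟨l, j⟩ : ℂ) ^ (i : ℕ), ?_⟩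
        unfold evC blockPoly
        rw [polyOf_eval', map_sum, Finset.sum_mul]
        refine Finset.sum_congr rfl fun i _ => ?_
        rw [map_mul, map_sum, map_pow]
        have h6 : ∑ k, algebraMap ℂ EntFun (z ⟨Sum.inl q, i, k⟩) * x (xIdx k) =
            (∑ k, algebraMap ℂ EntFun (z ⟨Sum.inl q, i, k⟩ * a k)) * v := by
          rw [Finset.sum_mul]
          refine Finset.sum_congr rfl fun k _ => ?_
          conv_lhs => rw [ha k]
          rw [map_mul]
          ring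
        rw [h6]
        ring
      choose γ hγ using h5
      rw [Finset.prod_congr rfl fun j _ => hγ j, Finset.prod_mul_distrib, Finset.prod_const,
        Finset.card_univ, Fintype.card_fin, ← map_prod] at h4
      exact exists_eq_algebraMap_mul (hd l) h4
    · by_cases hl' : l ∈ K
      · exact gadget_prop (r := r') (z := z) (q := (Sum.inr ⟨l, hl'⟩ : Q ⊕ {l // l ∈ K})) (hg l hl') (hbr l hl') (hp l hl') (hj₀ l hl')
          (fun k => x (xIdx k)) (x (wIdx l)) (g2 l hl') (hd l) v hv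
      · exact ⟨0, by rw [g3 l hl hl', map_zero, zero_mul]⟩
  -- some base coordinate does not vanish identically
  obtain ⟨k₀, w₀, hk₀⟩ : ∃ k₀ w₀, (x (xIdx k₀) : ℂ → ℂ) w₀ ≠ 0 := by
    by_contra hcon
    push Not at hcon
    have h1 : ∀ k, x (xIdx k) = 0 := fun k => EntFun.ext' fun w => hcon k w
    obtain ⟨h2, -⟩ := hx 0
    apply h2
    funext j
    rcases idx_cases' j with ⟨i, rfl⟩ | ⟨l, rfl⟩
    · exact hcon i 0
    · obtain ⟨b, hb⟩ := hrest 0 (fun k => ⟨0, by rw [h1 k, mul_zero]⟩) l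
      rw [hb, mul_zero]
      rfl
  set v : EntFun := x (xIdx k₀) with hv
  have hxa : ∀ k, x (xIdx k) =
      algebraMap ℂ EntFun ((x (xIdx k) : ℂ → ℂ) w₀ / (v : ℂ → ℂ) w₀) * v := by
    intro k
    ext w
    have h1 := hcross w w₀ k k₀
    have h2 : ((algebraMap ℂ EntFun ((x (xIdx k) : ℂ → ℂ) w₀ / (v : ℂ → ℂ) w₀) * v : EntFun) :
        ℂ → ℂ) w = (x (xIdx k) : ℂ → ℂ) w₀ / (v : ℂ → ℂ) w₀ * (v : ℂ → ℂ) w := rfl
    rw [h2, div_mul_eq_mul_div, eq_div_iff hk₀]
    rw [← hv] at h1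
    linear_combination h1
  have hall : ∀ j, ∃ a : ℂ, x j = algebraMap ℂ EntFun a * v := by
    intro j
    rcases idx_cases' j with ⟨i, rfl⟩ | ⟨l, rfl⟩
    · exact ⟨_, hxa i⟩
    · exact hrest v (fun k => ⟨_, hxa k⟩) l
  choose a ha using hall
  exact const_of_proportional hx ha w₁ w₂

end Pool.Agent.H92.GGL
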