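import Pool.Agent.H92.GGL.CoverMult

/-!
# Rational curves through the points with a root of high multiplicity
-/

open Polynomial

namespace Pool.Agent.H92.GGL

/-- A root compatible with a given value. -/
lemma exists_root_factor {d n : ℕ} (hd : 0 < d) (hn : 0 < n) {x L c : ℂ}
    (h : x ^ d = L ^ (d * n) * c) : ∃ h : ℂ, h ^ d = c ∧ x = L ^ n * h := by
  by_cases hL : L = 0
  · obtain ⟨h', hh'⟩ := IsAlgClosed.exists_pow_nat_eq c hd
    refine ⟨h', hh', ?_⟩
    rw [hL, zero_pow (by positivity), zero_mul] at h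
    rw [hL, zero_pow hn.ne', zero_mul]
    exact (pow_eq_zero_iff hd.ne').mp h
  · have hLn : L ^ n ≠ 0 := pow_ne_zero _ hL
    refine ⟨x / L ^ n, ?_, by field_simp⟩
    rw [div_pow, h, ← pow_mul, mul_comm d n]
    have : L ^ (n * d) ≠ 0 := pow_ne_zero _ hL
    field_simp

/-- Two distinct points containing a given set of at most two points. -/
lemma exists_two_points (S B : Finset ℂ) (hS : S.card ≤ 2) (hSB : ∀ p ∈ S, p ∉ B) :
    ∃ p₁ p₂ : ℂ, p₁ ≠ p₂ ∧ p₁ ∉ B ∧ p₂ ∉ B ∧ ∀ p ∈ S, p = p₁ ∨ p = p₂ := by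
  classical
  obtain h | h | h : S.card = 0 ∨ S.card = 1 ∨ S.card = 2 := by omega
  · rw [Finset.card_eq_zero] at h
    obtain ⟨p₁, h1⟩ := Infinite.exists_notMem_finset B
    obtain ⟨p₂, h2⟩ := Infinite.exists_notMem_finset (insert p₁ B)
    rw [Finset.mem_insert, not_or] at h2
    refine ⟨p₁, p₂, fun h => h2.1 h.symm, h1, h2.2, ?_⟩
    rw [h]
    simp
  · obtain ⟨p, rfl⟩ := Finset.card_eq_one.mp h
    obtain ⟨p₂, h2⟩ := Infinite.exists_notMem_finset (insert p B)
    rw [Finset.mem_insert, not_or] at h2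
    refine ⟨p, p₂, fun h => h2.1 h.symm, hSB p (Finset.mem_singleton_self p), h2.2, ?_⟩
    intro q hq
    exact Or.inl (Finset.mem_singleton.mp hq)
  · obtain ⟨p, q, hpq, rfl⟩ := Finset.card_eq_two.mp h
    refine ⟨p, q, hpq, hSB p (by simp), hSB q (by simp), ?_⟩
    intro s hs
    simpa using hs

/-- The moving linear factor. -/
lemma natDegree_linear_pow_mul_le {r m : ℕ} {a b : ℂ} {H : ℂ[X]} (h : H.natDegree + m ≤ r) :
    ((C a + C b * X) ^ m * H).natDegree ≤ r := by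
  have h1 : (C a + C b * X : ℂ[X]).natDegree ≤ 1 := by
    refine (natDegree_add_le _ _).trans (max_le ?_ ?_)
    · rw [natDegree_C]; exact Nat.zero_le _
    · exact (natDegree_C_mul_le b X).trans natDegree_X_le
  have h2 : ((C a + C b * X : ℂ[X]) ^ m).natDegree ≤ m := by
    refine natDegree_pow_le.trans ?_
    calc m * (C a + C b * X : ℂ[X]).natDegree ≤ m * 1 := Nat.mul_le_mul_left _ h1
      _ = m := mul_one m
  have h3 := natDegree_mul_le (p := (C a + C b * X : ℂ[X]) ^ m) (q := H)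
  omega

/-- **Curves.** -/
theorem exists_curve {ι T : Type} {r d N m : ℕ} (hd : 0 < d) (hm : 0 < m) (hdm : d ∣ m)
    {t : Fin (N + 1) → ℂ} {τ : T → ℂ} (O : Finset T) (hO : O.card ≤ 2) (J : ι → Finset T)
    {k : ι → ℕ} (hk : ∀ l, 0 < k l) (hkm : ∀ l, k l ∣ m) {F : ℂ[X]} (hF0 : F ≠ 0)
    (hF : HasRoot m r F) {x : Fin (N + 1) → ℂ} {y : ι → ℂ} (hx : ∀ j, x j ^ d = F.eval (t j))
    (hy : ∀ l, y l ^ k l = ∏ i ∈ J l, F.eval (τ i)) (hFO : ∀ i ∈ O, F.eval (τ i) ≠ 0) :
    ∃ (ξ : ℂ → Fin (N + 1) → ℂ) (η : ℂ → ι → ℂ) (Φ : ℂ → ℂ[X]),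
      (∀ j z, AnalyticAt ℂ (fun z => ξ z j) z) ∧ (∀ l z, AnalyticAt ℂ (fun z => η z l) z) ∧
      (∀ z, (Φ z).natDegree ≤ r ∧ Φ z ≠ 0 ∧ (∀ j, ξ z j ^ d = (Φ z).eval (t j)) ∧
        (∀ l, η z l ^ k l = ∏ i ∈ J l, (Φ z).eval (τ i)) ∧
        ∀ i ∈ O, (Φ z).eval (τ i) ≠ 0) ∧ ξ 0 = x ∧ η 0 = y ∧ (∀ c : ℂ, Φ 1 ≠ C c * Φ 0) ∧
      ∀ z, ξ (z + 2 * Real.pi * Complex.I) = ξ z ∧ η (z + 2 * Real.pi * Complex.I) = η z := by
  classical
  obtain ⟨a, b, H, hab, hHdeg, hFH⟩ := hF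
  have hH0 : H ≠ 0 := by
    rintro rfl
    exact hF0 (by rw [hFH, mul_zero])
  obtain ⟨m', hm'⟩ := hdm
  choose mk hmk using hkm
  have hm'0 : 0 < m' := Nat.pos_of_ne_zero fun h => by
    rw [h, mul_zero] at hm'
    omega
  have hmk0 : ∀ l, 0 < mk l := fun l => Nat.pos_of_ne_zero fun h => by
    have := hmk l
    rw [h, mul_zero] at this
    omega
  set L : ℂ → ℂ := fun s => a + b * s with hL
  have hFe : ∀ s, F.eval s = L s ^ m * H.eval s := by
    intro s
    rw [hFH]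
    simp [hL]
  -- the set of roots of `L`
  set B : Finset ℂ := {-a / b} with hB
  have hLB : ∀ s, s ∉ B → b ≠ 0 → L s ≠ 0 := by
    intro s hs hb h
    apply hs
    rw [hB, Finset.mem_singleton, eq_div_iff hb]
    simp only [hL] at h
    linear_combination h
  obtain ⟨p₁, p₂, hp12, hL1, hL2, hSp⟩ : ∃ p₁ p₂ : ℂ, p₁ ≠ p₂ ∧ L p₁ ≠ 0 ∧ L p₂ ≠ 0 ∧
      ∀ i ∈ O, τ i = p₁ ∨ τ i = p₂ := by
    have hOL : ∀ i ∈ O, L (τ i) ≠ 0 := by
      intro i hi h
      apply hFO i hi
      rw [hFe, h, zero_pow hm.ne', zero_mul]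
    have hcard : (O.image τ).card ≤ 2 := Finset.card_image_le.trans hO
    by_cases hb : b = 0
    · have ha : a ≠ 0 := by
        rcases hab with h | h
        · exact h
        · exact absurd hb h
      obtain ⟨p₁, p₂, h1, -, -, h4⟩ := exists_two_points (O.image τ) ∅ hcard (by simp)
      refine ⟨p₁, p₂, h1, ?_, ?_, fun i hi => h4 _ (Finset.mem_image_of_mem τ hi)⟩
      · simp [hL, hb, ha]
      · simp [hL, hb, ha]
    · obtain ⟨p₁, p₂, h1, h2, h3, h4⟩ := exists_two_points (O.image τ) B hcard (by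
        intro p hp hpB
        obtain ⟨i, hi, rfl⟩ := Finset.mem_image.mp hp
        apply hOL i hi
        rw [hB, Finset.mem_singleton] at hpB
        simp only [hL]
        rw [hpB]
        field_simp
        ring)
      exact ⟨p₁, p₂, h1, hLB _ h2 hb, hLB _ h3 hb, fun i hi => h4 _ (Finset.mem_image_of_mem τ hi)⟩
  have hp12' : p₁ - p₂ ≠ 0 := sub_ne_zero.mpr hp12
  set κ : ℂ := L p₁ / (p₁ - p₂) with hκ
  set az : ℂ → ℂ := fun z => a - (Complex.exp z - 1) * κ * p₂ with haz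
  set bz : ℂ → ℂ := fun z => b + (Complex.exp z - 1) * κ with hbz
  set Lz : ℂ → ℂ → ℂ := fun z s => az z + bz z * s with hLz
  have hLz0 : ∀ s, Lz 0 s = L s := by
    intro s
    simp [hLz, haz, hbz, hL]
  have hLzp1 : ∀ z, Lz z p₁ = Complex.exp z * L p₁ := by
    intro z
    simp only [hLz, haz, hbz, hκ, hL]
    field_simp
    ring
  have hLzp2 : ∀ z, Lz z p₂ = L p₂ := by
    intro z
    simp only [hLz, haz, hbz, hL]
    ring
  have hLzan : ∀ s z, AnalyticAt ℂ (fun z => Lz z s) z := by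
    intro s z
    simp only [hLz, haz, hbz]
    fun_prop
  choose h hh1 hh2 using fun j => exists_root_factor (d := d) (n := m') (x := x j) (L := L (t j))
    (c := H.eval (t j)) hd hm'0 (by rw [hx, hFe, ← hm'])
  choose g hg1 hg2 using fun l => exists_root_factor (d := k l) (n := mk l) (x := y l)
    (L := ∏ i ∈ J l, L (τ i)) (c := ∏ i ∈ J l, H.eval (τ i)) (hk l) (hmk0 l) (by
      rw [hy, ← hmk, ← Finset.prod_pow, ← Finset.prod_mul_distrib]
      exact Finset.prod_congr rfl fun i _ => hFe _)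
  set Φ : ℂ → ℂ[X] := fun z => (C (az z) + C (bz z) * X) ^ m * H with hΦ
  have hΦe : ∀ z s, (Φ z).eval s = Lz z s ^ m * H.eval s := by
    intro z s
    simp [hΦ, hLz]
  have hlin : ∀ z, (C (az z) + C (bz z) * X : ℂ[X]) ≠ 0 := by
    intro z h0
    have h1 := congrArg (Polynomial.eval p₂) h0
    have h2 : Lz z p₂ = 0 := by simpa [hLz] using h1
    rw [hLzp2] at h2
    exact hL2 h2
  refine ⟨fun z j => Lz z (t j) ^ m' * h j, fun z l => (∏ i ∈ J l, Lz z (τ i)) ^ mk l * g l, Φ,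
    ?_, ?_, ?_, ?_, ?_, ?_, ?_⟩
  · intro j z
    exact ((hLzan (t j) z).pow m').mul analyticAt_const
  · intro l z
    refine AnalyticAt.mul (AnalyticAt.pow ?_ _) analyticAt_const
    exact Finset.analyticAt_fun_prod _ fun i _ => hLzan (τ i) z
  · intro z
    refine ⟨natDegree_linear_pow_mul_le hHdeg, mul_ne_zero (pow_ne_zero _ (hlin z)) hH0, ?_, ?_, ?_⟩
    · intro j
      rw [mul_pow, hh1, ← pow_mul, mul_comm m' d, ← hm', hΦe]
    · intro l
      rw [mul_pow, hg1, ← pow_mul, mul_comm (mk l) (k l), ← hmk, ← Finset.prod_pow,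
        ← Finset.prod_mul_distrib]
      exact Finset.prod_congr rfl fun i _ => (hΦe _ _).symm
    · intro i hi
      rw [hΦe]
      refine mul_ne_zero (pow_ne_zero _ ?_) ?_
      · rcases hSp i hi with h1 | h1
        · rw [h1, hLzp1]
          exact mul_ne_zero (Complex.exp_ne_zero _) hL1
        · rw [h1, hLzp2]
          exact hL2
      · intro h1
        apply hFO i hi
        rw [hFe, h1, mul_zero]
  · funext j
    change Lz 0 (t j) ^ m' * h j = x j
    rw [hLz0, ← hh2]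
  · funext l
    change (∏ i ∈ J l, Lz 0 (τ i)) ^ mk l * g l = y l
    rw [Finset.prod_congr rfl fun i _ => hLz0 (τ i), ← hg2]
  · intro c hc
    have h1 : (C (az 1) + C (bz 1) * X : ℂ[X]) ^ m = C c * (C (az 0) + C (bz 0) * X) ^ m := by
      apply mul_right_cancel₀ hH0
      rw [mul_assoc]
      exact hc
    have h2 : ∀ s, Lz 1 s ^ m = c * Lz 0 s ^ m := by
      intro s
      have h3 := congrArg (Polynomial.eval s) h1
      simpa [hLz] using h3
    have h3 := h2 p₂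
    rw [hLzp2, hLzp2] at h3
    have hLm : L p₂ ^ m ≠ 0 := pow_ne_zero _ hL2
    have hc1 : c = 1 := by
      have : c * L p₂ ^ m = 1 * L p₂ ^ m := by rw [← h3, one_mul]
      exact mul_right_cancel₀ hLm this
    have h4 := h2 p₁
    rw [hLzp1, hLzp1, hc1, one_mul, mul_pow, mul_pow, Complex.exp_zero, one_pow, one_mul] at h4
    have hLm1 : L p₁ ^ m ≠ 0 := pow_ne_zero _ hL1
    have h5 : Complex.exp 1 ^ m = 1 := by
      have : Complex.exp 1 ^ m * L p₁ ^ m = 1 * L p₁ ^ m := by rw [h4, one_mul]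
      exact mul_right_cancel₀ hLm1 this
    have h6 := congrArg norm h5
    rw [norm_pow, Complex.norm_exp, Complex.one_re, norm_one] at h6
    have h7 : (1 : ℝ) < Real.exp 1 := by
      have := Real.add_one_lt_exp (x := 1) one_ne_zero
      linarith
    have h8 := one_lt_pow₀ h7 hm.ne'
    linarith
  · intro z
    have h1 : ∀ s, Lz (z + 2 * Real.pi * Complex.I) s = Lz z s := by
      intro s
      simp only [hLz, haz, hbz]
      rw [Complex.exp_periodic z]
    constructor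
    · funext j
      change Lz (z + 2 * Real.pi * Complex.I) (t j) ^ m' * h j = _
      rw [h1]
    · funext l
      change (∏ i ∈ J l, Lz (z + 2 * Real.pi * Complex.I) (τ i)) ^ mk l * g l = _
      rw [Finset.prod_congr rfl fun i _ => h1 (τ i)]

end Pool.Agent.H92.GGL
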