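import Pool.Agent.H17.GlobalLift
import Pool.Agent.H99.Cover.Basic

/-!
# Global lifts of entire curves in the total space of a sum of line bundles
-/

open Topology Filter

namespace Pool.Agent.H92.GGL

open Pool.Agent.H17 Pool.Agent.H17.EntFun

open Pool.Agent.H99.Cover (Coord Rel Tot mk mk_eq_mk exists_mk relSetoid)

/-- The projection of the total space to `ℙ^N`. -/
noncomputable def totProj {N : ℕ} {ι : Type} {e : ι → ℕ} (x : Tot N e) : PN N :=
  Quotient.lift (s := relSetoid N e) (fun q => Projectivization.mk ℂ q.1.1 q.2) (by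
    rintro ⟨q, hq⟩ ⟨q', hq'⟩ ⟨c, hc, h1, -⟩
    rw [Projectivization.mk_eq_mk_iff]
    refine ⟨(Units.mk0 c hc)⁻¹, ?_⟩
    funext i
    change ((Units.mk0 c hc)⁻¹ : ℂˣ) • q'.1 i = q.1 i
    rw [Units.smul_def, h1 i]
    simp [hc]) x

lemma totProj_mk {N : ℕ} {ι : Type} {e : ι → ℕ} (q : Coord N ι) (hq : q.1 ≠ 0) :
    totProj (mk e q hq) = Projectivization.mk ℂ q.1 hq := rfl

/-- Every holomorphic map from `ℂ` to the total space is given by entire functions. -/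
theorem exists_lift_tot {N : ℕ} {ι : Type} [Fintype ι] {e : ι → ℕ} {f : ℂ → Tot N e}
    (hf : Pool.Agent.H99.Cover.HolomorphicInto f Set.univ) :
    ∃ (x : Fin (N + 1) → EntFun) (y : ι → EntFun), ∀ z,
      ∃ h : (fun j => (x j : ℂ → ℂ) z) ≠ 0,
        f z = mk e (fun j => (x j : ℂ → ℂ) z, fun l => (y l : ℂ → ℂ) z) h := by
  classical
  have hproj : Pool.Agent.H17.HolomorphicInto (fun z => totProj (f z)) Set.univ := by
    intro z₀ _
    obtain ⟨φ, hφ, hφf⟩ := hf z₀ (Set.mem_univ _)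
    refine ⟨fun z => (φ z).1, analyticAt_fst.comp hφ, ?_⟩
    filter_upwards [hφf] with z hz
    obtain ⟨h1, h2⟩ := hz
    exact ⟨h1, by rw [h2, totProj_mk]⟩
  obtain ⟨x, hx⟩ := exists_global_lift hproj
  have hex : ∀ z, ∃ y : ι → ℂ, ∃ h : (fun j => (x j : ℂ → ℂ) z) ≠ 0,
      f z = mk e (fun j => (x j : ℂ → ℂ) z, y) h := by
    intro z
    obtain ⟨q, hq, hqf⟩ := exists_mk (f z)
    obtain ⟨h, h1⟩ := hx z
    rw [hqf, totProj_mk] at h1
    obtain ⟨c, hc, h2⟩ := mk_eq_mk_cross h1.symm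
    refine ⟨fun l => c ^ e l * q.2 l, h, ?_⟩
    rw [hqf, mk_eq_mk]
    exact ⟨c, hc, h2, fun l => rfl⟩
  choose y hy0 hy using hex
  have hana : ∀ l z₀, AnalyticAt ℂ (fun z => y z l) z₀ := by
    intro l z₀
    obtain ⟨φ, hφ, hφf⟩ := hf z₀ (Set.mem_univ _)
    have hφ1 : ∀ i, AnalyticAt ℂ (fun z => (φ z).1 i) z₀ := fun i =>
      (analyticAt_pi_iff.mp (analyticAt_fst.comp hφ)) i
    have hφ2 : ∀ i, AnalyticAt ℂ (fun z => (φ z).2 i) z₀ := fun i =>
      (analyticAt_pi_iff.mp (analyticAt_snd.comp hφ)) i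
    obtain ⟨h0, -⟩ := hφf.self_of_nhds
    obtain ⟨i, hi⟩ : ∃ i, (φ z₀).1 i ≠ 0 := by
      by_contra hcon
      push Not at hcon
      exact h0 (funext hcon)
    have hA : AnalyticAt ℂ (fun z => ((x i : ℂ → ℂ) z / (φ z).1 i) ^ e l * (φ z).2 l) z₀ :=
      ((((x i).analyticAt z₀).div (hφ1 i) hi).pow _).mul (hφ2 l)
    refine hA.congr ?_
    filter_upwards [hφf, (hφ1 i).continuousAt.eventually_ne hi] with z h1 h2
    obtain ⟨h3, h4⟩ := h1
    rw [hy z, mk_eq_mk] at h4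
    obtain ⟨c, hc, h5, h6⟩ := h4.symm
    have h7 := h5 i
    simp only at h7
    rw [h7, mul_div_assoc, div_self h2, mul_one]
    exact (h6 l).symm
  refine ⟨x, fun l => ⟨fun z => y z l, fun z => (hana l z).differentiableAt⟩, fun z => ?_⟩
  exact ⟨hy0 z, hy z⟩

end Pool.Agent.H92.GGL
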