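import Pool.Agent.H92.GGL.CoverRigid

/-!
# Multiplicities of moving factors under divisibility conditions on the values
-/

open Polynomial Topology Filter

namespace Pool.Agent.H92.GGL

open Pool.Agent.H17 Pool.Agent.H17.EntFun Differential

/-- The polynomial `F`, regarded as a form of degree `r` on the projective line, has a root of
multiplicity at least `m`. -/
def HasRoot (m r : ℕ) (F : ℂ[X]) : Prop :=
  ∃ (a b : ℂ) (H : ℂ[X]), (a ≠ 0 ∨ b ≠ 0) ∧ H.natDegree + m ≤ r ∧ F = (C a + C b * X) ^ m * H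

/-- A multiple factor over the field of meromorphic functions gives multiple roots everywhere. -/
lemma hasRoot_of_pow_dvd {K : Type} [Field K] [Algebra EntFun K] [IsFractionRing EntFun K]
    {m r : ℕ} {F : EntFun[X]} (hn : F.natDegree ≤ r) {p : K[X]}
    (hp : Irreducible p) (hpm : p ^ m ∣ toK K F) {s : ℂ} (hs : F.map (ev s) ≠ 0) :
    HasRoot m r (F.map (ev s)) := by
  classical
  have hF : F ≠ 0 := by
    rintro rfl
    exact hs (Polynomial.map_zero _)
  obtain ⟨T, hT⟩ := hpm
  have hT0 : T ≠ 0 := by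
    rintro rfl
    rw [mul_zero] at hT
    exact toK_ne_zero hF hT
  obtain ⟨c, Q, hc, hQ⟩ := exists_clear p
  obtain ⟨c', T', hc', hT'⟩ := exists_clear T
  have hcK : ∀ {f : EntFun}, f ≠ 0 → algebraMap EntFun K f ≠ 0 := fun hf h0 =>
    hf (IsFractionRing.injective EntFun K (by rw [h0, map_zero]))
  have hQ0 : Q ≠ 0 := by
    rintro rfl
    have h1 : C (algebraMap EntFun K c) * p = 0 := by rw [← hQ]; simp [toK]
    rcases mul_eq_zero.mp h1 with h | h
    · exact hcK hc (C_eq_zero.mp h)
    · exact hp.ne_zero h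
  have hT'0 : T' ≠ 0 := by
    rintro rfl
    have h1 : C (algebraMap EntFun K c') * T = 0 := by rw [← hT']; simp [toK]
    rcases mul_eq_zero.mp h1 with h | h
    · exact hcK hc' (C_eq_zero.mp h)
    · exact hT0 h
  have hQdeg : Q.natDegree = p.natDegree := by
    rw [← natDegree_toK (K := K), hQ, natDegree_C_mul (hcK hc)]
  have hT'deg : T'.natDegree = T.natDegree := by
    rw [← natDegree_toK (K := K), hT', natDegree_C_mul (hcK hc')]
  have hdeg : m * p.natDegree + T.natDegree = F.natDegree := by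
    rw [← natDegree_toK (K := K), hT, natDegree_mul (pow_ne_zero _ hp.ne_zero) hT0, natDegree_pow]
  have hp1 : 0 < p.natDegree := hp.natDegree_pos
  -- the relation without denominators
  have hrel : C (c ^ m * c') * F = Q ^ m * T' := by
    apply toK_injective (K := K)
    rw [toK_mul, toK_mul, toK_pow, toK_C, hQ, hT', hT, map_mul, map_pow, C_mul, C_pow]
    ring
  obtain ⟨γ, G, hG, hG0⟩ := exists_coord_pow_mul s (F := C (c ^ m * c'))
    (C_ne_zero.mpr (mul_ne_zero (pow_ne_zero _ hc) hc'))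
  obtain ⟨a, Q₁, hQ₁, hQ₁0⟩ := exists_coord_pow_mul s hQ0
  obtain ⟨b, T₁, hT₁, hT₁0⟩ := exists_coord_pow_mul s hT'0
  have hcoordC : ∀ n : ℕ, (C (coord s ^ n) : EntFun[X]) ≠ 0 := fun n =>
    C_ne_zero.mpr (pow_ne_zero _ (coord_ne_zero s))
  have hGdeg : G.natDegree = 0 := by
    have h1 := congrArg natDegree hG
    rw [natDegree_C, natDegree_C_mul (pow_ne_zero _ (coord_ne_zero s))] at h1
    exact h1.symm
  have hQ₁deg : Q₁.natDegree = p.natDegree := by
    rw [← hQdeg, hQ₁, natDegree_C_mul (pow_ne_zero _ (coord_ne_zero s))]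
  have hT₁deg : T₁.natDegree = T.natDegree := by
    rw [← hT'deg, hT₁, natDegree_C_mul (pow_ne_zero _ (coord_ne_zero s))]
  have hmap1 : (G * F).map (ev s) ≠ 0 := by
    rw [Polynomial.map_mul]
    exact mul_ne_zero hG0 hs
  have hmap2 : (Q₁ ^ m * T₁).map (ev s) ≠ 0 := by
    rw [Polynomial.map_mul, Polynomial.map_pow]
    exact mul_ne_zero (pow_ne_zero _ hQ₁0) hT₁0
  have huni := coord_pow_mul_unique (a := γ) (b := a * m + b) hmap1 hmap2 (by
    rw [← mul_assoc, ← hG, hrel]
    conv_lhs => rw [hQ₁, hT₁]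
    rw [mul_pow, ← C_pow, ← pow_mul, pow_add, C_mul]
    ring)
  have hkey := congrArg (Polynomial.map (ev s)) huni.2
  rw [Polynomial.map_mul, Polynomial.map_mul, Polynomial.map_pow] at hkey
  obtain ⟨g, hg⟩ : ∃ g, G = C g := ⟨_, eq_C_of_natDegree_eq_zero hGdeg⟩
  rw [hg, map_C] at hkey hG0
  have hg0 : ev s g ≠ 0 := fun h => hG0 (by rw [h, C_0])
  have hFs : F.map (ev s) = C (ev s g)⁻¹ * ((Q₁.map (ev s)) ^ m * T₁.map (ev s)) := by
    rw [← hkey, ← mul_assoc, ← C_mul, inv_mul_cancel₀ hg0, C_1, one_mul]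
  rcases Nat.eq_zero_or_pos (Q₁.map (ev s)).natDegree with h0 | hpos
  · -- all roots are at infinity
    obtain ⟨q, hq⟩ : ∃ q, Q₁.map (ev s) = C q := ⟨_, eq_C_of_natDegree_eq_zero h0⟩
    refine ⟨1, 0, F.map (ev s), Or.inl one_ne_zero, ?_, by simp⟩
    have h1 : (F.map (ev s)).natDegree ≤ T.natDegree := by
      rw [hFs, hq, ← C_pow, ← mul_assoc, ← C_mul]
      exact (natDegree_C_mul_le _ _).trans (natDegree_map_le.trans hT₁deg.le)
    have h2 : m ≤ m * p.natDegree := Nat.le_mul_of_pos_right _ hp1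
    omega
  · -- a finite root
    obtain ⟨x, hx⟩ := IsAlgClosed.exists_root (Q₁.map (ev s)) (by
      intro h
      rw [natDegree_eq_of_degree_eq_some h] at hpos
      exact lt_irrefl _ hpos)
    obtain ⟨V, hV⟩ := dvd_iff_isRoot.mpr hx
    have h1 : F.map (ev s) = (C (-x) + C 1 * X) ^ m *
        (C (ev s g)⁻¹ * (V ^ m * T₁.map (ev s))) := by
      rw [hFs, hV, mul_pow]
      have : (X - C x : ℂ[X]) = C (-x) + C 1 * X := by
        rw [C_neg, C_1]
        ring
      rw [this]
      ring
    refine ⟨-x, 1, _, Or.inr one_ne_zero, ?_, h1⟩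
    set H := C (ev s g)⁻¹ * (V ^ m * T₁.map (ev s)) with hH
    have hH0 : H ≠ 0 := by
      intro h
      rw [h, mul_zero] at h1
      exact hs h1
    have hX : (C (-x) + C 1 * X : ℂ[X]) = X - C x := by
      rw [C_neg, C_1]
      ring
    rw [hX] at h1
    have h2 := congrArg natDegree h1
    rw [natDegree_mul (pow_ne_zero _ (X_sub_C_ne_zero x)) hH0, natDegree_pow, natDegree_X_sub_C,
      mul_one] at h2
    have h3 : (F.map (ev s)).natDegree ≤ r := natDegree_map_le.trans hn
    omega

/-- **Multiplicities of moving factors.**  If the zeros of the polynomial `F` over the entire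
functions are not constant, then some factor has multiplicity at least `m`. -/
theorem exists_multiple_factor (K : Type) [Field K] [Algebra EntFun K] [IsFractionRing EntFun K]
    {κ : Type} [Fintype κ] (t : κ → ℂ) (ht : Function.Injective t) {r m : ℕ} (θ : ℕ → κ → ℝ)
    (hθ0 : ∀ e i, 0 ≤ θ e i)
    (hcard : ∀ e, 1 ≤ e → e < m → 2 * ((r : ℝ) + 1 - e) < ∑ i, (1 - θ e i))
    (F : EntFun[X]) (hcont : ∀ s, F.map (ev s) ≠ 0) (hn : F.natDegree ≤ r)
    (hloc : ∀ e, 1 ≤ e → e < m → ∀ s, ∀ o : κ → ℕ,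
      (∀ i, o i ≤ ordN (evC (t i) F) s ∧ ordN (evC (t i) F) s ≤ e * o i) →
      ((Finset.univ.filter fun i => o i ≠ 0).card : ℝ) ≤ ∑ i, θ e i * o i) :
    (∃ (u : EntFun) (P : ℂ[X]), F = C u * P.map (algebraMap ℂ EntFun)) ∨
      ∃ p : K[X], Irreducible p ∧ p ^ m ∣ toK K F := by
  classical
  have hF : F ≠ 0 := by
    rintro rfl
    exact hcont 0 (Polynomial.map_zero _)
  rcases moving_part K t ht F hF with h1 | ⟨R, e, b, he, hρ, hb, hdeg, hres, hval, ⟨p, hp, hpe⟩,
    hlocR⟩
  · exact Or.inl h1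
  rcases le_or_gt m e with hme | hem
  · exact Or.inr ⟨p, hp, (pow_dvd_pow p hme).trans hpe⟩
  exfalso
  apply hres
  have hcard := hcard e he hem
  have hloc := hloc e he hem
  have hθ0 := hθ0 e
  set B : Finset κ := Finset.univ.filter (fun i => evC (t i) F = 0) with hB
  have hBb : B.card ≤ b := hb B fun i hi => (Finset.mem_filter.mp hi).2
  have hBn : B.card ≤ Fintype.card κ := Finset.card_le_univ B
  have hcard' : Fintype.card {i // evC (t i) F ≠ 0} = Fintype.card κ - B.card := by
    rw [Fintype.card_subtype_compl, Fintype.card_subtype]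
  -- the numerical condition
  have hsplit : ∑ i, θ e i = ∑ i : {i // evC (t i) F ≠ 0}, θ e i.1 + ∑ i ∈ B, θ e i := by
    rw [hB, ← Finset.sum_subtype (Finset.univ.filter fun i => evC (t i) F ≠ 0) (by simp) (θ e),
      add_comm]
    exact (Finset.sum_filter_add_sum_filter_not Finset.univ (fun i => evC (t i) F = 0) (θ e)).symm
  have hBsum : 0 ≤ ∑ i ∈ B, θ e i := Finset.sum_nonneg fun i _ => hθ0 i
  have hcard2 : ∑ i, (1 - θ e i) = (Fintype.card κ : ℝ) - ∑ i, θ e i := by
    rw [Finset.sum_sub_distrib, Finset.sum_const, Finset.card_univ, nsmul_eq_mul, mul_one]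
  have hnum : ∑ i : {i // evC (t i) F ≠ 0}, θ e i.1 + 2 * (R.natDegree : ℝ) <
      Fintype.card {i // evC (t i) F ≠ 0} := by
    rw [hcard', Nat.cast_sub hBn]
    have h1 : (R.natDegree : ℝ) + e + B.card ≤ r + 1 := by
      exact_mod_cast (by omega : R.natDegree + e + B.card ≤ r + 1)
    have h2 : (0 : ℝ) ≤ B.card := Nat.cast_nonneg _
    linarith
  have hne : Nonempty {i // evC (t i) F ≠ 0} := by
    apply Fintype.card_pos_iff.mp
    have h1 : (0 : ℝ) ≤ ∑ i : {i // evC (t i) F ≠ 0}, θ e i.1 := Finset.sum_nonneg fun i _ => hθ0 _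
    have h2 : (0 : ℝ) ≤ R.natDegree := Nat.cast_nonneg _
    have h3 : (0 : ℝ) < Fintype.card {i // evC (t i) F ≠ 0} := by linarith
    exact_mod_cast h3
  refine resultant_eq_zero_of_weights (fun i : {i // evC (t i) F ≠ 0} => t i.1)
    (fun i j h => Subtype.ext (ht h)) hρ (fun i => θ e i.1) (fun i => hθ0 _) hnum R le_rfl
    (fun i => hval _ i.2) ?_
  -- the local condition
  intro s
  obtain ⟨c, cF, G, G', hRG, hG0, hFG, hG'0, hord⟩ := hlocR s
  have hG' : G' = F := by
    have h1 : C (coord s ^ 0) * F = C (coord s ^ cF) * G' := by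
      rw [← hFG]; simp
    exact (coord_pow_mul_unique (hcont s) hG'0 h1).2.symm
  rw [hG'] at hord
  set o : κ → ℕ := fun i => if evC (t i) F = 0 then 0 else ordN (evC (t i) G) s with ho
  have hoF : ∀ i, evC (t i) F ≠ 0 → (o i : ℕ∞) = analyticOrderAt ((evC (t i) G : EntFun) : ℂ → ℂ) s ∧
      o i ≤ ordN (evC (t i) F) s ∧ ordN (evC (t i) F) s ≤ e * o i := by
    intro i hi
    obtain ⟨o₁, o', h1, h2, h3, h4⟩ := hord (t i) hi
    have h5 : ordN (evC (t i) F) s = o' := by
      have h6 := ordN_cast hi s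
      rw [h2] at h6
      exact_mod_cast h6
    have h7 : o i = o₁ := by
      simp only [ho, if_neg hi]
      unfold ordN analyticOrderNatAt
      rw [h1]
      rfl
    rw [h5, h7, h1]
    exact ⟨rfl, h3, h4⟩
  refine ⟨c, G, fun i => o i.1, hRG, hG0, fun i => (hoF i.1 i.2).1.symm, ?_⟩
  have hzero : ∀ i, ¬ evC (t i) F ≠ 0 → o i = 0 := by
    intro i hi
    rw [not_not] at hi
    simp only [ho, if_pos hi]
  have hmain := hloc s o (by
    intro i
    by_cases hi : evC (t i) F = 0
    · rw [hzero i (not_not.mpr hi), hi, ordN_zero]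
      simp
    · exact (hoF i hi).2)
  have h1 : ∑ i : {i // evC (t i) F ≠ 0}, θ e i.1 * (o i.1 : ℝ) = ∑ i, θ e i * (o i : ℝ) := by
    rw [← Finset.sum_subtype (Finset.univ.filter fun i => evC (t i) F ≠ 0) (by simp)
      fun i => θ e i * (o i : ℝ)]
    refine Finset.sum_subset (Finset.filter_subset _ _) fun i _ hi => ?_
    have h2 : ¬ evC (t i) F ≠ 0 := fun h => hi (Finset.mem_filter.mpr ⟨Finset.mem_univ _, h⟩)
    rw [hzero i h2, Nat.cast_zero, mul_zero]
  rw [h1]
  refine le_trans (le_of_eq ?_) hmain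
  congr 1
  refine Finset.card_bij (fun i _ => i.1) ?_ ?_ ?_
  · intro i hi
    exact Finset.mem_filter.mpr ⟨Finset.mem_univ _, (Finset.mem_filter.mp hi).2⟩
  · intro i _ j _ hij
    exact Subtype.ext hij
  · intro i hi
    have h2 := (Finset.mem_filter.mp hi).2
    have h3 : evC (t i) F ≠ 0 := by
      by_contra h
      exact h2 (hzero i (not_not.mpr h))
    exact ⟨⟨i, h3⟩, Finset.mem_filter.mpr ⟨Finset.mem_univ _, h2⟩, rfl⟩

/-- The weight of a node in a block with `a` elements and exponent `k`. -/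
noncomputable def blockWt (r a k e : ℕ) : ℝ := min 1 (e * (min r a : ℕ) / k)

lemma blockWt_nonneg (r a k e : ℕ) : 0 ≤ blockWt r a k e := by
  unfold blockWt
  positivity

/-- The local condition in a block. -/
lemma block_local' {T : Type} {r k e : ℕ} (hk : 0 < k) {τ : T → ℂ}
    (hτ : Function.Injective τ)
    {F : EntFun[X]} {s : ℂ} (hcont : F.map (ev s) ≠ 0) (hn : F.natDegree ≤ r) (J : Finset T)
    {y : EntFun} (hy0 : y ≠ 0) (hy : ∏ i ∈ J, evC (τ i) F = y ^ k) {o : T → ℕ}
    (ho : ∀ i ∈ J, o i ≤ ordN (evC (τ i) F) s ∧ ordN (evC (τ i) F) s ≤ e * o i) :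
    ((J.filter fun i => o i ≠ 0).card : ℝ) ≤ ∑ i ∈ J, blockWt r J.card k e * o i := by
  classical
  set S := J.filter fun i => o i ≠ 0 with hS
  have hne : ∀ i ∈ J, evC (τ i) F ≠ 0 := by
    rw [← Finset.prod_ne_zero_iff, hy]
    exact pow_ne_zero _ hy0
  have hsum : ∑ i ∈ J, ordN (evC (τ i) F) s = k * ordN y s := by
    rw [← ordN_prod J _ hne, hy, ordN_pow hy0]
  have h1 : S.card ≤ ∑ i ∈ J, o i := by
    rw [hS, Finset.card_eq_sum_ones, Finset.sum_filter]
    refine Finset.sum_le_sum fun i _ => ?_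
    split_ifs with h
    · omega
    · omega
  have h2 : S.card ≤ r := by
    by_contra hcon
    push Not at hcon
    apply hcont
    refine eq_zero_of_natDegree_lt_card_of_eval_eq_zero' _ (S.image τ) ?_ ?_
    · intro a ha
      obtain ⟨i, hi, rfl⟩ := Finset.mem_image.mp ha
      rw [← evC_apply]
      refine eval_eq_zero_of_ordN_ne_zero ?_
      have h3 := (Finset.mem_filter.mp hi).2
      have h4 := (ho i (Finset.mem_filter.mp hi).1).1
      omega
    · rw [Finset.card_image_of_injective _ hτ]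
      exact (natDegree_map_le.trans hn).trans_lt hcon
  have h3 : S.card ≤ J.card := Finset.card_le_card (Finset.filter_subset _ _)
  have h4 : ∑ i ∈ J, ordN (evC (τ i) F) s ≤ e * ∑ i ∈ J, o i := by
    rw [Finset.mul_sum]
    exact Finset.sum_le_sum fun i hi => (ho i hi).2
  have h5 : ∑ i ∈ J, o i ≤ ∑ i ∈ J, ordN (evC (τ i) F) s :=
    Finset.sum_le_sum fun i hi => (ho i hi).1
  rw [← Finset.mul_sum, ← Nat.cast_sum]
  rcases Nat.eq_zero_or_pos (ordN y s) with h0 | hpos
  · rw [hsum, h0, mul_zero] at h5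
    have h6 : ∑ i ∈ J, o i = 0 := by omega
    have : S.card = 0 := by omega
    rw [this, h6]
    simp
  · have hkR : (0 : ℝ) < k := by exact_mod_cast hk
    have h6 : k ≤ e * ∑ i ∈ J, o i := by
      rw [hsum] at h4
      exact (Nat.le_mul_of_pos_right k hpos).trans h4
    have h7 : (k : ℝ) ≤ e * ((∑ i ∈ J, o i : ℕ) : ℝ) := by exact_mod_cast h6
    unfold blockWt
    rcases le_total 1 ((e : ℝ) * ((min r J.card : ℕ) : ℝ) / k) with h | h
    · rw [min_eq_left h, one_mul]
      exact_mod_cast h1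
    · rw [min_eq_right h]
      have h8 : (S.card : ℝ) ≤ ((min r J.card : ℕ) : ℝ) := by exact_mod_cast le_min h2 h3
      have h9 : (0 : ℝ) ≤ (min r J.card : ℕ) := Nat.cast_nonneg _
      refine h8.trans ?_
      rw [div_mul_eq_mul_div, le_div_iff₀ hkR]
      nlinarith

/-- **Multiplicities for multiple covers.** -/
theorem exists_multiple_factor_of_cover (K : Type) [Field K] [Algebra EntFun K]
    [IsFractionRing EntFun K]
    {ν ι T : Type} [Fintype ν] [Fintype ι] [Fintype T] [DecidableEq ι] {r d m : ℕ} (hd : 0 < d)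
    {t : ν → ℂ} {τ : T → ℂ} (ht : Function.Injective (Sum.elim t τ))
    (β : T → Option ι) {k : ι → ℕ} (hk : ∀ l, 0 < k l)
    (hnum : ∀ e : ℕ, 1 ≤ e → e < m →
      2 * ((r : ℝ) + 1 - e) < Fintype.card ν * (1 - min 1 ((e : ℝ) / d)) +
      (Finset.univ.filter fun i => β i = none).card +
      ∑ l, (Finset.univ.filter fun i => β i = some l).card *
        (1 - blockWt r (Finset.univ.filter fun i => β i = some l).card (k l) e))
    (F : EntFun[X]) (hcont : ∀ s, F.map (ev s) ≠ 0) (hn : F.natDegree ≤ r)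
    (x : ν → EntFun) (hx : ∀ j, evC (t j) F = x j ^ d)
    (hO : ∀ i, β i = none → ∀ s, ((evC (τ i) F : EntFun) : ℂ → ℂ) s ≠ 0)
    (y : ι → EntFun) (hy0 : ∀ l, y l ≠ 0)
    (hy : ∀ l, ∏ i ∈ Finset.univ.filter (fun i => β i = some l), evC (τ i) F = y l ^ k l) :
    (∃ (u : EntFun) (P : ℂ[X]), F = C u * P.map (algebraMap ℂ EntFun)) ∨
      ∃ p : K[X], Irreducible p ∧ p ^ m ∣ toK K F := by
  classical
  set J : ι → Finset T := fun l => Finset.univ.filter fun i => β i = some l with hJ
  set O : Finset T := Finset.univ.filter fun i => β i = none with hOdef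
  have hτ : Function.Injective τ := fun i j h => by
    have := @ht (Sum.inr i) (Sum.inr j) (by simpa using h)
    simpa using this
  set θT : ℕ → T → ℝ := fun e i => (β i).elim 0 fun l => blockWt r (J l).card (k l) e with hθT
  have hdR : (0 : ℝ) < d := by exact_mod_cast hd
  -- sums over `T`
  have hTsum : ∀ g : T → ℝ, ∑ i, g i = ∑ i ∈ O, g i + ∑ l, ∑ i ∈ J l, g i := by
    intro g
    rw [← Finset.sum_fiberwise Finset.univ β g, Fintype.sum_option]
  have hJθ : ∀ e l, ∀ i ∈ J l, θT e i = blockWt r (J l).card (k l) e := by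
    intro e l i hi
    have h1 : β i = some l := (Finset.mem_filter.mp hi).2
    simp only [hθT, h1, Option.elim_some]
  have hOθ : ∀ e, ∀ i ∈ O, θT e i = 0 := by
    intro e i hi
    have h1 : β i = none := (Finset.mem_filter.mp hi).2
    simp only [hθT, h1, Option.elim_none]
  refine exists_multiple_factor K (Sum.elim t τ) ht (r := r) (m := m)
    (fun e => Sum.elim (fun _ => min 1 ((e : ℝ) / d)) (θT e)) ?_ ?_ F hcont hn ?_
  · rintro e (i | i)
    · simp only [Sum.elim_inl]
      positivity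
    · simp only [Sum.elim_inr, hθT]
      rcases β i with _ | l
      · exact le_rfl
      · exact blockWt_nonneg _ _ _ _
  · -- numerics
    intro e he hem
    rw [Fintype.sum_sum_type]
    simp only [Sum.elim_inl, Sum.elim_inr]
    rw [hTsum, Finset.sum_const, Finset.card_univ, nsmul_eq_mul]
    have h1 : ∑ i ∈ O, (1 - θT e i) = (O.card : ℝ) := by
      rw [Finset.sum_congr rfl fun i hi => by rw [hOθ e i hi, sub_zero], Finset.sum_const,
        nsmul_eq_mul, mul_one]
    have h2 : ∀ l, ∑ i ∈ J l, (1 - θT e i) =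
        ((J l).card : ℝ) * (1 - blockWt r (J l).card (k l) e) := by
      intro l
      rw [Finset.sum_congr rfl fun i hi => by rw [hJθ e l i hi], Finset.sum_const, nsmul_eq_mul]
    rw [h1, Finset.sum_congr rfl fun l _ => h2 l, ← add_assoc]
    exact hnum e he hem
  · -- local conditions
    intro e he hem s o ho
    rw [card_filter_ne_zero, Fintype.sum_sum_type, Fintype.sum_sum_type]
    simp only [Sum.elim_inl, Sum.elim_inr]
    refine add_le_add ?_ ?_
    · refine Finset.sum_le_sum fun j _ => ?_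
      by_cases h : o (Sum.inl j) = 0
      · rw [h, indN_zero]
        simp
      · rw [indN_of_ne h]
        obtain ⟨h1, h2⟩ := ho (Sum.inl j)
        simp only [Sum.elim_inl] at h1 h2
        have hxj : x j ≠ 0 := by
          intro hxj
          rw [hx, hxj, zero_pow hd.ne', ordN_zero] at h1
          omega
        rw [hx, ordN_pow hxj] at h1 h2
        have h3 : 1 ≤ ordN (x j) s := by
          by_contra hcon
          have h4 : ordN (x j) s = 0 := by omega
          rw [h4, mul_zero] at h1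
          omega
        have h4 : d ≤ e * o (Sum.inl j) := (Nat.le_mul_of_pos_right d h3).trans h2
        have h5 : (d : ℝ) ≤ e * o (Sum.inl j) := by exact_mod_cast h4
        have h6 : (1 : ℝ) ≤ o (Sum.inl j) := by exact_mod_cast Nat.one_le_iff_ne_zero.mpr h
        rcases le_total 1 ((e : ℝ) / d) with h7 | h7
        · rw [min_eq_left h7, one_mul]
          exact h6
        · rw [min_eq_right h7, div_mul_eq_mul_div, one_le_div hdR]
          exact h5
    · rw [hTsum, hTsum]
      refine add_le_add ?_ ?_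
      · refine Finset.sum_le_sum fun i hi => ?_
        have h1 : β i = none := (Finset.mem_filter.mp hi).2
        have h2 : ordN (evC (τ i) F) s = 0 := by
          by_contra h
          exact hO i h1 s (eval_eq_zero_of_ordN_ne_zero h)
        have h3 : o (Sum.inr i) = 0 := by
          have h4 := (ho (Sum.inr i)).1
          simp only [Sum.elim_inr] at h4
          omega
        rw [h3, indN_zero]
        simp
      · refine Finset.sum_le_sum fun l _ => ?_
        have h1 := block_local' (r := r) (e := e) (hk l) hτ (hcont s) hn (J l) (hy0 l) (hy l)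
          (o := fun i => o (Sum.inr i)) (fun i _ => ho (Sum.inr i))
        have h2 : ∑ i ∈ J l, θT e i * (o (Sum.inr i) : ℝ) =
            ∑ i ∈ J l, blockWt r (J l).card (k l) e * (o (Sum.inr i) : ℝ) :=
          Finset.sum_congr rfl fun i hi => by rw [hJθ e l i hi]
        rw [h2, ← card_filter_ne_zero (J l) fun i => o (Sum.inr i)]
        exact h1

end Pool.Agent.H92.GGL
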