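import Pool.Agent.H92.GGL.Disc

/-!
# Entire curves in the diagonal complete intersections
-/

open Polynomial

namespace Pool.Agent.H92.GGL

open Pool.Agent.H17 Pool.Agent.H17.EntFun

/-- A left inverse of the evaluation map. -/
lemma exists_evMap_leftInverse {n N : ℕ} {t : Fin (N + 1) → ℂ} (ht : Function.Injective t)
    (hnN : n ≤ N) : ∃ b : Fin (N + 1) → Fin (n + 1) → ℂ,
      ∀ (a : Fin (n + 1) → ℂ) k, a k = ∑ j, b j k * evMap n t a j := by
  classical
  obtain ⟨B, hB⟩ := LinearMap.exists_leftInverse_of_injective (evMap n t)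
    (LinearMap.ker_eq_bot.mpr (evMap_injective ht hnN))
  refine ⟨fun j k => B (Pi.single j 1) k, fun a k => ?_⟩
  have hB' : B (evMap n t a) = a := LinearMap.congr_fun hB a
  have h1 : evMap n t a = ∑ j, evMap n t a j • (Pi.single j (1 : ℂ) : Fin (N + 1) → ℂ) := by
    conv_lhs => rw [← Finset.univ_sum_single (evMap n t a)]
    refine Finset.sum_congr rfl fun j _ => ?_
    rw [← Pi.single_smul, smul_eq_mul, mul_one]
  conv_lhs => rw [← hB', h1]
  rw [map_sum, Finset.sum_apply]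
  refine Finset.sum_congr rfl fun j _ => ?_
  rw [map_smul, Pi.smul_apply, smul_eq_mul, mul_comm]

/-- The polynomial over the entire functions attached to an entire curve. -/
lemma exists_poly {n N d : ℕ} {t : Fin (N + 1) → ℂ} (ht : Function.Injective t)
    (hnN : n ≤ N) (x : Fin (N + 1) → EntFun)
    (hX : ∀ z, ∃ a, ∀ j, evMap n t a j = (x j : ℂ → ℂ) z ^ d) :
    ∃ F : EntFun[X], F.natDegree ≤ n ∧ (∀ j, evC (t j) F = x j ^ d) ∧
      ∀ (z : ℂ) (a : Fin (n + 1) → ℂ), (∀ j, evMap n t a j = (x j : ℂ → ℂ) z ^ d) →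
        F.map (ev z) = polyOf a := by
  obtain ⟨b, hb⟩ := exists_evMap_leftInverse ht hnN
  set Fc : Fin (n + 1) → EntFun := fun k => ∑ j, algebraMap ℂ EntFun (b j k) * x j ^ d with hFc
  have hFcz : ∀ (z : ℂ) (a : Fin (n + 1) → ℂ), (∀ j, evMap n t a j = (x j : ℂ → ℂ) z ^ d) →
      ∀ k, ev z (Fc k) = a k := by
    intro z a ha k
    rw [hb a k, hFc, map_sum]
    refine Finset.sum_congr rfl fun j _ => ?_
    rw [map_mul, map_pow, ev_algebraMap, ev_apply, ha]
  have hmap : ∀ (z : ℂ) (a : Fin (n + 1) → ℂ), (∀ j, evMap n t a j = (x j : ℂ → ℂ) z ^ d) →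
      (polyOf Fc).map (ev z) = polyOf a := by
    intro z a ha
    rw [polyOf_map]
    congr 1
    funext k
    exact hFcz z a ha k
  refine ⟨polyOf Fc, natDegree_polyOf _, ?_, hmap⟩
  intro j
  ext z
  obtain ⟨a, ha⟩ := hX z
  rw [evC_apply, hmap z a ha]
  exact ha j

/-- **Rigidity.** -/
theorem curve_rigid {r N d : ℕ} (hr : 0 < r) (hd : 2 ≤ d) (hcard : 2 * r * d < (N + 1) * (d - 1))
    {t : Fin (N + 1) → ℂ} (ht : Function.Injective t) (x : Fin (N + 1) → EntFun)
    (h0 : ∀ z, ∃ j, (x j : ℂ → ℂ) z ≠ 0)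
    (hX : ∀ z, ∃ a, ∀ j, evMap r t a j = (x j : ℂ → ℂ) z ^ d)
    (h : r < d ∨ ∃ (z : ℂ) (a : Fin (r + 1) → ℂ), (∀ j, evMap r t a j = (x j : ℂ → ℂ) z ^ d) ∧
      discN r (polyOf a) ≠ 0) (z w : ℂ) :
    ∃ μ : ℂ, μ ≠ 0 ∧ ∀ j, (x j : ℂ → ℂ) z = μ * (x j : ℂ → ℂ) w := by
  classical
  have hrN : r ≤ N := by
    by_contra hcon
    push Not at hcon
    have : (N + 1) * (d - 1) ≤ 2 * r * d := Nat.mul_le_mul (by omega) (by omega)
    omega
  obtain ⟨F, hFdeg, hFx, hFmap⟩ := exists_poly ht hrN x hX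
  have hF0 : F ≠ 0 := by
    intro h
    obtain ⟨j, hj⟩ := h0 0
    have h1 := hFx j
    rw [h] at h1
    have h2 : (x j : ℂ → ℂ) 0 ^ d = 0 := by
      have h3 := congrArg (fun f : EntFun => (f : ℂ → ℂ) 0) h1
      have h4 : evC (t j) (0 : EntFun[X]) = 0 := eval_zero
      rw [h4] at h3
      exact h3.symm
    exact pow_ne_zero d hj h2
  obtain ⟨u, P, huP⟩ := eq_C_mul_map_of_powers (FractionRing EntFun) t ht hd
    (by rw [Fintype.card_fin]; exact hcard) F hF0 hFdeg x hFx (by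
      rcases h with h | ⟨z₀, a, ha, hdisc⟩
      · exact Or.inl h
      · right
        intro p hp
        refine not_sq_dvd_of_discN_ne_zero (n := r) hr ?_ ?_ hp
        · rw [natDegree_toK]
          exact hFdeg
        · unfold toK
          rw [discN_map]
          intro h1
          have h2 : discN r F = 0 :=
            IsFractionRing.injective EntFun (FractionRing EntFun) (by rw [h1, map_zero])
          apply hdisc
          rw [← hFmap z₀ a ha, discN_map, h2, map_zero])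
  have hpow : ∀ z j, (x j : ℂ → ℂ) z ^ d = (u : ℂ → ℂ) z * P.eval (t j) := by
    intro z j
    have h1 := congrArg (fun f : EntFun => (f : ℂ → ℂ) z) (hFx j)
    have h2 : ((x j ^ d : EntFun) : ℂ → ℂ) z = (x j : ℂ → ℂ) z ^ d := rfl
    beta_reduce at h1
    rw [h2, evC_apply, huP, Polynomial.map_mul, map_C, ev_apply, Polynomial.map_map] at h1
    have h3 : (ev z).comp (algebraMap ℂ EntFun) = RingHom.id ℂ := by
      ext c
      simp
    rw [h3, Polynomial.map_id, eval_mul, eval_C] at h1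
    exact h1.symm
  have hu : ∀ z, (u : ℂ → ℂ) z ≠ 0 := by
    intro z hz
    obtain ⟨j, hj⟩ := h0 z
    have h1 := hpow z j
    rw [hz, zero_mul] at h1
    exact pow_ne_zero d hj h1
  obtain ⟨j₀, hj₀⟩ := h0 0
  have hlam0 : P.eval (t j₀) ≠ 0 := by
    intro h
    have h1 := hpow 0 j₀
    rw [h, mul_zero] at h1
    exact pow_ne_zero d hj₀ h1
  have hx0 : ∀ z, (x j₀ : ℂ → ℂ) z ≠ 0 := by
    intro z hz
    have h1 := hpow z j₀
    rw [hz, zero_pow (by omega)] at h1
    exact mul_ne_zero (hu z) hlam0 h1.symm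
  refine ⟨(x j₀ : ℂ → ℂ) z / (x j₀ : ℂ → ℂ) w, div_ne_zero (hx0 z) (hx0 w), fun j => ?_⟩
  have h1 := const_of_pow_const (h := fun z => (x j : ℂ → ℂ) z / (x j₀ : ℂ → ℂ) z) (d := d)
    (c := P.eval (t j) / P.eval (t j₀)) (fun z => ((x j).diff z).div ((x j₀).diff z) (hx0 z))
    (by omega) (fun z => by
      rw [div_pow, hpow, hpow]
      have := hu z
      field_simp) z w
  have h2 := hx0 z
  have h3 := hx0 w
  rw [div_eq_div_iff h2 h3] at h1
  field_simp
  linear_combination h1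

end Pool.Agent.H92.GGL
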