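import Pool.Agent.H92.GGL.CoverCurve
import Pool.Agent.H92.GGL.CurveRigid

/-!
# Entire curves and lines in the diagonal complete intersections
-/

open Polynomial Topology Filter

namespace Pool.Agent.H92.GGL

open Pool.Agent.H17 Pool.Agent.H17.EntFun

/-- **Alternative.**  An entire curve in the diagonal complete intersection is constant or the
polynomial has a root of high multiplicity everywhere. -/
theorem curve_alternative {r N d m : ℕ} (hd : 0 < d) (hrN : r ≤ N)
    (hnum : ∀ a : ℕ, 1 ≤ a → a < m →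
      2 * ((r : ℝ) + 1 - a) < ((N : ℝ) + 1) * (1 - min 1 ((a : ℝ) / d)))
    {t : Fin (N + 1) → ℂ} (ht : Function.Injective t) (x : Fin (N + 1) → EntFun)
    (h0 : ∀ z, ∃ j, (x j : ℂ → ℂ) z ≠ 0)
    (hX : ∀ z, ∃ a, ∀ j, evMap r t a j = (x j : ℂ → ℂ) z ^ d) :
    (∀ z w : ℂ, ∃ μ : ℂ, μ ≠ 0 ∧ ∀ j, (x j : ℂ → ℂ) z = μ * (x j : ℂ → ℂ) w) ∨
      ∀ (z : ℂ) (a : Fin (r + 1) → ℂ), (∀ j, evMap r t a j = (x j : ℂ → ℂ) z ^ d) →
        HasRoot m r (polyOf a) := by
  classical
  obtain ⟨F, hFdeg, hFx, hFmap⟩ := exists_poly ht hrN x hX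
  have hcont : ∀ s, F.map (ev s) ≠ 0 := by
    intro s hs
    obtain ⟨a, ha⟩ := hX s
    obtain ⟨j, hj⟩ := h0 s
    rw [hFmap s a ha] at hs
    have h1 := ha j
    rw [evMap_apply, hs, Polynomial.eval_zero] at h1
    exact pow_ne_zero d hj h1.symm
  have hdR : (0 : ℝ) < d := by exact_mod_cast hd
  rcases exists_multiple_factor (FractionRing EntFun) t ht (r := r) (m := m)
    (fun a _ => min 1 ((a : ℝ) / d)) (fun a _ => by positivity) (by
      intro a ha1 ha2
      rw [Finset.sum_const, Finset.card_univ, Fintype.card_fin, nsmul_eq_mul]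
      push_cast
      exact hnum a ha1 ha2) F hcont hFdeg (by
      intro e he hem s o ho
      rw [card_filter_ne_zero]
      refine Finset.sum_le_sum fun j _ => ?_
      by_cases h : o j = 0
      · rw [h, indN_zero]
        simp
      · rw [indN_of_ne h]
        obtain ⟨h1, h2⟩ := ho j
        have hxj : x j ≠ 0 := by
          intro hxj
          rw [hFx, hxj, zero_pow hd.ne', ordN_zero] at h1
          omega
        rw [hFx, ordN_pow hxj] at h1 h2
        have h3 : 1 ≤ ordN (x j) s := by
          by_contra hcon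
          have h4 : ordN (x j) s = 0 := by omega
          rw [h4, mul_zero] at h1
          omega
        have h4 : d ≤ e * o j := (Nat.le_mul_of_pos_right d h3).trans h2
        have h5 : (d : ℝ) ≤ e * o j := by exact_mod_cast h4
        have h6 : (1 : ℝ) ≤ o j := by exact_mod_cast Nat.one_le_iff_ne_zero.mpr h
        rcases le_total 1 ((e : ℝ) / d) with h7 | h7
        · rw [min_eq_left h7, one_mul]
          exact h6
        · rw [min_eq_right h7, div_mul_eq_mul_div, one_le_div hdR]
          exact h5) with ⟨u, P, huP⟩ | ⟨p, hp, hpm⟩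
  swap
  · right
    intro z a ha
    rw [← hFmap z a ha]
    exact hasRoot_of_pow_dvd hFdeg hp hpm (hcont z)
  left
  intro z w
  have hpow : ∀ z j, (x j : ℂ → ℂ) z ^ d = (u : ℂ → ℂ) z * P.eval (t j) := by
    intro z j
    have h1 := congrArg (fun f : EntFun => (f : ℂ → ℂ) z) (hFx j)
    have h2 : ((x j ^ d : EntFun) : ℂ → ℂ) z = (x j : ℂ → ℂ) z ^ d := rfl
    beta_reduce at h1
    rw [h2, evC_apply, huP, Polynomial.map_mul, map_C, ev_apply, Polynomial.map_map] at h1
    have h3 : (ev z).comp (algebraMap ℂ EntFun) = RingHom.id ℂ := by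
      ext c
      simp
    rw [h3, Polynomial.map_id, eval_mul, eval_C] at h1
    exact h1.symm
  have hu : ∀ z, (u : ℂ → ℂ) z ≠ 0 := by
    intro z hz
    obtain ⟨j, hj⟩ := h0 z
    have h1 := hpow z j
    rw [hz, zero_mul] at h1
    exact pow_ne_zero d hj h1
  obtain ⟨j₀, hj₀⟩ := h0 0
  have hlam0 : P.eval (t j₀) ≠ 0 := by
    intro h
    have h1 := hpow 0 j₀
    rw [h, mul_zero] at h1
    exact pow_ne_zero d hj₀ h1
  have hx0 : ∀ z, (x j₀ : ℂ → ℂ) z ≠ 0 := by
    intro z hz
    have h1 := hpow z j₀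
    rw [hz, zero_pow (by omega)] at h1
    exact mul_ne_zero (hu z) hlam0 h1.symm
  refine ⟨(x j₀ : ℂ → ℂ) z / (x j₀ : ℂ → ℂ) w, div_ne_zero (hx0 z) (hx0 w), fun j => ?_⟩
  have h1 := const_of_pow_const (h := fun z => (x j : ℂ → ℂ) z / (x j₀ : ℂ → ℂ) z) (d := d)
    (c := P.eval (t j) / P.eval (t j₀)) (fun z => ((x j).diff z).div ((x j₀).diff z) (hx0 z))
    (by omega) (fun z => by
      rw [div_pow, hpow, hpow]
      have := hu z
      field_simp) z w
  have h2 := hx0 z
  have h3 := hx0 w
  rw [div_eq_div_iff h2 h3] at h1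
  field_simp
  linear_combination h1

/-- **Lines.**  Through a point where the polynomial has a root of multiplicity at least `d` there
is a line in the diagonal complete intersection. -/
theorem exists_line {r N d : ℕ} (hd : 0 < d) (hrN : r ≤ N) {t : Fin (N + 1) → ℂ}
    (ht : Function.Injective t) {F : ℂ[X]} (hF0 : F ≠ 0) (hF : HasRoot d r F)
    {x : Fin (N + 1) → ℂ} (hx : ∀ j, x j ^ d = F.eval (t j)) :
    ∃ w : Fin (N + 1) → ℂ, (∀ α β : ℂ, (∀ j, α * x j + β * w j = 0) → α = 0 ∧ β = 0) ∧
      ∀ α β : ℂ, ∃ G : ℂ[X], G.natDegree ≤ r ∧ ∀ j, (α * x j + β * w j) ^ d = G.eval (t j) := by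
  classical
  obtain ⟨a, b, H, hab, hHdeg, hFH⟩ := hF
  have hH0 : H ≠ 0 := by
    rintro rfl
    exact hF0 (by rw [hFH, mul_zero])
  have hFe : ∀ s, F.eval s = (a + b * s) ^ d * H.eval s := by
    intro s
    rw [hFH]
    simp
  choose h hh1 hh2 using fun j => exists_root_factor (d := d) (n := 1) (x := x j)
    (L := a + b * t j) (c := H.eval (t j)) hd one_pos (by rw [hx, hFe, mul_one])
  obtain ⟨a', b', hind⟩ : ∃ a' b' : ℂ, ∀ α β : ℂ, α * a + β * a' = 0 → α * b + β * b' = 0 →
      α = 0 ∧ β = 0 := by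
    by_cases ha : a = 0
    · have hb : b ≠ 0 := by
        rcases hab with h | h
        · exact absurd ha h
        · exact h
      refine ⟨1, 0, fun α β h1 h2 => ?_⟩
      rw [ha, mul_zero, zero_add, mul_one] at h1
      rw [mul_zero, add_zero] at h2
      exact ⟨(mul_eq_zero.mp h2).resolve_right hb, h1⟩
    · refine ⟨0, 1, fun α β h1 h2 => ?_⟩
      rw [mul_zero, add_zero] at h1
      have h3 := (mul_eq_zero.mp h1).resolve_right ha
      rw [h3, zero_mul, zero_add, mul_one] at h2
      exact ⟨h3, h2⟩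
  refine ⟨fun j => (a' + b' * t j) * h j, ?_, ?_⟩
  · intro α β h1
    have h2 : (C (α * a + β * a') + C (α * b + β * b') * X : ℂ[X]) ^ d * H = 0 := by
      refine eq_zero_of_natDegree_lt_card_of_eval_eq_zero _ ht (fun j => ?_) ?_
      · have h3 := h1 j
        rw [hh2 j, pow_one] at h3
        have h4 : ((α * a + β * a') + (α * b + β * b') * t j) * h j = 0 := by
          linear_combination h3
        have h5 : (((α * a + β * a') + (α * b + β * b') * t j) * h j) ^ d = 0 := by
          rw [h4, zero_pow hd.ne']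
        rw [mul_pow, hh1] at h5
        simpa using h5
      · rw [Fintype.card_fin]
        have := natDegree_linear_pow_mul_le (a := α * a + β * a') (b := α * b + β * b') hHdeg
        omega
    have h3 := (pow_eq_zero_iff hd.ne').mp ((mul_eq_zero.mp h2).resolve_right hH0)
    have h4 := congrArg (fun p => coeff p 0) h3
    have h5 := congrArg (fun p => coeff p 1) h3
    simp only [coeff_add, coeff_C_zero, coeff_C_mul, coeff_X_zero, mul_zero, add_zero,
      coeff_zero] at h4
    simp only [coeff_add, coeff_C_mul, coeff_X_one, mul_one, coeff_zero,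
      coeff_C_succ, zero_add] at h5
    exact hind α β h4 h5
  · intro α β
    refine ⟨(C (α * a + β * a') + C (α * b + β * b') * X) ^ d * H,
      natDegree_linear_pow_mul_le hHdeg, fun j => ?_⟩
    rw [hh2 j, pow_one]
    have h3 : α * ((a + b * t j) * h j) + β * ((a' + b' * t j) * h j) =
        ((α * a + β * a') + (α * b + β * b') * t j) * h j := by ring
    rw [h3, mul_pow, hh1]
    simp

end Pool.Agent.H92.GGL
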