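import Pool.Agent.H92.GGL.Mult

/-!
# Polynomials over the entire functions whose values at many constants are powers
-/

open Polynomial Topology Filter

namespace Pool.Agent.H92.GGL

open Pool.Agent.H17 Pool.Agent.H17.EntFun Differential

/-- The numerical inequality. -/
lemma powers_numerics {n r d b β e ρ : ℕ} (hcard : 2 * r * d < n * (d - 1)) (hβ : β ≤ b)
    (hβn : β ≤ n) (he : 0 < e) (hρ : 0 < ρ) (hdeg : ρ + e + b ≤ r + 1) (hd : r < d ∨ e = 1)
    (hd2 : 2 ≤ d) : (n - β) * e + 2 * ρ * d < (n - β) * d := by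
  obtain ⟨D, rfl⟩ : ∃ D, d = D + 1 := ⟨d - 1, by omega⟩
  obtain ⟨n', rfl⟩ : ∃ n', n = n' + β := ⟨n - β, by omega⟩
  obtain ⟨r', rfl⟩ : ∃ r', r = r' + b := ⟨r - b, by omega⟩
  obtain ⟨E, rfl⟩ : ∃ E, e = E + 1 := ⟨e - 1, by omega⟩
  have h1 : n' + β - β = n' := by omega
  rw [h1]
  simp only [Nat.add_sub_cancel] at hcard
  have h2 : ρ + E ≤ r' := by omega
  have hD : 1 ≤ D := by omega
  -- the reduced inequality
  have h3 : 2 * r' * (D + 1) < n' * D := by
    have h4 : β * D ≤ b * D := Nat.mul_le_mul_right _ hβ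
    nlinarith
  have hED : E < D := by
    rcases hd with h | h
    · omega
    · omega
  have h5 : E * r' ≤ E * D := by
    rcases hd with h | h
    · exact Nat.mul_le_mul_left _ (by omega)
    · have : E = 0 := by omega
      rw [this]; simp
  obtain ⟨δ, rfl⟩ : ∃ δ, D = E + δ := ⟨D - E, by omega⟩
  have hδ : 0 < δ := by omega
  have h6 : 2 * r' * (E + δ + 1) * δ < n' * (E + δ) * δ := Nat.mul_lt_mul_of_pos_right h3 hδ
  have h7 : ρ * (E + δ) ≤ r' * δ := by
    have h8 : ρ * (E + δ) + E * (E + δ) ≤ r' * (E + δ) := by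
      rw [← Nat.add_mul]
      exact Nat.mul_le_mul_right _ h2
    have h9 : r' * (E + δ) = r' * δ + E * r' := by ring
    omega
  have h10 : 2 * ρ * (E + δ + 1) < n' * δ := by
    have h11 : (2 * ρ * (E + δ + 1)) * (E + δ) < (n' * δ) * (E + δ) := by
      calc (2 * ρ * (E + δ + 1)) * (E + δ) = 2 * (E + δ + 1) * (ρ * (E + δ)) := by ring
        _ ≤ 2 * (E + δ + 1) * (r' * δ) := Nat.mul_le_mul_left _ h7
        _ = 2 * r' * (E + δ + 1) * δ := by ring
        _ < n' * (E + δ) * δ := h6
        _ = _ := by ring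
    exact lt_of_mul_lt_mul_right h11 (Nat.zero_le _)
  calc n' * (E + 1) + 2 * ρ * (E + δ + 1) < n' * (E + 1) + n' * δ := by omega
    _ = n' * (E + δ + 1) := by ring

/-- If the value of `F` at many constants is a `d`-th power and either `d` is larger than the
degree or `F` is squarefree, then the zeros of `F` are constant. -/
theorem eq_C_mul_map_of_powers (K : Type) [Field K] [Algebra EntFun K] [IsFractionRing EntFun K]
    {ι : Type} [Fintype ι] (t : ι → ℂ) (ht : Function.Injective t) {r d : ℕ} (hd : 2 ≤ d)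
    (hcard : 2 * r * d < Fintype.card ι * (d - 1)) (F : EntFun[X])
    (hF : F ≠ 0) (hn : F.natDegree ≤ r) (x : ι → EntFun) (hx : ∀ i, evC (t i) F = x i ^ d)
    (h : r < d ∨ ∀ p : K[X], Irreducible p → ¬ p ^ 2 ∣ toK K F) :
    ∃ (u : EntFun) (P : ℂ[X]), F = C u * P.map (algebraMap ℂ EntFun) := by
  classical
  rcases moving_part K t ht F hF with h1 | ⟨R, e, b, he, hρ, hb, hdeg, hres, hval, ⟨p, hp, hpe⟩,
    hloc⟩
  · exact h1
  exfalso
  apply hres
  set B : Finset ι := Finset.univ.filter (fun i => evC (t i) F = 0) with hB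
  have hBb : B.card ≤ b := hb B fun i hi => (Finset.mem_filter.mp hi).2
  have hBn : B.card ≤ Fintype.card ι := Finset.card_le_univ B
  have hcard' : Fintype.card {i // evC (t i) F ≠ 0} = Fintype.card ι - B.card := by
    rw [Fintype.card_subtype_compl, Fintype.card_subtype]
  have hde : r < d ∨ e = 1 := by
    rcases h with h | h
    · exact Or.inl h
    · right
      by_contra he1
      exact h p hp ((pow_dvd_pow p (by omega : 2 ≤ e)).trans hpe)
  have hnum := powers_numerics hcard hBb hBn he hρ (by omega : R.natDegree + e + b ≤ r + 1) hde hd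
  have hrn : r < Fintype.card ι := by
    by_contra hcon
    push Not at hcon
    have : Fintype.card ι * (d - 1) ≤ 2 * r * d := Nat.mul_le_mul (by omega) (by omega)
    omega
  have hne : Nonempty {i // evC (t i) F ≠ 0} := by
    apply Fintype.card_pos_iff.mp
    rw [hcard']
    by_contra hcon
    have : Fintype.card ι - B.card = 0 := by omega
    rw [this] at hnum
    omega
  have hdpos : (0 : ℝ) < d := by exact_mod_cast (by omega : 0 < d)
  refine resultant_eq_zero_of_weights (fun i : {i // evC (t i) F ≠ 0} => t i.1)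
    (fun i j h => Subtype.ext (ht h)) hρ (fun _ => (e : ℝ) / d) (fun _ => by positivity) ?_ R le_rfl
    (fun i => hval _ i.2) ?_
  · -- the numerical condition
    rw [Finset.sum_const, Finset.card_univ, nsmul_eq_mul, hcard']
    have h2 : ((Fintype.card ι - B.card : ℕ) : ℝ) * e + 2 * R.natDegree * d <
        ((Fintype.card ι - B.card : ℕ) : ℝ) * d := by exact_mod_cast hnum
    have h3 : ((Fintype.card ι - B.card : ℕ) : ℝ) * ((e : ℝ) / d) + 2 * R.natDegree =
        (((Fintype.card ι - B.card : ℕ) : ℝ) * e + 2 * R.natDegree * d) / d := by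
      field_simp
    rw [h3, div_lt_iff₀ hdpos]
    exact h2
  · -- the local condition
    intro s
    obtain ⟨c, cF, G, G', hRG, hG0, hFG, hG'0, hord⟩ := hloc s
    -- the power condition for the content
    have hcF : d ∣ cF := by
      obtain ⟨i₀, hi₀⟩ : ∃ i₀, (G'.map (ev s)).eval (t i₀) ≠ 0 := by
        by_contra h
        push Not at h
        apply hG'0
        apply eq_zero_of_natDegree_lt_card_of_eval_eq_zero _ ht h
        have hGdeg : G'.natDegree ≤ r := by
          have h1 : F.natDegree = G'.natDegree := by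
            rw [hFG, natDegree_C_mul (pow_ne_zero _ (coord_ne_zero s))]
          omega
        have := (natDegree_map_le (f := ev s) (p := G')).trans hGdeg
        omega
      have h1 : evC (t i₀) F = coord s ^ cF * evC (t i₀) G' := by
        rw [hFG, evC_mul, evC_C]
      rw [hx] at h1
      have h2 := congrArg (fun f : EntFun => analyticOrderAt (f : ℂ → ℂ) s) h1
      simp only [order_mul, order_pow, order_coord, mul_one] at h2
      rw [(order_eq_zero_iff (evC (t i₀) G') s).mpr (by rw [evC_apply]; exact hi₀), add_zero] at h2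
      have h3 : analyticOrderAt ((x i₀ : EntFun) : ℂ → ℂ) s ≠ ⊤ := by
        intro h
        rw [h] at h2
        rw [ENat.mul_top (by exact_mod_cast (by omega : d ≠ 0))] at h2
        exact ENat.natCast_ne_top _ h2.symm
      obtain ⟨N, hN⟩ := ENat.ne_top_iff_exists.mp h3
      rw [← hN] at h2
      exact ⟨N, by exact_mod_cast h2.symm⟩
    choose o o' ho ho' hoo' ho'o using fun i : {i // evC (t i) F ≠ 0} => hord (t i.1) i.2
    refine ⟨c, G, o, hRG, hG0, ho, ?_⟩
    have key : ∀ i, o i ≠ 0 → d ≤ e * o i := by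
      rintro ⟨i, hi⟩ hoi
      have h1 : evC (t i) F = coord s ^ cF * evC (t i) G' := by
        rw [hFG, evC_mul, evC_C]
      rw [hx] at h1
      have h2 := congrArg (fun f : EntFun => analyticOrderAt (f : ℂ → ℂ) s) h1
      simp only [order_mul, order_pow, order_coord, mul_one] at h2
      rw [ho' ⟨i, hi⟩] at h2
      have hxne : x i ≠ 0 := by
        intro h0
        apply hi
        rw [hx, h0, zero_pow (by omega)]
      obtain ⟨N, hN⟩ := ENat.ne_top_iff_exists.mp (order_ne_top hxne s)
      rw [← hN] at h2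
      have h5 : d * N = cF + o' ⟨i, hi⟩ := by exact_mod_cast h2
      have h6 : d ∣ o' ⟨i, hi⟩ := (Nat.dvd_add_right hcF).mp ⟨N, h5.symm⟩
      have h7 := hoo' ⟨i, hi⟩
      have h8 := ho'o ⟨i, hi⟩
      exact (Nat.le_of_dvd (by omega) h6).trans h8
    rw [Finset.card_eq_sum_ones, Nat.cast_sum, Finset.sum_filter]
    refine Finset.sum_le_sum fun i _ => ?_
    split_ifs with hoi
    · have h9 : (d : ℝ) ≤ e * o i := by exact_mod_cast key i hoi
      have h10 : (e : ℝ) / d * o i = (e * o i) / d := by ring
      rw [h10, Nat.cast_one, one_le_div hdpos]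
      exact h9
    · positivity

end Pool.Agent.H92.GGL
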