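import Pool.Agent.H17.Fermat
import Pool.Agent.H92.GGL.Powers

/-!
# Diagonal complete intersections attached to points of a rational normal curve

Arbitrary distinct nodes `t 0, …, t N`.
-/

open Polynomial

namespace Pool.Agent.H92.GGL

open Pool.Agent.H17

lemma polyOf_eval {A : Type*} [CommRing A] {n : ℕ} (a : Fin (n + 1) → A) (x : A) :
    (polyOf a).eval x = ∑ k : Fin (n + 1), a k * x ^ (k : ℕ) := by
  unfold polyOf
  rw [eval_finsetSum]
  exact Finset.sum_congr rfl fun k _ => by rw [eval_monomial]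

/-- The polynomial of degree at most `n` with given coefficients. -/
lemma polyOf_coeff_eq {F : ℂ[X]} {n : ℕ} (hF : F.natDegree ≤ n) :
    polyOf (fun k : Fin (n + 1) => F.coeff k) = F := by
  ext k
  by_cases hk : k < n + 1
  · exact polyOf_coeff (fun k : Fin (n + 1) => F.coeff k) ⟨k, hk⟩
  · rw [Polynomial.coeff_eq_zero_of_natDegree_lt, Polynomial.coeff_eq_zero_of_natDegree_lt]
    · omega
    · have := natDegree_polyOf (fun k : Fin (n + 1) => F.coeff k)
      omega

/-- The values at the nodes of the polynomial with given coefficients. -/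
noncomputable def evMap (n : ℕ) {N : ℕ} (t : Fin (N + 1) → ℂ) :
    (Fin (n + 1) → ℂ) →ₗ[ℂ] (Fin (N + 1) → ℂ) where
  toFun a := fun j => (polyOf a).eval (t j)
  map_add' a b := by
    funext j
    simp only [polyOf_eval, Pi.add_apply, add_mul, Finset.sum_add_distrib]
  map_smul' c a := by
    funext j
    simp only [polyOf_eval, Pi.smul_apply, smul_eq_mul, RingHom.id_apply, Finset.mul_sum, mul_assoc]

lemma evMap_apply (n : ℕ) {N : ℕ} (t : Fin (N + 1) → ℂ) (a : Fin (n + 1) → ℂ) (j : Fin (N + 1)) :
    evMap n t a j = (polyOf a).eval (t j) := rfl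

/-- General position. -/
lemma evMap_general_position {n N : ℕ} {t : Fin (N + 1) → ℂ} (ht : Function.Injective t)
    {a : Fin (n + 1) → ℂ} {J : Finset (Fin (N + 1))}
    (hJ : n + 1 ≤ J.card) (h : ∀ j ∈ J, evMap n t a j = 0) : a = 0 := by
  classical
  have h1 : polyOf a = 0 := by
    refine eq_zero_of_natDegree_lt_card_of_eval_eq_zero' _ (J.image t) ?_ ?_
    · intro x hx
      obtain ⟨i, hi, rfl⟩ := Finset.mem_image.mp hx
      exact h i hi
    · rw [Finset.card_image_of_injective _ ht]
      have := natDegree_polyOf a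
      omega
  funext k
  rw [← polyOf_coeff a k, h1]
  simp

lemma evMap_injective {n N : ℕ} {t : Fin (N + 1) → ℂ} (ht : Function.Injective t) (hnN : n ≤ N) :
    Function.Injective (evMap n t) := by
  rw [← LinearMap.ker_eq_bot, LinearMap.ker_eq_bot']
  intro a ha
  refine evMap_general_position ht (J := (Finset.univ : Finset (Fin (N + 1)))) ?_ ?_
  · rw [Finset.card_univ, Fintype.card_fin]
    omega
  · intro j _
    rw [ha]
    rfl

/-- The relations between the values. -/
lemma exists_relations' {n N : ℕ} {t : Fin (N + 1) → ℂ} (ht : Function.Injective t) (hnN : n ≤ N) :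
    ∃ c : Fin (N - n) → Fin (N + 1) → ℂ,
      (∀ α : Fin (N - n) → ℂ, (∀ j, ∑ l, α l * c l j = 0) → α = 0) ∧
      ∀ w : Fin (N + 1) → ℂ, (∀ l, ∑ j, c l j * w j = 0) ↔ ∃ a, evMap n t a = w := by
  classical
  set W := LinearMap.range (evMap n t) with hW
  have hWdim : Module.finrank ℂ W = n + 1 := by
    rw [hW, LinearMap.finrank_range_of_inj (evMap_injective ht hnN)]
    simp
  have hQdim : Module.finrank ℂ ((Fin (N + 1) → ℂ) ⧸ W) = Module.finrank ℂ (Fin (N - n) → ℂ) := by
    have h1 := Submodule.finrank_quotient_add_finrank W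
    rw [hWdim, Module.finrank_fin_fun] at h1
    rw [Module.finrank_fin_fun]
    omega
  set e : ((Fin (N + 1) → ℂ) ⧸ W) ≃ₗ[ℂ] (Fin (N - n) → ℂ) := LinearEquiv.ofFinrankEq _ _ hQdim
  set π : (Fin (N + 1) → ℂ) →ₗ[ℂ] (Fin (N - n) → ℂ) := e.toLinearMap ∘ₗ W.mkQ with hπ
  have hπs : Function.Surjective π := e.surjective.comp W.mkQ_surjective
  have hπk : ∀ w, π w = 0 ↔ w ∈ W := by
    intro w
    rw [hπ]
    simp
  have hexp : ∀ w l, π w l = ∑ j, π (Pi.single j 1) l * w j := by
    intro w l
    have h1 : w = ∑ j, w j • (Pi.single j (1 : ℂ) : Fin (N + 1) → ℂ) := by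
      conv_lhs => rw [← Finset.univ_sum_single w]
      refine Finset.sum_congr rfl fun j _ => ?_
      rw [← Pi.single_smul, smul_eq_mul, mul_one]
    conv_lhs => rw [h1]
    rw [map_sum, Finset.sum_apply]
    refine Finset.sum_congr rfl fun j _ => ?_
    rw [map_smul, Pi.smul_apply, smul_eq_mul, mul_comm]
  refine ⟨fun l j => π (Pi.single j 1) l, ?_, ?_⟩
  · intro α hα
    have h1 : ∀ w, ∑ l, α l * π w l = 0 := by
      intro w
      simp_rw [hexp w, Finset.mul_sum]
      rw [Finset.sum_comm]
      apply Finset.sum_eq_zero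
      intro j _
      have : ∑ l, α l * (π (Pi.single j 1) l * w j) = (∑ l, α l * π (Pi.single j 1) l) * w j := by
        rw [Finset.sum_mul]
        exact Finset.sum_congr rfl fun l _ => by ring
      rw [this, hα, zero_mul]
    funext l₀
    obtain ⟨w, hw⟩ := hπs (Pi.single l₀ 1)
    have h2 := h1 w
    rw [hw] at h2
    simpa [Pi.single_apply] using h2
  · intro w
    have h1 : (∀ l, ∑ j, π (Pi.single j 1) l * w j = 0) ↔ π w = 0 := by
      constructor
      · intro h
        funext l
        rw [hexp, h]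
        rfl
      · intro h l
        rw [← hexp, h]
        rfl
    rw [h1, hπk, hW, LinearMap.mem_range]

/-- The Jacobian criterion for the diagonal complete intersection. -/
lemma diag_smooth {n N d : ℕ} {t : Fin (N + 1) → ℂ} (ht : Function.Injective t) (hnN : n ≤ N)
    (hd : 0 < d) {c : Fin (N - n) → Fin (N + 1) → ℂ}
    (hc1 : ∀ α : Fin (N - n) → ℂ, (∀ j, ∑ l, α l * c l j = 0) → α = 0)
    (hc2 : ∀ w : Fin (N + 1) → ℂ, (∀ l, ∑ j, c l j * w j = 0) ↔ ∃ a, evMap n t a = w)
    {x : Fin (N + 1) → ℂ} (hx : x ≠ 0) (hxX : ∀ l, ∑ j, c l j * x j ^ d = 0)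
    (α : Fin (N - n) → ℂ) (hα : ∀ j, ∑ l, α l * (c l j * x j ^ (d - 1)) = 0) : α = 0 := by
  classical
  obtain ⟨a, ha⟩ := (hc2 fun j => x j ^ d).mp hxX
  have ha' : ∀ j, evMap n t a j = x j ^ d := fun j => congrFun ha j
  have ha0 : a ≠ 0 := by
    rintro rfl
    apply hx
    funext j
    have := ha' j
    rw [map_zero, Pi.zero_apply] at this
    exact pow_eq_zero_iff hd.ne' |>.mp this.symm
  set Z : Finset (Fin (N + 1)) := Finset.univ.filter fun j => x j = 0 with hZ
  have hZcard : Z.card ≤ n := by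
    by_contra h
    push Not at h
    exact ha0 (evMap_general_position ht h fun j hj => by
      rw [ha' j, (Finset.mem_filter.mp hj).2, zero_pow hd.ne'])
  set v : Fin (N + 1) → ℂ := fun j => ∑ l, α l * c l j with hv
  have hvZ : ∀ j, j ∉ Z → v j = 0 := by
    intro j hj
    have hxj : x j ≠ 0 := fun h => hj (Finset.mem_filter.mpr ⟨Finset.mem_univ _, h⟩)
    have h1 := hα j
    have h2 : ∑ l, α l * (c l j * x j ^ (d - 1)) = v j * x j ^ (d - 1) := by
      rw [hv, Finset.sum_mul]
      exact Finset.sum_congr rfl fun l _ => by ring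
    rw [h2] at h1
    exact (mul_eq_zero.mp h1).resolve_right (pow_ne_zero _ hxj)
  have hvorth : ∀ b, ∑ j, v j * evMap n t b j = 0 := by
    intro b
    have h1 := (hc2 (evMap n t b)).mpr ⟨b, rfl⟩
    simp only [hv, Finset.sum_mul]
    rw [Finset.sum_comm]
    apply Finset.sum_eq_zero
    intro l _
    have : ∑ j, α l * c l j * evMap n t b j = α l * ∑ j, c l j * evMap n t b j := by
      rw [Finset.mul_sum]
      exact Finset.sum_congr rfl fun j _ => by ring
    rw [this, h1, mul_zero]
  apply hc1
  intro j₀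
  change v j₀ = 0
  by_cases hj₀ : j₀ ∈ Z
  · obtain ⟨Z', hZZ', hZ'card⟩ := Finset.exists_superset_card_eq (s := Z) (n := n + 1)
      (by omega) (by rw [Fintype.card_fin]; omega)
    -- a polynomial with prescribed values on `Z'`
    set ρ : (Fin (n + 1) → ℂ) →ₗ[ℂ] (Z' → ℂ) :=
      { toFun := fun b j => evMap n t b j
        map_add' := fun b b' => by funext j; simp
        map_smul' := fun r b => by funext j; simp } with hρ
    have hρinj : Function.Injective ρ := by
      rw [← LinearMap.ker_eq_bot, LinearMap.ker_eq_bot']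
      intro b hb
      exact evMap_general_position ht (J := Z') hZ'card.ge fun j hj =>
        congrFun hb ⟨j, hj⟩
    have hρsurj : Function.Surjective ρ := by
      rw [← LinearMap.injective_iff_surjective_of_finrank_eq_finrank]
      · exact hρinj
      · rw [Module.finrank_fin_fun, Module.finrank_fintype_fun_eq_card, Fintype.card_coe, hZ'card]
    obtain ⟨b, hb⟩ := hρsurj (Pi.single ⟨j₀, hZZ' hj₀⟩ 1)
    have hb' : ∀ j ∈ Z', evMap n t b j = if j = j₀ then 1 else 0 := by
      intro j hj
      have h1 := congrFun hb ⟨j, hj⟩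
      rw [Pi.single_apply] at h1
      simp only [Subtype.mk.injEq] at h1
      exact h1
    have h1 := hvorth b
    rw [Finset.sum_eq_single j₀] at h1
    · rw [hb' j₀ (hZZ' hj₀), if_pos rfl, mul_one] at h1
      exact h1
    · intro j _ hj
      by_cases hjZ : j ∈ Z
      · rw [hb' j (hZZ' hjZ), if_neg hj, mul_zero]
      · rw [hvZ j hjZ, zero_mul]
    · intro h
      exact absurd (Finset.mem_univ _) h
  · exact hvZ j₀ hj₀

end Pool.Agent.H92.GGL
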