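import Pool.Agent.H92.GGL.Diag

/-!
# Discriminants
-/

open Polynomial

namespace Pool.Agent.H92.GGL

open Pool.Agent.H17 Pool.Agent.H17.EntFun

/-- The resultant of a polynomial of degree at most `n` and its derivative. -/
noncomputable def discN {A : Type*} [CommRing A] (n : ℕ) (F : A[X]) : A :=
  resultant F (derivative F) n (n - 1)

lemma discN_map {A B : Type*} [CommRing A] [CommRing B] (φ : A →+* B) (n : ℕ) (F : A[X]) :
    discN n (F.map φ) = φ (discN n F) := by
  unfold discN
  rw [derivative_map, resultant_map_map]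

/-- If the discriminant does not vanish there is no multiple factor. -/
lemma not_sq_dvd_of_discN_ne_zero {K : Type*} [Field K] {n : ℕ} (hn : 0 < n) {F : K[X]}
    (hF : F.natDegree ≤ n) (h : discN n F ≠ 0) {p : K[X]} (hp : Irreducible p) : ¬ p ^ 2 ∣ F := by
  intro hpF
  obtain ⟨Q, hQ⟩ := hpF
  have h1 : (derivative F).natDegree ≤ n - 1 :=
    (natDegree_derivative_le F).trans (Nat.sub_le_sub_right hF 1)
  obtain ⟨a, b, -, -, hab⟩ := exists_mul_add_mul_eq_C_resultant F (derivative F) hF h1
    (Or.inl hn.ne')
  have h2 : p ∣ F := ⟨p * Q, by rw [hQ]; ring⟩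
  have h3 : p ∣ derivative F := by
    rw [hQ, derivative_mul, derivative_pow]
    refine dvd_add (Dvd.dvd.mul_right ?_ _) (Dvd.dvd.mul_right (dvd_pow_self p two_ne_zero) _)
    refine Dvd.dvd.mul_right (Dvd.dvd.mul_left ?_ _) _
    simp
  have h4 : p ∣ C (resultant F (derivative F) n (n - 1)) := by
    rw [← hab]
    exact dvd_add (Dvd.dvd.mul_right h2 _) (Dvd.dvd.mul_right h3 _)
  exact hp.not_isUnit (isUnit_of_dvd_unit h4 (isUnit_C.mpr (isUnit_iff_ne_zero.mpr h)))

/-- The discriminant of a complex polynomial. -/
lemma discN_ne_zero_iff {n : ℕ} (hn : 0 < n) {P : ℂ[X]} (hP : P.natDegree ≤ n) :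
    discN n P ≠ 0 ↔ P.natDegree = n ∧ Squarefree P := by
  constructor
  · intro h
    constructor
    · by_contra hne
      have h1 : P.natDegree ≤ n - 1 := by omega
      apply h
      unfold discN
      obtain ⟨m, rfl⟩ : ∃ m, n = m + 1 := ⟨n - 1, by omega⟩
      rw [Nat.add_sub_cancel] at h1 ⊢
      rw [resultant_succ_left_deg _ _ _ _ h1, coeff_derivative,
        coeff_eq_zero_of_natDegree_lt (by omega)]
      simp
    · intro x hx
      by_contra hxu
      have hP0 : P ≠ 0 := by
        rintro rfl
        apply h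
        unfold discN
        rw [derivative_zero, resultant_zero_zero, zero_pow (by omega)]
      have hx0 : x ≠ 0 := by
        rintro rfl
        rw [mul_zero, zero_dvd_iff] at hx
        exact hP0 hx
      obtain ⟨p, hp, hpx⟩ := WfDvdMonoid.exists_irreducible_factor hxu hx0
      refine not_sq_dvd_of_discN_ne_zero hn hP h hp ?_
      rw [sq]
      exact (mul_dvd_mul hpx hpx).trans hx
  · rintro ⟨h1, h2⟩
    have h3 : P.Separable := PerfectField.separable_iff_squarefree.mpr h2
    have h4 := resultant_ne_zero P (derivative P) h3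
    unfold discN
    rw [h1] at h4
    have h5 : (derivative P).natDegree = n - 1 := by
      rw [natDegree_derivative, h1]
    rw [h5] at h4
    exact h4

/-- The discriminant of a family of forms is a form. -/
lemma discN_isHomogeneous {σ : Type*} {d n : ℕ} {F : (MvPolynomial σ ℂ)[X]}
    (hF : ∀ k, (F.coeff k).IsHomogeneous d) :
    (discN n F).IsHomogeneous ((n + (n - 1)) * d) := by
  unfold discN resultant
  rw [Matrix.det_apply]
  refine MvPolynomial.IsHomogeneous.sum _ _ _ fun σ _ => ?_
  have h1 : (∏ i, sylvester F (derivative F) n (n - 1) (σ i) i).IsHomogeneous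
      (∑ _i : Fin (n + (n - 1)), d) := by
    refine MvPolynomial.IsHomogeneous.prod _ _ _ fun i _ => ?_
    unfold sylvester
    rw [Matrix.of_apply]
    induction i using Fin.addCases with
    | left i =>
      rw [Fin.addCases_left]
      split_ifs
      · rw [coeff_derivative]
        have h2 := (hF (((σ (Fin.castAdd (n - 1) i) : Fin (n + (n - 1))) : ℕ) - (i : ℕ) + 1)).mul
          (MvPolynomial.isHomogeneous_C _
            ((((((σ (Fin.castAdd (n - 1) i) : Fin (n + (n - 1))) : ℕ) - (i : ℕ) : ℕ) : ℂ) + 1)))
        rw [add_zero] at h2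
        simpa using h2
      · exact MvPolynomial.isHomogeneous_zero _ _ _
    | right i =>
      rw [Fin.addCases_right]
      split_ifs
      · exact hF _
      · exact MvPolynomial.isHomogeneous_zero _ _ _
  rw [Finset.sum_const, Finset.card_univ, Fintype.card_fin, smul_eq_mul] at h1
  rcases Int.units_eq_one_or (Equiv.Perm.sign σ) with h | h
  · rw [h, one_smul]
    exact h1
  · rw [h, Units.neg_smul, one_smul]
    exact h1.neg

end Pool.Agent.H92.GGL
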