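import Pool.Agent.H17.ResultantBound

/-!
# A bound for the resultant by the values at many nodes, with real exponents
-/

open Polynomial

namespace Pool.Agent.H92.GGL

open Pool.Agent.H17

variable {ι : Type} [Fintype ι]

/-- **The resultant bound.** -/
theorem resultant_bound_rpow [DecidableEq ι] [Nonempty ι] (t : ι → ℂ)
    (ht : Function.Injective t) {ρ : ℕ} {κ : ℝ} (hκ0 : 0 < κ) (hκ2 : κ < 2)
    (hcard : 2 * ρ ≤ Fintype.card ι) :
    ∃ C : ℝ, 0 ≤ C ∧ ∀ P Q : ℂ[X], P.natDegree ≤ ρ → Q.natDegree ≤ ρ →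
      (∀ i, P.eval (t i) ≠ 0) →
      ‖resultant P Q ρ ρ‖ ^ 2 * (∑ i, ‖P.eval (t i)‖ ^ κ) ^
          (((2 - κ) * Fintype.card ι - 4 * ρ) / κ) ≤
        C * (∏ i, ‖P.eval (t i)‖ ^ (2 - κ)) *
          wVar (fun i => ‖P.eval (t i)‖ ^ κ) (fun i => Q.eval (t i) / P.eval (t i)) ^ ρ := by
  classical
  obtain ⟨c, hc0, hc1, hc⟩ := exists_small_card_le t ht ρ
  set n : ℕ := Fintype.card ι with hn
  have hnpos : 0 < n := Fintype.card_pos
  -- constants
  obtain ⟨D, hD1, hD⟩ : ∃ D : ℝ, 1 ≤ D ∧ ∀ e : Fin (ρ + ρ) → ι,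
      (‖(Matrix.vandermonde (fun k => t (e k))).det‖ ^ 2)⁻¹ ≤ D := by
    obtain ⟨B, hB⟩ := (Set.finite_range (fun e : Fin (ρ + ρ) → ι =>
      (‖(Matrix.vandermonde (fun k => t (e k))).det‖ ^ 2)⁻¹)).bddAbove
    exact ⟨max 1 B, le_max_left _ _, fun e => le_trans (hB ⟨e, rfl⟩) (le_max_right _ _)⟩
  obtain ⟨T, hT1, hT⟩ : ∃ T : ℝ, 1 ≤ T ∧ ∀ (i : ι) (j : Fin ρ), ‖t i ^ (j : ℕ)‖ ≤ T := by
    obtain ⟨B, hB⟩ := (Set.finite_range (fun q : ι × Fin ρ => ‖t q.1 ^ (q.2 : ℕ)‖)).bddAbove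
    exact ⟨max 1 B, le_max_left _ _, fun i j => le_trans (hB ⟨(i, j), rfl⟩) (le_max_right _ _)⟩
  set K : ℝ := ((ρ + ρ).factorial : ℝ) * T ^ (ρ + ρ) with hK
  set E : ℝ := (2 - κ) * ((n : ℝ) - 2 * ρ) with hE
  have hEnn : 0 ≤ E := by
    have h1 : (2 * ρ : ℝ) ≤ n := by exact_mod_cast hcard
    have h2 : 0 ≤ (n : ℝ) - 2 * ρ := by linarith
    have h3 : 0 ≤ 2 - κ := by linarith
    positivity
  refine ⟨D * K ^ 2 * (c ^ E)⁻¹ * (n : ℝ) ^ (E / κ), by positivity, ?_⟩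
  intro P Q hP hQ hne
  obtain ⟨i₀⟩ := ‹Nonempty ι›
  set p : ι → ℝ := fun i => ‖P.eval (t i)‖ with hp
  set w : ι → ℝ := fun i => p i ^ κ with hw
  set x : ι → ℂ := fun i => Q.eval (t i) / P.eval (t i) with hx
  set U : ℝ := ∑ i, w i with hU
  have hppos : ∀ i, 0 < p i := fun i => norm_pos_iff.mpr (hne i)
  have hwpos : ∀ i, 0 < w i := fun i => Real.rpow_pos_of_pos (hppos i) _
  have hUpos : 0 < U := Finset.sum_pos (fun i _ => hwpos i) ⟨i₀, Finset.mem_univ _⟩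
  obtain ⟨ℓ, hℓ⟩ := exists_center w x (fun i => (hwpos i).le) hUpos
  set V : ℝ := wVar w x with hV
  have hVnn : 0 ≤ V := wVar_nonneg x (fun i => (hwpos i).le) hUpos
  set M : ℝ := ∑ i, p i with hM
  have hMpos : 0 < M := Finset.sum_pos (fun i _ => hppos i) ⟨i₀, Finset.mem_univ _⟩
  have hpM : ∀ i, p i ≤ M := fun i =>
    Finset.single_le_sum (f := p) (fun i _ => (hppos i).le) (Finset.mem_univ i)
  have hUM : U ≤ n * M ^ κ := by
    calc U ≤ ∑ _i : ι, M ^ κ := Finset.sum_le_sum fun i _ =>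
          Real.rpow_le_rpow (hppos i).le (hpM i) hκ0.le
      _ = n * M ^ κ := by rw [Finset.sum_const, Finset.card_univ, nsmul_eq_mul]
  -- the new second polynomial
  set Q' : ℂ[X] := Q + P * C (-ℓ) with hQ'
  have hQ'deg : Q'.natDegree ≤ ρ := by
    refine (natDegree_add_le _ _).trans (max_le hQ ?_)
    refine (natDegree_mul_le).trans ?_
    rw [natDegree_C, add_zero]
    exact hP
  have hres : resultant P Q' ρ ρ = resultant P Q ρ ρ := by
    rw [hQ']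
    apply resultant_add_mul_right
    · rw [natDegree_C, zero_add]
    · exact hP
  have hQ'eval : ∀ i, Q'.eval (t i) = P.eval (t i) * (x i - ℓ) := by
    intro i
    have : P.eval (t i) * x i = Q.eval (t i) := by
      simp only [hx]
      rw [mul_div_cancel₀ _ (hne i)]
    rw [hQ', eval_add, eval_mul, eval_C, mul_sub, this]
    ring
  have hsqw : ∀ i, Real.sqrt (w i) = p i ^ (κ / 2) := fun i => by
    rw [Real.sqrt_eq_rpow, hw, ← Real.rpow_mul (hppos i).le]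
    congr 1
    ring
  have hsplit : ∀ i, p i = p i ^ (1 - κ / 2) * Real.sqrt (w i) := fun i => by
    rw [hsqw, ← Real.rpow_add (hppos i)]
    simp
  have hw2 : ∀ i, p i ≤ p i ^ (1 - κ / 2) * Real.sqrt U := by
    intro i
    have h1 : w i ≤ U := Finset.single_le_sum (f := w) (fun i _ => (hwpos i).le) (Finset.mem_univ i)
    calc p i = p i ^ (1 - κ / 2) * Real.sqrt (w i) := hsplit i
      _ ≤ _ := by
        have := Real.rpow_nonneg (hppos i).le (1 - κ / 2)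
        gcongr
  have hq2 : ∀ i, ‖Q'.eval (t i)‖ ≤ p i ^ (1 - κ / 2) * Real.sqrt (U * V) := by
    intro i
    rw [hQ'eval, norm_mul]
    have h1 : Real.sqrt (w i) * ‖x i - ℓ‖ ≤ Real.sqrt (U * V) := by
      apply Real.le_sqrt_of_sq_le
      rw [mul_pow, Real.sq_sqrt (hwpos i).le]
      exact hℓ i
    calc ‖P.eval (t i)‖ * ‖x i - ℓ‖
        = p i ^ (1 - κ / 2) * (Real.sqrt (w i) * ‖x i - ℓ‖) := by
          rw [← mul_assoc, ← hsplit i]
      _ ≤ _ := by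
        have := Real.rpow_nonneg (hppos i).le (1 - κ / 2)
        gcongr
  -- the choice of the nodes
  obtain ⟨I, hIsub, hIcard⟩ : ∃ I : Finset ι,
      (Finset.univ.filter fun i => ‖P.eval (t i)‖ < c * ∑ j, ‖P.eval (t j)‖) ⊆ I ∧
        I.card = ρ + ρ := by
    have h1 := hc P hP ⟨i₀, hne i₀⟩
    obtain ⟨I, h2, h3⟩ := Finset.exists_superset_card_eq (n := ρ + ρ) (h1.trans (by omega))
      (by omega)
    exact ⟨I, h2, h3⟩
  set e : Fin (ρ + ρ) → ι := fun k => ((I.equivFinOfCardEq hIcard).symm k : ι) with he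
  have heinj : Function.Injective e := by
    intro k l hkl
    exact (I.equivFinOfCardEq hIcard).symm.injective (Subtype.ext hkl)
  have hVdM : (Matrix.vandermonde (fun k => t (e k))).det ≠ 0 :=
    Matrix.det_vandermonde_ne_zero_iff.mpr (ht.comp heinj)
  have hprodI : ∏ k, (p (e k) ^ (1 - κ / 2)) ^ 2 = ∏ i ∈ I, p i ^ (2 - κ) := by
    rw [← Finset.prod_coe_sort I]
    refine (Equiv.prod_comp (I.equivFinOfCardEq hIcard).symm
      (fun i : I => (p i ^ (1 - κ / 2)) ^ 2)).trans ?_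
    refine Finset.prod_congr rfl fun i _ => ?_
    rw [← Real.rpow_natCast, ← Real.rpow_mul (hppos _).le]
    congr 1
    push_cast
    ring
  -- the determinant identity
  have hdet : (Matrix.vandermonde (fun k => t (e k))).det * resultant P Q ρ ρ =
      (Matrix.of fun i j => Fin.addCases (motive := fun _ => ℂ)
        (fun j₁ : Fin ρ => t (e i) ^ (j₁ : ℕ) * Q'.eval (t (e i)))
        (fun j₁ : Fin ρ => t (e i) ^ (j₁ : ℕ) * P.eval (t (e i))) j :
          Matrix (Fin (ρ + ρ)) (Fin (ρ + ρ)) ℂ).det := by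
    rw [← vandermonde_mul_sylvester P Q' hP hQ'deg, Matrix.det_mul, ← hres]
    rfl
  have hEbound := norm_det_le_of_le (Matrix.of fun i j => Fin.addCases (motive := fun _ => ℂ)
        (fun j₁ : Fin ρ => t (e i) ^ (j₁ : ℕ) * Q'.eval (t (e i)))
        (fun j₁ : Fin ρ => t (e i) ^ (j₁ : ℕ) * P.eval (t (e i))) j :
          Matrix (Fin (ρ + ρ)) (Fin (ρ + ρ)) ℂ) (fun i => T * p (e i) ^ (1 - κ / 2))
        (fun j => Fin.addCases (motive := fun _ => ℝ) (fun _ : Fin ρ => Real.sqrt (U * V))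
          (fun _ : Fin ρ => Real.sqrt U) j) (by
      intro i j
      have hnn := Real.rpow_nonneg (hppos (e i)).le (1 - κ / 2)
      induction j using Fin.addCases with
      | left j =>
        simp only [Matrix.of_apply, Fin.addCases_left]
        rw [norm_mul]
        have h1 := hT (e i) j
        have h2 := hq2 (e i)
        calc ‖t (e i) ^ (j : ℕ)‖ * ‖Q'.eval (t (e i))‖
            ≤ T * (p (e i) ^ (1 - κ / 2) * Real.sqrt (U * V)) := by gcongr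
          _ = _ := by ring
      | right j =>
        simp only [Matrix.of_apply, Fin.addCases_right]
        rw [norm_mul]
        have h1 := hT (e i) j
        have h2 := hw2 (e i)
        calc ‖t (e i) ^ (j : ℕ)‖ * ‖P.eval (t (e i))‖
            ≤ T * (p (e i) ^ (1 - κ / 2) * Real.sqrt U) := by gcongr
          _ = _ := by ring)
  rw [← hdet, prod_natCard_pow, Finset.prod_mul_distrib, Finset.prod_const, Finset.card_univ,
    Fintype.card_fin, norm_mul] at hEbound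
  have hsq : ‖(Matrix.vandermonde (fun k => t (e k))).det‖ ^ 2 * ‖resultant P Q ρ ρ‖ ^ 2 ≤
      K ^ 2 * (∏ i ∈ I, p i ^ (2 - κ)) * (U ^ (2 * ρ) * V ^ ρ) := by
    have h1 : (‖(Matrix.vandermonde (fun k => t (e k))).det‖ * ‖resultant P Q ρ ρ‖) ^ 2 ≤
        (((ρ + ρ).factorial : ℝ) * ((T ^ (ρ + ρ) * ∏ i, p (e i) ^ (1 - κ / 2)) *
          (Real.sqrt (U * V) ^ ρ * Real.sqrt U ^ ρ))) ^ 2 := by
      gcongr
    rw [mul_pow] at h1
    refine h1.trans (le_of_eq ?_)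
    have h2 : (∏ i, p (e i) ^ (1 - κ / 2)) ^ 2 = ∏ i ∈ I, p i ^ (2 - κ) := by
      rw [← hprodI, ← Finset.prod_pow]
    have h3 : (Real.sqrt (U * V) ^ ρ) ^ 2 = U ^ ρ * V ^ ρ := by
      rw [pow_right_comm, Real.sq_sqrt (by positivity), mul_pow]
    have h4 : (Real.sqrt U ^ ρ) ^ 2 = U ^ ρ := by
      rw [pow_right_comm, Real.sq_sqrt hUpos.le]
    calc (((ρ + ρ).factorial : ℝ) * ((T ^ (ρ + ρ) * ∏ i, p (e i) ^ (1 - κ / 2)) *
          (Real.sqrt (U * V) ^ ρ * Real.sqrt U ^ ρ))) ^ 2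
        = K ^ 2 * (∏ i, p (e i) ^ (1 - κ / 2)) ^ 2 *
          ((Real.sqrt (U * V) ^ ρ) ^ 2 * (Real.sqrt U ^ ρ) ^ 2) := by rw [hK]; ring
      _ = _ := by rw [h2, h3, h4]; ring
  have hprodInn : 0 ≤ ∏ i ∈ I, p i ^ (2 - κ) :=
    Finset.prod_nonneg fun i _ => Real.rpow_nonneg (hppos i).le _
  have hres2 : ‖resultant P Q ρ ρ‖ ^ 2 ≤
      D * (K ^ 2 * (∏ i ∈ I, p i ^ (2 - κ)) * (U ^ (2 * ρ) * V ^ ρ)) := by
    have h1 : 0 < ‖(Matrix.vandermonde (fun k => t (e k))).det‖ ^ 2 := by positivity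
    have h2 := hD e
    have h3 : 0 ≤ K ^ 2 * (∏ i ∈ I, p i ^ (2 - κ)) * (U ^ (2 * ρ) * V ^ ρ) := by
      positivity
    calc ‖resultant P Q ρ ρ‖ ^ 2
        = (‖(Matrix.vandermonde (fun k => t (e k))).det‖ ^ 2)⁻¹ *
          (‖(Matrix.vandermonde (fun k => t (e k))).det‖ ^ 2 * ‖resultant P Q ρ ρ‖ ^ 2) := by
          rw [← mul_assoc, inv_mul_cancel₀ h1.ne', one_mul]
      _ ≤ (‖(Matrix.vandermonde (fun k => t (e k))).det‖ ^ 2)⁻¹ *
          (K ^ 2 * (∏ i ∈ I, p i ^ (2 - κ)) * (U ^ (2 * ρ) * V ^ ρ)) := by gcongr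
      _ ≤ _ := by gcongr
  -- the remaining nodes
  have h2κ : 0 ≤ 2 - κ := by linarith
  have hrest : (c * M) ^ E ≤ ∏ i ∈ Iᶜ, p i ^ (2 - κ) := by
    have h1 : Iᶜ.card = n - 2 * ρ := by
      rw [Finset.card_compl, hIcard]
      omega
    have h2 : (c * M) ^ E = ∏ _i ∈ Iᶜ, (c * M) ^ (2 - κ) := by
      rw [Finset.prod_const, h1, ← Real.rpow_natCast, ← Real.rpow_mul (by positivity), hE,
        Nat.cast_sub hcard]
      push_cast
      ring_nf
    rw [h2]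
    refine Finset.prod_le_prod (fun i _ => by positivity) fun i hi => ?_
    refine Real.rpow_le_rpow (by positivity) ?_ h2κ
    by_contra h
    push Not at h
    exact (Finset.mem_compl.mp hi) (hIsub (Finset.mem_filter.mpr ⟨Finset.mem_univ i, h⟩))
  have hall : (∏ i ∈ I, p i ^ (2 - κ)) * ∏ i ∈ Iᶜ, p i ^ (2 - κ) = ∏ i, p i ^ (2 - κ) :=
    Finset.prod_mul_prod_compl I _
  have hexp : ((2 - κ) * n - 4 * ρ) / κ = E / κ - 2 * ρ := by
    rw [hE]
    field_simp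
    ring
  have hUE : U ^ (E / κ) ≤ (n : ℝ) ^ (E / κ) * M ^ E := by
    calc U ^ (E / κ) ≤ (n * M ^ κ) ^ (E / κ) :=
          Real.rpow_le_rpow hUpos.le hUM (by positivity)
      _ = (n : ℝ) ^ (E / κ) * M ^ E := by
          rw [Real.mul_rpow (by positivity) (by positivity), ← Real.rpow_mul hMpos.le]
          congr 2
          field_simp
  have hU2 : U ^ (E / κ - 2 * ρ) * U ^ (2 * ρ) = U ^ (E / κ) := by
    rw [← Real.rpow_natCast U (2 * ρ), ← Real.rpow_add hUpos]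
    congr 1
    push_cast
    ring
  have hfinal : (∏ i ∈ I, p i ^ (2 - κ)) * U ^ (E / κ) ≤
      (c ^ E)⁻¹ * (n : ℝ) ^ (E / κ) * ∏ i, p i ^ (2 - κ) := by
    rw [← hall]
    calc (∏ i ∈ I, p i ^ (2 - κ)) * U ^ (E / κ)
        ≤ (∏ i ∈ I, p i ^ (2 - κ)) * ((n : ℝ) ^ (E / κ) * M ^ E) := by gcongr
      _ = (c ^ E)⁻¹ * (n : ℝ) ^ (E / κ) * ((∏ i ∈ I, p i ^ (2 - κ)) * (c * M) ^ E) := by
          rw [Real.mul_rpow hc0.le hMpos.le]
          have : c ^ E ≠ 0 := (Real.rpow_pos_of_pos hc0 _).ne'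
          field_simp
      _ ≤ _ := by gcongr
  rw [hexp]
  calc ‖resultant P Q ρ ρ‖ ^ 2 * U ^ (E / κ - 2 * ρ)
      ≤ D * (K ^ 2 * (∏ i ∈ I, p i ^ (2 - κ)) * (U ^ (2 * ρ) * V ^ ρ)) *
          U ^ (E / κ - 2 * ρ) := by gcongr
    _ = D * K ^ 2 * ((∏ i ∈ I, p i ^ (2 - κ)) * (U ^ (E / κ - 2 * ρ) * U ^ (2 * ρ))) * V ^ ρ := by
        ring
    _ = D * K ^ 2 * ((∏ i ∈ I, p i ^ (2 - κ)) * U ^ (E / κ)) * V ^ ρ := by rw [hU2]
    _ ≤ D * K ^ 2 * ((c ^ E)⁻¹ * (n : ℝ) ^ (E / κ) * ∏ i, p i ^ (2 - κ)) * V ^ ρ := by gcongr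
    _ = _ := by ring

end Pool.Agent.H92.GGL
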