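import Pool.Agent.H17.AhlforsGlobal
import Pool.Agent.H17.WeightedVar

/-!
# A vanishing theorem of Ahlfors–Schwarz type with real exponents

`r i` are entire functions (none identically zero), `U = ∑ |r i|^κ`, `V` is the variance of the
logarithmic derivatives `r i' / r i` with weights `|r i|^κ / U`.  If `g` is entire,
`W = |g|^2 U^α ∏ |r i|^(-β i)` satisfies `W ≤ C V^ρ` with `α > 0` and `W` is locally bounded,
then `g = 0`.
-/

open Topology Filter Complex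

namespace Pool.Agent.H92.GGL

open Pool.Agent.H17

variable {ι : Type} [Fintype ι]

/-- `∑ |r i|^κ`. -/
noncomputable def powSum (κ : ℝ) (r : ι → ℂ → ℂ) (z : ℂ) : ℝ := ∑ i, ‖r i z‖ ^ κ

/-- The variance of the logarithmic derivatives with weights `|r i|^κ`. -/
noncomputable def powVar (κ : ℝ) (r : ι → ℂ → ℂ) (z : ℂ) : ℝ :=
  wVar (fun i => ‖r i z‖ ^ κ) (fun i => deriv (r i) z / r i z)

/-- `|g|^2 U^α ∏ |r i|^(-β i)`. -/
noncomputable def wt (κ α : ℝ) (β : ι → ℝ) (r : ι → ℂ → ℂ) (g : ℂ → ℂ) (z : ℂ) : ℝ :=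
  ‖g z‖ ^ 2 * powSum κ r z ^ α * ∏ i, ‖r i z‖ ^ (-(β i))

lemma powSum_pos [Nonempty ι] {κ : ℝ} {r : ι → ℂ → ℂ} {z : ℂ} (h : ∀ i, r i z ≠ 0) :
    0 < powSum κ r z := by
  unfold powSum
  exact Finset.sum_pos (fun i _ => Real.rpow_pos_of_pos (norm_pos_iff.mpr (h i)) _)
    Finset.univ_nonempty

lemma powSum_nonneg (κ : ℝ) (r : ι → ℂ → ℂ) (z : ℂ) : 0 ≤ powSum κ r z := by
  unfold powSum
  positivity

lemma wt_nonneg (κ α : ℝ) (β : ι → ℝ) (r : ι → ℂ → ℂ) (g : ℂ → ℂ) (z : ℂ) :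
    0 ≤ wt κ α β r g z := by
  unfold wt
  have := powSum_nonneg κ r z
  have : 0 ≤ ∏ i, ‖r i z‖ ^ (-(β i)) := Finset.prod_nonneg fun i _ => by positivity
  positivity

lemma powVar_nonneg {κ : ℝ} {r : ι → ℂ → ℂ} {z : ℂ} [Nonempty ι] (h : ∀ i, r i z ≠ 0) :
    0 ≤ powVar κ r z :=
  wVar_nonneg _ (fun i => by positivity)
    (Finset.sum_pos (fun i _ => Real.rpow_pos_of_pos (norm_pos_iff.mpr (h i)) _)
      Finset.univ_nonempty)

/-- The estimate at an interior maximum. -/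
lemma powVar_le_at_max [Nonempty ι] {r : ι → ℂ → ℂ} {g : ℂ → ℂ} {κ α : ℝ} {β : ι → ℝ}
    {k ρ : ℕ} (hα : 0 < α) (hκ : 0 < κ)
    (hk : 0 < k) {R : ℝ} {S : Finset ℂ} {z₀ : ℂ} (hr : ∀ i, AnalyticAt ℂ (r i) z₀)
    (hg : AnalyticAt ℂ g z₀) (hz : ‖z₀‖ < R) (hS : z₀ ∉ S) (hr0 : ∀ i, r i z₀ ≠ 0)
    (hg0 : g z₀ ≠ 0)
    (hmax : IsLocalMax (fun z => wt κ α β r g z ^ k * (R ^ 2 - ‖z‖ ^ 2) ^ (2 * ρ * k) *
      ∏ s ∈ S, ‖z - s‖) z₀) :
    powVar κ r z₀ ≤ 8 * ρ * R ^ 2 / (R ^ 2 - ‖z₀‖ ^ 2) ^ 2 / (α * κ ^ 2) := by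
  classical
  choose L hL hLe hLd using fun i => exists_local_log (hr i) (hr0 i)
  obtain ⟨G, hG, hGe, -⟩ := exists_local_log hg hg0
  have hsub : ∀ s : S, AnalyticAt ℂ (fun z => z - (s : ℂ)) z₀ := fun s =>
    analyticAt_id.sub analyticAt_const
  have hsub0 : ∀ s : S, z₀ - (s : ℂ) ≠ 0 := fun s h => hS (by
    rw [sub_eq_zero] at h; rw [h]; exact s.2)
  choose P hP hPe hPd using fun s : S => exists_local_log (hsub s) (hsub0 s)
  set H : ℂ → ℂ := fun z => 2 * k * G z - k * ∑ i, (β i : ℂ) * L i z + ∑ s : S, P s z with hH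
  have hHan : AnalyticAt ℂ H z₀ := by
    refine ((analyticAt_const.mul hG).sub (analyticAt_const.mul ?_)).add ?_
    · exact Finset.analyticAt_fun_sum _ fun i _ => analyticAt_const.mul (hL i)
    · exact Finset.analyticAt_fun_sum _ fun s _ => hP s
  set L' : ι → ℂ → ℂ := fun i z => (κ : ℂ) * L i z with hL'
  have hL'an : ∀ i, AnalyticAt ℂ (L' i) z₀ := fun i => analyticAt_const.mul (hL i)
  have hmpos : ∀ᶠ z in 𝓝 z₀, 0 < R ^ 2 - ‖z‖ ^ 2 := by
    have hc : ContinuousAt (fun z : ℂ => R ^ 2 - ‖z‖ ^ 2) z₀ := by fun_prop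
    refine hc.eventually (lt_mem_nhds ?_)
    have := norm_nonneg z₀
    nlinarith
  have hLre : ∀ i z, (L' i z).re = κ * (L i z).re := fun i z => by
    simp only [hL']
    rw [Complex.re_ofReal_mul]
  -- the function is the exponential of the function in the core inequality
  have hexp : ∀ᶠ z in 𝓝 z₀, wt κ α β r g z ^ k * (R ^ 2 - ‖z‖ ^ 2) ^ (2 * ρ * k) *
      ∏ s ∈ S, ‖z - s‖ = Real.exp ((H z).re + (k * α) * Real.log (∑ i, Real.exp (L' i z).re) +
        (2 * ρ * k : ℕ) * Real.log (R ^ 2 - ‖z‖ ^ 2)) := by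
    filter_upwards [eventually_all.mpr hLe, hGe, eventually_all.mpr hPe, hmpos]
      with z h1 h2 h3 h4
    have n1 : ∀ i, ‖r i z‖ = Real.exp (L i z).re := fun i => by
      rw [h1 i, Complex.norm_exp]
    have n1' : ∀ (i : ι) (c : ℝ), ‖r i z‖ ^ c = Real.exp (c * (L i z).re) := fun i c => by
      rw [n1 i, ← Real.exp_mul, mul_comm]
    have n2 : ‖g z‖ = Real.exp (G z).re := by rw [h2, Complex.norm_exp]
    have n3 : ∀ s : S, ‖z - s‖ = Real.exp (P s z).re := fun s => by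
      rw [h3 s, Complex.norm_exp]
    have hUeq : powSum κ r z = ∑ i, Real.exp (L' i z).re := by
      unfold powSum
      refine Finset.sum_congr rfl fun i _ => ?_
      rw [n1', hLre]
    have hUpos : 0 < ∑ i, Real.exp (L' i z).re :=
      Finset.sum_pos (fun i _ => Real.exp_pos _) Finset.univ_nonempty
    have hprodr : ∏ i, ‖r i z‖ ^ (-(β i)) = Real.exp (-∑ i, β i * (L i z).re) := by
      simp_rw [n1']
      rw [← Real.exp_sum]
      congr 1
      rw [← Finset.sum_neg_distrib]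
      exact Finset.sum_congr rfl fun i _ => by ring
    have hprodS : ∏ s ∈ S, ‖z - s‖ = Real.exp (∑ s : S, (P s z).re) := by
      rw [← Finset.prod_coe_sort S, Real.exp_sum]
      exact Finset.prod_congr rfl fun s _ => n3 s
    have hHre : (H z).re = 2 * k * (G z).re - k * ∑ i, β i * (L i z).re +
        ∑ s : S, (P s z).re := by
      simp only [hH, Complex.add_re, Complex.sub_re, Complex.re_sum]
      have c1 : ((2 : ℂ) * (k : ℂ) * G z).re = 2 * k * (G z).re := by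
        have : (2 : ℂ) * (k : ℂ) = ((2 * k : ℝ) : ℂ) := by push_cast; ring
        rw [this, Complex.re_ofReal_mul]
      have c2 : ((k : ℂ) * ∑ i, (β i : ℂ) * L i z).re = k * ∑ i, β i * (L i z).re := by
        have : (k : ℂ) = ((k : ℝ) : ℂ) := by push_cast; ring
        rw [this, Complex.re_ofReal_mul, Complex.re_sum]
        simp_rw [Complex.re_ofReal_mul]
      rw [c1, c2]
    unfold wt
    rw [hUeq, hprodr, hprodS, n2]
    have d0 : (∑ i, Real.exp (L' i z).re) ^ α =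
        Real.exp (α * Real.log (∑ i, Real.exp (L' i z).re)) := by
      rw [Real.rpow_def_of_pos hUpos, mul_comm]
    have d2 : Real.exp ((2 * ρ * k : ℕ) * Real.log (R ^ 2 - ‖z‖ ^ 2)) =
        (R ^ 2 - ‖z‖ ^ 2) ^ (2 * ρ * k) := by
      rw [Real.exp_nat_mul, Real.exp_log h4]
    rw [d0, ← d2, ← Real.exp_nat_mul, ← Real.exp_add, ← Real.exp_add, ← Real.exp_nat_mul,
      ← Real.exp_add, ← Real.exp_add, hHre]
    congr 1
    push_cast
    ring
  have hmax' : IsLocalMax (fun z => (H z).re + (k * α) *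
      Real.log (∑ i, Real.exp (L' i z).re) +
        ((2 * ρ * k : ℕ) : ℝ) * Real.log (R ^ 2 - ‖z‖ ^ 2)) z₀ := by
    filter_upwards [hmax, hexp] with z h1 h2
    rw [h2, hexp.self_of_nhds] at h1
    exact Real.exp_le_exp.mp h1
  have hcore := core_inequality hHan hL'an hz hmax'
  have q1 : ∀ i, Real.exp (L' i z₀).re = ‖r i z₀‖ ^ κ := fun i => by
    rw [hLre, (hLe i).self_of_nhds, Complex.norm_exp, ← Real.exp_mul, mul_comm]
  have q2 : ∀ i, deriv (L' i) z₀ = (κ : ℂ) * (deriv (r i) z₀ / r i z₀) := fun i => by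
    simp only [hL']
    rw [deriv_const_mul _ (hL i).differentiableAt, hLd]
  simp_rw [q1, q2] at hcore
  have e1 : (((∑ i, ‖r i z₀‖ ^ κ * ‖(κ : ℂ) * (deriv (r i) z₀ / r i z₀)‖ ^ 2) *
      (∑ i, ‖r i z₀‖ ^ κ) -
        ‖∑ i, ((‖r i z₀‖ ^ κ : ℝ) : ℂ) * ((κ : ℂ) * (deriv (r i) z₀ / r i z₀))‖ ^ 2) /
          (∑ i, ‖r i z₀‖ ^ κ) ^ 2) = κ ^ 2 * powVar κ r z₀ := by
    unfold powVar wVar
    have f1 : ∑ i, ‖r i z₀‖ ^ κ * ‖(κ : ℂ) * (deriv (r i) z₀ / r i z₀)‖ ^ 2 =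
        κ ^ 2 * ∑ i, ‖r i z₀‖ ^ κ * ‖deriv (r i) z₀ / r i z₀‖ ^ 2 := by
      rw [Finset.mul_sum]
      refine Finset.sum_congr rfl fun i _ => ?_
      rw [norm_mul, Complex.norm_real, mul_pow, Real.norm_eq_abs, sq_abs]
      ring
    have f2 : ∑ i, ((‖r i z₀‖ ^ κ : ℝ) : ℂ) * ((κ : ℂ) * (deriv (r i) z₀ / r i z₀)) =
        (κ : ℂ) * ∑ i, ((‖r i z₀‖ ^ κ : ℝ) : ℂ) * (deriv (r i) z₀ / r i z₀) := by
      rw [Finset.mul_sum]
      exact Finset.sum_congr rfl fun i _ => by ring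
    rw [f1, f2, norm_mul, mul_pow, Complex.norm_real, Real.norm_eq_abs, sq_abs]
    ring
  rw [e1] at hcore
  have hkpos : (0 : ℝ) < k := by exact_mod_cast hk
  have hm : 0 < R ^ 2 - ‖z₀‖ ^ 2 := hmpos.self_of_nhds
  rw [le_div_iff₀ (by positivity)]
  push_cast at hcore
  have h6 : (k : ℝ) * (powVar κ r z₀ * (α * κ ^ 2)) ≤
      k * (8 * ρ * R ^ 2 / (R ^ 2 - ‖z₀‖ ^ 2) ^ 2) := by
    calc (k : ℝ) * (powVar κ r z₀ * (α * κ ^ 2)) = k * α * (κ ^ 2 * powVar κ r z₀) := by ring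
      _ ≤ 2 * ρ * k * (4 * R ^ 2 / (R ^ 2 - ‖z₀‖ ^ 2) ^ 2) := hcore
      _ = _ := by ring
  exact le_of_mul_le_mul_left h6 hkpos

lemma wt_continuousAt [Nonempty ι] {r : ι → ℂ → ℂ} {g : ℂ → ℂ} (hr : ∀ i, Differentiable ℂ (r i))
    (hg : Differentiable ℂ g) (κ α : ℝ) (β : ι → ℝ) {z : ℂ} (hz : ∀ i, r i z ≠ 0) :
    ContinuousAt (wt κ α β r g) z := by
  unfold wt powSum
  have h1 : ∀ i, ContinuousAt (fun z => ‖r i z‖) z := fun i => (hr i).continuous.norm.continuousAt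
  have h2 : ContinuousAt (fun z => ‖g z‖) z := hg.continuous.norm.continuousAt
  have h3 : ∀ i, ‖r i z‖ ≠ 0 := fun i => norm_ne_zero_iff.mpr (hz i)
  have h4 : ContinuousAt (fun z => ∑ i, ‖r i z‖ ^ κ) z :=
    tendsto_finsetSum _ fun i _ => (h1 i).rpow_const (Or.inl (h3 i))
  have h5 : ContinuousAt (fun z => ∏ i, ‖r i z‖ ^ (-(β i))) z :=
    tendsto_finsetProd _ fun i _ => (h1 i).rpow_const (Or.inl (h3 i))
  refine ((h2.pow 2).mul (h4.rpow_const (Or.inl ?_))).mul h5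
  exact (powSum_pos (κ := κ) hz).ne'

/-- **Vanishing theorem.** -/
theorem vanishing [Nonempty ι] {r : ι → ℂ → ℂ} {g : ℂ → ℂ} {κ α : ℝ} {β : ι → ℝ} {ρ : ℕ}
    (hκ : 0 < κ) (hα : 0 < α)
    (hρ : 0 < ρ) (hr : ∀ i, Differentiable ℂ (r i)) (hr0 : ∀ i, ∃ z, r i z ≠ 0)
    (hg : Differentiable ℂ g) {C : ℝ} (hC : 0 ≤ C)
    (hbound : ∀ z, (∀ i, r i z ≠ 0) → wt κ α β r g z ≤ C * powVar κ r z ^ ρ)
    (hloc : ∀ s, ∃ B, ∀ᶠ z in 𝓝[≠] s, wt κ α β r g z ≤ B) (z : ℂ) : g z = 0 := by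
  classical
  by_contra hgz
  -- a good point
  obtain ⟨z₀, hz₀g, hz₀r⟩ : ∃ z₀, g z₀ ≠ 0 ∧ ∀ i, r i z₀ ≠ 0 := by
    have h1 := eventually_ne_zero_of_entire hg ⟨z, hgz⟩ z
    have h2 : ∀ᶠ w in 𝓝[≠] z, ∀ i, r i w ≠ 0 :=
      eventually_all.mpr fun i => eventually_ne_zero_of_entire (hr i) (hr0 i) z
    exact (h1.and h2).exists
  set w₀ := wt κ α β r g z₀ with hw₀
  have hw₀pos : 0 < w₀ := by
    rw [hw₀]
    unfold wt
    have h1 : 0 < ∏ i, ‖r i z₀‖ ^ (-(β i)) := Finset.prod_pos fun i _ =>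
      Real.rpow_pos_of_pos (norm_pos_iff.mpr (hz₀r i)) _
    have h2 : 0 < powSum κ r z₀ ^ α := Real.rpow_pos_of_pos (powSum_pos hz₀r) _
    have h3 : 0 < ‖g z₀‖ := norm_pos_iff.mpr hz₀g
    positivity
  set D : ℝ := C * (1 / (α * κ ^ 2)) ^ ρ with hD
  have hDnn : 0 ≤ D := by positivity
  -- the estimate for every radius
  have key : ∀ R : ℝ, ‖z₀‖ < R → w₀ * (R ^ 2 - ‖z₀‖ ^ 2) ^ (2 * ρ) ≤ D * (8 * ρ * R ^ 2) ^ ρ := by
    intro R hR
    have hRpos : 0 < R := (norm_nonneg _).trans_lt hR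
    set S : Finset ℂ := (finite_zeros hr hr0 R).toFinset with hS
    have hSmem : ∀ z, z ∈ S ↔ z ∈ Metric.closedBall (0 : ℂ) R ∧ ∃ i, r i z = 0 := by
      intro z
      rw [hS, Set.Finite.mem_toFinset]
      rfl
    have hnotS : ∀ z, z ∈ Metric.closedBall (0 : ℂ) R → z ∉ S → ∀ i, r i z ≠ 0 := by
      intro z hz hzS i hi
      exact hzS ((hSmem z).mpr ⟨hz, i, hi⟩)
    have hz₀S : z₀ ∉ S := by
      intro h
      obtain ⟨i, hi⟩ := ((hSmem z₀).mp h).2
      exact hz₀r i hi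
    have hz₀ball : z₀ ∈ Metric.closedBall (0 : ℂ) R := by
      rw [mem_closedBall_zero_iff]; exact hR.le
    have hPpos : ∀ z, z ∉ S → 0 < ∏ s ∈ S, ‖z - s‖ := by
      intro z hz
      refine Finset.prod_pos fun s hs => norm_pos_iff.mpr (sub_ne_zero.mpr ?_)
      rintro rfl
      exact hz hs
    have hm0 : 0 < R ^ 2 - ‖z₀‖ ^ 2 := by
      have := norm_nonneg z₀
      nlinarith
    refine le_of_forall_pow_mul_le (hPpos z₀ hz₀S) (Q := (2 * R) ^ S.card) (by positivity) ?_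
    intro k hk
    set Φ : ℂ → ℝ := fun z => wt κ α β r g z ^ k * (R ^ 2 - ‖z‖ ^ 2) ^ (2 * ρ * k) *
      ∏ s ∈ S, ‖z - s‖ with hΦ
    have hΦcont : ContinuousOn Φ (Metric.closedBall (0 : ℂ) R) := by
      intro z hz
      apply ContinuousAt.continuousWithinAt
      have hc1 : Continuous fun z : ℂ => (R ^ 2 - ‖z‖ ^ 2) ^ (2 * ρ * k) := by fun_prop
      by_cases hzS : z ∈ S
      · rw [continuousAt_iff_punctured_nhds]
        have hΦz : Φ z = 0 := by
          simp only [hΦ]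
          rw [Finset.prod_eq_zero hzS (by simp), mul_zero]
        rw [hΦz]
        obtain ⟨B, hB⟩ := hloc z
        have hrest : Tendsto (fun w : ℂ => (R ^ 2 - ‖w‖ ^ 2) ^ (2 * ρ * k) *
            ∏ s ∈ S.erase z, ‖w - s‖) (𝓝[≠] z) (𝓝 ((R ^ 2 - ‖z‖ ^ 2) ^ (2 * ρ * k) *
            ∏ s ∈ S.erase z, ‖z - s‖)) := by
          have : Continuous fun w : ℂ => (R ^ 2 - ‖w‖ ^ 2) ^ (2 * ρ * k) *
            ∏ s ∈ S.erase z, ‖w - s‖ := by
            refine hc1.mul (continuous_finsetProd _ fun s _ => ?_)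
            fun_prop
          exact (this.tendsto z).mono_left nhdsWithin_le_nhds
        have hmain : Tendsto (fun w => wt κ α β r g w ^ k * ‖w - z‖) (𝓝[≠] z) (𝓝 0) := by
          have h1 : Tendsto (fun w : ℂ => (max B 0) ^ k * ‖w - z‖) (𝓝[≠] z)
              (𝓝 0) := by
            have : Continuous fun w : ℂ => (max B 0) ^ k * ‖w - z‖ := by fun_prop
            have h2 := (this.tendsto z).mono_left (nhdsWithin_le_nhds (s := {z}ᶜ))
            simpa using h2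
          refine squeeze_zero' ?_ ?_ h1
          · filter_upwards with w
            have := wt_nonneg κ α β r g w
            positivity
          · filter_upwards [hB] with w hw1
            have h3 : wt κ α β r g w ≤ max B 0 := hw1.trans (le_max_left _ _)
            have := wt_nonneg κ α β r g w
            gcongr
        have h4 := hmain.mul hrest
        rw [zero_mul] at h4
        refine h4.congr ?_
        intro w
        simp only [hΦ]
        rw [← Finset.mul_prod_erase S _ hzS]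
        ring
      · have h1 := wt_continuousAt hr hg κ α β (hnotS z hz hzS)
        have hc2 : Continuous fun w : ℂ => ∏ s ∈ S, ‖w - s‖ := by
          refine continuous_finsetProd _ fun s _ => ?_
          fun_prop
        exact ((h1.pow k).mul hc1.continuousAt).mul hc2.continuousAt
    obtain ⟨zm, hzm, hmax⟩ := (isCompact_closedBall (0 : ℂ) R).exists_isMaxOn
      ⟨z₀, hz₀ball⟩ hΦcont
    have hΦ₀pos : 0 < Φ z₀ := by
      simp only [hΦ]
      have := hPpos z₀ hz₀S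
      positivity
    have hΦm : Φ z₀ ≤ Φ zm := hmax hz₀ball
    have hΦmpos : 0 < Φ zm := hΦ₀pos.trans_le hΦm
    have hkρ : 2 * ρ * k ≠ 0 := by positivity
    have hzmS : zm ∉ S := by
      intro h
      have : Φ zm = 0 := by
        simp only [hΦ]
        rw [Finset.prod_eq_zero h (by simp), mul_zero]
      linarith
    have hzmR : ‖zm‖ < R := by
      rcases lt_or_eq_of_le (mem_closedBall_zero_iff.mp hzm) with h | h
      · exact h
      · exfalso
        have : Φ zm = 0 := by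
          simp only [hΦ]
          rw [h, sub_self, zero_pow hkρ]
          ring
        linarith
    have hzmr : ∀ i, r i zm ≠ 0 := hnotS zm hzm hzmS
    have hzmg : g zm ≠ 0 := by
      intro h
      have : Φ zm = 0 := by
        simp only [hΦ, wt, h]
        simp [hk.ne']
      linarith
    have hlocmax : IsLocalMax Φ zm := by
      refine hmax.isLocalMax ?_
      exact Filter.mem_of_superset (Metric.isOpen_ball.mem_nhds (by
        rw [mem_ball_zero_iff]; exact hzmR)) Metric.ball_subset_closedBall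
    have hV := powVar_le_at_max (ρ := ρ) hα hκ hk (fun i => (hr i).analyticAt zm)
      (hg.analyticAt zm) hzmR hzmS hzmr hzmg hlocmax
    have hVnn := powVar_nonneg (κ := κ) hzmr
    have hmm : 0 < R ^ 2 - ‖zm‖ ^ 2 := by
      have := norm_nonneg zm
      nlinarith
    have hw1 : wt κ α β r g zm * (R ^ 2 - ‖zm‖ ^ 2) ^ (2 * ρ) ≤ D * (8 * ρ * R ^ 2) ^ ρ := by
      calc wt κ α β r g zm * (R ^ 2 - ‖zm‖ ^ 2) ^ (2 * ρ)
          ≤ (C * (8 * ρ * R ^ 2 / (R ^ 2 - ‖zm‖ ^ 2) ^ 2 / (α * κ ^ 2)) ^ ρ) *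
              (R ^ 2 - ‖zm‖ ^ 2) ^ (2 * ρ) := by
            gcongr
            refine (hbound zm hzmr).trans ?_
            gcongr
        _ = D * (8 * ρ * R ^ 2) ^ ρ := by
            rw [hD, div_pow, div_pow, div_pow, ← pow_mul, one_pow]
            field_simp
    have hprodle : ∏ s ∈ S, ‖zm - s‖ ≤ (2 * R) ^ S.card := by
      rw [← Finset.prod_const]
      refine Finset.prod_le_prod (fun s _ => norm_nonneg _) fun s hs => ?_
      have h1 := ((hSmem s).mp hs).1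
      rw [mem_closedBall_zero_iff] at h1
      refine (norm_sub_le _ _).trans ?_
      linarith
    have e0 : Φ z₀ = (w₀ * (R ^ 2 - ‖z₀‖ ^ 2) ^ (2 * ρ)) ^ k * ∏ s ∈ S, ‖z₀ - s‖ := by
      simp only [hΦ]
      rw [mul_pow, ← pow_mul]
    have em : Φ zm = (wt κ α β r g zm * (R ^ 2 - ‖zm‖ ^ 2) ^ (2 * ρ)) ^ k *
        ∏ s ∈ S, ‖zm - s‖ := by
      simp only [hΦ]
      rw [mul_pow, ← pow_mul]
    rw [← e0]
    refine hΦm.trans ?_
    rw [em]
    have hnn := wt_nonneg κ α β r g zm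
    have := (hPpos zm hzmS).le
    gcongr
  -- let the radius tend to infinity
  have h2 : ∀ R : ℝ, 1 ≤ R → 2 * ‖z₀‖ ^ 2 + 1 ≤ R → w₀ * (R ^ 2) ^ ρ ≤ D * (32 * ρ) ^ ρ := by
    intro R hR1 hR2
    have hRR : R ≤ R ^ 2 := by nlinarith
    have h3 : ‖z₀‖ < R := by
      have := norm_nonneg z₀
      nlinarith [sq_nonneg (‖z₀‖ - 1)]
    have h4 := key R h3
    have h5 : R ^ 2 / 2 ≤ R ^ 2 - ‖z₀‖ ^ 2 := by linarith
    have h6 : w₀ * (R ^ 2 / 2) ^ (2 * ρ) ≤ D * (8 * ρ * R ^ 2) ^ ρ := by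
      refine le_trans ?_ h4
      gcongr
    have hRpos : 0 < (R ^ 2) ^ ρ := by positivity
    have h7 : (w₀ * (R ^ 2) ^ ρ) * (R ^ 2) ^ ρ ≤ (D * (32 * ρ) ^ ρ) * (R ^ 2) ^ ρ := by
      have e1 : (w₀ * (R ^ 2) ^ ρ) * (R ^ 2) ^ ρ = 4 ^ ρ * (w₀ * (R ^ 2 / 2) ^ (2 * ρ)) := by
        rw [pow_mul (R ^ 2 / 2) 2 ρ, div_pow, div_pow]
        have : ((2 : ℝ) ^ 2) ^ ρ = 4 ^ ρ := by norm_num
        rw [this]
        have h8 : ((R ^ 2) ^ 2) ^ ρ = (R ^ 2) ^ ρ * (R ^ 2) ^ ρ := by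
          rw [← mul_pow]
          congr 1
          ring
        rw [h8]
        field_simp
      have e2 : (D * (32 * ρ) ^ ρ) * (R ^ 2) ^ ρ = 4 ^ ρ * (D * (8 * ρ * R ^ 2) ^ ρ) := by
        have : (32 * (ρ : ℝ)) ^ ρ * (R ^ 2) ^ ρ = 4 ^ ρ * (8 * ρ * R ^ 2) ^ ρ := by
          rw [← mul_pow, ← mul_pow]
          congr 1
          ring
        linear_combination D * this
      rw [e1, e2]
      gcongr
    exact le_of_mul_le_mul_right h7 hRpos
  have h3 : Tendsto (fun R : ℝ => w₀ * (R ^ 2) ^ ρ) atTop atTop := by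
    apply Tendsto.const_mul_atTop hw₀pos
    exact (tendsto_pow_atTop hρ.ne').comp (tendsto_pow_atTop (by norm_num))
  obtain ⟨R, hR⟩ := ((h3.eventually_gt_atTop (D * (32 * ρ) ^ ρ)).and
    ((eventually_ge_atTop (1 : ℝ)).and (eventually_ge_atTop (2 * ‖z₀‖ ^ 2 + 1)))).exists
  exact absurd (h2 R hR.2.1 hR.2.2) (not_le.mpr hR.1)

end Pool.Agent.H92.GGL
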