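import Pool.Agent.H17.VanishPoly
import Pool.Agent.H92.GGL.Vanish
import Pool.Agent.H92.GGL.ResBound

/-!
# The resultant of `R` and `∂R/∂z` vanishes if the zeros of the values are weighted enough

`R` is a polynomial in `t` whose coefficients are entire functions of `z`.
-/

open Polynomial Topology Filter

namespace Pool.Agent.H92.GGL

open Pool.Agent.H17

variable {ι : Type} [Fintype ι]

/-- An analytic function is bounded near a point. -/
lemma exists_bound_near {f : ℂ → ℂ} {s : ℂ} (hf : ContinuousAt f s) :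
    ∃ B : ℝ, 1 ≤ B ∧ ∀ᶠ z in 𝓝 s, ‖f z‖ ≤ B := by
  refine ⟨‖f s‖ + 1, by linarith [norm_nonneg (f s)], ?_⟩
  filter_upwards [hf.norm.eventually (gt_mem_nhds (lt_add_one _))] with z hz using hz.le

/-- The local estimate of the resultant. -/
lemma resultant_local [DecidableEq ι] (t : ι → ℂ) (ht : Function.Injective t) {ρ : ℕ}
    (hcard : 2 * ρ ≤ Fintype.card ι) {P Q : ℂ → ℂ[X]} (hP : ∀ z, (P z).natDegree ≤ ρ)
    (hQ : ∀ z, (Q z).natDegree ≤ ρ) {r : ι → ℂ → ℂ} (hPr : ∀ i z, (P z).eval (t i) = r i z)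
    (hQr : ∀ i z, (Q z).eval (t i) = deriv (r i) z) {s : ℂ} {c : ℕ} {f : ι → ℂ → ℂ}
    (hf : ∀ i, AnalyticAt ℂ (f i) s) (hrf : ∀ i z, r i z = (z - s) ^ c * f i z)
    {u : ι → ℂ → ℂ} {o : ι → ℕ} (hu : ∀ i, AnalyticAt ℂ (u i) s)
    (hfu : ∀ i, ∀ᶠ z in 𝓝 s, f i z = (z - s) ^ o i * u i z)
    (ho : (Finset.univ.filter fun i => o i ≠ 0).card ≤ 2 * ρ) :
    ∃ B : ℝ, 0 ≤ B ∧ ∀ᶠ z in 𝓝[≠] s, ‖resultant (P z) (Q z) ρ ρ‖ ≤
      B * ‖z - s‖ ^ (2 * ρ * c + ∑ i, (o i - 1)) := by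
  classical
  -- bounds for the values
  obtain ⟨A, hA1, hA⟩ : ∃ A : ℝ, 1 ≤ A ∧ ∀ᶠ z in 𝓝 s, ∀ i, ‖f i z‖ ≤ A * ‖z - s‖ ^ (o i - 1) ∧
      ‖deriv (f i) z‖ ≤ A * ‖z - s‖ ^ (o i - 1) := by
    have h1 : ∀ i, ∃ A : ℝ, 1 ≤ A ∧ ∀ᶠ z in 𝓝 s, ‖f i z‖ ≤ A * ‖z - s‖ ^ (o i - 1) ∧
      ‖deriv (f i) z‖ ≤ A * ‖z - s‖ ^ (o i - 1) := by
      intro i
      obtain ⟨B₁, hB₁, hB₁'⟩ := exists_bound_near (hu i).continuousAt
      obtain ⟨B₂, hB₂, hB₂'⟩ := exists_bound_near (hu i).deriv.continuousAt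
      obtain ⟨B₃, hB₃, hB₃'⟩ := exists_bound_near (hf i).deriv.continuousAt
      refine ⟨B₃ + (o i) * B₁ + B₂ + B₁, by nlinarith [Nat.cast_nonneg (α := ℝ) (o i)], ?_⟩
      have hball : ∀ᶠ z in 𝓝 s, ‖z - s‖ ≤ 1 := by
        have : ∀ᶠ z in 𝓝 s, z ∈ Metric.closedBall s 1 := Metric.closedBall_mem_nhds s one_pos
        filter_upwards [this] with z hz
        rwa [mem_closedBall_iff_norm] at hz
      have hev : f i =ᶠ[𝓝 s] fun z => (z - s) ^ o i * u i z := hfu i
      filter_upwards [hev, hev.deriv, hB₁', hB₂', hB₃', hball, (hu i).eventually_analyticAt]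
        with z h1 h2 h3 h4 h5 h6 h7
      have hnn := norm_nonneg (z - s)
      have hoi : (0 : ℝ) ≤ o i := Nat.cast_nonneg _
      have hpw : 0 ≤ ‖z - s‖ ^ (o i - 1) := by positivity
      constructor
      · rw [h1, norm_mul, norm_pow]
        have h8 : ‖z - s‖ ^ o i ≤ ‖z - s‖ ^ (o i - 1) :=
          pow_le_pow_of_le_one hnn h6 (by omega)
        calc ‖z - s‖ ^ o i * ‖u i z‖ ≤ ‖z - s‖ ^ (o i - 1) * B₁ := by gcongr
          _ = B₁ * ‖z - s‖ ^ (o i - 1) := by ring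
          _ ≤ _ := by
            gcongr
            nlinarith
      · rcases Nat.eq_zero_or_pos (o i) with h0 | hpos
        · rw [h0]
          simp only [zero_le, Nat.sub_eq_zero_of_le, pow_zero, mul_one, Nat.cast_zero, zero_mul,
            add_zero]
          linarith
        · obtain ⟨m, hm⟩ : ∃ m, o i = m + 1 := ⟨o i - 1, by omega⟩
          rw [h2]
          have h9 : HasDerivAt (fun z => (z - s) ^ o i) (((m + 1 : ℕ) : ℂ) * (z - s) ^ m) z := by
            rw [hm]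
            have := ((hasDerivAt_id z).sub_const s).fun_pow (m + 1)
            simpa using this
          have h10 := (h9.fun_mul h7.differentiableAt.hasDerivAt).deriv
          rw [h10, hm]
          simp only [Nat.add_sub_cancel]
          have h11 : ‖((m + 1 : ℕ) : ℂ) * (z - s) ^ m * u i z‖ ≤ ((m + 1 : ℕ) : ℝ) * B₁ * ‖z - s‖ ^ m := by
            rw [norm_mul, norm_mul, norm_pow, Complex.norm_natCast]
            calc ((m + 1 : ℕ) : ℝ) * ‖z - s‖ ^ m * ‖u i z‖ ≤ ((m + 1 : ℕ) : ℝ) * ‖z - s‖ ^ m * B₁ := by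
                  gcongr
              _ = _ := by ring
          have h12 : ‖(z - s) ^ (m + 1) * deriv (u i) z‖ ≤ B₂ * ‖z - s‖ ^ m := by
            rw [norm_mul, norm_pow]
            calc ‖z - s‖ ^ (m + 1) * ‖deriv (u i) z‖ ≤ ‖z - s‖ ^ m * B₂ := by
                  gcongr ?_ * ?_
                  exact pow_le_pow_of_le_one hnn h6 (by omega)
              _ = _ := by ring
          refine (norm_add_le _ _).trans ((add_le_add h11 h12).trans ?_)
          have hpm : 0 ≤ ‖z - s‖ ^ m := by positivity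
          nlinarith
    choose A hA1 hA using h1
    refine ⟨1 + ∑ i, A i, ?_, ?_⟩
    · have : 0 ≤ ∑ i, A i := Finset.sum_nonneg fun i _ => by linarith [hA1 i]
      linarith
    · filter_upwards [eventually_all.mpr hA] with z hz i
      have h2 : A i ≤ 1 + ∑ i, A i := by
        have := Finset.single_le_sum (f := A) (fun i _ => by linarith [hA1 i]) (Finset.mem_univ i)
        linarith
      have hpw : 0 ≤ ‖z - s‖ ^ (o i - 1) := by positivity
      exact ⟨(hz i).1.trans (by gcongr), (hz i).2.trans (by gcongr)⟩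
  obtain ⟨T, hT1, hT⟩ : ∃ T : ℝ, 1 ≤ T ∧ ∀ (i : ι) (j : Fin ρ), ‖t i ^ (j : ℕ)‖ ≤ T := by
    obtain ⟨B, hB⟩ := (Set.finite_range (fun q : ι × Fin ρ => ‖t q.1 ^ (q.2 : ℕ)‖)).bddAbove
    exact ⟨max 1 B, le_max_left _ _, fun i j => le_trans (hB ⟨(i, j), rfl⟩) (le_max_right _ _)⟩
  -- the choice of the nodes
  obtain ⟨I, hIsub, hIcard⟩ : ∃ I : Finset ι,
      (Finset.univ.filter fun i => o i ≠ 0) ⊆ I ∧ I.card = ρ + ρ := by
    obtain ⟨I, h2, h3⟩ := Finset.exists_superset_card_eq (n := ρ + ρ) (ho.trans (by omega))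
      (by omega)
    exact ⟨I, h2, h3⟩
  set e : Fin (ρ + ρ) → ι := fun k => ((I.equivFinOfCardEq hIcard).symm k : ι) with he
  have heinj : Function.Injective e := by
    intro k l hkl
    exact (I.equivFinOfCardEq hIcard).symm.injective (Subtype.ext hkl)
  have hVdM : (Matrix.vandermonde (fun k => t (e k))).det ≠ 0 :=
    Matrix.det_vandermonde_ne_zero_iff.mpr (ht.comp heinj)
  set D : ℝ := ‖(Matrix.vandermonde (fun k => t (e k))).det‖ with hD
  have hDpos : 0 < D := norm_pos_iff.mpr hVdM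
  refine ⟨D⁻¹ * (((ρ + ρ).factorial : ℝ) * (T * A) ^ (ρ + ρ)), by positivity, ?_⟩
  have hball : ∀ᶠ z in 𝓝 s, ‖z - s‖ ≤ 1 := by
    have : ∀ᶠ z in 𝓝 s, z ∈ Metric.closedBall s 1 := Metric.closedBall_mem_nhds s one_pos
    filter_upwards [this] with z hz
    rwa [mem_closedBall_iff_norm] at hz
  filter_upwards [hA.filter_mono nhdsWithin_le_nhds, hball.filter_mono nhdsWithin_le_nhds,
    self_mem_nhdsWithin, (eventually_all.mpr fun i => (hf i).eventually_analyticAt).filter_mono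
      nhdsWithin_le_nhds] with z hz1 hz2 hz3 hz4
  have hzs : z - s ≠ 0 := sub_ne_zero.mpr hz3
  set ℓ : ℂ := c / (z - s) with hℓ
  set Q' : ℂ[X] := Q z + P z * C (-ℓ) with hQ'
  have hQ'deg : Q'.natDegree ≤ ρ := by
    refine (natDegree_add_le _ _).trans (max_le (hQ z) ?_)
    refine (natDegree_mul_le).trans ?_
    rw [natDegree_C, add_zero]
    exact hP z
  have hres : resultant (P z) Q' ρ ρ = resultant (P z) (Q z) ρ ρ := by
    rw [hQ']
    apply resultant_add_mul_right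
    · rw [natDegree_C, zero_add]
    · exact hP z
  have hQ'eval : ∀ i, Q'.eval (t i) = (z - s) ^ c * deriv (f i) z := by
    intro i
    have h1 : deriv (r i) z = c * (z - s) ^ (c - 1) * f i z + (z - s) ^ c * deriv (f i) z := by
      have : r i = fun z => (z - s) ^ c * f i z := funext (hrf i)
      rw [this]
      have h9 : HasDerivAt (fun z => (z - s) ^ c) (c * (z - s) ^ (c - 1)) z := by
        have := ((hasDerivAt_id z).sub_const s).fun_pow c
        simpa using this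
      exact (h9.fun_mul (hz4 i).differentiableAt.hasDerivAt).deriv
    rw [hQ', eval_add, eval_mul, eval_C, hQr, hPr, h1, hrf, hℓ]
    have h2 : (c : ℂ) * (z - s) ^ (c - 1) = (z - s) ^ c * (c / (z - s)) := by
      rcases Nat.eq_zero_or_pos c with h0 | hpos
      · rw [h0]; simp
      · obtain ⟨m, rfl⟩ : ∃ m, c = m + 1 := ⟨c - 1, by omega⟩
        rw [Nat.add_sub_cancel, pow_succ]
        field_simp
    rw [h2]
    ring
  have hdet : (Matrix.vandermonde (fun k => t (e k))).det * resultant (P z) (Q z) ρ ρ =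
      (Matrix.of fun i j => Fin.addCases (motive := fun _ => ℂ)
        (fun j₁ : Fin ρ => t (e i) ^ (j₁ : ℕ) * Q'.eval (t (e i)))
        (fun j₁ : Fin ρ => t (e i) ^ (j₁ : ℕ) * (P z).eval (t (e i))) j :
          Matrix (Fin (ρ + ρ)) (Fin (ρ + ρ)) ℂ).det := by
    rw [← vandermonde_mul_sylvester (P z) Q' (hP z) hQ'deg, Matrix.det_mul, ← hres]
    rfl
  have hEbound := norm_det_le_of_le (Matrix.of fun i j => Fin.addCases (motive := fun _ => ℂ)
        (fun j₁ : Fin ρ => t (e i) ^ (j₁ : ℕ) * Q'.eval (t (e i)))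
        (fun j₁ : Fin ρ => t (e i) ^ (j₁ : ℕ) * (P z).eval (t (e i))) j :
          Matrix (Fin (ρ + ρ)) (Fin (ρ + ρ)) ℂ)
        (fun i => T * A * (‖z - s‖ ^ c * ‖z - s‖ ^ (o (e i) - 1))) (fun _ => 1) (by
      intro i j
      have hpw : 0 ≤ ‖z - s‖ ^ c := by positivity
      induction j using Fin.addCases with
      | left j =>
        simp only [Matrix.of_apply, Fin.addCases_left]
        rw [norm_mul, hQ'eval, norm_mul, norm_pow (z - s)]
        have h1 := hT (e i) j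
        have h2 := (hz1 (e i)).2
        calc ‖t (e i) ^ (j : ℕ)‖ * (‖z - s‖ ^ c * ‖deriv (f (e i)) z‖)
            ≤ T * (‖z - s‖ ^ c * (A * ‖z - s‖ ^ (o (e i) - 1))) := by gcongr
          _ = _ := by ring
      | right j =>
        simp only [Matrix.of_apply, Fin.addCases_right]
        rw [norm_mul, hPr, hrf, norm_mul, norm_pow (z - s)]
        have h1 := hT (e i) j
        have h2 := (hz1 (e i)).1
        calc ‖t (e i) ^ (j : ℕ)‖ * (‖z - s‖ ^ c * ‖f (e i) z‖)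
            ≤ T * (‖z - s‖ ^ c * (A * ‖z - s‖ ^ (o (e i) - 1))) := by gcongr
          _ = _ := by ring)
  rw [← hdet, norm_mul, Finset.prod_const_one, mul_one, Finset.prod_mul_distrib,
    Finset.prod_const, Finset.card_univ, Fintype.card_fin, Finset.prod_mul_distrib,
    Finset.prod_const, Finset.card_univ, Fintype.card_fin] at hEbound
  have hprodI : ∏ k, ‖z - s‖ ^ (o (e k) - 1) = ‖z - s‖ ^ (∑ i, (o i - 1)) := by
    rw [Finset.prod_pow_eq_pow_sum]
    congr 1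
    have h1 : ∑ k, (o (e k) - 1) = ∑ i ∈ I, (o i - 1) := by
      rw [← Finset.sum_coe_sort I]
      exact Equiv.sum_comp (I.equivFinOfCardEq hIcard).symm (fun i : I => o i - 1)
    rw [h1]
    refine Finset.sum_subset (Finset.subset_univ _) fun i _ hi => ?_
    have : o i = 0 := by
      by_contra h
      exact hi (hIsub (Finset.mem_filter.mpr ⟨Finset.mem_univ i, h⟩))
    omega
  rw [hprodI, ← pow_mul] at hEbound
  have h5 : ‖resultant (P z) (Q z) ρ ρ‖ ≤ D⁻¹ * (((ρ + ρ).factorial : ℝ) * ((T * A) ^ (ρ + ρ) *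
      (‖z - s‖ ^ (c * (ρ + ρ)) * ‖z - s‖ ^ (∑ i, (o i - 1))))) := by
    rw [inv_mul_eq_div, le_div_iff₀ hDpos, mul_comm]
    exact hEbound
  refine h5.trans (le_of_eq ?_)
  rw [← pow_add]
  have h6 : c * (ρ + ρ) + ∑ i, (o i - 1) = 2 * ρ * c + ∑ i, (o i - 1) := by ring
  rw [h6]
  ring

/-- Local boundedness of the weight. -/
lemma wt_locally_bounded [DecidableEq ι] [Nonempty ι] {g : ℂ → ℂ} {κ α : ℝ} {θ : ι → ℝ} {ρ : ℕ}
    (hκ0 : 0 < κ) (hκ2 : κ < 2) (hα : 0 ≤ α)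
    (hhom : 4 * ρ + κ * α = (2 - κ) * (Fintype.card ι - ∑ i, θ i)) {r : ι → ℂ → ℂ} {s : ℂ} {c : ℕ}
    {f : ι → ℂ → ℂ} (hrf : ∀ i z, r i z = (z - s) ^ c * f i z)
    (hf : ∀ i, AnalyticAt ℂ (f i) s)
    {u : ι → ℂ → ℂ} {o : ι → ℕ} (hu : ∀ i, AnalyticAt ℂ (u i) s) (hu0 : ∀ i, u i s ≠ 0)
    (hfu : ∀ i, ∀ᶠ z in 𝓝 s, f i z = (z - s) ^ o i * u i z)
    (hθ : ((Finset.univ.filter fun i => o i ≠ 0).card : ℝ) ≤ ∑ i, θ i * o i)
    (hg : ∃ B : ℝ, 0 ≤ B ∧ ∀ᶠ z in 𝓝[≠] s, ‖g z‖ ≤ B * ‖z - s‖ ^ (2 * ρ * c + ∑ i, (o i - 1))) :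
    ∃ B, ∀ᶠ z in 𝓝[≠] s, wt κ α (fun i => (2 - κ) * (1 - θ i)) r g z ≤ B := by
  classical
  obtain ⟨Bg, hBg0, hBg⟩ := hg
  choose Bf hBf1 hBf using fun i => exists_bound_near (hf i).continuousAt
  -- bounds for `u`
  have hul : ∀ i, ∃ B : ℝ, 0 ≤ B ∧ ∀ᶠ z in 𝓝 s, ‖u i z‖ ^ (-((2 - κ) * (1 - θ i))) ≤ B := by
    intro i
    have h1 : ContinuousAt (fun z => ‖u i z‖ ^ (-((2 - κ) * (1 - θ i)))) s :=
      (hu i).continuousAt.norm.rpow_const (Or.inl (norm_ne_zero_iff.mpr (hu0 i)))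
    refine ⟨|‖u i s‖ ^ (-((2 - κ) * (1 - θ i)))| + 1, by positivity, ?_⟩
    filter_upwards [h1.eventually (gt_mem_nhds (lt_add_one _))] with z hz
    refine hz.le.trans ?_
    gcongr
    exact le_abs_self _
  choose Bu hBu0 hBu using hul
  set UB : ℝ := ∑ i, Bf i ^ κ with hUB
  have hUBnn : 0 ≤ UB := Finset.sum_nonneg fun i _ => Real.rpow_nonneg (by linarith [hBf1 i]) _
  refine ⟨Bg ^ 2 * UB ^ α * ∏ i, Bu i, ?_⟩
  have hball : ∀ᶠ z in 𝓝 s, ‖z - s‖ ≤ 1 := by
    have : ∀ᶠ z in 𝓝 s, z ∈ Metric.closedBall s 1 := Metric.closedBall_mem_nhds s one_pos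
    filter_upwards [this] with z hz
    rwa [mem_closedBall_iff_norm] at hz
  filter_upwards [hBg, (eventually_all.mpr hBf).filter_mono nhdsWithin_le_nhds,
    (eventually_all.mpr hBu).filter_mono nhdsWithin_le_nhds,
    (eventually_all.mpr hfu).filter_mono nhdsWithin_le_nhds,
    hball.filter_mono nhdsWithin_le_nhds, self_mem_nhdsWithin] with z h1 h2 h3 h4 h5 h6
  have hzs : 0 < ‖z - s‖ := norm_pos_iff.mpr (sub_ne_zero.mpr h6)
  set x : ℝ := ‖z - s‖ with hx
  -- the power sum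
  have hU : powSum κ r z ≤ x ^ (c * κ : ℝ) * UB := by
    unfold powSum
    rw [hUB, Finset.mul_sum]
    refine Finset.sum_le_sum fun i _ => ?_
    rw [hrf, norm_mul, norm_pow, Real.mul_rpow (by positivity) (by positivity),
      ← Real.rpow_natCast, ← Real.rpow_mul hzs.le]
    have := h2 i
    gcongr
  have hUα : powSum κ r z ^ α ≤ x ^ (c * κ * α : ℝ) * UB ^ α := by
    calc powSum κ r z ^ α ≤ (x ^ (c * κ : ℝ) * UB) ^ α :=
          Real.rpow_le_rpow (powSum_nonneg _ _ _) hU hα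
      _ = _ := by
        rw [Real.mul_rpow (by positivity) hUBnn, ← Real.rpow_mul hzs.le]
  -- the product
  have hprod : ∏ i, ‖r i z‖ ^ (-((2 - κ) * (1 - θ i))) ≤
      x ^ (-∑ i, (c + o i : ℝ) * ((2 - κ) * (1 - θ i))) * ∏ i, Bu i := by
    have h7 : x ^ (-∑ i, (c + o i : ℝ) * ((2 - κ) * (1 - θ i))) =
        ∏ i, x ^ (-((c + o i : ℝ) * ((2 - κ) * (1 - θ i)))) := by
      rw [← Finset.sum_neg_distrib, Real.rpow_sum_of_pos hzs]
    rw [h7, ← Finset.prod_mul_distrib]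
    refine Finset.prod_le_prod (fun i _ => by positivity) fun i _ => ?_
    have h8 : ‖r i z‖ = x ^ (c + o i : ℝ) * ‖u i z‖ := by
      rw [hrf, h4 i, norm_mul, norm_mul, norm_pow, norm_pow, ← mul_assoc, ← pow_add,
        ← Real.rpow_natCast]
      push_cast
      rfl
    rw [h8, Real.mul_rpow (by positivity) (by positivity), ← Real.rpow_mul hzs.le]
    have h9 : (c + o i : ℝ) * -((2 - κ) * (1 - θ i)) = -((c + o i : ℝ) * ((2 - κ) * (1 - θ i))) := by
      ring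
    rw [h9]
    have := h3 i
    gcongr
  have hg2 : ‖g z‖ ^ 2 ≤ Bg ^ 2 * x ^ (2 * (2 * ρ * c + ∑ i, (o i - 1) : ℕ) : ℝ) := by
    calc ‖g z‖ ^ 2 ≤ (Bg * x ^ (2 * ρ * c + ∑ i, (o i - 1))) ^ 2 := by gcongr
      _ = _ := by
        rw [mul_pow, ← pow_mul, ← Real.rpow_natCast x]
        congr 2
        push_cast
        ring
  have hprodnn : 0 ≤ ∏ i, Bu i := Finset.prod_nonneg fun i _ => hBu0 i
  have hprodrnn : 0 ≤ ∏ i, ‖r i z‖ ^ (-((2 - κ) * (1 - θ i))) :=
    Finset.prod_nonneg fun i _ => by positivity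
  -- the total exponent is nonnegative
  have hexp : 0 ≤ (2 * (2 * ρ * c + ∑ i, (o i - 1) : ℕ) : ℝ) + c * κ * α +
      (-∑ i, (c + o i : ℝ) * ((2 - κ) * (1 - θ i))) := by
    have e1 : ((∑ i, (o i - 1) : ℕ) : ℝ) =
        ∑ i, (o i : ℝ) - (Finset.univ.filter fun i => o i ≠ 0).card := by
      have e2 : ∀ i, ((o i - 1 : ℕ) : ℝ) = (o i : ℝ) - if o i ≠ 0 then 1 else 0 := by
        intro i
        by_cases h : o i = 0
        · simp [h]
        · rw [if_pos h, Nat.cast_sub (Nat.one_le_iff_ne_zero.mpr h)]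
          simp
      rw [Nat.cast_sum, Finset.sum_congr rfl fun i _ => e2 i, Finset.sum_sub_distrib]
      congr 1
      rw [Finset.sum_ite, Finset.sum_const_zero, add_zero, Finset.sum_const, nsmul_eq_mul, mul_one]
    have e3 : ((Finset.univ.filter fun i => o i ≠ 0).card : ℝ) ≤ ∑ i, (o i : ℝ) := by
      have : (Finset.univ.filter fun i => o i ≠ 0).card ≤ ∑ i, o i := by
        rw [Finset.card_eq_sum_ones, Finset.sum_filter]
        refine Finset.sum_le_sum fun i _ => ?_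
        split_ifs with h
        · omega
        · omega
      exact_mod_cast this
    have e4 : ∑ i, (c + o i : ℝ) * ((2 - κ) * (1 - θ i)) =
        c * ((2 - κ) * (Fintype.card ι - ∑ i, θ i)) + (2 - κ) * (∑ i, (o i : ℝ) - ∑ i, θ i * o i) := by
      have : ∀ i, (c + o i : ℝ) * ((2 - κ) * (1 - θ i)) =
          c * (2 - κ) * 1 - c * (2 - κ) * θ i + (2 - κ) * o i - (2 - κ) * (θ i * o i) := by
        intro i; ring
      rw [Finset.sum_congr rfl fun i _ => this i, Finset.sum_sub_distrib, Finset.sum_add_distrib,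
        Finset.sum_sub_distrib, ← Finset.mul_sum, ← Finset.mul_sum, ← Finset.mul_sum,
        ← Finset.mul_sum, Finset.sum_const, Finset.card_univ, nsmul_eq_mul]
      ring
    rw [e4, ← hhom]
    push_cast
    push_cast at e1
    rw [e1]
    have h2κ : 0 < 2 - κ := by linarith
    have e5 := mul_le_mul_of_nonneg_left hθ h2κ.le
    have e6 := mul_le_mul_of_nonneg_left e3 hκ0.le
    linarith
  unfold wt
  calc ‖g z‖ ^ 2 * powSum κ r z ^ α * ∏ i, ‖r i z‖ ^ (-((2 - κ) * (1 - θ i)))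
      ≤ (Bg ^ 2 * x ^ (2 * (2 * ρ * c + ∑ i, (o i - 1) : ℕ) : ℝ)) *
          (x ^ (c * κ * α : ℝ) * UB ^ α) *
          (x ^ (-∑ i, (c + o i : ℝ) * ((2 - κ) * (1 - θ i))) * ∏ i, Bu i) := by
        gcongr
        exact Real.rpow_nonneg (powSum_nonneg _ _ _) _
    _ = (x ^ ((2 * (2 * ρ * c + ∑ i, (o i - 1) : ℕ) : ℝ) + c * κ * α +
          (-∑ i, (c + o i : ℝ) * ((2 - κ) * (1 - θ i))))) * (Bg ^ 2 * UB ^ α * ∏ i, Bu i) := by
        rw [Real.rpow_add hzs, Real.rpow_add hzs]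
        ring
    _ ≤ 1 * (Bg ^ 2 * UB ^ α * ∏ i, Bu i) := by
        gcongr
        exact Real.rpow_le_one hzs.le h5 hexp
    _ = _ := one_mul _

open EntFun Differential

/-- **The main vanishing theorem with weights.** -/
theorem resultant_eq_zero_of_weights [Nonempty ι] (t : ι → ℂ) (ht : Function.Injective t) {ρ : ℕ}
    (hρ : 0 < ρ) (θ : ι → ℝ) (hθ0 : ∀ i, 0 ≤ θ i)
    (hcard : ∑ i, θ i + 2 * ρ < Fintype.card ι) (R : EntFun[X]) (hR : R.natDegree ≤ ρ)
    (hne : ∀ i, evC (t i) R ≠ 0)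
    (hloc : ∀ s, ∃ (c : ℕ) (G : EntFun[X]) (o : ι → ℕ), R = C (coord s ^ c) * G ∧
      G.map (ev s) ≠ 0 ∧ (∀ i, analyticOrderAt ((evC (t i) G : EntFun) : ℂ → ℂ) s = o i) ∧
      ((Finset.univ.filter fun i => o i ≠ 0).card : ℝ) ≤ ∑ i, θ i * o i) :
    resultant R (mapCoeffs R) ρ ρ = 0 := by
  classical
  have hdR : (mapCoeffs R).natDegree ≤ ρ := by
    refine natDegree_le_iff_coeff_eq_zero.mpr fun k hk => ?_
    rw [coeff_mapCoeffs, coeff_eq_zero_of_natDegree_lt (hR.trans_lt hk), map_zero]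
  -- the constants
  have hsumθ : 0 ≤ ∑ i, θ i := Finset.sum_nonneg fun i _ => hθ0 i
  have hρ' : (0 : ℝ) < ρ := by exact_mod_cast hρ
  set n : ℝ := (Fintype.card ι : ℝ) with hn
  obtain ⟨A, hA⟩ : ∃ A : ℝ, A = n - ∑ i, θ i := ⟨_, rfl⟩
  have hA2 : 2 * (ρ : ℝ) < A := by rw [hA]; linarith
  have hApos : 0 < A := by linarith
  obtain ⟨κ, hκ⟩ : ∃ κ : ℝ, κ = (A - 2 * ρ) / A := ⟨_, rfl⟩
  have hκ0 : 0 < κ := by rw [hκ]; apply div_pos <;> linarith
  have hκ1 : κ < 1 := by rw [hκ, div_lt_one hApos]; linarith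
  have hκ2 : κ < 2 := by linarith
  have hκA : (2 - κ) * A = A + 2 * ρ := by rw [hκ]; field_simp; ring
  obtain ⟨α, hα⟩ : ∃ α : ℝ, α = (A - 2 * ρ) / κ := ⟨_, rfl⟩
  have hα0 : 0 < α := by rw [hα]; apply div_pos <;> linarith
  have hκα : κ * α = A - 2 * ρ := by rw [hα]; field_simp
  have hhom : 4 * (ρ : ℝ) + κ * α = (2 - κ) * (Fintype.card ι - ∑ i, θ i) := by
    rw [← hn, ← hA, hκA, hκα]; ring
  have h2ρn : 2 * ρ ≤ Fintype.card ι := by
    have : (2 * ρ : ℝ) < (Fintype.card ι : ℝ) := by rw [← hn]; linarith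
    exact_mod_cast this.le
  have hρn : ρ < Fintype.card ι := by omega
  obtain ⟨C₀, hC0, hC⟩ := resultant_bound_rpow t ht (ρ := ρ) hκ0 hκ2 h2ρn
  set r : ι → ℂ → ℂ := fun i => ((evC (t i) R : EntFun) : ℂ → ℂ) with hr
  set g : ℂ → ℂ := ((resultant R (mapCoeffs R) ρ ρ : EntFun) : ℂ → ℂ) with hg
  have hgz : ∀ z, g z = resultant (R.map (ev z)) ((mapCoeffs R).map (ev z)) ρ ρ := by
    intro z
    rw [resultant_map_map]
    rfl
  have hrz : ∀ i z, r i z = (R.map (ev z)).eval (t i) := fun i z => evC_apply _ _ _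
  have hdrz : ∀ i z, deriv (r i) z = ((mapCoeffs R).map (ev z)).eval (t i) := by
    intro i z
    rw [← evC_apply, ← evC_deriv]
    rfl
  have hvan := vanishing (r := r) (g := g) (κ := κ) (α := α)
    (β := fun i => (2 - κ) * (1 - θ i)) (ρ := ρ) hκ0 hα0 hρ
    (fun i => (evC (t i) R).diff) (fun i => (ne_zero_iff _).mp (hne i))
    (resultant R (mapCoeffs R) ρ ρ).diff hC0 ?_ ?_
  · ext z
    exact hvan z
  · -- the bound
    intro z hz
    have h1 := hC (R.map (ev z)) ((mapCoeffs R).map (ev z)) (natDegree_map_le.trans hR)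
      (natDegree_map_le.trans hdR) (fun i => by rw [← hrz]; exact hz i)
    rw [← hgz] at h1
    simp only [← hrz, ← hdrz] at h1
    have hzpos : ∀ i, 0 < ‖r i z‖ := fun i => norm_pos_iff.mpr (hz i)
    have hUpos : 0 < powSum κ r z := powSum_pos hz
    have hU : ∑ i, ‖r i z‖ ^ κ = powSum κ r z := rfl
    have hV : wVar (fun i => ‖r i z‖ ^ κ) (fun i => deriv (r i) z / r i z) = powVar κ r z := rfl
    rw [hU, hV] at h1
    have hVnn : 0 ≤ powVar κ r z := powVar_nonneg hz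
    set U := powSum κ r z with hUdef
    -- the exponent
    have hexp : ((2 - κ) * Fintype.card ι - 4 * ρ) / κ = α + (2 - κ) * (∑ i, θ i) / κ := by
      rw [← hn, div_eq_iff hκ0.ne', add_mul, div_mul_cancel₀ _ hκ0.ne', mul_comm α κ, hκα]
      have : n = A + ∑ i, θ i := by rw [hA]; ring
      rw [this, mul_add, hκA]
      ring
    rw [hexp, Real.rpow_add hUpos] at h1
    -- comparing `‖r i‖ ^ θ` and `U`
    have h2 : ∏ i, ‖r i z‖ ^ ((2 - κ) * θ i) ≤ U ^ ((2 - κ) * (∑ i, θ i) / κ) := by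
      have h3 : U ^ ((2 - κ) * (∑ i, θ i) / κ) = ∏ i, U ^ ((2 - κ) * θ i / κ) := by
        rw [← Real.rpow_sum_of_pos hUpos]
        congr 1
        rw [Finset.mul_sum, Finset.sum_div]
      rw [h3]
      refine Finset.prod_le_prod (fun i _ => (Real.rpow_pos_of_pos (hzpos i) _).le) fun i _ => ?_
      have h4 : ‖r i z‖ ^ κ ≤ U := by
        rw [hUdef]
        unfold powSum
        exact Finset.single_le_sum (f := fun i => ‖r i z‖ ^ κ)
          (fun i _ => (Real.rpow_pos_of_pos (hzpos i) _).le) (Finset.mem_univ i)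
      have h5 : ‖r i z‖ ^ ((2 - κ) * θ i) = (‖r i z‖ ^ κ) ^ ((2 - κ) * θ i / κ) := by
        rw [← Real.rpow_mul (hzpos i).le]
        congr 1
        field_simp
      rw [h5]
      refine Real.rpow_le_rpow (Real.rpow_pos_of_pos (hzpos i) _).le h4 ?_
      have := hθ0 i
      have h6 : 0 < 2 - κ := by linarith
      positivity
    have h6 : ∏ i, ‖r i z‖ ^ (-((2 - κ) * (1 - θ i))) =
        (∏ i, ‖r i z‖ ^ (2 - κ))⁻¹ * ∏ i, ‖r i z‖ ^ ((2 - κ) * θ i) := by
      rw [← Finset.prod_inv_distrib, ← Finset.prod_mul_distrib]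
      refine Finset.prod_congr rfl fun i _ => ?_
      rw [← Real.rpow_neg (hzpos i).le, ← Real.rpow_add (hzpos i)]
      congr 1
      ring
    have hP2 : 0 < ∏ i, ‖r i z‖ ^ (2 - κ) := Finset.prod_pos fun i _ =>
      Real.rpow_pos_of_pos (hzpos i) _
    have hPθ : 0 ≤ ∏ i, ‖r i z‖ ^ ((2 - κ) * θ i) := Finset.prod_nonneg fun i _ =>
      (Real.rpow_pos_of_pos (hzpos i) _).le
    have hUα : 0 < U ^ α := Real.rpow_pos_of_pos hUpos _
    unfold wt
    rw [h6]
    calc ‖g z‖ ^ 2 * U ^ α * ((∏ i, ‖r i z‖ ^ (2 - κ))⁻¹ * ∏ i, ‖r i z‖ ^ ((2 - κ) * θ i))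
        ≤ ‖g z‖ ^ 2 * U ^ α * ((∏ i, ‖r i z‖ ^ (2 - κ))⁻¹ * U ^ ((2 - κ) * (∑ i, θ i) / κ)) := by
          gcongr
      _ = (∏ i, ‖r i z‖ ^ (2 - κ))⁻¹ *
          (‖g z‖ ^ 2 * (U ^ α * U ^ ((2 - κ) * (∑ i, θ i) / κ))) := by ring
      _ ≤ (∏ i, ‖r i z‖ ^ (2 - κ))⁻¹ *
          (C₀ * (∏ i, ‖r i z‖ ^ (2 - κ)) * powVar κ r z ^ ρ) := by gcongr
      _ = _ := by field_simp
  · -- local boundedness
    intro s
    obtain ⟨c, G, o, hRG, hG0, hGord, hGθ⟩ := hloc s
    have hGdeg : G.natDegree ≤ ρ := by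
      have h1 : R.natDegree = G.natDegree := by
        rw [hRG, natDegree_C_mul (pow_ne_zero _ (coord_ne_zero s))]
      omega
    -- the reduced polynomial vanishes at few nodes
    have hzero : (Finset.univ.filter fun i => (G.map (ev s)).eval (t i) = 0).card ≤ ρ := by
      by_contra h
      push Not at h
      apply hG0
      refine eq_zero_of_natDegree_lt_card_of_eval_eq_zero' _
        ((Finset.univ.filter fun i => (G.map (ev s)).eval (t i) = 0).image t) ?_ ?_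
      · intro x hx
        obtain ⟨i, hi, rfl⟩ := Finset.mem_image.mp hx
        exact (Finset.mem_filter.mp hi).2
      · rw [Finset.card_image_of_injective _ ht]
        have := (natDegree_map_le (f := ev s) (p := G)).trans hGdeg
        omega
    obtain ⟨i₀, hi₀⟩ : ∃ i₀, (G.map (ev s)).eval (t i₀) ≠ 0 := by
      by_contra h
      push Not at h
      have : (Finset.univ.filter fun i => (G.map (ev s)).eval (t i) = 0) = Finset.univ :=
        Finset.filter_true_of_mem fun i _ => h i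
      rw [this, Finset.card_univ] at hzero
      omega
    have hfac : ∀ i, evC (t i) R = coord s ^ c * evC (t i) G := by
      intro i
      rw [hRG, evC_mul, evC_C]
    have hcoord : ∀ z, ((coord s : EntFun) : ℂ → ℂ) z = z - s := fun z => rfl
    have hrf : ∀ i z, r i z = (z - s) ^ c * ((evC (t i) G : EntFun) : ℂ → ℂ) z := by
      intro i z
      simp only [hr]
      rw [hfac]
      rfl
    have hfan : ∀ i, AnalyticAt ℂ ((evC (t i) G : EntFun) : ℂ → ℂ) s := fun i =>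
      (evC (t i) G).analyticAt s
    have hdec : ∀ i, ∃ u : ℂ → ℂ, AnalyticAt ℂ u s ∧ u s ≠ 0 ∧
        ∀ᶠ z in 𝓝 s, ((evC (t i) G : EntFun) : ℂ → ℂ) z = (z - s) ^ o i * u z := by
      intro i
      have h1 := hGord i
      rw [(hfan i).analyticOrderAt_eq_natCast] at h1
      obtain ⟨u, hu, hu0, hfu⟩ := h1
      exact ⟨u, hu, hu0, hfu⟩
    choose u hu hu0 hfu using hdec
    have ho : (Finset.univ.filter fun i => o i ≠ 0).card ≤ 2 * ρ := by
      refine le_trans (Finset.card_le_card ?_) (hzero.trans (by omega))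
      intro i hi
      rw [Finset.mem_filter] at hi ⊢
      refine ⟨hi.1, ?_⟩
      rw [← evC_apply]
      have h1 := (hfu i).self_of_nhds
      rw [h1, sub_self, zero_pow hi.2, zero_mul]
    refine wt_locally_bounded (g := g) (θ := θ) (ρ := ρ) hκ0 hκ2 hα0.le hhom hrf hfan hu hu0 hfu
      hGθ ?_
    refine resultant_local t ht h2ρn (P := fun z => R.map (ev z))
      (Q := fun z => (mapCoeffs R).map (ev z)) (fun z => natDegree_map_le.trans hR)
      (fun z => natDegree_map_le.trans hdR) (r := r) (fun i z => (hrz i z).symm)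
      (fun i z => (hdrz i z).symm) hfan hrf hu hfu ho |>.imp fun B hB => ?_
    refine ⟨hB.1, ?_⟩
    filter_upwards [hB.2] with z hz
    rw [hgz]
    exact hz

end Pool.Agent.H92.GGL
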