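import Pool.Agent.H17.Rigidity
import Pool.Agent.H92.GGL.Master

/-!
# The moving factors of a polynomial over the entire functions
-/

open Polynomial Topology Filter

namespace Pool.Agent.H92.GGL

open Pool.Agent.H17 Pool.Agent.H17.EntFun Differential

/-- **Structure theorem.**  A nonzero polynomial `F` over the entire functions is either the product
of an entire function and a polynomial with constant coefficients, or the product `R` of its
distinct moving irreducible factors (up to nonzero entire functions) has the following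
properties. -/
theorem moving_part (K : Type) [Field K] [Algebra EntFun K] [IsFractionRing EntFun K]
    {ι : Type} [Fintype ι] (t : ι → ℂ) (ht : Function.Injective t) (F : EntFun[X]) (hF : F ≠ 0) :
    (∃ (u : EntFun) (P : ℂ[X]), F = C u * P.map (algebraMap ℂ EntFun)) ∨
    ∃ (R : EntFun[X]) (e b : ℕ), 0 < e ∧ 0 < R.natDegree ∧
      (∀ S : Finset ι, (∀ i ∈ S, evC (t i) F = 0) → S.card ≤ b) ∧
      R.natDegree + e + b ≤ F.natDegree + 1 ∧
      resultant R (mapCoeffs R) R.natDegree R.natDegree ≠ 0 ∧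
      (∀ a : ℂ, evC a F ≠ 0 → evC a R ≠ 0) ∧
      (∃ p : K[X], Irreducible p ∧ p ^ e ∣ toK K F) ∧
      ∀ s : ℂ, ∃ (c cF : ℕ) (G G' : EntFun[X]), R = C (coord s ^ c) * G ∧ G.map (ev s) ≠ 0 ∧
        F = C (coord s ^ cF) * G' ∧ G'.map (ev s) ≠ 0 ∧
        ∀ a : ℂ, evC a F ≠ 0 → ∃ o o' : ℕ,
          analyticOrderAt ((evC a G : EntFun) : ℂ → ℂ) s = o ∧
          analyticOrderAt ((evC a G' : EntFun) : ℂ → ℂ) s = o' ∧ o ≤ o' ∧ o' ≤ e * o := by
  classical
  obtain ⟨S, m, hS, hfac⟩ := exists_monic_factorization (toK K F) (toK_ne_zero hF)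
  have hS' : ∀ q ∈ S, q.Monic ∧ Irreducible q := fun q hq => ⟨(hS q hq).1, (hS q hq).2.1⟩
  have hlc : (toK K F).leadingCoeff ≠ 0 := leadingCoeff_ne_zero.mpr (toK_ne_zero hF)
  set Mov : K[X] → Prop := fun q => ∀ a : ℂ, q.eval (cK K a) ≠ 0 with hMov
  set A : Finset K[X] := S.filter Mov with hA
  have hAS : ∀ q ∈ A, q ∈ S := fun q hq => (Finset.mem_filter.mp hq).1
  rcases A.eq_empty_or_nonempty with hAe | hAne
  · -- no moving factor
    left
    have hroot : ∀ q, ∃ a : ℂ, q ∈ S → q = X - C (cK K a) := by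
      intro q
      by_cases hq : q ∈ S
      · have h1 : ¬ Mov q := by
          intro h
          have : q ∈ A := Finset.mem_filter.mpr ⟨hq, h⟩
          rw [hAe] at this
          exact absurd this (Finset.notMem_empty q)
        simp only [hMov, not_forall, not_not] at h1
        obtain ⟨a, ha⟩ := h1
        exact ⟨a, fun _ => eq_X_sub_C_of_root (hS q hq).1 (hS q hq).2.1 ha⟩
      · exact ⟨0, fun h => absurd h hq⟩
    choose a ha using hroot
    refine ⟨F.leadingCoeff, ∏ q ∈ S, (X - C (a q)) ^ m q, ?_⟩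
    apply toK_injective (K := K)
    rw [toK_mul, toK_C, hfac]
    have h2 : (toK K F).leadingCoeff = algebraMap EntFun K F.leadingCoeff :=
      leadingCoeff_map_of_injective (IsFractionRing.injective EntFun K) F
    rw [h2]
    congr 1
    unfold toK
    rw [Polynomial.map_prod, Polynomial.map_prod]
    refine Finset.prod_congr rfl fun q hq => ?_
    rw [Polynomial.map_pow, Polynomial.map_pow, Polynomial.map_sub, Polynomial.map_sub, map_X, map_X,
      map_C, map_C]
    exact congrArg (fun p => p ^ m q) (ha q hq)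
  right
  -- clearing denominators
  have hclear : ∀ q, ∃ (c : EntFun) (Q : EntFun[X]), c ≠ 0 ∧
      toK K Q = C (algebraMap EntFun K c) * q ∧
      (q ∈ S → ∀ a : ℂ, q.eval (cK K a) = 0 → Q = X - C (algebraMap ℂ EntFun a)) := by
    intro q
    by_cases h : q ∈ S ∧ ∃ a : ℂ, q.eval (cK K a) = 0
    · obtain ⟨hq, a, ha⟩ := h
      have h1 := eq_X_sub_C_of_root (hS' q hq).1 (hS' q hq).2 ha
      refine ⟨1, X - C (algebraMap ℂ EntFun a), one_ne_zero, ?_, ?_⟩
      · rw [map_one, C_1, one_mul, h1]
        unfold toK cK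
        simp
      · intro _ a' ha'
        rw [h1] at ha'
        simp only [eval_sub, eval_X, eval_C] at ha'
        rw [cK_injective (sub_eq_zero.mp ha')]
    · obtain ⟨c, Q, hc, hQ⟩ := exists_clear q
      exact ⟨c, Q, hc, hQ, fun hq a ha => absurd ⟨hq, a, ha⟩ h⟩
  choose c Q hc hQ hQc using hclear
  have hcK : ∀ q, algebraMap EntFun K (c q) ≠ 0 := fun q h0 =>
    hc q (IsFractionRing.injective EntFun K (by rw [h0, map_zero]))
  have hQ0 : ∀ q ∈ S, Q q ≠ 0 := by
    intro q hq h0
    have h1 := hQ q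
    rw [h0] at h1
    have h2 : C (algebraMap EntFun K (c q)) * q = 0 := by rw [← h1]; simp [toK]
    rcases mul_eq_zero.mp h2 with h3 | h3
    · exact hcK q (C_eq_zero.mp h3)
    · exact (hS' q hq).2.ne_zero h3
  have hQdeg : ∀ q, (Q q).natDegree = q.natDegree := by
    intro q
    rw [← natDegree_toK (K := K), hQ, natDegree_C_mul (hcK q)]
  have hfac' : C (∏ q ∈ S, c q ^ m q) * F = C F.leadingCoeff * ∏ q ∈ S, Q q ^ m q := by
    apply toK_injective (K := K)
    rw [toK_mul, toK_mul, toK_C, toK_C, toK_prod]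
    have h1 : ∀ q ∈ S, toK K (Q q ^ m q) = C (algebraMap EntFun K (c q ^ m q)) * q ^ m q := by
      intro q _
      rw [toK_pow, hQ, mul_pow, map_pow, C_pow]
    have h2 : (toK K F).leadingCoeff = algebraMap EntFun K F.leadingCoeff :=
      leadingCoeff_map_of_injective (IsFractionRing.injective EntFun K) F
    rw [Finset.prod_congr rfl h1, Finset.prod_mul_distrib, map_prod, map_prod, ← h2]
    conv_lhs => rw [hfac]
    ring
  -- degrees
  have hdegF : F.natDegree = ∑ q ∈ S, m q * q.natDegree := by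
    rw [← natDegree_toK (K := K), hfac, natDegree_C_mul hlc, natDegree_prod _ _
      (fun q hq => pow_ne_zero _ (hS' q hq).2.ne_zero)]
    exact Finset.sum_congr rfl fun q _ => natDegree_pow _ _
  set R : EntFun[X] := ∏ q ∈ A, Q q with hR
  have hRdeg : R.natDegree = ∑ q ∈ A, q.natDegree := by
    rw [hR, natDegree_prod _ _ (fun q hq => hQ0 q (hAS q hq))]
    exact Finset.sum_congr rfl fun q _ => hQdeg q
  have hR0 : R ≠ 0 := Finset.prod_ne_zero_iff.mpr fun q hq => hQ0 q (hAS q hq)
  -- the factor of maximal multiplicity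
  obtain ⟨p₀, hp₀A, hp₀max⟩ := A.exists_max_image m hAne
  have hp₀S := hAS p₀ hp₀A
  have hρ : 0 < R.natDegree := by
    rw [hRdeg]
    exact (hS' p₀ hp₀S).2.natDegree_pos.trans_le
      (Finset.single_le_sum (f := fun q : K[X] => q.natDegree) (fun _ _ => Nat.zero_le _) hp₀A)
  set Sc : Finset K[X] := S.filter (fun q => ¬ Mov q) with hSc
  have hgoodQ : ∀ (a : ℂ), evC a F ≠ 0 → ∀ q ∈ S, evC a (Q q) ≠ 0 := by
    intro i hi q hq h0
    apply hi
    have h1 := congrArg (evC i) hfac'
    rw [evC_mul, evC_mul, evC_C, evC_C, evC_prod] at h1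
    have h2 : ∏ q ∈ S, evC i (Q q ^ m q) = 0 := by
      apply Finset.prod_eq_zero hq
      rw [evC_pow, h0, zero_pow (hS q hq).2.2.ne']
    rw [h2, mul_zero] at h1
    exact (mul_eq_zero.mp h1).resolve_left
      (Finset.prod_ne_zero_iff.mpr fun q _ => pow_ne_zero _ (hc q))
  refine ⟨R, m p₀, Sc.card, (hS p₀ hp₀S).2.2, hρ, ?_, ?_, ?_, ?_, ?_, ?_⟩
  · -- bad nodes
    intro B hB
    refine Finset.card_le_card_of_injOn (fun i => X - C (cK K (t i))) ?_ ?_
    · intro i hi
      have h1 : evC (t i) F = 0 := hB i hi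
      have h2 : (toK K F).eval (cK K (t i)) = 0 := by rw [toK_eval, h1, map_zero]
      rw [hfac, eval_mul, eval_C, eval_prod] at h2
      obtain ⟨q, hq, hq2⟩ := Finset.prod_eq_zero_iff.mp ((mul_eq_zero.mp h2).resolve_left hlc)
      rw [eval_pow] at hq2
      have h3 : q.eval (cK K (t i)) = 0 := by
        by_contra h
        exact pow_ne_zero _ h hq2
      have h4 := eq_X_sub_C_of_root (hS' q hq).1 (hS' q hq).2 h3
      have h5 : q ∈ Sc := Finset.mem_filter.mpr ⟨hq, fun h => h _ h3⟩
      rw [Finset.mem_coe]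
      rw [h4] at h5
      exact h5
    · intro i _ j _ hij
      have h1 : cK K (t i) = cK K (t j) := by
        have h2 := sub_right_injective hij
        exact C_injective h2
      exact ht (cK_injective h1)
  · -- the degree count
    have hsplit : ∑ q ∈ A, m q * q.natDegree + ∑ q ∈ Sc, m q * q.natDegree = F.natDegree := by
      rw [hdegF]
      exact Finset.sum_filter_add_sum_filter_not S Mov _
    have hpos : ∀ q ∈ S, q.natDegree ≤ m q * q.natDegree := fun q hq =>
      Nat.le_mul_of_pos_left _ (hS q hq).2.2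
    have h2 : Sc.card ≤ ∑ q ∈ Sc, m q * q.natDegree := by
      rw [Finset.card_eq_sum_ones]
      refine Finset.sum_le_sum fun q hq => ?_
      have hq' := (Finset.mem_filter.mp hq).1
      exact (hS' q hq').2.natDegree_pos.trans_le (hpos q hq')
    have h3 : ∑ q ∈ A.erase p₀, q.natDegree ≤ ∑ q ∈ A.erase p₀, m q * q.natDegree :=
      Finset.sum_le_sum fun q hq => hpos q (hAS q (Finset.mem_of_mem_erase hq))
    have h4 := Finset.add_sum_erase A (fun q => m q * q.natDegree) hp₀A
    have h5 := Finset.add_sum_erase A (fun q : K[X] => q.natDegree) hp₀A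
    have h6 : m p₀ + p₀.natDegree ≤ m p₀ * p₀.natDegree + 1 := by
      have h7 : 1 ≤ m p₀ := (hS p₀ hp₀S).2.2
      have h8 : 1 ≤ p₀.natDegree := (hS' p₀ hp₀S).2.natDegree_pos
      nlinarith
    omega
  · -- the resultant
    intro hres
    obtain ⟨q, hq, a, ha⟩ := exists_root_of_resultant_eq_zero (fun q hq => hS' q (hAS q hq))
      hc hQ hres
    exact (Finset.mem_filter.mp hq).2 a ha
  · -- values
    intro a ha
    rw [hR, evC_prod]
    exact Finset.prod_ne_zero_iff.mpr fun q hq => hgoodQ a ha q (hAS q hq)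
  · -- multiplicity
    refine ⟨p₀, (hS' p₀ hp₀S).2, ?_⟩
    rw [hfac]
    exact dvd_mul_of_dvd_right (Finset.dvd_prod_of_mem (fun q => q ^ m q) hp₀S) _
  · -- the local orders
    intro s
    obtain ⟨cF, G', e, P, hFG, hG'0, hP, hord⟩ := local_orders
      (leadingCoeff_ne_zero.mpr hF) (Finset.prod_ne_zero_iff.mpr fun q _ => pow_ne_zero _ (hc q))
      hF hQ0 hfac' s
    refine ⟨∑ q ∈ A, e q, cF, ∏ q ∈ A, P q, G', ?_, ?_, hFG, hG'0, ?_⟩
    · rw [hR, ← Finset.prod_pow_eq_pow_sum, map_prod, ← Finset.prod_mul_distrib]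
      exact Finset.prod_congr rfl fun q hq => (hP q (hAS q hq)).1
    · rw [Polynomial.map_prod]
      exact Finset.prod_ne_zero_iff.mpr fun q hq => (hP q (hAS q hq)).2
    intro x hx
    have hPne : ∀ q ∈ S, evC x (P q) ≠ 0 := by
      intro q hq h0
      apply hgoodQ x hx q hq
      rw [(hP q hq).1, evC_mul, h0, mul_zero]
    have hex : ∀ q, ∃ o : ℕ, q ∈ S →
        analyticOrderAt ((evC x (P q) : EntFun) : ℂ → ℂ) s = o := by
      intro q
      by_cases hq : q ∈ S
      · obtain ⟨N, hN⟩ := ENat.ne_top_iff_exists.mp (order_ne_top (hPne q hq) s)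
        exact ⟨N, fun _ => hN.symm⟩
      · exact ⟨0, fun h => absurd h hq⟩
    choose o ho using hex
    refine ⟨∑ q ∈ A, o q, ∑ q ∈ S, m q * o q, ?_, ?_, ?_⟩
    · rw [evC_prod, order_prod]
      push_cast
      exact Finset.sum_congr rfl fun q hq => ho q (hAS q hq)
    · rw [hord]
      push_cast
      exact Finset.sum_congr rfl fun q hq => by rw [ho q hq]
    -- the fixed factors do not contribute
    have hfix : ∀ q ∈ S, ¬ Mov q → o q = 0 := by
      intro q hqS hmovq
      simp only [hMov, not_forall, not_not] at hmovq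
      obtain ⟨a, ha⟩ := hmovq
      have h1 := hQc q hqS a ha
      have h2 : (Q q).map (ev s) ≠ 0 := by
        rw [h1]
        simp only [Polynomial.map_sub, map_X, map_C, ev_algebraMap]
        exact X_sub_C_ne_zero a
      have h3 : C (coord s ^ e q) * P q = C (coord s ^ 0) * Q q := by
        rw [← (hP q hqS).1]
        simp
      obtain ⟨-, h4⟩ := coord_pow_mul_unique (hP q hqS).2 h2 h3
      have h5 : evC x (P q) = algebraMap ℂ EntFun (x - a) := by
        rw [h4, h1]
        unfold evC
        simp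
      have h6 : x - a ≠ 0 := by
        intro h0
        apply hPne q hqS
        rw [h5, h0, map_zero]
      have h7 := ho q hqS
      rw [h5, (order_eq_zero_iff _ _).mpr (by simpa using h6)] at h7
      exact_mod_cast h7.symm
    have hsum : ∑ q ∈ S, m q * o q = ∑ q ∈ A, m q * o q := by
      symm
      apply Finset.sum_subset (Finset.filter_subset _ _)
      intro q hq hqA
      have : ¬ Mov q := fun h => hqA (Finset.mem_filter.mpr ⟨hq, h⟩)
      rw [hfix q hq this, mul_zero]
    rw [hsum]
    constructor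
    · exact Finset.sum_le_sum fun q hq => Nat.le_mul_of_pos_left _ (hS q (hAS q hq)).2.2
    · rw [Finset.mul_sum]
      exact Finset.sum_le_sum fun q hq => Nat.mul_le_mul_right _ (hp₀max q hq)

end Pool.Agent.H92.GGL
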