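import Pool.Agent.H92.GGL.PicardPrep
import Pool.Agent.H92.GGL.CoverRigid

/-!
# Growth of the values of a moving polynomial at a puncture
-/

open Polynomial Topology Filter

namespace Pool.Agent.H92.GGL

open Pool.Agent.H17

/-- Local holomorphic values of a polynomial which are proportional to `u`. -/
structure LocalLift {G : Type} [Fintype G] (t : G → ℂ) (ρ : ℕ) (θ : G → ℝ) (u : G → ℂ → ℂ)
    (i₀ : G) (s : ℂ) (ψ : G → ℂ → ℂ) : Prop where
  an : ∀ i, AnalyticAt ℂ (ψ i) s
  ne : ∀ i, ∀ᶠ z in 𝓝[≠] s, ψ i z ≠ 0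
  quot : ∀ᶠ z in 𝓝 s, ∀ i, u i z = ψ i z / ψ i₀ z
  poly : ∀ᶠ z in 𝓝 s, ∃ p : ℂ[X], p.natDegree ≤ ρ ∧ ∀ i, p.eval (t i) = ψ i z
  ne0 : ∃ i, ψ i s ≠ 0
  orb : ∑ i, indN (analyticOrderNatAt (ψ i) s) ≤ ∑ i, θ i * analyticOrderNatAt (ψ i) s

section

set_option linter.unusedSectionVars false

variable {G : Type} [Fintype G] [DecidableEq G] {t : G → ℂ} {ρ : ℕ} {θ : G → ℝ} {u : G → ℂ → ℂ}
  {i₀ : G} {s : ℂ} {ψ : G → ℂ → ℂ} {I : Finset G}

lemma LocalLift.interp_eval (h : LocalLift t ρ θ u i₀ s ψ) (ht : Function.Injective t)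
    (hI : I.card = ρ + 1) :
    ∀ᶠ z in 𝓝 s, ∀ i, (Lagrange.interpolate I t fun k => ψ k z).eval (t i) = ψ i z := by
  filter_upwards [h.poly] with z hz i
  obtain ⟨p, hp, hp'⟩ := hz
  rw [interp_eq ht hI hp fun i _ => hp' i, hp']

lemma LocalLift.interp_deriv_eval (h : LocalLift t ρ θ u i₀ s ψ) (ht : Function.Injective t)
    (hI : I.card = ρ + 1) :
    ∀ᶠ z in 𝓝 s, ∀ i, (Lagrange.interpolate I t fun k => deriv (ψ k) z).eval (t i) =
      deriv (ψ i) z := by
  filter_upwards [(h.interp_eval ht hI).eventually_nhds,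
    eventually_all.mpr fun i => (h.an i).eventually_analyticAt] with z hz han i
  have h1 : HasDerivAt (fun w => ∑ k ∈ I, ψ k w * (Lagrange.basis I t k).eval (t i))
      (∑ k ∈ I, deriv (ψ k) z * (Lagrange.basis I t k).eval (t i)) z := by
    refine HasDerivAt.fun_sum fun k _ => ?_
    exact (han k).differentiableAt.hasDerivAt.mul_const _
  have h2 : HasDerivAt (ψ i) (∑ k ∈ I, deriv (ψ k) z * (Lagrange.basis I t k).eval (t i)) z := by
    refine h1.congr_of_eventuallyEq ?_
    filter_upwards [hz] with w hw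
    rw [← hw i, Pool.Agent.H92.GGL.interp_eval]
  rw [Pool.Agent.H92.GGL.interp_eval, h2.deriv]

/-- The relation of the resultants. -/
lemma LocalLift.resultant_eq (h : LocalLift t ρ θ u i₀ s ψ) (ht : Function.Injective t)
    (hI : I.card = ρ + 1) :
    ∀ᶠ z in 𝓝[≠] s, resultant (Lagrange.interpolate I t fun k => u k z)
      (Lagrange.interpolate I t fun k => deriv (u k) z) ρ ρ * ψ i₀ z ^ (2 * ρ) =
      resultant (Lagrange.interpolate I t fun k => ψ k z)
        (Lagrange.interpolate I t fun k => deriv (ψ k) z) ρ ρ := by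
  filter_upwards [h.ne i₀, (mem_nhdsWithin_of_mem_nhds h.quot.eventually_nhds),
    (mem_nhdsWithin_of_mem_nhds (eventually_all.mpr fun i => (h.an i).eventually_analyticAt))]
    with z hz hq han
  have hq0 := fun i => hq.self_of_nhds i
  set a : ℂ := (ψ i₀ z)⁻¹ with ha
  set b : ℂ := -(deriv (ψ i₀) z / ψ i₀ z) with hb
  have hder : ∀ k, deriv (u k) z = a * (deriv (ψ k) z + b * ψ k z) := by
    intro k
    have h1 : u k =ᶠ[𝓝 z] fun w => ψ k w / ψ i₀ w := by
      filter_upwards [hq] with w hw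
      exact hw k
    rw [h1.deriv_eq]
    have h2 := ((han k).differentiableAt.hasDerivAt.fun_div (han i₀).differentiableAt.hasDerivAt
      hz).deriv
    rw [h2, ha, hb]
    field_simp
    ring
  have hP : (Lagrange.interpolate I t fun k => u k z) =
      C a * Lagrange.interpolate I t fun k => ψ k z := by
    have h1 : (fun k => u k z) = a • fun k => ψ k z := by
      funext k
      rw [Pi.smul_apply, smul_eq_mul, hq0 k, ha, div_eq_inv_mul]
    rw [h1, map_smul, smul_eq_C_mul]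
  have hQ : (Lagrange.interpolate I t fun k => deriv (u k) z) =
      C a * ((Lagrange.interpolate I t fun k => deriv (ψ k) z) +
        (Lagrange.interpolate I t fun k => ψ k z) * C b) := by
    have h1 : (fun k => deriv (u k) z) = a • ((fun k => deriv (ψ k) z) + b • fun k => ψ k z) := by
      funext k
      rw [Pi.smul_apply, Pi.add_apply, Pi.smul_apply, smul_eq_mul, smul_eq_mul, hder k]
    rw [h1, map_smul, map_add, map_smul, smul_eq_C_mul, smul_eq_C_mul, mul_comm (C b)]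
  rw [hP, hQ, resultant_C_mul_left, resultant_C_mul_right, resultant_add_mul_right]
  · rw [ha, inv_pow]
    have h1 : ψ i₀ z ^ (2 * ρ) = ψ i₀ z ^ ρ * ψ i₀ z ^ ρ := by
      rw [← pow_add]
      congr 1
      omega
    rw [h1]
    have h2 := pow_ne_zero ρ hz
    field_simp
  · rw [natDegree_C, zero_add]
  · exact interp_natDegree ht hI _

lemma LocalLift.meromorphicAt (h : LocalLift t ρ θ u i₀ s ψ) (i : G) : MeromorphicAt (u i) s := by
  refine ((h.an i).meromorphicAt.div (h.an i₀).meromorphicAt).congr ?_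
  filter_upwards [mem_nhdsWithin_of_mem_nhds h.quot] with z hz
  exact (hz i).symm

lemma LocalLift.order_ne_top (h : LocalLift t ρ θ u i₀ s ψ) (i : G) :
    meromorphicOrderAt (u i) s ≠ ⊤ := by
  rw [meromorphicOrderAt_ne_top_iff_eventually_ne_zero (h.meromorphicAt i)]
  filter_upwards [mem_nhdsWithin_of_mem_nhds h.quot, h.ne i, h.ne i₀] with z hz h1 h2
  rw [hz i]
  exact div_ne_zero h1 h2

lemma LocalLift.ordZ_eq (h : LocalLift t ρ θ u i₀ s ψ) (i : G) :
    ordZ (u i) s = (analyticOrderNatAt (ψ i) s : ℤ) - analyticOrderNatAt (ψ i₀) s := by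
  refine ordZ_div (h.an i) (h.an i₀) (h.ne i) (h.ne i₀) ?_
  filter_upwards [mem_nhdsWithin_of_mem_nhds h.quot] with z hz
  exact hz i

lemma LocalLift.order_eq (h : LocalLift t ρ θ u i₀ s ψ) (i : G) :
    (analyticOrderNatAt (ψ i) s : ℕ∞) = analyticOrderAt (ψ i) s := by
  apply Nat.cast_analyticOrderNatAt
  rw [Ne, analyticOrderAt_eq_top]
  intro hcon
  obtain ⟨z, h1, h2⟩ := ((h.ne i).and (mem_nhdsWithin_of_mem_nhds hcon)).exists
  exact h1 h2

/-- At most `ρ` of the values vanish. -/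
lemma LocalLift.card_le (h : LocalLift t ρ θ u i₀ s ψ) (ht : Function.Injective t) :
    (Finset.univ.filter fun i => analyticOrderNatAt (ψ i) s ≠ 0).card ≤ ρ := by
  classical
  obtain ⟨p, hp, hp'⟩ := h.poly.self_of_nhds
  obtain ⟨j, hj⟩ := h.ne0
  have hp0 : p ≠ 0 := by
    rintro rfl
    rw [← hp' j, eval_zero] at hj
    exact hj rfl
  by_contra hcon
  push Not at hcon
  apply hp0
  refine eq_zero_of_natDegree_lt_card_of_eval_eq_zero' _
    ((Finset.univ.filter fun i => analyticOrderNatAt (ψ i) s ≠ 0).image t) ?_ ?_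
  · intro x hx
    obtain ⟨i, hi, rfl⟩ := Finset.mem_image.mp hx
    rw [hp']
    have h1 := (Finset.mem_filter.mp hi).2
    by_contra h2
    apply h1
    have h3 := (h.an i).analyticOrderAt_eq_zero.mpr h2
    unfold analyticOrderNatAt
    rw [h3]
    rfl
  · rw [Finset.card_image_of_injective _ ht]
    omega

/-- The lower bound for the order of the resultant. -/
lemma LocalLift.ordZ_resultant (h : LocalLift t ρ θ u i₀ s ψ) (ht : Function.Injective t)
    (hI : I.card = ρ + 1) (hcard : 2 * ρ ≤ Fintype.card G) {g : ℂ → ℂ}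
    (hg : g = fun z => resultant (Lagrange.interpolate I t fun k => u k z)
      (Lagrange.interpolate I t fun k => deriv (u k) z) ρ ρ) (hgm : MeromorphicAt g s)
    (hgo : meromorphicOrderAt g s ≠ ⊤) :
    ((∑ i, (analyticOrderNatAt (ψ i) s - 1) : ℕ) : ℤ) -
      ((2 * ρ * analyticOrderNatAt (ψ i₀) s : ℕ) : ℤ) ≤ ordZ g s := by
  classical
  have hdec : ∀ i, ∃ v : ℂ → ℂ, AnalyticAt ℂ v s ∧ v s ≠ 0 ∧
      ∀ᶠ z in 𝓝 s, ψ i z = (z - s) ^ analyticOrderNatAt (ψ i) s * v z := by
    intro i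
    have h1 := (h.order_eq i).symm
    rw [(h.an i).analyticOrderAt_eq_natCast] at h1
    exact h1
  choose v hv hv0 hψv using hdec
  obtain ⟨B, hB0, hB⟩ := resultant_local' t ht hcard
    (P := fun z => Lagrange.interpolate I t fun k => ψ k z)
    (Q := fun z => Lagrange.interpolate I t fun k => deriv (ψ k) z)
    (fun z => interp_natDegree ht hI _) (fun z => interp_natDegree ht hI _) h.an
    (h.interp_eval ht hI) (h.interp_deriv_eval ht hI) hv hψv ((h.card_le ht).trans (by omega))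
  refine le_ordZ_of_bound (h := fun z => v i₀ z ^ (2 * ρ)) (B := B) hgm hgo ((hv i₀).pow _)
    (pow_ne_zero _ (hv0 i₀)) ?_
  filter_upwards [hB, h.resultant_eq ht hI, mem_nhdsWithin_of_mem_nhds (hψv i₀)] with z h1 h2 h3
  have h4 : (z - s) ^ (2 * ρ * analyticOrderNatAt (ψ i₀) s) * v i₀ z ^ (2 * ρ) =
      ψ i₀ z ^ (2 * ρ) := by
    rw [h3, mul_pow, ← pow_mul, mul_comm (2 * ρ)]
  rw [h4, ← norm_mul, hg]
  simp only
  rw [h2]
  exact h1

/-- **The core theorem.** -/
theorem growth_core (ht : Function.Injective t) (hρ : 0 < ρ) (hθ0 : ∀ i, 0 ≤ θ i)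
    (hnum : ∑ i, θ i + 2 * ρ < Fintype.card G) {R₀ : ℝ} (hR₀ : 0 < R₀)
    (hone : ∀ z, u i₀ z ≠ 0 → u i₀ z = 1)
    (hloc : ∀ s, 0 < ‖s‖ → ‖s‖ < R₀ → ∃ ψ, LocalLift t ρ θ u i₀ s ψ)
    {z₀ : ℂ} (hz₀ : 0 < ‖z₀‖) (hz₀' : ‖z₀‖ < R₀) {ψ₀ : G → ℂ → ℂ}
    (hψ₀ : LocalLift t ρ θ u i₀ z₀ ψ₀)
    (hsq : ∃ p : ℂ[X], p.natDegree = ρ ∧ Squarefree p ∧ ∀ i, p.eval (t i) = ψ₀ i z₀)
    (hconst : ∀ a : ℂ, ¬ ∀ᶠ z in 𝓝 z₀, ∃ p : ℂ[X], p.natDegree ≤ ρ ∧
      (∀ i, p.eval (t i) = ψ₀ i z) ∧ p.eval a = 0) (j : G) :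
    ∃ (ε M : ℝ) (m : ℕ), 0 < ε ∧ 0 ≤ M ∧ ∀ z, 0 < ‖z‖ → ‖z‖ < ε →
      0 ≤ meromorphicOrderAt (u j) z ∧ (AnalyticAt ℂ (u j) z → ‖u j z‖ * ‖z‖ ^ m ≤ M) := by
  classical
  have hne : Nonempty G := ⟨i₀⟩
  have hsumθ : 0 ≤ ∑ i, θ i := Finset.sum_nonneg fun i _ => hθ0 i
  have h2ρ : 2 * ρ < Fintype.card G := by
    have : (2 * ρ : ℝ) < Fintype.card G := by linarith
    exact_mod_cast this
  obtain ⟨I, -, hI⟩ := Finset.exists_superset_card_eq (s := (∅ : Finset G)) (n := ρ + 1)
    (by simp) (by omega)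
  obtain ⟨κ, α, hκ0, hκ2, hα, hhom⟩ := exists_params (Nat.cast_nonneg ρ) hnum
  obtain ⟨C₀, hC₀, hbd⟩ := weight_bound t ht hκ0 hκ2 hθ0 hhom h2ρ.le
  set g : ℂ → ℂ := fun z => resultant (Lagrange.interpolate I t fun k => u k z)
    (Lagrange.interpolate I t fun k => deriv (u k) z) ρ ρ with hg
  -- meromorphy
  have hum : ∀ i z, 0 < ‖z‖ → ‖z‖ < R₀ → MeromorphicAt (u i) z := by
    intro i z h1 h2
    obtain ⟨ψ, hψ⟩ := hloc z h1 h2
    exact hψ.meromorphicAt i
  have huo : ∀ i z, 0 < ‖z‖ → ‖z‖ < R₀ → meromorphicOrderAt (u i) z ≠ ⊤ := by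
    intro i z h1 h2
    obtain ⟨ψ, hψ⟩ := hloc z h1 h2
    exact hψ.order_ne_top i
  have hgm : ∀ z, 0 < ‖z‖ → ‖z‖ < R₀ → MeromorphicAt g z := by
    intro z h1 h2
    refine resultant_meromorphicAt (fun k => ?_) (fun k => ?_) _ _
    · simp only [interp_coeff]
      exact MeromorphicAt.fun_sum fun i _ => (hum i z h1 h2).mul (MeromorphicAt.const _ z)
    · simp only [interp_coeff]
      exact MeromorphicAt.fun_sum fun i _ => (hum i z h1 h2).deriv.mul (MeromorphicAt.const _ z)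
  -- `g` does not vanish identically
  have hgo : ∀ z, 0 < ‖z‖ → ‖z‖ < R₀ → meromorphicOrderAt g z ≠ ⊤ := by
    intro z h1 h2
    have hm : MeromorphicOn g {z : ℂ | 0 < ‖z‖ ∧ ‖z‖ < R₀} := fun w hw => hgm w hw.1 hw.2
    refine hm.meromorphicOrderAt_ne_top_of_isPreconnected (isPreconnected_punctured R₀)
      (x := z₀) ⟨hz₀, hz₀'⟩ ⟨h1, h2⟩ ?_
    intro htop
    rw [meromorphicOrderAt_eq_top_iff] at htop
    -- the resultant of the local lift vanishes
    set P : ℂ → ℂ[X] := fun z => Lagrange.interpolate I t fun k => ψ₀ k z with hP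
    set Q : ℂ → ℂ[X] := fun z => Lagrange.interpolate I t fun k => deriv (ψ₀ k) z with hQ
    have hPan : ∀ k, AnalyticAt ℂ (fun z => (P z).coeff k) z₀ := by
      intro k
      simp only [hP, interp_coeff]
      exact Finset.analyticAt_fun_sum _ fun i _ => (hψ₀.an i).mul analyticAt_const
    have hQan : ∀ k, AnalyticAt ℂ (fun z => (Q z).coeff k) z₀ := by
      intro k
      simp only [hQ, interp_coeff]
      exact Finset.analyticAt_fun_sum _ fun i _ => (hψ₀.an i).deriv.mul analyticAt_const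
    have hRan : AnalyticAt ℂ (fun z => resultant (P z) (Q z) ρ ρ) z₀ :=
      resultant_analyticAt hPan hQan _ _
    have hres' : ∀ᶠ z in 𝓝[≠] z₀, resultant (P z) (Q z) ρ ρ = 0 := by
      filter_upwards [htop, hψ₀.resultant_eq ht hI] with w hw1 hw2
      have h3 : resultant (Lagrange.interpolate I t fun k => u k w)
        (Lagrange.interpolate I t fun k => deriv (u k) w) ρ ρ = 0 := hw1
      rw [h3, zero_mul] at hw2
      exact hw2.symm
    have hres : ∀ᶠ z in 𝓝 z₀, resultant (P z) (Q z) ρ ρ = 0 := by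
      rcases hRan.eventually_eq_zero_or_eventually_ne_zero with h | h
      · exact h
      · obtain ⟨w, hw1, hw2⟩ := (hres'.and h).exists
        exact absurd hw1 hw2
    obtain ⟨p₀, hp₀deg, hp₀sq, hp₀⟩ := hsq
    have hPz₀ : P z₀ = p₀ := by
      simp only [hP]
      exact interp_eq ht hI hp₀deg.le fun i _ => hp₀ i
    obtain ⟨a, ha⟩ := exists_const_root hPan (fun z => interp_natDegree ht hI _)
      (by rw [hPz₀]; exact hp₀deg) (by rw [hPz₀]; exact hp₀sq)
      (fun z => interp_natDegree ht hI _) (by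
        filter_upwards [eventually_all.mpr fun i => (hψ₀.an i).eventually_analyticAt] with w hw k
        simp only [hP, interp_coeff]
        have h3 : HasDerivAt (fun z => ∑ i ∈ I, ψ₀ i z * (Lagrange.basis I t i).coeff k)
            (∑ i ∈ I, deriv (ψ₀ i) w * (Lagrange.basis I t i).coeff k) w := by
          refine HasDerivAt.fun_sum fun i _ => ?_
          exact (hw i).differentiableAt.hasDerivAt.mul_const _
        exact h3.deriv.symm) hres
    refine hconst a ?_
    filter_upwards [ha, hψ₀.interp_eval ht hI] with w hw1 hw2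
    exact ⟨P w, interp_natDegree ht hI _, hw2, hw1⟩
  refine growth_of_weights (β := fun i => (2 - κ) * (1 - θ i)) (ρ := ρ) (g := g) (u := u)
    (i₀ := i₀) hκ0 hα hρ hR₀ hum huo hgm hgo hone hC₀ ?_ ?_ j
  · -- the pointwise bound
    intro z h1 h2 hz
    have hgan : AnalyticAt ℂ g z := by
      refine resultant_analyticAt (fun k => ?_) (fun k => ?_) _ _
      · simp only [interp_coeff]
        exact Finset.analyticAt_fun_sum _ fun i _ => (hz i).1.mul analyticAt_const
      · simp only [interp_coeff]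
        exact Finset.analyticAt_fun_sum _ fun i _ => (hz i).1.deriv.mul analyticAt_const
    refine ⟨hgan, ?_⟩
    obtain ⟨ψ, hψ⟩ := hloc z h1 h2
    have hu : ∀ᶠ w in 𝓝 z, ∀ i, (Lagrange.interpolate I t fun k => u k w).eval (t i) = u i w := by
      filter_upwards [hψ.interp_eval ht hI, hψ.quot] with w hw1 hw2 i
      have h3 : (fun k => u k w) = (ψ i₀ w)⁻¹ • fun k => ψ k w := by
        funext k
        rw [Pi.smul_apply, smul_eq_mul, hw2 k, div_eq_inv_mul]
      rw [h3, map_smul, eval_smul, hw1, hw2 i, smul_eq_mul, div_eq_inv_mul]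
    have hdu : ∀ i, (Lagrange.interpolate I t fun k => deriv (u k) z).eval (t i) =
        deriv (u i) z := by
      intro i
      have h3 : HasDerivAt (fun w => ∑ k ∈ I, u k w * (Lagrange.basis I t k).eval (t i))
          (∑ k ∈ I, deriv (u k) z * (Lagrange.basis I t k).eval (t i)) z := by
        refine HasDerivAt.fun_sum fun k _ => ?_
        exact (hz k).1.differentiableAt.hasDerivAt.mul_const _
      have h4 : HasDerivAt (u i) (∑ k ∈ I, deriv (u k) z * (Lagrange.basis I t k).eval (t i)) z := by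
        refine h3.congr_of_eventuallyEq ?_
        filter_upwards [hu] with w hw
        rw [← hw i, interp_eval]
      rw [interp_eval, h4.deriv]
    exact hbd _ _ u g z (interp_natDegree ht hI _) (interp_natDegree ht hI _)
      (fun i => hu.self_of_nhds i) hdu rfl (fun i => (hz i).2)
  · -- the local condition
    intro s h1 h2 j'
    obtain ⟨ψ, hψ⟩ := hloc s h1 h2
    set o : G → ℕ := fun i => analyticOrderNatAt (ψ i) s with ho
    have h3 := hψ.ordZ_resultant ht hI h2ρ.le hg (hgm s h1 h2) (hgo s h1 h2)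
    have h4 : ((∑ i, (o i - 1) : ℕ) : ℝ) - 2 * ρ * o i₀ ≤ ordZ g s := by
      have : (((∑ i, (o i - 1) : ℕ) : ℤ) - ((2 * ρ * o i₀ : ℕ) : ℤ) : ℝ) ≤ ordZ g s := by
        exact_mod_cast h3
      push_cast at this ⊢
      exact this
    have hu : ∀ i, (ordZ (u i) s : ℝ) = o i - o i₀ := by
      intro i
      rw [hψ.ordZ_eq i]
      push_cast
      rfl
    have e1 : ((∑ i, (o i - 1) : ℕ) : ℝ) = ∑ i, (o i : ℝ) - ∑ i, indN (o i) := by
      rw [Nat.cast_sum, ← Finset.sum_sub_distrib]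
      refine Finset.sum_congr rfl fun i _ => ?_
      rcases Nat.eq_zero_or_pos (o i) with h | h
      · rw [h, indN_zero]
        simp
      · rw [indN_of_ne h.ne', Nat.cast_sub h]
        simp
    have e2 : ∑ i, indN (o i) ≤ ∑ i, (o i : ℝ) := by
      refine Finset.sum_le_sum fun i _ => ?_
      rcases Nat.eq_zero_or_pos (o i) with h | h
      · rw [h, indN_zero]
        simp
      · rw [indN_of_ne h.ne']
        exact_mod_cast h
    have e3 : ∑ i, (2 - κ) * (1 - θ i) * (ordZ (u i) s : ℝ) =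
        (2 - κ) * (∑ i, (o i : ℝ) - ∑ i, θ i * o i) -
          (2 - κ) * (Fintype.card G - ∑ i, θ i) * o i₀ := by
      have h5 : ∀ i, (2 - κ) * (1 - θ i) * (ordZ (u i) s : ℝ) =
          (2 - κ) * o i - (2 - κ) * (θ i * o i) - ((2 - κ) * o i₀ * 1 - (2 - κ) * o i₀ * θ i) := by
        intro i
        rw [hu i]
        ring
      rw [Finset.sum_congr rfl fun i _ => h5 i, Finset.sum_sub_distrib, Finset.sum_sub_distrib,
        Finset.sum_sub_distrib, ← Finset.mul_sum, ← Finset.mul_sum, ← Finset.mul_sum,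
        ← Finset.mul_sum, Finset.sum_const, Finset.card_univ, nsmul_eq_mul]
      ring
    have h6 : ∑ i, indN (o i) ≤ ∑ i, θ i * o i := hψ.orb
    rw [e3, hu j', ← hhom]
    rw [e1] at h4
    have h7 : 0 ≤ κ * α * (o j' : ℝ) := by positivity
    have h8 : 0 < 2 - κ := by linarith
    have h9 := mul_le_mul_of_nonneg_left h6 h8.le
    have h10 := mul_le_mul_of_nonneg_left e2 hκ0.le
    nlinarith

end

end Pool.Agent.H92.GGL
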