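import Pool.Agent.H92.GGL.CasWei
import Pool.Agent.H99.Cover.Basic

/-!
# Extension of a holomorphic map into the total space across a puncture
-/

open Topology Filter

namespace Pool.Agent.H92.GGL

open Pool.Agent.H99.Cover (Coord Rel Tot mk mk_eq_mk exists_mk puncturedDisc HolomorphicInto)

/-- **Extension criterion.** -/
theorem exists_extension {N : ℕ} {ι : Type} [Fintype ι] {e k : ι → ℕ} (hk : ∀ l, 0 < k l)
    {f : ℂ → Tot N e} (hf : HolomorphicInto f puncturedDisc)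
    (B : ι → MvPolynomial (Fin (N + 1)) ℂ) (hB : ∀ l, (B l).IsHomogeneous (k l * e l))
    (hfB : ∀ z ∈ puncturedDisc, ∀ (q : Coord N ι) (hq : q.1 ≠ 0), f z = mk e q hq →
      ∀ l, q.2 l ^ k l = MvPolynomial.eval q.1 (B l))
    {j₀ : Fin (N + 1)} {ε M : ℝ} {m : ℕ} (hε : 0 < ε) (hε1 : ε ≤ 1)
    (hgr : ∀ z, 0 < ‖z‖ → ‖z‖ < ε → ∀ (q : Coord N ι) (hq : q.1 ≠ 0), f z = mk e q hq →
      q.1 j₀ ≠ 0 ∧ ∀ j, ‖q.1 j / q.1 j₀‖ * ‖z‖ ^ m ≤ M) :
    ∃ g : ℂ → Tot N e, HolomorphicInto g (Metric.ball 0 1) ∧ ∀ z ∈ puncturedDisc, g z = f z := by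
  classical
  choose q hq hfq using fun z => exists_mk (f z)
  set ξ : Fin (N + 1) → ℂ → ℂ := fun j z => (q z).1 j / (q z).1 j₀ with hξ
  set η : ι → ℂ → ℂ := fun l z => (q z).2 l / (q z).1 j₀ ^ e l with hη
  have hmem : ∀ z : ℂ, 0 < ‖z‖ → ‖z‖ < ε → z ∈ puncturedDisc := by
    intro z h1 h2
    refine ⟨by rw [mem_ball_zero_iff]; exact h2.trans_le hε1, ?_⟩
    rw [Set.mem_singleton_iff]
    exact norm_pos_iff.mp h1
  -- independence of the representative
  have hind : ∀ z (q' : Coord N ι) (hq' : q'.1 ≠ 0), f z = mk e q' hq' → 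
      (∀ j, ξ j z = q'.1 j / q'.1 j₀) ∧ ∀ l, η l z = q'.2 l / q'.1 j₀ ^ e l := by
    intro z q' hq' h1
    rw [hfq z, mk_eq_mk] at h1
    obtain ⟨c, hc, h2, h3⟩ := h1
    constructor
    · intro j
      simp only [hξ]
      rw [h2 j, h2 j₀, mul_div_mul_left _ _ hc]
    · intro l
      simp only [hη]
      rw [h3 l, h2 j₀, mul_pow, mul_div_mul_left _ _ (pow_ne_zero _ hc)]
  have hξan : ∀ z₀, 0 < ‖z₀‖ → ‖z₀‖ < ε → (∀ j, AnalyticAt ℂ (ξ j) z₀) ∧
      ∀ l, AnalyticAt ℂ (η l) z₀ := by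
    intro z₀ h1 h2
    obtain ⟨φ, hφ, hφf⟩ := hf z₀ (hmem z₀ h1 h2)
    have hφ1 : ∀ i, AnalyticAt ℂ (fun z => (φ z).1 i) z₀ := fun i =>
      (analyticAt_pi_iff.mp (analyticAt_fst.comp hφ)) i
    have hφ2 : ∀ i, AnalyticAt ℂ (fun z => (φ z).2 i) z₀ := fun i =>
      (analyticAt_pi_iff.mp (analyticAt_snd.comp hφ)) i
    obtain ⟨h3, h4⟩ := hφf.self_of_nhds
    have h5 := (hgr z₀ h1 h2 _ h3 h4).1
    constructor
    · intro j
      refine ((hφ1 j).div (hφ1 j₀) h5).congr ?_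
      filter_upwards [hφf] with z hz
      obtain ⟨h6, h7⟩ := hz
      exact ((hind z _ h6 h7).1 j).symm
    · intro l
      refine ((hφ2 l).div ((hφ1 j₀).fun_pow (e l)) (pow_ne_zero (e l) h5)).congr ?_
      filter_upwards [hφf] with z hz
      obtain ⟨h6, h7⟩ := hz
      exact ((hind z _ h6 h7).2 l).symm
  have hq0 : ∀ z, 0 < ‖z‖ → ‖z‖ < ε → (q z).1 j₀ ≠ 0 := fun z h1 h2 =>
    (hgr z h1 h2 _ (hq z) (hfq z)).1
  -- the holomorphic functions `w j = z ^ m ξ j`
  have hw : ∀ j, ∃ w : ℂ → ℂ, AnalyticAt ℂ w 0 ∧ ∀ z, z ≠ 0 → w z = z ^ m * ξ j z := by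
    intro j
    refine meromorphicAt_of_bounded (u := fun z => z ^ m * ξ j z) (M := M) hε ?_ ?_
    · intro z h1 h2
      exact (analyticAt_id.pow m).mul ((hξan z h1 h2).1 j)
    · intro z h1 h2
      have := (hgr z h1 h2 _ (hq z) (hfq z)).2 j
      rw [norm_mul, norm_pow, mul_comm]
      exact this
  choose w hwan hw using hw
  -- the minimal order
  obtain ⟨j₁, -, hj₁⟩ := (Finset.univ : Finset (Fin (N + 1))).exists_min_image
    (fun j => analyticOrderAt (w j) 0) ⟨j₀, Finset.mem_univ _⟩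
  have hwj₀ : ∀ᶠ z in 𝓝[≠] (0 : ℂ), w j₀ z = z ^ m := by
    filter_upwards [punctured_mem hε] with z hz
    rw [hw j₀ z (norm_pos_iff.mp hz.1)]
    simp only [hξ]
    rw [div_self (hq0 z hz.1 hz.2), mul_one]
  have hpm : ∀ n : ℕ, AnalyticAt ℂ (fun z : ℂ => z ^ n) 0 := fun n => by fun_prop
  have hwj₀' : ∀ᶠ z in 𝓝 (0 : ℂ), w j₀ z = z ^ m := by
    rcases ((hwan j₀).fun_sub (hpm m)).eventually_eq_zero_or_eventually_ne_zero
      with h | h
    · filter_upwards [h] with z hz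
      exact sub_eq_zero.mp hz
    · obtain ⟨z, h1, h2⟩ := (h.and hwj₀).exists
      exact absurd (sub_eq_zero.mpr h2) h1
  have hord0 : analyticOrderAt (w j₀) 0 ≤ m := by
    have h1 : analyticOrderAt (w j₀) 0 = (m : ℕ∞) := by
      rw [(hwan j₀).analyticOrderAt_eq_natCast]
      refine ⟨fun _ => 1, analyticAt_const, one_ne_zero, ?_⟩
      filter_upwards [hwj₀'] with z hz
      rw [hz]
      simp
    rw [h1]
  have hj₁m : analyticOrderAt (w j₁) 0 ≤ m := (hj₁ j₀ (Finset.mem_univ _)).trans hord0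
  obtain ⟨n, hn⟩ : ∃ n : ℕ, (n : ℕ∞) = analyticOrderAt (w j₁) 0 :=
    ENat.ne_top_iff_exists.mp (ne_top_of_le_ne_top (ENat.natCast_ne_top m) hj₁m)
  have hnm : n ≤ m := by
    rw [← hn] at hj₁m
    exact_mod_cast hj₁m
  have hv : ∀ j, ∃ v : ℂ → ℂ, AnalyticAt ℂ v 0 ∧ ∀ᶠ z in 𝓝 (0 : ℂ), w j z = z ^ n * v z := by
    intro j
    have h1 : (n : ℕ∞) ≤ analyticOrderAt (w j) 0 := by
      rw [hn]
      exact hj₁ j (Finset.mem_univ _)
    obtain ⟨v, hv, hv'⟩ := (natCast_le_analyticOrderAt (hwan j)).mp h1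
    refine ⟨v, hv, ?_⟩
    filter_upwards [hv'] with z hz
    simpa using hz
  choose v hvan hv using hv
  have hv1 : v j₁ 0 ≠ 0 := by
    intro h0
    have h1 : (n : ℕ∞) + 1 ≤ analyticOrderAt (w j₁) 0 := by
      have h2 : 1 ≤ analyticOrderAt (v j₁) 0 := by
        rw [Order.one_le_iff_ne_zero, Ne, (hvan j₁).analyticOrderAt_eq_zero, not_not]
        exact h0
      have h3 : analyticOrderAt (w j₁) 0 = n + analyticOrderAt (v j₁) 0 := by
        have h4 : w j₁ =ᶠ[𝓝 0] (fun z : ℂ => z ^ n) * v j₁ := hv j₁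
        rw [analyticOrderAt_congr h4, analyticOrderAt_mul (hpm n) (hvan j₁)]
        congr 1
        rw [(hpm n).analyticOrderAt_eq_natCast]
        exact ⟨fun _ => 1, analyticAt_const, one_ne_zero, Eventually.of_forall fun z => by simp⟩
      rw [h3]
      gcongr
    rw [← hn] at h1
    have h2 : n + 1 ≤ n := by exact_mod_cast h1
    omega
  -- the relation of `v` and `ξ`
  obtain ⟨δ, hδ, hδε, hvξ⟩ : ∃ δ : ℝ, 0 < δ ∧ δ ≤ ε ∧ ∀ z, 0 < ‖z‖ → ‖z‖ < δ →
      ∀ j, v j z = z ^ (m - n) * ξ j z := by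
    obtain ⟨δ, hδ, hδv⟩ := Metric.eventually_nhds_iff.mp (eventually_all.mpr hv)
    refine ⟨min δ ε, lt_min hδ hε, min_le_right _ _, fun z h1 h2 j => ?_⟩
    have h3 := hδv (y := z) (by simpa using h2.trans_le (min_le_left _ _)) j
    have hz0 : z ≠ 0 := norm_pos_iff.mp h1
    rw [hw j z hz0] at h3
    have h4 : z ^ m = z ^ n * z ^ (m - n) := by
      rw [← pow_add]
      congr 1
      omega
    rw [h4, mul_assoc] at h3
    exact (mul_left_cancel₀ (pow_ne_zero n hz0) h3).symm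
  -- the functions `y`
  have hyex : ∀ l, ∃ y : ℂ → ℂ, AnalyticAt ℂ y 0 ∧
      ∀ z, z ≠ 0 → y z = z ^ ((m - n) * e l) * η l z := by
    intro l
    have hBan : AnalyticAt ℂ (fun z => MvPolynomial.eval (fun j => v j z) (B l)) 0 := by
      have h1 := AnalyticAt.aeval_mvPolynomial hvan (B l)
      simpa [MvPolynomial.coe_aeval_eq_eval] using h1
    have hbd : ∀ᶠ z in 𝓝 (0 : ℂ), ‖MvPolynomial.eval (fun j => v j z) (B l)‖ <
        ‖MvPolynomial.eval (fun j => v j 0) (B l)‖ + 1 :=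
      hBan.continuousAt.norm.eventually_lt continuousAt_const (by simp)
    obtain ⟨δ', hδ', hδ'B⟩ := Metric.eventually_nhds_iff.mp hbd
    set C := ‖MvPolynomial.eval (fun j => v j 0) (B l)‖ + 1 with hC
    refine meromorphicAt_of_bounded (u := fun z => z ^ ((m - n) * e l) * η l z)
      (ε := min δ δ') (M := max 1 C) (lt_min hδ hδ') ?_ ?_
    · intro z h1 h2
      have h3 : ‖z‖ < ε := h2.trans_le ((min_le_left _ _).trans hδε)
      exact (analyticAt_id.pow _).mul ((hξan z h1 h3).2 l)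
    · intro z h1 h2
      have h3 : ‖z‖ < δ := h2.trans_le (min_le_left _ _)
      have h4 : ‖z‖ < ε := h3.trans_le hδε
      have h5 : (z ^ ((m - n) * e l) * η l z) ^ k l =
          MvPolynomial.eval (fun j => v j z) (B l) := by
        have h6 : (fun j => v j z) = fun j => (z ^ (m - n) / (q z).1 j₀) * (q z).1 j := by
          funext j
          rw [hvξ z h1 h3 j]
          simp only [hξ]
          ring
        rw [h6, Pool.Agent.H17.eval_smul_of_isHomogeneous (hB l),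
          ← hfB z (hmem z h1 h4) _ (hq z) (hfq z) l]
        simp only [hη]
        rw [mul_pow, div_pow, div_pow, ← pow_mul, ← pow_mul, ← pow_mul]
        have h7 := hq0 z h1 h4
        have h8 : (m - n) * e l * k l = (m - n) * (k l * e l) := by ring
        have h9 : e l * k l = k l * e l := by ring
        rw [h8, h9]
        field_simp
      have h6 := hδ'B (y := z) (by simpa using h2.trans_le (min_le_right _ _))
      rw [← h5, norm_pow] at h6
      by_contra hcon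
      push Not at hcon
      have h7 : 1 < ‖z ^ ((m - n) * e l) * η l z‖ := (le_max_left _ _).trans_lt hcon
      have h8 : C < ‖z ^ ((m - n) * e l) * η l z‖ := (le_max_right _ _).trans_lt hcon
      have h9 : ‖z ^ ((m - n) * e l) * η l z‖ ≤ ‖z ^ ((m - n) * e l) * η l z‖ ^ k l :=
        le_self_pow₀ h7.le (hk l).ne'
      linarith
  choose y hyan hy using hyex
  -- the extension
  have hv0 : (fun j => v j 0) ≠ 0 := fun h => hv1 (congrFun h j₁)
  set g : ℂ → Tot N e := Function.update f 0 (mk e (fun j => v j 0, fun l => y l 0) hv0) with hg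
  have hgf : ∀ z, z ≠ 0 → g z = f z := fun z hz => by
    rw [hg, Function.update_of_ne hz]
  refine ⟨g, ?_, fun z hz => hgf z fun h => hz.2 (by simp [h])⟩
  intro z₀ hz₀
  by_cases h0 : z₀ = 0
  · subst h0
    refine ⟨fun z => (fun j => v j z, fun l => y l z),
      (analyticAt_pi_iff.mpr hvan).prod (analyticAt_pi_iff.mpr hyan), ?_⟩
    have h1 : ∀ᶠ z in 𝓝 (0 : ℂ), v j₁ z ≠ 0 := (hvan j₁).continuousAt.eventually_ne hv1
    have h2 : ∀ᶠ z in 𝓝 (0 : ℂ), ‖z‖ < δ := by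
      filter_upwards [Metric.ball_mem_nhds (0 : ℂ) hδ] with z hz
      simpa using hz
    filter_upwards [h1, h2] with z h3 h4
    have h5 : (fun j => v j z) ≠ 0 := fun h => h3 (congrFun h j₁)
    refine ⟨h5, ?_⟩
    by_cases hz : z = 0
    · subst hz
      rw [hg, Function.update_self]
    · have hz1 : 0 < ‖z‖ := norm_pos_iff.mpr hz
      have h6 := hq0 z hz1 (h4.trans_le hδε)
      rw [hgf z hz, hfq z, mk_eq_mk]
      refine ⟨z ^ (m - n) / (q z).1 j₀, div_ne_zero (pow_ne_zero _ hz) h6, fun j => ?_,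
        fun l => ?_⟩
      · change v j z = _
        rw [hvξ z hz1 h4 j]
        simp only [hξ]
        ring
      · change y l z = _
        rw [hy l z hz]
        simp only [hη]
        rw [div_pow, ← pow_mul]
        ring
  · obtain ⟨φ, hφ, hφf⟩ := hf z₀ ⟨hz₀, by simpa using h0⟩
    refine ⟨φ, hφ, ?_⟩
    have h1 : ∀ᶠ z in 𝓝 z₀, z ∈ ({0}ᶜ : Set ℂ) := isOpen_compl_singleton.mem_nhds h0
    filter_upwards [hφf, h1] with z hz hz'
    rw [hgf z hz']
    exact hz

end Pool.Agent.H92.GGL
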