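import Pool.Agent.H92.GGL.Disc
import Pool.Agent.H99.Cover.Basic

/-!
# Weighted homogeneous discriminants
-/

open Polynomial

namespace Pool.Agent.H92.GGL

open Pool.Agent.H17 Pool.Agent.H17.EntFun

/-- The discriminant of a family of weighted homogeneous polynomials is weighted homogeneous. -/
lemma discN_isWeightedHomogeneous {σ : Type*} {w : σ → ℕ} {d n : ℕ} {F : (MvPolynomial σ ℂ)[X]}
    (hF : ∀ k, MvPolynomial.IsWeightedHomogeneous w (F.coeff k) d) :
    MvPolynomial.IsWeightedHomogeneous w (discN n F) ((n + (n - 1)) * d) := by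
  unfold discN resultant
  rw [Matrix.det_apply]
  refine MvPolynomial.IsWeightedHomogeneous.sum _ _ _ fun σ _ => ?_
  have h1 : MvPolynomial.IsWeightedHomogeneous w
      (∏ i, sylvester F (derivative F) n (n - 1) (σ i) i) (∑ _i : Fin (n + (n - 1)), d) := by
    refine MvPolynomial.IsWeightedHomogeneous.prod _ _ _ fun i _ => ?_
    unfold sylvester
    rw [Matrix.of_apply]
    induction i using Fin.addCases with
    | left i =>
      rw [Fin.addCases_left]
      split_ifs
      · rw [coeff_derivative]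
        have h2 := (hF (((σ (Fin.castAdd (n - 1) i) : Fin (n + (n - 1))) : ℕ) - (i : ℕ) + 1)).mul
          (MvPolynomial.isWeightedHomogeneous_C w
            ((((((σ (Fin.castAdd (n - 1) i) : Fin (n + (n - 1))) : ℕ) - (i : ℕ) : ℕ) : ℂ) + 1)))
        rw [add_zero] at h2
        simpa using h2
      · exact MvPolynomial.isWeightedHomogeneous_zero _ _ _
    | right i =>
      rw [Fin.addCases_right]
      split_ifs
      · exact hF _
      · exact MvPolynomial.isWeightedHomogeneous_zero _ _ _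
  rw [Finset.sum_const, Finset.card_univ, Fintype.card_fin, smul_eq_mul] at h1
  rcases Int.units_eq_one_or (Equiv.Perm.sign σ) with h | h
  · rw [h, one_smul]
    exact h1
  · rw [h, Units.neg_smul, one_smul]
    exact h1.neg

open Pool.Agent.H99.Cover (Coord Rel Tot mk mk_eq_mk exists_mk weights VanishesAt)

/-- Weighted homogeneous polynomials under the action of the multiplicative group. -/
lemma eval_of_isWeightedHomogeneous {N n : ℕ} {ι : Type} {e : ι → ℕ}
    {P : MvPolynomial (Fin (N + 1) ⊕ ι) ℂ}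
    (hP : MvPolynomial.IsWeightedHomogeneous (weights N e) P n) {q q' : Coord N ι} {c : ℂ}
    (h1 : ∀ i, q'.1 i = c * q.1 i) (h2 : ∀ l, q'.2 l = c ^ e l * q.2 l) :
    MvPolynomial.eval (Sum.elim q'.1 q'.2) P = c ^ n * MvPolynomial.eval (Sum.elim q.1 q.2) P := by
  classical
  have h3 : ∀ i, Sum.elim q'.1 q'.2 i = c ^ weights N e i * Sum.elim q.1 q.2 i := by
    rintro (i | l)
    · simp only [Sum.elim_inl, weights, pow_one]
      exact h1 i
    · simp only [Sum.elim_inr, weights]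
      exact h2 l
  rw [MvPolynomial.eval_eq, MvPolynomial.eval_eq, Finset.mul_sum]
  refine Finset.sum_congr rfl fun m hm => ?_
  have h4 : Finsupp.weight (weights N e) m = n := hP (MvPolynomial.mem_support_iff.mp hm)
  have h5 : ∏ i ∈ m.support, Sum.elim q'.1 q'.2 i ^ m i =
      c ^ n * ∏ i ∈ m.support, Sum.elim q.1 q.2 i ^ m i := by
    rw [Finset.prod_congr rfl fun i _ => by rw [h3 i, mul_pow], Finset.prod_mul_distrib]
    congr 1
    rw [← h4, Finsupp.weight_apply, Finsupp.sum, ← Finset.prod_pow_eq_pow_sum]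
    refine Finset.prod_congr rfl fun i _ => ?_
    rw [← pow_mul, smul_eq_mul, mul_comm]
  rw [h5]
  ring

lemma vanishesAt_mk {N n : ℕ} {ι : Type} {e : ι → ℕ}
    {P : MvPolynomial (Fin (N + 1) ⊕ ι) ℂ}
    (hP : MvPolynomial.IsWeightedHomogeneous (weights N e) P n) (q : Coord N ι) (hq : q.1 ≠ 0) :
    VanishesAt P (mk e q hq) ↔ MvPolynomial.eval (Sum.elim q.1 q.2) P = 0 := by
  constructor
  · intro h
    exact h q hq rfl
  · intro h q' hq' heq
    obtain ⟨c, hc, h1, h2⟩ := mk_eq_mk.mp heq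
    rw [eval_of_isWeightedHomogeneous hP h1 h2, h, mul_zero]

/-- The generic polynomial with coefficients the forms `∑ j, b j k x j ^ d`. -/
noncomputable def genPoly {σ : Type} {N : ℕ} (r d : ℕ) (b : Fin (N + 1) → Fin (r + 1) → ℂ)
    (v : Fin (N + 1) → σ) : (MvPolynomial σ ℂ)[X] :=
  polyOf fun k : Fin (r + 1) => ∑ j, MvPolynomial.C (b j k) * MvPolynomial.X (v j) ^ d

lemma genPoly_coeff {σ : Type} {N : ℕ} {r d : ℕ} {b : Fin (N + 1) → Fin (r + 1) → ℂ}
    {v : Fin (N + 1) → σ} {w : σ → ℕ} (hw : ∀ j, w (v j) = 1) (k : ℕ) :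
    MvPolynomial.IsWeightedHomogeneous w ((genPoly r d b v).coeff k) d := by
  by_cases hk : k < r + 1
  · have h1 := polyOf_coeff (fun k : Fin (r + 1) =>
      ∑ j, MvPolynomial.C (b j k) * (MvPolynomial.X (v j) : MvPolynomial σ ℂ) ^ d) ⟨k, hk⟩
    rw [show ((⟨k, hk⟩ : Fin (r + 1)) : ℕ) = k from rfl] at h1
    unfold genPoly
    rw [h1]
    refine MvPolynomial.IsWeightedHomogeneous.sum _ _ _ fun j _ => ?_
    have h2 := (MvPolynomial.isWeightedHomogeneous_C w (b j ⟨k, hk⟩)).mul
      ((MvPolynomial.isWeightedHomogeneous_X ℂ w (v j)).pow d)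
    rw [hw, zero_add, smul_eq_mul, mul_one] at h2
    exact h2
  · unfold genPoly
    rw [Polynomial.coeff_eq_zero_of_natDegree_lt]
    · exact MvPolynomial.isWeightedHomogeneous_zero _ _ _
    · exact (natDegree_polyOf _).trans_lt (by omega)

lemma genPoly_map {σ : Type} {N : ℕ} {r d : ℕ} {t : Fin (N + 1) → ℂ}
    {b : Fin (N + 1) → Fin (r + 1) → ℂ}
    (hb : ∀ (a : Fin (r + 1) → ℂ) k, a k = ∑ j, b j k * evMap r t a j)
    {v : Fin (N + 1) → σ} {x : σ → ℂ} {a : Fin (r + 1) → ℂ}
    (ha : ∀ j, evMap r t a j = x (v j) ^ d) :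
    (genPoly r d b v).map (MvPolynomial.eval x) = polyOf a := by
  unfold genPoly
  rw [polyOf_map]
  congr 1
  funext k
  rw [hb a k]
  simp only [map_sum, map_mul, map_pow, MvPolynomial.eval_C, MvPolynomial.eval_X]
  exact Finset.sum_congr rfl fun j _ => by rw [ha]

lemma genPoly_eval {σ : Type} {N : ℕ} {r d : ℕ} {t : Fin (N + 1) → ℂ}
    {b : Fin (N + 1) → Fin (r + 1) → ℂ}
    (hb : ∀ (a : Fin (r + 1) → ℂ) k, a k = ∑ j, b j k * evMap r t a j)
    {v : Fin (N + 1) → σ} {x : σ → ℂ} {a : Fin (r + 1) → ℂ}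
    (ha : ∀ j, evMap r t a j = x (v j) ^ d) (c : ℂ) :
    MvPolynomial.eval x ((genPoly r d b v).eval (MvPolynomial.C c)) = (polyOf a).eval c := by
  rw [← genPoly_map hb ha, eval_map, ← Polynomial.eval₂_hom]
  simp

lemma genPoly_eval_isWeightedHomogeneous {σ : Type} {N : ℕ} {r d : ℕ}
    {b : Fin (N + 1) → Fin (r + 1) → ℂ}
    {v : Fin (N + 1) → σ} {w : σ → ℕ} (hw : ∀ j, w (v j) = 1) (c : ℂ) :
    MvPolynomial.IsWeightedHomogeneous w ((genPoly r d b v).eval (MvPolynomial.C c)) d := by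
  rw [eval_eq_sum_range]
  refine MvPolynomial.IsWeightedHomogeneous.sum _ _ _ fun k _ => ?_
  have h2 := (genPoly_coeff (r := r) (d := d) (b := b) hw k).mul
    ((MvPolynomial.isWeightedHomogeneous_C w c).pow k)
  rw [smul_zero, add_zero] at h2
  exact h2

end Pool.Agent.H92.GGL
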