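import Pool.Agent.H92.GGL.PicardRoots
import Pool.Agent.H92.GGL.PicardExtend
import Pool.Agent.H92.GGL.WDisc
import Pool.Agent.H92.GGL.CurveRigid

/-!
# Extension of holomorphic maps from the punctured disc into multiple covers
-/

open Polynomial Topology Filter

namespace Pool.Agent.H92.GGL

open Pool.Agent.H17
open Pool.Agent.H99.Cover (Coord Rel Tot mk mk_eq_mk exists_mk puncturedDisc HolomorphicInto)

/-! ### Orders of vanishing -/

lemma analyticOrderNatAt_eq_zero_of_ne {f : ℂ → ℂ} {s : ℂ} (hf : AnalyticAt ℂ f s) (h : f s ≠ 0) :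
    analyticOrderNatAt f s = 0 := by
  unfold analyticOrderNatAt
  rw [hf.analyticOrderAt_eq_zero.mpr h]
  rfl

lemma analyticOrderNatAt_pow' {f : ℂ → ℂ} {s : ℂ} (hf : AnalyticAt ℂ f s) (n : ℕ) :
    analyticOrderNatAt (fun z => f z ^ n) s = n * analyticOrderNatAt f s := by
  unfold analyticOrderNatAt
  have h1 : (fun z => f z ^ n) = f ^ n := rfl
  rw [h1, analyticOrderAt_pow hf, nsmul_eq_mul, ENat.toNat_mul]
  simp

lemma analyticOrderNatAt_prod' {κ : Type} (S : Finset κ) {f : κ → ℂ → ℂ} {s : ℂ}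
    (hf : ∀ i ∈ S, AnalyticAt ℂ (f i) s) (hf0 : ∀ i ∈ S, analyticOrderAt (f i) s ≠ ⊤) :
    analyticOrderAt (fun z => ∏ i ∈ S, f i z) s ≠ ⊤ ∧
      analyticOrderNatAt (fun z => ∏ i ∈ S, f i z) s = ∑ i ∈ S, analyticOrderNatAt (f i) s := by
  classical
  induction S using Finset.induction_on with
  | empty =>
    have h1 : analyticOrderAt (fun _ : ℂ => (1 : ℂ)) s = 0 :=
      analyticAt_const.analyticOrderAt_eq_zero.mpr one_ne_zero
    simp only [Finset.prod_empty, Finset.sum_empty]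
    refine ⟨by rw [h1]; exact ENat.zero_ne_top, ?_⟩
    unfold analyticOrderNatAt
    rw [h1]
    rfl
  | insert a S ha ih =>
    have h1 := ih (fun i hi => hf i (Finset.mem_insert_of_mem hi))
      (fun i hi => hf0 i (Finset.mem_insert_of_mem hi))
    have h2 : (fun z => ∏ i ∈ insert a S, f i z) = f a * fun z => ∏ i ∈ S, f i z := by
      funext z
      rw [Finset.prod_insert ha]
      rfl
    have h3 : AnalyticAt ℂ (fun z => ∏ i ∈ S, f i z) s :=
      Finset.analyticAt_fun_prod _ fun i hi => hf i (Finset.mem_insert_of_mem hi)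
    have h4 := analyticOrderAt_mul (hf a (Finset.mem_insert_self a S)) h3
    have h5 := hf0 a (Finset.mem_insert_self a S)
    refine ⟨?_, ?_⟩
    · rw [h2, h4]
      exact WithTop.add_ne_top.mpr ⟨h5, h1.1⟩
    · rw [Finset.sum_insert ha, ← h1.2]
      unfold analyticOrderNatAt
      rw [h2, h4, ENat.toNat_add h5 h1.1]

/-- The local condition in a block. -/
lemma block_local_an {T : Type} {r k : ℕ} (hk : 0 < k) {τ : T → ℂ} (hτ : Function.Injective τ)
    {Φ : ℂ → ℂ[X]} {s : ℂ} (hΦ : ∀ k, AnalyticAt ℂ (fun z => (Φ z).coeff k) s)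
    (hΦr : ∀ z, (Φ z).natDegree ≤ r) (hΦs : Φ s ≠ 0) (J : Finset T)
    {y : ℂ → ℂ} (hy : AnalyticAt ℂ y s) (hy0 : analyticOrderAt y s ≠ ⊤)
    (hyk : ∀ᶠ z in 𝓝 s, ∏ i ∈ J, (Φ z).eval (τ i) = y z ^ k) :
    ∑ i ∈ J, indN (analyticOrderNatAt (fun z => (Φ z).eval (τ i)) s) ≤
      ∑ i ∈ J, blockWeight r J.card k *
        (analyticOrderNatAt (fun z => (Φ z).eval (τ i)) s : ℝ) := by
  classical
  have han : ∀ a, AnalyticAt ℂ (fun z => (Φ z).eval a) s := eval_analyticAt hΦ hΦr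
  set o : T → ℕ := fun i => analyticOrderNatAt (fun z => (Φ z).eval (τ i)) s with ho
  rw [← card_filter_ne_zero J o]
  set S := J.filter fun i => o i ≠ 0 with hS
  have hynz : ∀ᶠ z in 𝓝[≠] s, y z ≠ 0 := by
    rcases hy.eventually_eq_zero_or_eventually_ne_zero with h | h
    · exact absurd (analyticOrderAt_eq_top.mpr h) hy0
    · exact h
  have hne : ∀ i ∈ J, analyticOrderAt (fun z => (Φ z).eval (τ i)) s ≠ ⊤ := by
    intro i hi htop
    rw [analyticOrderAt_eq_top] at htop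
    obtain ⟨z, h1, h2, h3⟩ := (hynz.and ((htop.filter_mono nhdsWithin_le_nhds).and
      (hyk.filter_mono nhdsWithin_le_nhds))).exists
    have h4 : ∏ i ∈ J, (Φ z).eval (τ i) = 0 := Finset.prod_eq_zero hi h2
    have h5 : ∏ i ∈ J, (Φ z).eval (τ i) = y z ^ k := h3
    rw [h4] at h5
    exact pow_ne_zero k h1 h5.symm
  have hsum : ∑ i ∈ J, o i = k * analyticOrderNatAt y s := by
    rw [← (analyticOrderNatAt_prod' J (fun i _ => han (τ i)) hne).2, ← analyticOrderNatAt_pow' hy k]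
    unfold analyticOrderNatAt
    rw [analyticOrderAt_congr hyk]
  have h1 : S.card ≤ ∑ i ∈ J, o i := by
    rw [hS, Finset.card_eq_sum_ones, Finset.sum_filter]
    refine Finset.sum_le_sum fun i _ => ?_
    split_ifs with h
    · omega
    · omega
  have hzero : ∀ i, o i ≠ 0 → (Φ s).eval (τ i) = 0 := by
    intro i hi
    by_contra h
    exact hi (analyticOrderNatAt_eq_zero_of_ne (han _) h)
  have h2 : S.card ≤ r := by
    by_contra hcon
    push Not at hcon
    apply hΦs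
    refine eq_zero_of_natDegree_lt_card_of_eval_eq_zero' _ (S.image τ) ?_ ?_
    · intro a ha
      obtain ⟨i, hi, rfl⟩ := Finset.mem_image.mp ha
      exact hzero i (Finset.mem_filter.mp hi).2
    · rw [Finset.card_image_of_injective _ hτ]
      exact (hΦr s).trans_lt hcon
  have h3 : S.card ≤ J.card := Finset.card_le_card (Finset.filter_subset _ _)
  rw [← Finset.mul_sum, ← Nat.cast_sum, hsum]
  set n := analyticOrderNatAt y s with hn
  rcases Nat.eq_zero_or_pos n with h0 | hpos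
  · rw [hsum, h0, mul_zero] at h1
    have : S.card = 0 := by omega
    rw [this, h0]
    simp
  · have hkR : (0 : ℝ) < k := by exact_mod_cast hk
    have hyR : (1 : ℝ) ≤ n := by exact_mod_cast hpos
    unfold blockWeight
    rcases le_total 1 (((min r J.card : ℕ) : ℝ) / k) with h | h
    · rw [min_eq_left h, one_mul]
      rw [hsum] at h1
      exact_mod_cast h1
    · rw [min_eq_right h]
      have h4 : (S.card : ℝ) ≤ ((min r J.card : ℕ) : ℝ) := by exact_mod_cast le_min h2 h3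
      have h5 : ((min r J.card : ℕ) : ℝ) / k * ((k * n : ℕ) : ℝ) =
          (min r J.card : ℕ) * n := by
        push_cast
        field_simp
      rw [h5]
      have h6 : (0 : ℝ) ≤ (min r J.card : ℕ) := Nat.cast_nonneg _
      nlinarith

/-- The weights of the nodes. -/
noncomputable def nodeWeight {ν ι T : Type} [Fintype T] [DecidableEq ι] (r d : ℕ)
    (β : T → Option ι) (k : ι → ℕ) : ν ⊕ T → ℝ :=
  Sum.elim (fun _ => 1 / (d : ℝ)) fun i => (β i).elim 0 fun l =>
    blockWeight r (Finset.univ.filter fun i => β i = some l).card (k l)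

lemma nodeWeight_nonneg {ν ι T : Type} [Fintype T] [DecidableEq ι] (r d : ℕ)
    (β : T → Option ι) (k : ι → ℕ) (i : ν ⊕ T) : 0 ≤ nodeWeight r d β k i := by
  rcases i with i | i
  · simp only [nodeWeight, Sum.elim_inl]
    positivity
  · simp only [nodeWeight, Sum.elim_inr]
    rcases β i with _ | l
    · exact le_rfl
    · exact blockWeight_nonneg _ _ _

lemma sum_blocks {ι T : Type} [Fintype ι] [Fintype T] [DecidableEq ι] (β : T → Option ι)
    (g : T → ℝ) : ∑ i, g i = ∑ i ∈ Finset.univ.filter (fun i => β i = none), g i +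
      ∑ l, ∑ i ∈ Finset.univ.filter (fun i => β i = some l), g i := by
  rw [← Finset.sum_fiberwise Finset.univ β g, Fintype.sum_option]

/-- The numerical condition. -/
lemma nodeWeight_sum {ν ι T : Type} [Fintype ν] [Fintype ι] [Fintype T] [DecidableEq ι]
    {r d : ℕ} {β : T → Option ι} {k : ι → ℕ}
    (hnum : 2 * (r : ℝ) < Fintype.card ν * (1 - 1 / (d : ℝ)) +
      (Finset.univ.filter fun i => β i = none).card +
      ∑ l, (Finset.univ.filter fun i => β i = some l).card *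
        (1 - blockWeight r (Finset.univ.filter fun i => β i = some l).card (k l))) :
    ∑ i : ν ⊕ T, nodeWeight r d β k i + 2 * r < Fintype.card (ν ⊕ T) := by
  classical
  set J : ι → Finset T := fun l => Finset.univ.filter fun i => β i = some l with hJ
  set O : Finset T := Finset.univ.filter fun i => β i = none with hOdef
  rw [Fintype.sum_sum_type, Fintype.card_sum]
  simp only [nodeWeight, Sum.elim_inl, Sum.elim_inr]
  have hJθ : ∀ l, ∀ i ∈ J l, ((β i).elim 0 fun l => blockWeight r (J l).card (k l)) =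
      blockWeight r (J l).card (k l) := by
    intro l i hi
    have h1 : β i = some l := (Finset.mem_filter.mp hi).2
    simp only [h1, Option.elim_some]
  have hOθ : ∀ i ∈ O, ((β i).elim 0 fun l => blockWeight r (J l).card (k l)) = 0 := by
    intro i hi
    have h1 : β i = none := (Finset.mem_filter.mp hi).2
    simp only [h1, Option.elim_none]
  have h1 : ∑ i, ((β i).elim 0 fun l => blockWeight r (J l).card (k l)) =
      ∑ l, ((J l).card : ℝ) * blockWeight r (J l).card (k l) := by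
    rw [sum_blocks β, Finset.sum_eq_zero hOθ, zero_add]
    refine Finset.sum_congr rfl fun l _ => ?_
    rw [Finset.sum_congr rfl (hJθ l), Finset.sum_const, nsmul_eq_mul]
  have h2 : (Fintype.card T : ℝ) = O.card + ∑ l, ((J l).card : ℝ) := by
    have h3 := sum_blocks β fun _ => 1
    simpa using h3
  have h4 : ∑ l, ((J l).card : ℝ) * (1 - blockWeight r (J l).card (k l)) =
      ∑ l, ((J l).card : ℝ) - ∑ l, ((J l).card : ℝ) * blockWeight r (J l).card (k l) := by
    rw [← Finset.sum_sub_distrib]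
    exact Finset.sum_congr rfl fun l _ => by ring
  have h5 : 2 * (r : ℝ) < Fintype.card ν * (1 - 1 / (d : ℝ)) + O.card +
    ∑ l, ((J l).card : ℝ) * (1 - blockWeight r (J l).card (k l)) := hnum
  rw [h4] at h5
  have h6 : ∑ i, ((β i).elim 0 fun l => blockWeight r
      (Finset.univ.filter fun i => β i = some l).card (k l)) =
      ∑ l, ((J l).card : ℝ) * blockWeight r (J l).card (k l) := h1
  rw [h6, Finset.sum_const, Finset.card_univ, nsmul_eq_mul]
  push_cast
  rw [h2]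
  linarith

/-- The orbifold condition at a point. -/
lemma orbifold_an {ν ι T : Type} [Fintype ν] [Fintype ι] [Fintype T] [DecidableEq ι]
    {r d : ℕ} (hd : 0 < d) {t : ν → ℂ} {τ : T → ℂ} (hτ : Function.Injective τ)
    {β : T → Option ι} {k : ι → ℕ} (hk : ∀ l, 0 < k l)
    {Φ : ℂ → ℂ[X]} {s : ℂ} (hΦ : ∀ k, AnalyticAt ℂ (fun z => (Φ z).coeff k) s)
    (hΦr : ∀ z, (Φ z).natDegree ≤ r) (hΦs : Φ s ≠ 0)
    {x : ν → ℂ → ℂ} (hx : ∀ j, AnalyticAt ℂ (x j) s)
    (hxd : ∀ᶠ z in 𝓝 s, ∀ j, (Φ z).eval (t j) = x j z ^ d)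
    (hO : ∀ i, β i = none → (Φ s).eval (τ i) ≠ 0)
    {y : ι → ℂ → ℂ} (hy : ∀ l, AnalyticAt ℂ (y l) s) (hy0 : ∀ l, analyticOrderAt (y l) s ≠ ⊤)
    (hyk : ∀ᶠ z in 𝓝 s, ∀ l,
      ∏ i ∈ Finset.univ.filter (fun i => β i = some l), (Φ z).eval (τ i) = y l z ^ k l) :
    ∑ i : ν ⊕ T, indN (analyticOrderNatAt (fun z => (Φ z).eval (Sum.elim t τ i)) s) ≤
      ∑ i : ν ⊕ T, nodeWeight r d β k i *
        (analyticOrderNatAt (fun z => (Φ z).eval (Sum.elim t τ i)) s : ℝ) := by
  classical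
  have han : ∀ a, AnalyticAt ℂ (fun z => (Φ z).eval a) s := eval_analyticAt hΦ hΦr
  rw [Fintype.sum_sum_type, Fintype.sum_sum_type]
  simp only [Sum.elim_inl, Sum.elim_inr, nodeWeight]
  refine add_le_add ?_ ?_
  · refine Finset.sum_le_sum fun j _ => ?_
    have h1 : analyticOrderNatAt (fun z => (Φ z).eval (t j)) s =
        d * analyticOrderNatAt (x j) s := by
      rw [← analyticOrderNatAt_pow' (hx j)]
      unfold analyticOrderNatAt
      rw [analyticOrderAt_congr (hxd.mono fun z hz => hz j)]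
    rw [h1]
    rcases Nat.eq_zero_or_pos (analyticOrderNatAt (x j) s) with h | h
    · rw [h, mul_zero, indN_zero]
      simp
    · rw [indN_of_ne (by positivity)]
      have h2 : (1 : ℝ) ≤ analyticOrderNatAt (x j) s := by exact_mod_cast h
      have h3 : 1 / (d : ℝ) * ((d * analyticOrderNatAt (x j) s : ℕ) : ℝ) =
          analyticOrderNatAt (x j) s := by
        have hdR : (0 : ℝ) < d := by exact_mod_cast hd
        push_cast
        field_simp
      rw [h3]
      exact h2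
  · rw [sum_blocks β, sum_blocks β]
    refine add_le_add ?_ ?_
    · refine Finset.sum_le_sum fun i hi => ?_
      have h1 : β i = none := (Finset.mem_filter.mp hi).2
      have h2 := analyticOrderNatAt_eq_zero_of_ne (han (τ i)) (hO i h1)
      rw [h2, indN_zero]
      simp
    · refine Finset.sum_le_sum fun l _ => ?_
      have h1 := block_local_an (r := r) (hk l) hτ hΦ hΦr hΦs
        (Finset.univ.filter fun i => β i = some l) (hy l) (hy0 l) (hyk.mono fun z hz => hz l)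
      refine h1.trans (le_of_eq ?_)
      refine Finset.sum_congr rfl fun i hi => ?_
      have h2 : β i = some l := (Finset.mem_filter.mp hi).2
      simp only [h2, Option.elim_some]

/-! ### The polynomial attached to a point -/

/-- The polynomial with the values `w j ^ d` at the nodes. -/
noncomputable def repPoly {N : ℕ} (r d : ℕ) (b : Fin (N + 1) → Fin (r + 1) → ℂ)
    (w : Fin (N + 1) → ℂ) : ℂ[X] :=
  polyOf fun k : Fin (r + 1) => ∑ j, b j k * w j ^ d

lemma natDegree_repPoly {N : ℕ} (r d : ℕ) (b : Fin (N + 1) → Fin (r + 1) → ℂ)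
    (w : Fin (N + 1) → ℂ) : (repPoly r d b w).natDegree ≤ r := natDegree_polyOf _

lemma repPoly_eq {N r d : ℕ} {t : Fin (N + 1) → ℂ} {b : Fin (N + 1) → Fin (r + 1) → ℂ}
    (hb : ∀ (a : Fin (r + 1) → ℂ) k, a k = ∑ j, b j k * evMap r t a j) {w : Fin (N + 1) → ℂ}
    {F : ℂ[X]} (hF : F.natDegree ≤ r) (hw : ∀ j, w j ^ d = F.eval (t j)) :
    repPoly r d b w = F := by
  unfold repPoly
  rw [← polyOf_coeff_eq hF]
  congr 1
  funext k
  rw [hb (fun k => F.coeff k) k]
  refine Finset.sum_congr rfl fun j _ => ?_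
  rw [evMap_apply, polyOf_coeff_eq hF, hw j]

lemma repPoly_smul {N r d : ℕ} {b : Fin (N + 1) → Fin (r + 1) → ℂ} {w w' : Fin (N + 1) → ℂ}
    {c : ℂ} (h : ∀ j, w' j = c * w j) : repPoly r d b w' = C (c ^ d) * repPoly r d b w := by
  ext n
  rw [coeff_C_mul]
  unfold repPoly
  by_cases hn : n < r + 1
  · have h1 := polyOf_coeff (fun k : Fin (r + 1) => ∑ j, b j k * w' j ^ d) ⟨n, hn⟩
    have h2 := polyOf_coeff (fun k : Fin (r + 1) => ∑ j, b j k * w j ^ d) ⟨n, hn⟩
    rw [show ((⟨n, hn⟩ : Fin (r + 1)) : ℕ) = n from rfl] at h1 h2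
    rw [h1, h2, Finset.mul_sum]
    refine Finset.sum_congr rfl fun j _ => ?_
    rw [h j]
    ring
  · rw [coeff_eq_zero_of_natDegree_lt ((natDegree_polyOf _).trans_lt (by omega)),
      coeff_eq_zero_of_natDegree_lt ((natDegree_polyOf _).trans_lt (by omega)), mul_zero]

lemma repPoly_coeff_analyticAt {N r d : ℕ} {b : Fin (N + 1) → Fin (r + 1) → ℂ}
    {w : ℂ → Fin (N + 1) → ℂ} {s : ℂ} (hw : ∀ j, AnalyticAt ℂ (fun z => w z j) s) (n : ℕ) :
    AnalyticAt ℂ (fun z => (repPoly r d b (w z)).coeff n) s := by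
  unfold repPoly
  by_cases hn : n < r + 1
  · have h1 : ∀ z, (polyOf fun k : Fin (r + 1) => ∑ j, b j k * w z j ^ d).coeff n =
        ∑ j, b j ⟨n, hn⟩ * w z j ^ d := by
      intro z
      have h1 := polyOf_coeff (fun k : Fin (r + 1) => ∑ j, b j k * w z j ^ d) ⟨n, hn⟩
      rw [show ((⟨n, hn⟩ : Fin (r + 1)) : ℕ) = n from rfl] at h1
      exact h1
    simp only [h1]
    exact Finset.analyticAt_fun_sum _ fun j _ => analyticAt_const.mul ((hw j).fun_pow d)
  · have h1 : ∀ z, (polyOf fun k : Fin (r + 1) => ∑ j, b j k * w z j ^ d).coeff n = 0 := by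
      intro z
      exact coeff_eq_zero_of_natDegree_lt ((natDegree_polyOf _).trans_lt (by omega))
    simp only [h1]
    exact analyticAt_const

/-! ### The extension theorem -/

/-- **Pseudo Picard property of the multiple covers.** -/
theorem extension_of_cover {N : ℕ} {ι T : Type} [Fintype ι] [Fintype T] [DecidableEq ι]
    {r d : ℕ} (hd : 0 < d) {t : Fin (N + 1) → ℂ} {τ : T → ℂ}
    (hinj : Function.Injective (Sum.elim t τ)) {β : T → Option ι} {k e : ι → ℕ}
    (hk : ∀ l, 0 < k l)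
    (hnum : 2 * (r : ℝ) < (N + 1) * (1 - 1 / (d : ℝ)) +
      (Finset.univ.filter fun i => β i = none).card +
      ∑ l, (Finset.univ.filter fun i => β i = some l).card *
        (1 - blockWeight r (Finset.univ.filter fun i => β i = some l).card (k l)))
    {b : Fin (N + 1) → Fin (r + 1) → ℂ}
    (hb : ∀ (a : Fin (r + 1) → ℂ) k, a k = ∑ j, b j k * evMap r t a j)
    (B : ι → MvPolynomial (Fin (N + 1)) ℂ) (hB : ∀ l, (B l).IsHomogeneous (k l * e l))
    {f : ℂ → Tot N e} (hf : HolomorphicInto f puncturedDisc)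
    (hfX : ∀ z ∈ puncturedDisc, ∀ (q : Coord N ι) (hq : q.1 ≠ 0), f z = mk e q hq →
      ∃ F : ℂ[X], F.natDegree ≤ r ∧ (∀ j, q.1 j ^ d = F.eval (t j)) ∧
        (∀ l, q.2 l ^ k l = MvPolynomial.eval q.1 (B l)) ∧
        (∀ l, q.2 l ^ k l =
          ∏ i ∈ Finset.univ.filter (fun i => β i = some l), F.eval (τ i)) ∧
        ∀ i, β i = none → F.eval (τ i) ≠ 0)
    {z₀ : ℂ} (hz₀ : z₀ ∈ puncturedDisc) {q₀ : Coord N ι} {hq₀ : q₀.1 ≠ 0}
    (hfz₀ : f z₀ = mk e q₀ hq₀) {F₀ : ℂ[X]} (hF₀deg : F₀.natDegree = r) (hF₀sq : Squarefree F₀)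
    (hF₀ : ∀ j, q₀.1 j ^ d = F₀.eval (t j)) (hy₀ : ∀ l, q₀.2 l ≠ 0) :
    ∃ g : ℂ → Tot N e, HolomorphicInto g (Metric.ball 0 1) ∧ ∀ z ∈ puncturedDisc, g z = f z := by
  classical
  have hmem : ∀ z : ℂ, z ∈ puncturedDisc ↔ 0 < ‖z‖ ∧ ‖z‖ < 1 := by
    intro z
    unfold puncturedDisc
    rw [Set.mem_sdiff, mem_ball_zero_iff, Set.mem_singleton_iff, norm_pos_iff]
    tauto
  have hτ : Function.Injective τ := fun i j h => by
    have := @hinj (Sum.inr i) (Sum.inr j) (by simpa using h)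
    simpa using this
  choose q hq hfq using fun z => exists_mk (f z)
  set F : ℂ → ℂ[X] := fun z => repPoly r d b (q z).1 with hF
  -- the properties of the representatives
  have hrep : ∀ z, 0 < ‖z‖ → ‖z‖ < 1 → ∀ (q : Coord N ι) (hq : q.1 ≠ 0), f z = mk e q hq →
      (∀ j, q.1 j ^ d = (repPoly r d b q.1).eval (t j)) ∧
      (∀ l, q.2 l ^ k l = MvPolynomial.eval q.1 (B l)) ∧
      (∀ l, q.2 l ^ k l = ∏ i ∈ Finset.univ.filter (fun i => β i = some l),
        (repPoly r d b q.1).eval (τ i)) ∧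
      (∀ i, β i = none → (repPoly r d b q.1).eval (τ i) ≠ 0) ∧ repPoly r d b q.1 ≠ 0 := by
    intro z h1 h2 q hq h3
    obtain ⟨G, h4, h5, h6, h7, h8⟩ := hfX z ((hmem z).mpr ⟨h1, h2⟩) q hq h3
    rw [repPoly_eq hb h4 h5]
    refine ⟨h5, h6, h7, h8, ?_⟩
    rintro rfl
    apply hq
    funext j
    have h9 := h5 j
    rw [eval_zero] at h9
    exact (pow_eq_zero_iff hd.ne').mp h9
  -- proportionality
  have hprop : ∀ z (q' : Coord N ι) (hq' : q'.1 ≠ 0), f z = mk e q' hq' →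
      ∃ c : ℂ, c ≠ 0 ∧ (∀ j, (q z).1 j = c * q'.1 j) ∧ (∀ l, (q z).2 l = c ^ e l * q'.2 l) ∧
        F z = C (c ^ d) * repPoly r d b q'.1 := by
    intro z q' hq' h1
    rw [hfq z, mk_eq_mk] at h1
    obtain ⟨c, hc, h2, h3⟩ := h1.symm
    exact ⟨c, hc, h2, h3, repPoly_smul h2⟩
  -- the local lifts
  have hlift : ∀ s, 0 < ‖s‖ → ‖s‖ < 1 → ∃ φ : ℂ → Coord N ι, AnalyticAt ℂ φ s ∧
      (∀ᶠ z in 𝓝 s, 0 < ‖z‖ ∧ ‖z‖ < 1 ∧ ∃ h : (φ z).1 ≠ 0, f z = mk e (φ z) h) := by
    intro s h1 h2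
    obtain ⟨φ, hφ, hφf⟩ := hf s ((hmem s).mpr ⟨h1, h2⟩)
    refine ⟨φ, hφ, ?_⟩
    filter_upwards [hφf, (isOpen_punctured 1).mem_nhds (show s ∈ {z : ℂ | 0 < ‖z‖ ∧ ‖z‖ < 1} from
      ⟨h1, h2⟩)] with z h3 h4
    exact ⟨h4.1, h4.2, h3⟩
  have hφ1 : ∀ {s : ℂ} {φ : ℂ → Coord N ι}, AnalyticAt ℂ φ s → ∀ i,
      AnalyticAt ℂ (fun z => (φ z).1 i) s := fun hφ i =>
    (analyticAt_pi_iff.mp (analyticAt_fst.comp hφ)) i
  have hφ2 : ∀ {s : ℂ} {φ : ℂ → Coord N ι}, AnalyticAt ℂ φ s → ∀ i,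
      AnalyticAt ℂ (fun z => (φ z).2 i) s := fun hφ i =>
    (analyticAt_pi_iff.mp (analyticAt_snd.comp hφ)) i
  have hlifts : HasLifts r 1 F := by
    intro s h1 h2
    obtain ⟨φ, hφ, hφf⟩ := hlift s h1 h2
    refine ⟨fun z => repPoly r d b (φ z).1, repPoly_coeff_analyticAt (hφ1 hφ),
      fun z => natDegree_repPoly _ _ _ _, ?_, ?_⟩
    · obtain ⟨h3, h4, h5, h6⟩ := hφf.self_of_nhds
      exact (hrep s h3 h4 _ h5 h6).2.2.2.2
    · filter_upwards [hφf] with z hz
      obtain ⟨h3, h4, h5, h6⟩ := hz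
      obtain ⟨c, hc, -, -, h7⟩ := hprop z _ h5 h6
      exact ⟨c ^ d, pow_ne_zero _ hc, h7⟩
  -- the point `z₀`
  obtain ⟨hz₀0, hz₀1⟩ := (hmem z₀).mp hz₀
  obtain ⟨c₀, hc₀, hc₀1, hc₀2, hc₀3⟩ := hprop z₀ q₀ hq₀ hfz₀
  rw [repPoly_eq hb hF₀deg.le hF₀] at hc₀3
  have hcd : c₀ ^ d ≠ 0 := pow_ne_zero _ hc₀
  obtain ⟨j₀, hj₀⟩ : ∃ j₀, q₀.1 j₀ ≠ 0 := by
    by_contra hcon
    push Not at hcon
    exact hq₀ (funext hcon)
  -- the values at the nodes of the blocks do not vanish identically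
  have hJne : ∀ l, ∀ i ∈ Finset.univ.filter (fun i => β i = some l), ∀ s, 0 < ‖s‖ → ‖s‖ < 1 →
      ∀ᶠ w in 𝓝[≠] s, (F w).eval (τ i) ≠ 0 := by
    intro l i hi
    rcases eval_zero_or hlifts (τ i) with h | h
    · exfalso
      have h1 := (hrep z₀ hz₀0 hz₀1 (q z₀) (hq z₀) (hfq z₀)).2.2.1 l
      have h2 : ∏ i ∈ Finset.univ.filter (fun i => β i = some l),
          (repPoly r d b (q z₀).1).eval (τ i) = 0 := Finset.prod_eq_zero hi (h z₀ hz₀0 hz₀1)
      rw [h2, hc₀2 l] at h1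
      exact mul_ne_zero (pow_ne_zero _ hc₀) (hy₀ l) ((pow_eq_zero_iff (hk l).ne').mp h1)
    · exact h
  obtain ⟨ε, M, m, hε, hε1, hM, hgr⟩ := growth_ratio (Sum.elim t τ) hinj (r := r)
    (nodeWeight r d β k) (nodeWeight_nonneg r d β k) (nodeWeight_sum (ν := Fin (N + 1)) (by
      have h1 : (Fintype.card (Fin (N + 1)) : ℝ) = (N : ℝ) + 1 := by
        rw [Fintype.card_fin]
        push_cast
        ring
      rw [h1]
      exact hnum)) one_pos F (by
      intro s h1 h2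
      obtain ⟨φ, hφ, hφf⟩ := hlift s h1 h2
      have hs := hφf.self_of_nhds
      obtain ⟨hs1, hs2, hs3, hs4⟩ := hs
      have hs5 := hrep s hs1 hs2 _ hs3 hs4
      refine ⟨fun z => repPoly r d b (φ z).1, repPoly_coeff_analyticAt (hφ1 hφ),
        fun z => natDegree_repPoly _ _ _ _, hs5.2.2.2.2, ?_, ?_⟩
      · filter_upwards [hφf] with z hz
        obtain ⟨h3, h4, h5, h6⟩ := hz
        obtain ⟨c, hc, -, -, h7⟩ := hprop z _ h5 h6
        exact ⟨c ^ d, pow_ne_zero _ hc, h7⟩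
      · refine orbifold_an (x := fun j z => (φ z).1 j) (y := fun l z => (φ z).2 l) hd hτ hk
          (repPoly_coeff_analyticAt (hφ1 hφ)) (fun z => natDegree_repPoly _ _ _ _)
          hs5.2.2.2.2 (hφ1 hφ) ?_ hs5.2.2.2.1 (hφ2 hφ) ?_ ?_
        · filter_upwards [hφf] with z hz j
          obtain ⟨h3, h4, h5, h6⟩ := hz
          exact ((hrep z h3 h4 _ h5 h6).1 j).symm
        · intro l htop
          rw [analyticOrderAt_eq_top] at htop
          have h3 : ∀ᶠ w in 𝓝[≠] s,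
              ∀ i : {i // i ∈ Finset.univ.filter (fun i => β i = some l)},
              (F w).eval (τ i.1) ≠ 0 := eventually_all.mpr fun i => hJne l i.1 i.2 s h1 h2
          obtain ⟨w, h4, h5, h6, h7, h8, h9⟩ := (h3.and ((htop.filter_mono
            nhdsWithin_le_nhds).and (hφf.filter_mono nhdsWithin_le_nhds))).exists
          obtain ⟨c, hc, h10, h11, h12⟩ := hprop w _ h8 h9
          have h13 := (hrep w h6 h7 (q w) (hq w) (hfq w)).2.2.1 l
          have h14 : (φ w).2 l = 0 := h5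
          rw [h11 l, h14, mul_zero, zero_pow (hk l).ne'] at h13
          exact Finset.prod_ne_zero_iff.mpr (fun i hi => h4 ⟨i, hi⟩) h13.symm
        · filter_upwards [hφf] with z hz l
          obtain ⟨h3, h4, h5, h6⟩ := hz
          exact ((hrep z h3 h4 _ h5 h6).2.2.1 l).symm)
    hz₀0 hz₀1 (by rw [hc₀3, natDegree_C_mul hcd, hF₀deg]) (by
      rw [hc₀3]
      have hu : IsUnit (C (c₀ ^ d) : ℂ[X]) := isUnit_C.mpr (isUnit_iff_ne_zero.mpr hcd)
      refine (Associated.squarefree_iff ?_).mpr hF₀sq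
      exact associated_unit_mul_left _ _ hu) (Sum.inl j₀) ⟨z₀, hz₀0, hz₀1, by
      rw [hc₀3, eval_mul, eval_C, Sum.elim_inl, ← hF₀ j₀]
      exact mul_ne_zero hcd (pow_ne_zero _ hj₀)⟩
  refine exists_extension (M := max 1 M) (m := m) (j₀ := j₀) hk hf B hB ?_ hε hε1 ?_
  · intro z hz q hq hfz l
    obtain ⟨h1, h2⟩ := (hmem z).mp hz
    exact (hrep z h1 h2 q hq hfz).2.1 l
  · intro z h1 h2 q' hq' hfz
    have h3 : ‖z‖ < 1 := h2.trans_le hε1
    obtain ⟨h4, h5⟩ := hgr z h1 h2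
    obtain ⟨c, hc, h6, -, -⟩ := hprop z q' hq' hfz
    have hv : ∀ j, (F z).eval (Sum.elim t τ (Sum.inl j)) = (q z).1 j ^ d := fun j =>
      ((hrep z h1 h3 (q z) (hq z) (hfq z)).1 j).symm
    rw [hv j₀] at h4
    have h7 : (q z).1 j₀ ≠ 0 := fun h => h4 (by rw [h, zero_pow hd.ne'])
    have h8 : q'.1 j₀ ≠ 0 := fun h => h7 (by rw [h6 j₀, h, mul_zero])
    refine ⟨h8, fun j => ?_⟩
    have h9 := h5 (Sum.inl j)
    rw [hv j₀, hv j, ← div_pow, norm_pow] at h9
    have h10 : (q z).1 j / (q z).1 j₀ = q'.1 j / q'.1 j₀ := by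
      rw [h6 j, h6 j₀, mul_div_mul_left _ _ hc]
    rw [h10] at h9
    set ρ := ‖q'.1 j / q'.1 j₀‖ with hρ
    have hρ0 : 0 ≤ ρ := norm_nonneg _
    have hz0 : 0 ≤ ‖z‖ ^ m := pow_nonneg h1.le _
    have hz1 : ‖z‖ ^ m ≤ 1 := pow_le_one₀ h1.le h3.le
    rcases le_total ρ 1 with h | h
    · exact (mul_le_one₀ h hz0 hz1).trans (le_max_left _ _)
    · have h11 : ρ ≤ ρ ^ d := le_self_pow₀ h hd.ne'
      exact (mul_le_mul_of_nonneg_right h11 hz0).trans (h9.trans (le_max_right _ _))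

end Pool.Agent.H92.GGL
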