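import Pool.Agent.H92.GGL.PicardCore

/-!
# The values of a generically squarefree polynomial on a punctured disc
-/

open Polynomial Topology Filter

namespace Pool.Agent.H92.GGL

open Pool.Agent.H17

/-- **Growth of the ratios of the values.**  Let `F z` be polynomials of degree at most `r`,
locally proportional to polynomials with holomorphic coefficients without common zeros, such that
the values at the nodes `t i` satisfy an orbifold condition.  If some `F z₀` is squarefree of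
degree `r`, the ratios of the values have no essential singularity at the puncture. -/
theorem growth_ratio {G : Type} [Fintype G] [DecidableEq G] (t : G → ℂ)
    (ht : Function.Injective t) {r : ℕ} (θ : G → ℝ) (hθ0 : ∀ i, 0 ≤ θ i)
    (hnum : ∑ i, θ i + 2 * r < Fintype.card G) {R₀ : ℝ} (hR₀ : 0 < R₀) (F : ℂ → ℂ[X])
    (hF : ∀ s, 0 < ‖s‖ → ‖s‖ < R₀ → ∃ Φ : ℂ → ℂ[X],
      (∀ k, AnalyticAt ℂ (fun z => (Φ z).coeff k) s) ∧ (∀ z, (Φ z).natDegree ≤ r) ∧ Φ s ≠ 0 ∧
      (∀ᶠ z in 𝓝 s, ∃ c : ℂ, c ≠ 0 ∧ F z = C c * Φ z) ∧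
      ∑ i, indN (analyticOrderNatAt (fun z => (Φ z).eval (t i)) s) ≤
        ∑ i, θ i * analyticOrderNatAt (fun z => (Φ z).eval (t i)) s)
    {z₀ : ℂ} (hz₀ : 0 < ‖z₀‖) (hz₀' : ‖z₀‖ < R₀) (hdeg : (F z₀).natDegree = r)
    (hsq : Squarefree (F z₀)) (i₀ : G) (hi₀ : ∃ z, 0 < ‖z‖ ∧ ‖z‖ < R₀ ∧ (F z).eval (t i₀) ≠ 0) :
    ∃ (ε M : ℝ) (m : ℕ), 0 < ε ∧ ε ≤ R₀ ∧ 0 ≤ M ∧ ∀ z, 0 < ‖z‖ → ‖z‖ < ε →
      (F z).eval (t i₀) ≠ 0 ∧ ∀ i, ‖(F z).eval (t i) / (F z).eval (t i₀)‖ * ‖z‖ ^ m ≤ M := by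
  classical
  have hlifts : HasLifts r R₀ F := by
    intro s h1 h2
    obtain ⟨Φ, h3, h4, h5, h6, -⟩ := hF s h1 h2
    exact ⟨Φ, h3, h4, h5, h6⟩
  have hFz : ∀ z, 0 < ‖z‖ → ‖z‖ < R₀ → F z ≠ 0 ∧ (F z).natDegree ≤ r := by
    intro z h1 h2
    obtain ⟨Φ, -, h4, h5, h6⟩ := hlifts z h1 h2
    obtain ⟨c, hc, h7⟩ := h6.self_of_nhds
    rw [h7]
    refine ⟨mul_ne_zero (C_ne_zero.mpr hc) h5, ?_⟩
    rw [natDegree_C_mul hc]
    exact h4 z
  -- the fixed roots
  set A : Finset ℂ := (F z₀).roots.toFinset.filter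
    (fun a => ∀ z, 0 < ‖z‖ → ‖z‖ < R₀ → (F z).eval a = 0) with hAdef
  have hA : ∀ a, a ∈ A ↔ ∀ z, 0 < ‖z‖ → ‖z‖ < R₀ → (F z).eval a = 0 := by
    intro a
    rw [hAdef, Finset.mem_filter, Multiset.mem_toFinset, mem_roots (hFz z₀ hz₀ hz₀').1]
    exact ⟨fun h => h.2, fun h => ⟨h z₀ hz₀ hz₀', h⟩⟩
  have hAcard : A.card ≤ r := by
    calc A.card ≤ (F z₀).roots.toFinset.card := Finset.card_le_card (Finset.filter_subset _ _)
      _ ≤ Multiset.card (F z₀).roots := Multiset.toFinset_card_le _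
      _ ≤ (F z₀).natDegree := card_roots' _
      _ = r := hdeg
  set ρ : ℕ := r - A.card with hρdef
  set D : ℂ[X] := Lagrange.nodal A id with hD
  have hD0 : D ≠ 0 := Lagrange.nodal_ne_zero
  have hDdeg : D.natDegree = A.card := Lagrange.natDegree_nodal
  -- the good nodes
  set G' : Type := {i : G // t i ∉ A} with hG'
  set t' : G' → ℂ := fun i => t i.1 with ht'def
  have ht' : Function.Injective t' := fun i j h => Subtype.ext (ht h)
  have hDt : ∀ i : G', D.eval (t' i) ≠ 0 := fun i => nodal_eval_ne_zero i.2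
  have hBcard : (Finset.univ.filter fun i => t i ∈ A).card ≤ A.card := by
    refine Finset.card_le_card_of_injOn t ?_ (ht.injOn)
    intro i hi
    exact (Finset.mem_filter.mp hi).2
  have hcard' : Fintype.card G' = Fintype.card G - (Finset.univ.filter fun i => t i ∈ A).card := by
    have h1 : Fintype.card {i : G // t i ∉ A} =
        Fintype.card G - (Finset.univ.filter fun i => t i ∈ A).card := by
      rw [Fintype.card_subtype_compl, Fintype.card_subtype]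
    exact h1
  have hBle : (Finset.univ.filter fun i => t i ∈ A).card ≤ Fintype.card G := Finset.card_le_univ _
  have hsumle : ∑ i : G', θ i.1 ≤ ∑ i, θ i := by
    have h1 : ∑ i : G', θ i.1 = ∑ i ∈ Finset.univ.filter (fun i => t i ∉ A), θ i :=
      (Finset.sum_subtype (Finset.univ.filter fun i => t i ∉ A) (by simp) θ).symm
    rw [h1]
    exact Finset.sum_le_sum_of_subset_of_nonneg (Finset.filter_subset _ _) fun i _ _ => hθ0 i
  have hnum' : ∑ i : G', θ i.1 + 2 * (ρ : ℝ) < Fintype.card G' := by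
    have h1 : (ρ : ℝ) = r - A.card := by
      rw [hρdef, Nat.cast_sub hAcard]
    have h2 : (Fintype.card G : ℝ) - A.card ≤ Fintype.card G' := by
      rw [hcard', Nat.cast_sub hBle]
      have : ((Finset.univ.filter fun i => t i ∈ A).card : ℝ) ≤ A.card := by exact_mod_cast hBcard
      linarith
    have h3 : (0 : ℝ) ≤ A.card := Nat.cast_nonneg _
    linarith
  have hi₀A : t i₀ ∉ A := by
    obtain ⟨z, h1, h2, h3⟩ := hi₀
    exact fun h => h3 ((hA _).mp h z h1 h2)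
  set i₁ : G' := ⟨i₀, hi₀A⟩ with hi₁
  have hgen : ∀ (i : G') s, 0 < ‖s‖ → ‖s‖ < R₀ → ∀ᶠ w in 𝓝[≠] s, (F w).eval (t' i) ≠ 0 := by
    intro i
    rcases eval_zero_or hlifts (t' i) with h | h
    · exact absurd ((hA _).mpr h) i.2
    · exact h
  -- the ratios
  set u : G' → ℂ → ℂ := fun i z => ((F z).eval (t' i) / D.eval (t' i)) /
    ((F z).eval (t' i₁) / D.eval (t' i₁)) with hu
  have hone : ∀ z, u i₁ z ≠ 0 → u i₁ z = 1 := by
    intro z hz
    simp only [hu] at hz ⊢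
    rw [div_self]
    intro h
    rw [h, div_zero] at hz
    exact hz rfl
  have hΩ : ∀ s, 0 < ‖s‖ → ‖s‖ < R₀ → ∀ᶠ z in 𝓝 s, 0 < ‖z‖ ∧ ‖z‖ < R₀ := fun s h1 h2 =>
    (isOpen_punctured R₀).mem_nhds ⟨h1, h2⟩
  -- local lifts
  have hloc : ∀ s, 0 < ‖s‖ → ‖s‖ < R₀ → ∃ ψ : G' → ℂ → ℂ,
      LocalLift t' ρ (fun i => θ i.1) u i₁ s ψ ∧
      ∀ᶠ z in 𝓝 s, ∀ p : ℂ[X], p.natDegree ≤ ρ → (∀ i, p.eval (t' i) = ψ i z) →
        ∃ c : ℂ, c ≠ 0 ∧ F z = C c * (D * p) := by
    intro s h1 h2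
    obtain ⟨Φ, hΦ, hΦr, hΦs, hFΦ, horb⟩ := hF s h1 h2
    have han : ∀ a, AnalyticAt ℂ (fun z => (Φ z).eval a) s := eval_analyticAt hΦ hΦr
    set ψ : G' → ℂ → ℂ := fun i z => (Φ z).eval (t' i) / D.eval (t' i) with hψ
    have hψan : ∀ i, AnalyticAt ℂ (ψ i) s := fun i =>
      (han _).div analyticAt_const (hDt i)
    -- the quotient polynomial
    have hquot : ∀ᶠ z in 𝓝 s, ∃ p : ℂ[X], p.natDegree ≤ ρ ∧ Φ z = D * p := by
      filter_upwards [hFΦ, hΩ s h1 h2] with z h3 h4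
      obtain ⟨c, hc, h5⟩ := h3
      obtain ⟨p, h6, h7⟩ := exists_eq_nodal_mul (A := A) (Ψ := Φ z) (r := r) (by
        intro a ha
        have h8 := (hA a).mp ha z h4.1 h4.2
        rw [h5, eval_mul, eval_C] at h8
        exact (mul_eq_zero.mp h8).resolve_left hc) (hΦr z)
      exact ⟨p, h7, h6⟩
    have hval : ∀ z (p : ℂ[X]), Φ z = D * p → ∀ i, p.eval (t' i) = ψ i z := by
      intro z p h3 i
      simp only [hψ]
      rw [h3, eval_mul, mul_div_cancel_left₀ _ (hDt i)]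
    have hr' : ρ < Fintype.card G' := by
      have h3 : (0 : ℝ) ≤ ∑ i : G', θ i.1 := Finset.sum_nonneg fun i _ => hθ0 _
      have h4 : (0 : ℝ) ≤ ρ := Nat.cast_nonneg _
      have h5 : (ρ : ℝ) < Fintype.card G' := by linarith
      exact_mod_cast h5
    have huniq : ∀ p q : ℂ[X], p.natDegree ≤ ρ → q.natDegree ≤ ρ →
        (∀ i, p.eval (t' i) = q.eval (t' i)) → p = q := by
      intro p q hp hq hpq
      rw [← sub_eq_zero]
      refine eq_zero_of_natDegree_lt_card_of_eval_eq_zero _ ht' (fun i => ?_) ?_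
      · rw [eval_sub, hpq, sub_self]
      · have := natDegree_sub_le p q
        omega
    refine ⟨ψ, ⟨hψan, ?_, ?_, ?_, ?_, ?_⟩, ?_⟩
    · -- generic non-vanishing
      intro i
      filter_upwards [hgen i s h1 h2, mem_nhdsWithin_of_mem_nhds hFΦ] with z h3 h4
      obtain ⟨c, hc, h5⟩ := h4
      rw [h5, eval_mul] at h3
      exact div_ne_zero (right_ne_zero_of_mul h3) (hDt i)
    · filter_upwards [hFΦ] with z h3 i
      obtain ⟨c, hc, h5⟩ := h3
      simp only [hu, hψ]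
      rw [h5]
      simp only [eval_mul, eval_C]
      rw [mul_div_assoc c ((Φ z).eval (t' i)), mul_div_assoc c ((Φ z).eval (t' i₁)),
        mul_div_mul_left _ _ hc]
    · filter_upwards [hquot] with z hz
      obtain ⟨p, h3, h4⟩ := hz
      exact ⟨p, h3, hval z p h4⟩
    · obtain ⟨p, h3, h4⟩ := hquot.self_of_nhds
      by_contra hcon
      push Not at hcon
      apply hΦs
      have h5 : p = 0 := huniq p 0 h3 (by simp) fun i => by
        rw [hval s p h4, hcon i, eval_zero]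
      rw [h4, h5, mul_zero]
    · -- the orbifold condition
      have h3 : ∀ i : G', analyticOrderNatAt (ψ i) s =
          analyticOrderNatAt (fun z => (Φ z).eval (t i.1)) s := by
        intro i
        unfold analyticOrderNatAt
        have h4 : ψ i = (fun z => (Φ z).eval (t i.1)) * fun _ => (D.eval (t' i))⁻¹ := by
          funext z
          simp only [hψ, Pi.mul_apply]
          rw [div_eq_mul_inv]
        rw [h4, analyticOrderAt_mul (han _) analyticAt_const]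
        have h5 : analyticOrderAt (fun _ : ℂ => (D.eval (t' i))⁻¹) s = 0 :=
          (analyticAt_const).analyticOrderAt_eq_zero.mpr (inv_ne_zero (hDt i))
        rw [h5, add_zero]
      have h4 : ∀ i : G, t i ∈ A → analyticOrderNatAt (fun z => (Φ z).eval (t i)) s = 0 := by
        intro i hi
        have h5 : analyticOrderAt (fun z => (Φ z).eval (t i)) s = ⊤ := by
          rw [analyticOrderAt_eq_top]
          filter_upwards [hFΦ, hΩ s h1 h2] with z h6 h7
          obtain ⟨c, hc, h8⟩ := h6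
          have h9 := (hA _).mp hi z h7.1 h7.2
          rw [h8, eval_mul, eval_C] at h9
          exact (mul_eq_zero.mp h9).resolve_left hc
        unfold analyticOrderNatAt
        rw [h5]
        rfl
      have h5 : ∀ x : G → ℝ, (∀ i, t i ∈ A → x i = 0) → ∑ i : G', x i.1 = ∑ i, x i := by
        intro x hx
        have h6 : ∑ i : G', x i.1 = ∑ i ∈ Finset.univ.filter (fun i => t i ∉ A), x i :=
          (Finset.sum_subtype (Finset.univ.filter fun i => t i ∉ A) (by simp) x).symm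
        rw [h6]
        refine Finset.sum_subset (Finset.filter_subset _ _) fun i _ hi => hx i ?_
        by_contra h7
        exact hi (Finset.mem_filter.mpr ⟨Finset.mem_univ _, h7⟩)
      simp only [h3]
      rw [h5 (fun i => indN (analyticOrderNatAt (fun z => (Φ z).eval (t i)) s)) fun i hi => by
          rw [h4 i hi, indN_zero],
        h5 (fun i => θ i * (analyticOrderNatAt (fun z => (Φ z).eval (t i)) s : ℝ)) fun i hi => by
          rw [h4 i hi, Nat.cast_zero, mul_zero]]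
      exact horb
    · filter_upwards [hquot, hFΦ] with z h3 h4 p hp hp'
      obtain ⟨q, hq, h5⟩ := h3
      obtain ⟨c, hc, h6⟩ := h4
      have h7 : p = q := huniq p q hp hq fun i => by rw [hp', hval z q h5]
      exact ⟨c, hc, by rw [h7, ← h5, h6]⟩
  -- the relation of `u` with the ratios
  have hratio : ∀ z (i : G'), (F z).eval (t' i) / (F z).eval (t' i₁) =
      u i z * (D.eval (t' i) / D.eval (t' i₁)) := by
    intro z i
    simp only [hu]
    have h1 := hDt i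
    have h2 := hDt i₁
    by_cases h3 : (F z).eval (t' i₁) = 0
    · rw [h3]
      simp
    · field_simp
  -- the case without moving roots
  rcases Nat.eq_zero_or_pos ρ with hρ0 | hρpos
  · have hFD : ∀ z, 0 < ‖z‖ → ‖z‖ < R₀ → ∃ c : ℂ, c ≠ 0 ∧ F z = C c * D := by
      intro z h1 h2
      obtain ⟨ψ, hψ, h3⟩ := hloc z h1 h2
      obtain ⟨p, hp, hp'⟩ := hψ.poly.self_of_nhds
      obtain ⟨c, hc, h4⟩ := h3.self_of_nhds p hp hp'
      rw [hρ0] at hp
      obtain ⟨b, hb⟩ : ∃ b, p = C b := ⟨p.coeff 0, eq_C_of_natDegree_le_zero hp⟩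
      have hb0 : b ≠ 0 := by
        rintro rfl
        apply (hFz z h1 h2).1
        rw [h4, hb]
        simp
      refine ⟨c * b, mul_ne_zero hc hb0, ?_⟩
      rw [h4, hb, C_mul]
      ring
    refine ⟨R₀, ∑ i, ‖D.eval (t i) / D.eval (t i₀)‖, 0, hR₀, le_rfl, Finset.sum_nonneg fun i _ =>
      norm_nonneg _, fun z h1 h2 => ?_⟩
    obtain ⟨c, hc, h3⟩ := hFD z h1 h2
    rw [h3]
    constructor
    · rw [eval_mul, eval_C]
      exact mul_ne_zero hc (hDt i₁)
    · intro i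
      simp only [eval_mul, eval_C]
      rw [mul_div_mul_left _ _ hc, pow_zero, mul_one]
      exact Finset.single_le_sum (f := fun i => ‖D.eval (t i) / D.eval (t i₀)‖)
        (fun i _ => norm_nonneg _) (Finset.mem_univ i)
  -- the main case
  obtain ⟨ψ₀, hψ₀, hψ₀F⟩ := hloc z₀ hz₀ hz₀'
  have hsq' : ∃ p : ℂ[X], p.natDegree = ρ ∧ Squarefree p ∧ ∀ i, p.eval (t' i) = ψ₀ i z₀ := by
    obtain ⟨p, hp, hp'⟩ := hψ₀.poly.self_of_nhds
    obtain ⟨c, hc, h4⟩ := hψ₀F.self_of_nhds p hp hp'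
    have hp0 : p ≠ 0 := by
      rintro rfl
      apply (hFz z₀ hz₀ hz₀').1
      rw [h4]
      simp
    refine ⟨p, ?_, ?_, hp'⟩
    · have h5 : (F z₀).natDegree = D.natDegree + p.natDegree := by
        rw [h4, natDegree_C_mul hc, natDegree_mul hD0 hp0]
      rw [hdeg, hDdeg] at h5
      omega
    · refine hsq.squarefree_of_dvd ?_
      rw [h4]
      exact Dvd.intro_left (C c * D) (by ring)
  have hconst : ∀ a : ℂ, ¬ ∀ᶠ z in 𝓝 z₀, ∃ p : ℂ[X], p.natDegree ≤ ρ ∧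
      (∀ i, p.eval (t' i) = ψ₀ i z) ∧ p.eval a = 0 := by
    intro a ha
    have h1 : a ∈ A := by
      rw [hA]
      rcases eval_zero_or hlifts a with h | h
      · exact h
      · exfalso
        obtain ⟨z, h2, ⟨p, hp, hp', hpa⟩, h3⟩ := ((h z₀ hz₀ hz₀').and
          ((ha.filter_mono nhdsWithin_le_nhds).and
            (hψ₀F.filter_mono nhdsWithin_le_nhds))).exists
        obtain ⟨c, hc, h4⟩ := h3 p hp hp'
        apply h2
        rw [h4, eval_mul, eval_mul, hpa, mul_zero, mul_zero]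
    obtain ⟨p, hp, hp', hpa⟩ := ha.self_of_nhds
    obtain ⟨c, hc, h4⟩ := hψ₀F.self_of_nhds p hp hp'
    -- `a` is a double root
    have h5 : X - C a ∣ D := by
      rw [hD, Lagrange.nodal_eq]
      exact Finset.dvd_prod_of_mem (fun a => X - C (id a)) h1
    have h6 : X - C a ∣ p := dvd_iff_isRoot.mpr hpa
    have h7 : (X - C a) * (X - C a) ∣ F z₀ := by
      rw [h4]
      exact Dvd.dvd.mul_left (mul_dvd_mul h5 h6) _
    exact not_isUnit_X_sub_C a (hsq _ h7)
  have hgrow := fun j => growth_core (u := u) (i₀ := i₁) (θ := fun i : G' => θ i.1) (ρ := ρ)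
    ht' hρpos (fun i => hθ0 _) hnum' hR₀ hone
    (fun s h1 h2 => (hloc s h1 h2).imp fun ψ h => h.1) hz₀ hz₀' hψ₀ hsq' hconst j
  choose ε M m hε hM hgr using hgrow
  obtain ⟨ε', hε', hε'1, hε'2⟩ : ∃ ε' : ℝ, 0 < ε' ∧ (∀ i, ε' ≤ ε i) ∧ ε' ≤ min R₀ 1 := by
    obtain ⟨j, -, hj⟩ := (Finset.univ : Finset G').exists_min_image ε ⟨i₁, Finset.mem_univ _⟩
    refine ⟨min (ε j) (min R₀ 1), lt_min (hε j) (lt_min hR₀ one_pos), fun i => ?_, min_le_right _ _⟩
    exact (min_le_left _ _).trans (hj i (Finset.mem_univ i))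
  obtain ⟨m', hm'⟩ : ∃ m' : ℕ, ∀ i, m i ≤ m' :=
    ⟨∑ i, m i, fun i => Finset.single_le_sum (f := m) (fun _ _ => Nat.zero_le _)
      (Finset.mem_univ i)⟩
  refine ⟨ε', ∑ i, M i * ‖D.eval (t' i) / D.eval (t' i₁)‖, m', hε', hε'2.trans (min_le_left _ _),
    Finset.sum_nonneg fun i _ => mul_nonneg (hM i) (norm_nonneg _), fun z h1 h2 => ?_⟩
  have hzR : ‖z‖ < R₀ := h2.trans_le (hε'2.trans (min_le_left _ _))
  have hz1 : ‖z‖ ≤ 1 := (h2.trans_le (hε'2.trans (min_le_right _ _))).le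
  obtain ⟨ψ, hψ, hψF⟩ := hloc z h1 hzR
  have hnonneg : ∀ i, 0 ≤ meromorphicOrderAt (u i) z := fun i =>
    (hgr i z h1 (h2.trans_le (hε'1 i))).1
  -- the base value does not vanish
  have hψ1 : ψ i₁ z ≠ 0 := by
    intro h0
    obtain ⟨j, hj⟩ := hψ.ne0
    have h3 := hψ.ordZ_eq j
    have h4 : analyticOrderNatAt (ψ j) z = 0 := by
      unfold analyticOrderNatAt
      rw [(hψ.an j).analyticOrderAt_eq_zero.mpr hj]
      rfl
    have h5 : analyticOrderNatAt (ψ i₁) z ≠ 0 := by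
      intro h6
      have h7 := hψ.order_eq i₁
      rw [h6] at h7
      exact (hψ.an i₁).analyticOrderAt_eq_zero.mp h7.symm h0
    have h6 : 0 ≤ ordZ (u j) z := by
      have h7 := hnonneg j
      rw [← ordZ_cast (hψ.order_ne_top j)] at h7
      exact_mod_cast h7
    rw [h3, h4] at h6
    omega
  have hF1 : (F z).eval (t' i₁) ≠ 0 := by
    obtain ⟨p, hp, hp'⟩ := hψ.poly.self_of_nhds
    obtain ⟨c, hc, h4⟩ := hψF.self_of_nhds p hp hp'
    rw [h4, eval_mul, eval_mul, eval_C, hp']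
    exact mul_ne_zero hc (mul_ne_zero (hDt i₁) hψ1)
  refine ⟨hF1, fun i => ?_⟩
  by_cases hi : t i ∈ A
  · rw [(hA _).mp hi z h1 hzR, zero_div, norm_zero, zero_mul]
    exact Finset.sum_nonneg fun i _ => mul_nonneg (hM i) (norm_nonneg _)
  · have h3 := hratio z ⟨i, hi⟩
    have h4 : (F z).eval (t i) / (F z).eval (t i₀) =
        u ⟨i, hi⟩ z * (D.eval (t' ⟨i, hi⟩) / D.eval (t' i₁)) := h3
    have huan : AnalyticAt ℂ (u ⟨i, hi⟩) z := by
      refine ((hψ.an ⟨i, hi⟩).div (hψ.an i₁) hψ1).congr ?_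
      filter_upwards [hψ.quot] with w hw
      exact (hw ⟨i, hi⟩).symm
    have h5 := (hgr ⟨i, hi⟩ z h1 (h2.trans_le (hε'1 _))).2 huan
    rw [h4, norm_mul]
    have h6 : ‖z‖ ^ m' ≤ ‖z‖ ^ m ⟨i, hi⟩ := pow_le_pow_of_le_one h1.le hz1 (hm' _)
    calc ‖u ⟨i, hi⟩ z‖ * ‖D.eval (t' ⟨i, hi⟩) / D.eval (t' i₁)‖ * ‖z‖ ^ m'
        ≤ ‖u ⟨i, hi⟩ z‖ * ‖D.eval (t' ⟨i, hi⟩) / D.eval (t' i₁)‖ * ‖z‖ ^ m ⟨i, hi⟩ := by gcongr
      _ = (‖u ⟨i, hi⟩ z‖ * ‖z‖ ^ m ⟨i, hi⟩) * ‖D.eval (t' ⟨i, hi⟩) / D.eval (t' i₁)‖ := by ring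
      _ ≤ M ⟨i, hi⟩ * ‖D.eval (t' ⟨i, hi⟩) / D.eval (t' i₁)‖ := by gcongr
      _ ≤ _ := Finset.single_le_sum (f := fun i : G' => M i * ‖D.eval (t' i) / D.eval (t' i₁)‖)
        (fun i _ => mul_nonneg (hM i) (norm_nonneg _)) (Finset.mem_univ _)

end Pool.Agent.H92.GGL
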